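import Pool.Agent.HopfCov.Basic

/-!
# Statements of the third round of packages of the library `HopfCov` (owner helper45)
-/

set_option autoImplicit false

open scoped ContDiff Topology Manifold
open Set Filter Metric

namespace Pool.Agent.HopfCov

/-- HC9: a connected covering with `m` sheets of the orbit space of `g` is the orbit space
of `g ^ m` -/
def SpecCover : Prop :=
  ∀ (g : V4 ≃ₜ V4) (M : Type) [TopologicalSpace M] [ChartedSpace E4 M] [IsManifold (𝓡 4) ∞ M]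
    [T2Space M] [CompactSpace M] (p : V4 → M), OrbitMap g p →
    ∀ (N : Type) [TopologicalSpace N] [ChartedSpace E4 N] [IsManifold (𝓡 4) ∞ N]
      [ConnectedSpace N] (q : N → M), IsCoveringMap q → IsLocalDiffeomorph (𝓡 4) (𝓡 4) ∞ q →
    ∀ m : ℕ, 0 < m → (∀ y : M, (q ⁻¹' {y}).ncard = m) →
    ∃ p' : V4 → N, OrbitMap (g ^ m) p' ∧ ∀ x, q (p' x) = p x

/-- the twisted product `S¹ ×~ S³` of the frozen statement `S13347` -/
abbrev Twisted : Type := {p : ℂ × ℂ × EuclideanSpace ℝ (Fin 3) //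
  ‖p.1‖ = 1 ∧ p.2.1 ^ 2 = ((‖p.2.1‖ ^ 2 : ℝ) : ℂ) * p.1 ∧ ‖p.2.1‖ ^ 2 + ‖p.2.2‖ ^ 2 = 1}

/-- HC10a: if `M` is homeomorphic to `S¹ × S³` then every covering `ℝ⁴ ∖ 0 → M` has an infinite
cyclic deck group -/
def SpecDeck : Prop :=
  ∀ (M : Type) [TopologicalSpace M], Nonempty (M ≃ₜ Circle × sphere (0 : E4) 1) →
    ∀ p : V4 → M, IsCoveringMap p →
    Function.Surjective p ∧ ∃ g : V4 ≃ₜ V4, ∀ x y : V4, p x = p y ↔ ∃ n : ℤ, y = (g ^ n) x

/-- HC10b: the same for the twisted product -/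
def SpecDeckTwisted : Prop :=
  ∀ (M : Type) [TopologicalSpace M], Nonempty (M ≃ₜ Twisted) →
    ∀ p : V4 → M, IsCoveringMap p →
    Function.Surjective p ∧ ∃ g : V4 ≃ₜ V4, ∀ x y : V4, p x = p y ↔ ∃ n : ℤ, y = (g ^ n) x

end Pool.Agent.HopfCov
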