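import Pool.Agent.HopfCov.Spec2

/-!
# Deck transformations are local diffeomorphisms; the sign of the Jacobian determinant
-/

set_option autoImplicit false

open scoped ContDiff Topology Manifold
open Set Filter Metric

namespace Pool.Agent.HopfCov

private theorem locDiff_congr {f f' : V4 → V4} {x : V4}
    (h : IsLocalDiffeomorphAt (𝓡 4) (𝓡 4) ∞ f x) (hff : f' =ᶠ[𝓝 x] f) :
    IsLocalDiffeomorphAt (𝓡 4) (𝓡 4) ∞ f' x := by
  obtain ⟨Φ, hx, hΦ⟩ := h
  obtain ⟨U, hU, hUo, hxU⟩ := _root_.eventually_nhds_iff.1 hff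
  refine ⟨{ toPartialEquiv := (Φ.toOpenPartialHomeomorph.restrOpen U hUo).toPartialEquiv
            open_source := (Φ.toOpenPartialHomeomorph.restrOpen U hUo).open_source
            open_target := (Φ.toOpenPartialHomeomorph.restrOpen U hUo).open_target
            contMDiffOn_toFun := Φ.contMDiffOn_toFun.mono ?_
            contMDiffOn_invFun := Φ.contMDiffOn_invFun.mono ?_ }, ?_, ?_⟩
  · intro y hy; exact hy.1
  · intro y hy; exact hy.1
  · exact ⟨hx, hxU⟩
  · intro y hy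
    exact (hU y hy.2).trans (hΦ hy.1)

/-- HC7a: deck transformations are local diffeomorphisms. -/
theorem orbitLoc : SpecOrbitLoc := by
  intro g M _ _ _ p hp x
  have h0 : ∀ y, p (g y) = p y := fun y => ((hp.fib y (g y)).2 ⟨1, by rw [zpow_one]⟩).symm
  have hl := hp.loc (g x)
  have h1 : IsLocalDiffeomorphAt (𝓡 4) (𝓡 4) ∞ hl.localInverse (p x) := by
    rw [← h0 x]
    exact hl.localInverse_isLocalDiffeomorphAt
  have h2 : IsLocalDiffeomorphAt (𝓡 4) (𝓡 4) ∞ (hl.localInverse ∘ p) x :=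
    (hp.loc x).comp (K := 𝓡 4) (hg := h1)
  refine locDiff_congr h2 ?_
  have h3 : ∀ᶠ y in 𝓝 x, g y ∈ hl.localInverse.target :=
    g.continuous.continuousAt (hl.localInverse.open_target.mem_nhds hl.localInverse_mem_target)
  filter_upwards [h3] with y hy
  show g y = hl.localInverse (p y)
  rw [← h0 y]
  exact (hl.localInverse_left_inv hy).symm

private theorem contDiffAt_of {H : E4 → E4} {Ψ : V4 → V4} (hH : ∀ x : V4, H x = Ψ x) {x : V4}
    (h : ContMDiffAt (𝓡 4) (𝓡 4) ∞ Ψ x) : ContDiffAt ℝ ∞ H (x : E4) := by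
  have h1 : ContMDiffAt (𝓡 4) 𝓘(ℝ, E4) ∞ (fun y : V4 => (Ψ y : E4)) x :=
    (contMDiff_subtype_val (Ψ x)).comp x h
  have h2 : ContMDiffAt (𝓡 4) 𝓘(ℝ, E4) ∞ (fun y : V4 => H y) x := by
    have h3 : (fun y : V4 => H y) = fun y : V4 => (Ψ y : E4) := funext hH
    rw [h3]
    exact h1
  exact (contMDiffAt_subtype_iff.1 h2).contDiffAt

private theorem contMDiffAt_inv {Ψ : V4 ≃ₜ V4} {x : V4}
    (h : IsLocalDiffeomorphAt (𝓡 4) (𝓡 4) ∞ Ψ x) :
    ContMDiffAt (𝓡 4) (𝓡 4) ∞ (Ψ⁻¹ : V4 ≃ₜ V4) (Ψ x) := by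
  have h1 := h.localInverse_contMDiffAt
  refine h1.congr_of_eventuallyEq ?_
  filter_upwards [h.localInverse_open_source.mem_nhds h.localInverse_mem_source] with y hy
  have h2 := h.localInverse_right_inv hy
  show Ψ.symm y = _
  rw [Homeomorph.symm_apply_eq]
  exact h2.symm

/-- HC7b: a homeomorphism which extends a diffeomorphism of the punctured space is a punctured
diffeomorphism with constant sign. -/
theorem pd : SpecPD := by
  intro Ψ hΨ H H0 hH
  have hinv : ∀ y : V4, (H⁻¹ : E4 ≃ₜ E4) (y : E4) = ((Ψ⁻¹ : V4 ≃ₜ V4) y : E4) := by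
    intro y
    show H.symm (y : E4) = (Ψ.symm y : E4)
    rw [Homeomorph.symm_apply_eq, hH, Homeomorph.apply_symm_apply]
  have hd : ∀ x : E4, x ≠ 0 → ContDiffAt ℝ ∞ H x := fun x hx =>
    contDiffAt_of (Ψ := Ψ) (x := ⟨x, hx⟩) hH (hΨ ⟨x, hx⟩).contMDiffAt
  have hdet : ∀ x : E4, x ≠ 0 → (fderiv ℝ H x).det ≠ 0 := by
    intro x hx h0
    have h1 : ContDiffAt ℝ ∞ (H⁻¹ : E4 ≃ₜ E4) (H x) := by
      have h2 := contDiffAt_of (Ψ := (Ψ⁻¹ : V4 ≃ₜ V4)) (x := Ψ ⟨x, hx⟩) hinv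
        (contMDiffAt_inv (hΨ ⟨x, hx⟩))
      rwa [← hH] at h2
    have hcomp : HasFDerivAt (fun y => (H⁻¹ : E4 ≃ₜ E4) (H y))
        ((fderiv ℝ (H⁻¹ : E4 ≃ₜ E4) (H x)).comp (fderiv ℝ H x)) x :=
      ((h1.differentiableAt (by simp)).hasFDerivAt).comp x
        ((hd x hx).differentiableAt (by simp)).hasFDerivAt
    have hid : (fun y => (H⁻¹ : E4 ≃ₜ E4) (H y)) = fun y => y :=
      funext fun y => H.symm_apply_apply y
    have hcomp' := hcomp.fderiv
    rw [hid] at hcomp'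
    have hdd : (1 : ℝ) = (fderiv ℝ (H⁻¹ : E4 ≃ₜ E4) (H x)).det * (fderiv ℝ H x).det := by
      rw [← det_comp_clm, ← hcomp', fderiv_fun_id]
      simp [ContinuousLinearMap.det]
    rw [h0, mul_zero] at hdd
    exact one_ne_zero hdd
  have hcont : ContinuousOn (fun x : E4 => (fderiv ℝ H x).det) {0}ᶜ := by
    have h1 : ContDiffOn ℝ ∞ H {0}ᶜ := fun x hx => (hd x hx).contDiffWithinAt
    exact ContinuousLinearMap.continuous_det.comp_continuousOn
      (h1.continuousOn_fderiv_of_isOpen isOpen_compl_singleton (by simp))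
  have hconn : IsPreconnected ({0}ᶜ : Set E4) := by
    refine (isConnected_compl_singleton_of_one_lt_rank ?_ 0).isPreconnected
    rw [rank_eq_card_basis (EuclideanSpace.basisFun (Fin 4) ℝ).toBasis]
    simp
  have hne : ∃ x₀ : E4, x₀ ≠ 0 := exists_ne 0
  obtain ⟨x₀, hx₀⟩ := hne
  rcases lt_or_gt_of_ne (hdet x₀ hx₀) with h | h
  · refine Or.inr ⟨H0, fun x hx => ⟨hd x hx, ?_⟩⟩
    have h1 : (fderiv ℝ H x).det < 0 := by
      by_contra hcon
      obtain ⟨y, hy, hy0⟩ := hconn.intermediate_value hx₀ hx hcont ⟨h.le, not_lt.1 hcon⟩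
      exact hdet y hy hy0
    linarith
  · refine Or.inl ⟨H0, fun x hx => ⟨hd x hx, ?_⟩⟩
    have h1 : 0 < (fderiv ℝ H x).det := by
      by_contra hcon
      obtain ⟨y, hy, hy0⟩ := hconn.intermediate_value hx hx₀ hcont ⟨not_lt.1 hcon, h.le⟩
      exact hdet y hy hy0
    linarith

end Pool.Agent.HopfCov
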