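import Pool.Agent.HopfCov.Spec2

/-!
# Restriction of a homeomorphism to the punctured space
-/

set_option autoImplicit false

open scoped ContDiff Topology Manifold
open Set Filter Metric

namespace Pool.Agent.HopfCov

private theorem ne_of {H : E4 ≃ₜ E4} (h0 : H 0 = 0) {x : E4} (hx : x ≠ 0) : H x ≠ 0 := by
  intro h
  exact hx (H.injective (h.trans h0.symm))

private theorem symm_zero {H : E4 ≃ₜ E4} (h0 : H 0 = 0) : H.symm 0 = 0 := by
  rw [Homeomorph.symm_apply_eq, h0]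

/-- The restriction of a homeomorphism fixing the origin. -/
private def res (H : E4 ≃ₜ E4) (h0 : H 0 = 0) : V4 ≃ₜ V4 where
  toFun x := ⟨H x, ne_of h0 x.2⟩
  invFun x := ⟨H.symm x, ne_of (symm_zero h0) x.2⟩
  left_inv x := Subtype.ext (H.symm_apply_apply x)
  right_inv x := Subtype.ext (H.apply_symm_apply x)
  continuous_toFun := (H.continuous.comp continuous_subtype_val).subtype_mk _
  continuous_invFun := (H.symm.continuous.comp continuous_subtype_val).subtype_mk _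

private theorem contMDiffAt_res {H : E4 ≃ₜ E4} (h0 : H 0 = 0) {x : V4}
    (h : ContDiffAt ℝ ∞ H (x : E4)) : ContMDiffAt (𝓡 4) (𝓡 4) ∞ (res H h0) x := by
  rw [← ContMDiffAt.subtypeVal_comp_iff]
  have h1 : ContMDiffAt (𝓡 4) 𝓘(ℝ, E4) ∞ (fun y : V4 => H y) x :=
    contMDiffAt_subtype_iff.2 h.contMDiffAt
  exact h1

/-- restriction to the punctured space -/
theorem restr_gen (H : E4 ≃ₜ E4) (h0 : H 0 = 0) : ∃ Ψ : V4 ≃ₜ V4, (∀ x : V4, (Ψ x : E4) = H x) ∧
    (∀ x : V4, ((Ψ⁻¹ : V4 ≃ₜ V4) x : E4) = (H⁻¹ : E4 ≃ₜ E4) x) ∧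
    ∀ (s : ℝ) (x : V4), (∀ᶠ y in 𝓝 (x : E4), LD s H y) →
      IsLocalDiffeomorphAt (𝓡 4) (𝓡 4) ∞ Ψ x := by
  refine ⟨res H h0, fun _ => rfl, fun _ => rfl, fun s x hx => ?_⟩
  obtain ⟨U, hU, hUo, hxU⟩ := _root_.eventually_nhds_iff.1 hx
  have hS : IsOpen {y : V4 | (y : E4) ∈ U} := hUo.preimage continuous_subtype_val
  let P := (res H h0).toOpenPartialHomeomorph.restrOpen {y : V4 | (y : E4) ∈ U} hS
  refine ⟨{ toPartialEquiv := P.toPartialEquiv
            open_source := P.open_source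
            open_target := P.open_target
            contMDiffOn_toFun := ?_
            contMDiffOn_invFun := ?_ }, ?_, ?_⟩
  · intro y hy
    have h1 : LD s H y := hU y hy.2
    exact (contMDiffAt_res h0 h1.1).contMDiffWithinAt
  · intro y hy
    have h1 : H.symm (y : E4) ∈ U := hy.2
    have h2 : LD s (H⁻¹ : E4 ≃ₜ E4) y := LD.inv' (hU _ h1)
    have h3 : ContMDiffAt (𝓡 4) (𝓡 4) ∞ (res H.symm (symm_zero h0)) y :=
      contMDiffAt_res (symm_zero h0) h2.1
    exact h3.contMDiffWithinAt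
  · exact ⟨mem_univ _, hxU⟩
  · intro y _
    rfl

/-- HC7c: restriction to the punctured space. -/
theorem restr : SpecRestr := by
  intro H h0
  obtain ⟨Ψ, h1, h2, h3⟩ := restr_gen H h0
  exact ⟨Ψ, h1, h2, h3 1⟩

end Pool.Agent.HopfCov
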