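import Pool.Agent.HopfCov.Mfd
import Pool.Agent.HopfCov.Trans1
import Pool.Agent.HopfCov.Trans2
import Pool.Agent.HopfCov.Spec3

/-!
# Assembly: from the orbit space to the core theorems and back
-/

set_option autoImplicit false
set_option linter.unusedSectionVars false

open scoped ContDiff Topology Manifold
open Set Filter Metric

namespace Pool.Agent.HopfCov

/-! ### conjugation of contractions -/

section core

variable {E : Type} [NormedAddCommGroup E] [InnerProductSpace ℝ E] [FiniteDimensional ℝ E]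

theorem Contr.conj {h H : E ≃ₜ E} (hc : Contr h) (hH : H 0 = 0) : Contr (H * h * H⁻¹) := by
  intro R ε hε
  obtain ⟨R₁, hR₁⟩ := bounded_image (H⁻¹ : E ≃ₜ E) R
  have hcont : Tendsto H (𝓝 0) (𝓝 0) := by
    have := H.continuous.tendsto 0
    rwa [hH] at this
  obtain ⟨δ, hδ, hδ'⟩ := Metric.eventually_nhds_iff_ball.1
    (hcont.eventually (ball_mem_nhds (0 : E) hε))
  obtain ⟨n₀, hn₀⟩ := hc R₁ δ hδ
  refine ⟨n₀, fun n hn x hx => ?_⟩
  have h1 : (H * h * H⁻¹) ^ n = H * h ^ n * H⁻¹ := conj_pow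
  rw [h1]
  have h2 := hn₀ n hn _ (hR₁ x hx)
  have h3 := hδ' ((h ^ n) ((H⁻¹ : E ≃ₜ E) x)) (by simpa using h2)
  simpa using h3

/-- a contraction which is conjugate to one of its powers and whose class is trivial is
conjugate to the linear contraction -/
theorem core_self (hdim : 1 < Module.finrank ℝ E) {s : ℝ} (hs : s * s = 1) {g H : E ≃ₜ E}
    (hg : PD 1 g) (hc : Contr g) (hH : PD s H) {a : ℕ} (ha : 2 ≤ a)
    (h : H * g ^ a * H⁻¹ = g) (he : Ext g) :
    ∃ (Φ : E ≃ₜ E) (t : ℝ), t * t = 1 ∧ PD t Φ ∧ Φ * tau = g * Φ := by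
  have hit : ∀ j : ℕ, ∃ (K : E ≃ₜ E) (t : ℝ), t * t = 1 ∧ PD t K ∧ K * g ^ (a ^ j) * K⁻¹ = g := by
    intro j
    induction j with
    | zero => exact ⟨1, 1, one_mul 1, PD_one, by simp⟩
    | succ j ih =>
      obtain ⟨K, t, ht, hK, hKg⟩ := ih
      refine ⟨K * H, t * s, ?_, hK.mul hH, ?_⟩
      · calc t * s * (t * s) = (t * t) * (s * s) := by ring
          _ = 1 := by rw [ht, hs, one_mul]
      · have h1 : g ^ (a ^ j) = H * g ^ (a ^ (j + 1)) * H⁻¹ := by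
          conv_lhs => rw [← h]
          rw [conj_pow, ← pow_mul, pow_succ, mul_comm (a ^ j) a]
        calc K * H * g ^ (a ^ (j + 1)) * (K * H)⁻¹ = K * (H * g ^ (a ^ (j + 1)) * H⁻¹) * K⁻¹ := by
              group
          _ = g := by rw [← h1, hKg]
  obtain ⟨m₀, hm₀⟩ := hc.trap
  have hj : m₀ ≤ a ^ m₀ := (Nat.lt_pow_self (by omega)).le
  obtain ⟨K, t, ht, hK, hKg⟩ := hit m₀
  have hpos : 0 < a ^ m₀ := by positivity
  have he' : Ext (g ^ (a ^ m₀)) := by
    have h1 : (1 : ℤ) ∈ extExp g := by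
      rw [mem_extExp, zpow_one]; exact he
    have h2 := (extExp g).zsmul_mem h1 ((a ^ m₀ : ℕ) : ℤ)
    rw [mem_extExp, smul_eq_mul, mul_one, zpow_natCast] at h2
    exact h2
  obtain ⟨Φ, f1, f2⟩ := core_std hGerm hSwap hRad hdim (hg.pow _) (hm₀ _ hj) (hc.pow hpos) he'
  refine ⟨K * Φ, t, ht, ?_, ?_⟩
  · have := hK.mul f1
    rwa [mul_one] at this
  · calc K * Φ * tau = K * (Φ * tau) := by group
      _ = K * g ^ (a ^ m₀) * K⁻¹ * (K * Φ) := by rw [f2]; group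
      _ = g * (K * Φ) := by rw [hKg]

end core

/-! ### orbit maps -/

theorem OrbitMap.inv {g : V4 ≃ₜ V4} {M : Type} [TopologicalSpace M] [ChartedSpace E4 M]
    {p : V4 → M} (hp : OrbitMap g p) : OrbitMap g⁻¹ p := by
  refine ⟨hp.surj, hp.loc, fun x y => ?_⟩
  rw [hp.fib]
  constructor
  · rintro ⟨n, hn⟩
    exact ⟨-n, by rw [inv_zpow', neg_neg]; exact hn⟩
  · rintro ⟨n, hn⟩
    exact ⟨-n, by rw [inv_zpow'] at hn; exact hn⟩

/-- `G : E4 ≃ₜ E4` extends `g : V4 ≃ₜ V4` -/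
def Extends (G : E4 ≃ₜ E4) (g : V4 ≃ₜ V4) : Prop := ∀ x : V4, G x = g x

theorem V4_ne (x : V4) : (x : E4) ≠ 0 := x.2

theorem Extends.zero {G : E4 ≃ₜ E4} {g : V4 ≃ₜ V4} (h : Extends G g) : G 0 = 0 := by
  by_contra hne
  set y : V4 := ⟨G 0, hne⟩ with hy
  have h1 : G (((g⁻¹ : V4 ≃ₜ V4) y : V4) : E4) = (y : E4) := by
    rw [h]
    congr 1
    exact g.apply_symm_apply y
  have h2 := G.injective (h1.trans (show ((y : V4) : E4) = G 0 from rfl))
  exact V4_ne _ h2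

theorem Extends.mul {G H : E4 ≃ₜ E4} {g h : V4 ≃ₜ V4} (hG : Extends G g) (hH : Extends H h) :
    Extends (G * H) (g * h) := by
  intro x
  show G (H x) = _
  rw [hH x, hG (h x)]
  rfl

theorem Extends.inv {G : E4 ≃ₜ E4} {g : V4 ≃ₜ V4} (hG : Extends G g) : Extends G⁻¹ g⁻¹ := by
  intro x
  have h1 : G (((g⁻¹ : V4 ≃ₜ V4) x : V4) : E4) = (x : E4) := by
    rw [hG]
    congr 1
    exact g.apply_symm_apply x
  rw [← h1, inv_apply_self']

theorem Extends_one : Extends (1 : E4 ≃ₜ E4) (1 : V4 ≃ₜ V4) := fun _ => rfl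

theorem Extends.pow {G : E4 ≃ₜ E4} {g : V4 ≃ₜ V4} (hG : Extends G g) (n : ℕ) :
    Extends (G ^ n) (g ^ n) := by
  induction n with
  | zero => exact Extends_one
  | succ n ih => rw [pow_succ, pow_succ]; exact ih.mul hG

theorem Extends.zpow {G : E4 ≃ₜ E4} {g : V4 ≃ₜ V4} (hG : Extends G g) (n : ℤ) :
    Extends (G ^ n) (g ^ n) := by
  cases n with
  | ofNat n => simpa using hG.pow n
  | negSucc n => rw [zpow_negSucc, zpow_negSucc]; exact (hG.pow _).inv

/-- homeomorphisms with the same restriction are equal -/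
theorem Extends.unique {G H : E4 ≃ₜ E4} {g : V4 ≃ₜ V4} (hG : Extends G g) (hH : Extends H g) :
    G = H := by
  ext x
  by_cases hx : x = 0
  · rw [hx, hG.zero, hH.zero]
  · rw [hG ⟨x, hx⟩, hH ⟨x, hx⟩]

theorem Extends.eq_of {G : E4 ≃ₜ E4} {g h : V4 ≃ₜ V4} (hG : Extends G g) (hH : Extends G h) :
    g = h := by
  ext x : 1
  apply Subtype.ext
  rw [← hG x, ← hH x]

/-- restriction of a punctured diffeomorphism -/
theorem exists_restr {s : ℝ} {K : E4 ≃ₜ E4} (hK : PD s K) :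
    ∃ k : V4 ≃ₜ V4, Extends K k := by
  obtain ⟨Ψ, h1, -, -⟩ := restr K hK.1
  exact ⟨Ψ, fun x => (h1 x).symm⟩

end Pool.Agent.HopfCov
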