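import Pool.Agent.HopfCov.Spec

/-!
# Punctured diffeomorphisms: group structure, behaviour near infinity, commutators
-/

set_option autoImplicit false
set_option linter.unusedSectionVars false

open scoped ContDiff Topology
open Set Filter Metric

namespace Pool.Agent.HopfCov

variable {E : Type} [NormedAddCommGroup E] [InnerProductSpace ℝ E] [FiniteDimensional ℝ E]

theorem mul_apply' (a b : E ≃ₜ E) (x : E) : (a * b) x = a (b x) := rfl

theorem inv_apply_self' (a : E ≃ₜ E) (x : E) : (a⁻¹ : E ≃ₜ E) (a x) = x := a.symm_apply_apply x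

theorem apply_inv_self' (a : E ≃ₜ E) (x : E) : a ((a⁻¹ : E ≃ₜ E) x) = x := a.apply_symm_apply x

theorem one_apply' (x : E) : (1 : E ≃ₜ E) x = x := rfl

theorem LD.mul {s t : ℝ} {a b : E ≃ₜ E} {x : E} (ha : LD s a (b x)) (hb : LD t b x) :
    LD (s * t) (a * b : E ≃ₜ E) x := ha.comp hb

theorem LD.mul_one' {a b : E ≃ₜ E} {x : E} (ha : LD 1 a (b x)) (hb : LD 1 b x) :
    LD 1 (a * b : E ≃ₜ E) x := by
  simpa using ha.mul hb

/-- inverse at a given point -/
theorem LD.inv' {s : ℝ} {h : E ≃ₜ E} {y : E} (hx : LD s h ((h⁻¹ : E ≃ₜ E) y)) :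
    LD s (h⁻¹ : E ≃ₜ E) y := by
  have := LD.inv h hx
  rwa [apply_inv_self'] at this

theorem LD_one (x : E) : LD 1 (1 : E ≃ₜ E) x := LD_id x

/-! ### behaviour near infinity -/

theorem tendsto_cocompact' (h : E ≃ₜ E) : Tendsto h (cocompact E) (cocompact E) :=
  h.isClosedEmbedding.tendsto_cocompact

theorem EqInf.refl (a : E ≃ₜ E) : EqInf a a := Eventually.of_forall fun _ => rfl

theorem EqInf.symm {a b : E ≃ₜ E} (h : EqInf a b) : EqInf b a := h.mono fun _ hx => hx.symm

theorem EqInf.trans {a b c : E ≃ₜ E} (h : EqInf a b) (h' : EqInf b c) : EqInf a c := by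
  filter_upwards [h, h'] with x h1 h2 using h1.trans h2

theorem EqInf.mul {a a' b b' : E ≃ₜ E} (ha : EqInf a a') (hb : EqInf b b') :
    EqInf (a * b) (a' * b') := by
  have h1 := (tendsto_cocompact' b).eventually ha
  filter_upwards [h1, hb] with x h1 h2
  rw [mul_apply', mul_apply', h1, h2]

theorem EqInf.inv {a a' : E ≃ₜ E} (h : EqInf a a') : EqInf a⁻¹ a'⁻¹ := by
  have h1 := (tendsto_cocompact' a⁻¹).eventually h
  filter_upwards [h1] with y hy
  rw [apply_inv_self'] at hy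
  have : (a'⁻¹ : E ≃ₜ E) y = (a'⁻¹ : E ≃ₜ E) (a' ((a⁻¹ : E ≃ₜ E) y)) := by rw [← hy]
  rw [this, inv_apply_self']

theorem CS.eqInf {h : E ≃ₜ E} (hh : CS h) : EqInf h 1 := hh

theorem CS.of_eqInf {h : E ≃ₜ E} (hh : EqInf h 1) : CS h := hh

theorem CS.inv {h : E ≃ₜ E} (hh : CS h) : CS h⁻¹ := by
  have := EqInf.inv hh.eqInf
  rw [inv_one] at this
  exact this

theorem CS.mul {a b : E ≃ₜ E} (ha : CS a) (hb : CS b) : CS (a * b) := by
  have := EqInf.mul ha.eqInf hb.eqInf
  rw [one_mul] at this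
  exact this

/-- supported in a bounded set -/
theorem CS_of_supp {h : E ≃ₜ E} {R : ℝ} (hh : ∀ x, R ≤ ‖x‖ → h x = x) : CS h := by
  have h1 : (closedBall (0 : E) R)ᶜ ∈ cocompact E :=
    (isCompact_closedBall (0 : E) R).compl_mem_cocompact
  filter_upwards [h1] with x hx
  apply hh
  simp at hx
  exact hx.le

theorem exists_radius {p : E → Prop} (h : ∀ᶠ x in cocompact E, p x) :
    ∃ R : ℝ, 0 < R ∧ ∀ x, R ≤ ‖x‖ → p x := by
  obtain ⟨K, hK, hKp⟩ := mem_cocompact.1 h
  obtain ⟨R, hR⟩ := hK.isBounded.subset_ball (0 : E)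
  refine ⟨max R 1, by positivity, fun x hx => hKp ?_⟩
  intro hxK
  have := hR hxK
  simp at this
  exact absurd hx (not_le.2 (this.trans_le (le_max_left _ _)))

/-! ### diffeomorphisms of `E` and of the punctured space -/

theorem LD_all_mul {a b : E ≃ₜ E} (ha : ∀ x, LD 1 a x) (hb : ∀ x, LD 1 b x) :
    ∀ x, LD 1 (a * b : E ≃ₜ E) x := fun x => (ha (b x)).mul_one' (hb x)

theorem LD_all_inv {a : E ≃ₜ E} (ha : ∀ x, LD 1 a x) : ∀ x, LD 1 (a⁻¹ : E ≃ₜ E) x :=
  fun _ => LD.inv' (ha _)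

theorem PD.zero {s : ℝ} {a : E ≃ₜ E} (ha : PD s a) : a 0 = 0 := ha.1

theorem PD.inv_zero {s : ℝ} {a : E ≃ₜ E} (ha : PD s a) : (a⁻¹ : E ≃ₜ E) 0 = 0 := by
  conv_lhs => rw [← ha.1]
  exact inv_apply_self' a 0

theorem PD.ne {s : ℝ} {a : E ≃ₜ E} (ha : PD s a) {x : E} (hx : x ≠ 0) : a x ≠ 0 := by
  intro h
  exact hx (a.injective (h.trans ha.1.symm))

theorem PD.inv {s : ℝ} {a : E ≃ₜ E} (ha : PD s a) : PD s a⁻¹ := by
  refine ⟨ha.inv_zero, fun x hx => LD.inv' (ha.2 _ ?_)⟩
  intro h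
  apply hx
  have := congrArg a h
  rwa [apply_inv_self', ha.1] at this

theorem PD.mul {s t : ℝ} {a b : E ≃ₜ E} (ha : PD s a) (hb : PD t b) : PD (s * t) (a * b) := by
  refine ⟨?_, fun x hx => (ha.2 _ (hb.ne hx)).mul (hb.2 x hx)⟩
  rw [mul_apply', hb.1, ha.1]

theorem PD_one : PD 1 (1 : E ≃ₜ E) := ⟨rfl, fun x _ => LD_one x⟩

theorem PD.mul_one' {a b : E ≃ₜ E} (ha : PD 1 a) (hb : PD 1 b) : PD 1 (a * b) := by
  simpa using ha.mul hb

theorem PD.pow {a : E ≃ₜ E} (ha : PD 1 a) (n : ℕ) : PD 1 (a ^ n) := by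
  induction n with
  | zero => simpa using PD_one
  | succ n ih => rw [pow_succ]; exact ih.mul_one' ha

theorem PD.zpow {a : E ≃ₜ E} (ha : PD 1 a) (n : ℤ) : PD 1 (a ^ n) := by
  cases n with
  | ofNat n => simpa using ha.pow n
  | negSucc n => rw [zpow_negSucc]; exact (ha.pow _).inv

/-- `h` agrees near infinity with a diffeomorphism of `E` -/
def Ext (h : E ≃ₜ E) : Prop := ∃ Θ : E ≃ₜ E, (∀ x, LD 1 Θ x) ∧ EqInf Θ h

theorem Ext.mul {a b : E ≃ₜ E} (ha : Ext a) (hb : Ext b) : Ext (a * b) := by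
  obtain ⟨A, hA, hA'⟩ := ha
  obtain ⟨B, hB, hB'⟩ := hb
  exact ⟨A * B, LD_all_mul hA hB, hA'.mul hB'⟩

theorem Ext.inv {a : E ≃ₜ E} (ha : Ext a) : Ext a⁻¹ := by
  obtain ⟨A, hA, hA'⟩ := ha
  exact ⟨A⁻¹, LD_all_inv hA, hA'.inv⟩

theorem Ext_one : Ext (1 : E ≃ₜ E) := ⟨1, LD_one, EqInf.refl _⟩

/-- the exponents `k` for which `g ^ k` extends form a subgroup of `ℤ` -/
def extExp (g : E ≃ₜ E) : AddSubgroup ℤ where
  carrier := {k | Ext (g ^ k)}
  add_mem' := by
    intro a b ha hb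
    show Ext (g ^ (a + b))
    rw [zpow_add]
    exact Ext.mul ha hb
  zero_mem' := by
    show Ext (g ^ (0 : ℤ))
    rw [zpow_zero]
    exact Ext_one
  neg_mem' := by
    intro a ha
    show Ext (g ^ (-a))
    rw [zpow_neg]
    exact Ext.inv ha

theorem mem_extExp {g : E ≃ₜ E} {k : ℤ} : k ∈ extExp g ↔ Ext (g ^ k) := Iff.rfl

/-- translation as a homeomorphism -/
def tr (c : E) : E ≃ₜ E := Homeomorph.addRight c

theorem tr_apply (c x : E) : tr c x = x + c := rfl

theorem LD_tr (c x : E) : LD 1 (tr c) x := LD_add_const c x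

section

variable (hG : SpecGermFix) (hS : SpecSwap)

include hG hS in
/-- germs can be realised by compactly supported diffeomorphisms -/
theorem germ_move (hdim : 1 < Module.finrank ℝ E) (φ : E → E) (a : E)
    (hφ : ∀ᶠ x in 𝓝 a, LD 1 φ x) :
    ∃ H : E ≃ₜ E, (∀ x, LD 1 H x) ∧ (∀ᶠ x in 𝓝 a, H x = φ x) ∧ CS H := by
  by_cases hab : φ a = a
  · obtain ⟨H, h1, h2, h3⟩ := hG E φ a hφ hab (ball a 1) (ball_mem_nhds a one_pos)
    refine ⟨H, h1, h2, ?_⟩
    have : (closedBall a 1)ᶜ ∈ cocompact E := (isCompact_closedBall a 1).compl_mem_cocompact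
    filter_upwards [this] with x hx
    exact h3 x fun hx' => hx (ball_subset_closedBall hx')
  · set b := φ a with hb
    have hp : b - a ≠ 0 := sub_ne_zero.2 hab
    obtain ⟨K, k1, k2, k3, k4⟩ := hS E hdim (b - a) hp
    -- the diffeomorphism `x ↦ x + (b - a)` near `a`
    set K' : E ≃ₜ E := tr a * K * tr (-a) with hK'
    have K'1 : ∀ x, LD 1 K' x := LD_all_mul (LD_all_mul (LD_tr a) k1) (LD_tr (-a))
    have K'2 : ∀ᶠ x in 𝓝 a, K' x = x + (b - a) := by
      have ht : Tendsto (fun x : E => x + -a) (𝓝 a) (𝓝 0) := by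
        have h0 : Continuous fun x : E => x + -a := continuous_id.add continuous_const
        have := h0.tendsto a
        rwa [add_neg_cancel] at this
      filter_upwards [ht.eventually k2] with x hx
      show K (x + -a) + a = _
      rw [hx]; abel
    have K'a : K' a = b := by
      have := K'2.self_of_nhds
      rw [this]; abel
    have K'4 : CS K' := by
      have : EqInf K' (tr a * 1 * tr (-a)) := ((EqInf.refl _).mul k4.eqInf).mul (EqInf.refl _)
      refine CS.of_eqInf (this.trans ?_)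
      have h2 : tr a * 1 * tr (-a) = (1 : E ≃ₜ E) := by
        ext x
        show (x + -a) + a = x
        abel
      rw [h2]
      exact EqInf.refl _
    have hK'inv : (K'⁻¹ : E ≃ₜ E) b = a := by rw [← K'a]; exact inv_apply_self' _ _
    have hψ : ∀ᶠ x in 𝓝 a, LD 1 (fun x => (K'⁻¹ : E ≃ₜ E) (φ x)) x := by
      filter_upwards [hφ] with x hx
      have h1 : LD 1 (K'⁻¹ : E ≃ₜ E) (φ x) := LD_all_inv K'1 _
      have h2 := h1.comp hx
      rw [one_mul] at h2
      exact h2
    obtain ⟨H, h1, h2, h3⟩ := hG E (fun x => (K'⁻¹ : E ≃ₜ E) (φ x)) a hψ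
      (by show (K'⁻¹ : E ≃ₜ E) (φ a) = a; rw [← hb, hK'inv]) (ball a 1) (ball_mem_nhds a one_pos)
    refine ⟨K' * H, LD_all_mul K'1 h1, ?_, K'4.mul ?_⟩
    · filter_upwards [h2] with x hx
      rw [mul_apply', hx, apply_inv_self']
    · have : (closedBall a 1)ᶜ ∈ cocompact E := (isCompact_closedBall a 1).compl_mem_cocompact
      filter_upwards [this] with x hx
      exact h3 x fun hx' => hx (ball_subset_closedBall hx')

include hG hS in
/-- the auxiliary homeomorphism moving the singular germ of `β` from the origin to `p` -/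
theorem pushed (hdim : 1 < Module.finrank ℝ E) {α β : E ≃ₜ E} (hα : PD 1 α) (hβ : PD 1 β)
    {p : E} (hp : p ≠ 0) :
    ∃ (F e : E ≃ₜ E) (a : E), (∀ᶠ x in 𝓝 (0 : E), F x = β x + p) ∧ a ≠ 0 ∧ F a = 0 ∧
      LD 1 e a ∧ e a = 0 ∧ (∀ᶠ x in 𝓝 a, F x = α (e x)) ∧ (∀ x, x ≠ 0 → x ≠ a → LD 1 F x) ∧
      EqInf F (α * β) := by
  set q : E := (α⁻¹ : E ≃ₜ E) p with hq
  have hq0 : q ≠ 0 := hα.inv.ne hp
  have hαq : α q = p := apply_inv_self' α p
  obtain ⟨T, t1, t2, -, t4⟩ := hS E hdim q hq0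
  set φ : E → E := fun x => (α⁻¹ : E ≃ₜ E) x + (p - q) with hφ
  have hφL : ∀ᶠ x in 𝓝 p, LD 1 φ x := by
    filter_upwards [isOpen_ne.mem_nhds hp] with x hx
    have h1 : LD 1 (α⁻¹ : E ≃ₜ E) x := hα.inv.2 x hx
    have h2 := (LD_add_const (p - q) ((α⁻¹ : E ≃ₜ E) x)).comp h1
    rw [one_mul] at h2
    exact h2
  have hφp : φ p = p := by simp only [hφ]; rw [← hq]; abel
  have hpn : 0 < ‖p‖ / 2 := by positivity
  obtain ⟨H, h1, h2, h3⟩ := hG E φ p hφL hφp (ball p (‖p‖ / 2)) (ball_mem_nhds p hpn)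
  have hHnear0 : ∀ᶠ x in 𝓝 (0 : E), H x = x := by
    filter_upwards [ball_mem_nhds (0 : E) hpn] with x hx
    apply h3
    intro hx'
    rw [mem_ball, dist_eq_norm] at hx'
    rw [mem_ball_zero_iff] at hx
    have : ‖p‖ ≤ ‖x - p‖ + ‖x‖ := by
      calc ‖p‖ = ‖x - (x - p)‖ := by congr 1; abel
        _ ≤ ‖x‖ + ‖x - p‖ := norm_sub_le _ _
        _ = _ := by ring
    linarith
  have hHCS : CS H := by
    have : (closedBall p (‖p‖ / 2))ᶜ ∈ cocompact E :=
      (isCompact_closedBall p (‖p‖ / 2)).compl_mem_cocompact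
    filter_upwards [this] with x hx
    exact h3 x fun hx' => hx (ball_subset_closedBall hx')
  set e : E ≃ₜ E := T * β with he
  set F : E ≃ₜ E := H * α * e with hF
  set a : E := (e⁻¹ : E ≃ₜ E) 0 with ha
  have hea : e a = 0 := apply_inv_self' e 0
  have hT0 : T 0 = q := by
    have := t2.self_of_nhds
    rw [this]; simp
  have he0 : e 0 = q := by rw [he, mul_apply', hβ.1, hT0]
  have ha0 : a ≠ 0 := by
    intro h
    rw [h, he0] at hea
    exact hq0 hea
  have hH0 : H 0 = 0 := hHnear0.self_of_nhds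
  have hFa : F a = 0 := by
    show H (α (e a)) = 0
    rw [hea, hα.1, hH0]
  refine ⟨F, e, a, ?_, ha0, hFa, ?_, hea, ?_, ?_, ?_⟩
  · -- near the origin
    have c1 : Tendsto β (𝓝 0) (𝓝 0) := by
      have := β.continuous.tendsto 0
      rwa [hβ.1] at this
    have c2 : Tendsto (fun x => α (β x + q)) (𝓝 0) (𝓝 p) := by
      have h1 : Continuous fun x => α (β x + q) := α.continuous.comp (β.continuous.add continuous_const)
      have := h1.tendsto 0
      rwa [hβ.1, zero_add, hαq] at this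
    filter_upwards [c1.eventually t2, c2.eventually h2] with x hx1 hx2
    show H (α (T (β x))) = _
    rw [hx1, hx2]
    show (α⁻¹ : E ≃ₜ E) (α (β x + q)) + (p - q) = _
    rw [inv_apply_self']
    abel
  · exact (t1 (β a)).mul_one' (hβ.2 a ha0)
  · have c1 : Tendsto (fun x => α (e x)) (𝓝 a) (𝓝 0) := by
      have h1 : Continuous fun x => α (e x) := α.continuous.comp e.continuous
      have := h1.tendsto a
      rwa [hea, hα.1] at this
    filter_upwards [c1.eventually hHnear0] with x hx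
    exact hx
  · intro x hx0 hxa
    have hex : e x ≠ 0 := by
      intro h
      apply hxa
      have := e.injective (h.trans hea.symm)
      exact this
    have he1 : LD 1 e x := (t1 (β x)).mul_one' (hβ.2 x hx0)
    exact ((h1 (α (e x))).mul_one' (hα.2 _ hex)).mul_one' he1
  · have h5 : EqInf F ((1 * α) * (1 * β)) :=
      (hHCS.eqInf.mul (EqInf.refl α)).mul (t4.eqInf.mul (EqInf.refl β))
    simpa using h5

include hG hS in
/-- **Commutators of punctured diffeomorphisms extend over the origin.** -/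
theorem comm_ext (hdim : 1 < Module.finrank ℝ E) {α β : E ≃ₜ E} (hα : PD 1 α) (hβ : PD 1 β) :
    Ext (α⁻¹ * β⁻¹ * α * β) := by
  have hnt : Nontrivial E := Module.nontrivial_of_finrank_pos (R := ℝ) (by omega)
  obtain ⟨p, hp⟩ := exists_ne (0 : E)
  obtain ⟨F, e, a, f1, ha0, f2, f3, f4, f5, f6, f7⟩ := pushed hG hS hdim hα hβ hp
  obtain ⟨F', e', b, f1', hb0, f2', f3', f4', f5', f6', f7'⟩ := pushed hG hS hdim hβ hα hp
  obtain ⟨K, k1, k2, k3, k4⟩ := hS E hdim p hp
  have hK0 : K 0 = p := by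
    have := k2.self_of_nhds
    rw [this]; simp
  have hKp : K p = 0 := by
    have := k3.self_of_nhds
    rw [this]; simp
  have hF0 : F 0 = p := by
    have := f1.self_of_nhds
    rw [this, hβ.1]; simp
  have hF'0 : F' 0 = p := by
    have := f1'.self_of_nhds
    rw [this, hα.1]; simp
  refine ⟨F'⁻¹ * K * F, ?_, ?_⟩
  · intro x
    by_cases hx0 : x = 0
    · subst hx0
      -- near the origin the composition is `e'⁻¹`
      have hev : (e'⁻¹ : E ≃ₜ E) =ᶠ[𝓝 (0 : E)] (F'⁻¹ * K * F : E ≃ₜ E) := by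
        have c1 : Tendsto F (𝓝 0) (𝓝 p) := by
          have := F.continuous.tendsto 0
          rwa [hF0] at this
        have c2 : Tendsto (e'⁻¹ : E ≃ₜ E) (𝓝 0) (𝓝 b) := by
          have := (e'⁻¹ : E ≃ₜ E).continuous.tendsto 0
          have hb : (e'⁻¹ : E ≃ₜ E) 0 = b := by rw [← f4']; exact inv_apply_self' e' b
          rwa [hb] at this
        filter_upwards [f1, c1.eventually k3, c2.eventually f5'] with x hx1 hx2 hx3
        show (e'⁻¹ : E ≃ₜ E) x = (F'⁻¹ : E ≃ₜ E) (K (F x))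
        rw [hx2, hx1, add_sub_cancel_right]
        have h4 : F' ((e'⁻¹ : E ≃ₜ E) x) = β x := by
          rw [hx3, apply_inv_self']
        rw [← h4, inv_apply_self']
      have hL : LD 1 (e'⁻¹ : E ≃ₜ E) 0 := by
        have := LD.inv e' f3'
        rwa [f4'] at this
      exact hL.congr hev
    · by_cases hxa : x = a
      · subst hxa
        have hev : (e : E → E) =ᶠ[𝓝 x] (F'⁻¹ * K * F : E ≃ₜ E) := by
          have c1 : Tendsto F (𝓝 x) (𝓝 0) := by
            have := F.continuous.tendsto x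
            rwa [f2] at this
          have c2 : Tendsto e (𝓝 x) (𝓝 0) := by
            have := e.continuous.tendsto x
            rwa [f4] at this
          filter_upwards [f5, c1.eventually k2, c2.eventually f1'] with y hy1 hy2 hy3
          show e y = (F'⁻¹ : E ≃ₜ E) (K (F y))
          rw [hy2, hy1, ← hy3, inv_apply_self']
        exact f3.congr hev
      · have h1 : LD 1 F x := f6 x hx0 hxa
        have h2 : LD 1 (F'⁻¹ : E ≃ₜ E) (K (F x)) := by
          apply LD.inv'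
          apply f6'
          · intro h
            have h3 : K (F x) = p := by rw [← hF'0, ← h, apply_inv_self']
            have h4 : F x = 0 := K.injective (h3.trans hK0.symm)
            exact hxa (F.injective (h4.trans f2.symm))
          · intro h
            have h3 : K (F x) = 0 := by rw [← f2', ← h, apply_inv_self']
            have h4 : F x = p := K.injective (h3.trans hKp.symm)
            exact hx0 (F.injective (h4.trans hF0.symm))
        exact (h2.mul_one' (k1 (F x))).mul_one' h1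
  · have h5 : EqInf (F'⁻¹ * K * F) ((β * α)⁻¹ * 1 * (α * β)) :=
      ((f7'.inv).mul k4.eqInf).mul f7
    have h6 : (β * α)⁻¹ * 1 * (α * β) = α⁻¹ * β⁻¹ * α * β := by group
    rwa [h6] at h5

end

end Pool.Agent.HopfCov
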