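import Pool.Agent.HopfCov.Final2

/-!
# Large finite coverings are standard off one point
-/

set_option autoImplicit false
set_option linter.unusedSectionVars false

open scoped ContDiff Topology Manifold
open Set Filter Metric

namespace Pool.Agent.HopfCov

section

variable {M : Type} [TopologicalSpace M] [ChartedSpace E4 M] [IsManifold (𝓡 4) ∞ M]

theorem inv_commute_of {g τ : V4 ≃ₜ V4} {Φ : V4 ≃ₜ V4} (h : Φ * τ = g * Φ) :
    Φ⁻¹ * g = τ * Φ⁻¹ := by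
  rw [inv_mul_eq_iff_eq_mul, ← mul_assoc, h, mul_assoc, mul_inv_cancel, mul_one]

/-- the orbit space of a trapping contraction is homeomorphic to the orbit space of the linear
one, by a homeomorphism which is a local diffeomorphism off one point -/
theorem off_point {s : ℝ} (hs : s * s = 1) {g : V4 ≃ₜ V4} {G : E4 ≃ₜ E4} (hG : Extends G g)
    (hPD : PD s G) (ht : Trap G) (hc : Contr G) {p : V4 → M} (hp : OrbitMap g p)
    {L : E4 ≃ₗᵢ[ℝ] E4} (hL : 0 < s * (L.toContinuousLinearEquiv : E4 →L[ℝ] E4).det)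
    {ρ : V4 ≃ₜ V4} (hρ : Extends (tauL L) ρ)
    {E' H' X : Type} [NormedAddCommGroup E'] [NormedSpace ℝ E'] [TopologicalSpace H']
    {I' : ModelWithCorners ℝ E' H'}
    [TopologicalSpace X] [ChartedSpace H' X] [IsManifold I' ∞ X] [T1Space X]
    {p₀ : V4 → X} (h1 : Function.Surjective p₀) (h2 : IsLocalDiffeomorph (𝓡 4) I' ∞ p₀)
    (h3 : ∀ x y, p₀ x = p₀ y ↔ ∃ n : ℤ, y = (ρ ^ n) x) :
    ∃ F : M ≃ₜ X, ∃ n₀ : M, ∀ n, n ≠ n₀ → IsLocalDiffeomorphAt (𝓡 4) I' ∞ F n := by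
  obtain ⟨Φ, f1, f2, y, f3⟩ := core_point hGerm hSwap hRad hdim4 hs hPD ht hc L hL
  have f1' : (Φ⁻¹ : E4 ≃ₜ E4) 0 = 0 := by
    have := inv_apply_self' Φ 0
    rwa [f1] at this
  obtain ⟨k, k1, k2⟩ := exists_restr_LD f1'
  -- the singular point
  obtain ⟨y₀, hy₀⟩ : ∃ y₀ : V4, y ≠ 0 → (y₀ : E4) = y := by
    by_cases hy : y = 0
    · obtain ⟨v⟩ : Nonempty V4 := inferInstance
      exact ⟨v, fun h => absurd hy h⟩
    · exact ⟨⟨y, hy⟩, fun _ => rfl⟩
  have hc1 : k * g = ρ * k := by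
    have e1 : Φ * tauL L = G * Φ := Homeomorph.ext f2
    have e2 : Φ⁻¹ * G = tauL L * Φ⁻¹ := by
      rw [inv_mul_eq_iff_eq_mul, ← mul_assoc, e1, mul_assoc, mul_inv_cancel, mul_one]
    have d1 : Extends (Φ⁻¹ * G) (k * g) := k1.mul hG
    have d2 : Extends (tauL L * Φ⁻¹) (ρ * k) := hρ.mul k1
    rw [e2] at d1
    exact d1.eq_of d2
  obtain ⟨F, F1, F2⟩ := descend_gen (g' := ρ) hp h1 h2 h3 k hc1
  obtain ⟨n₀, hn₀⟩ := F.surjective (p₀ y₀)
  refine ⟨F, n₀, fun n hn => ?_⟩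
  obtain ⟨x, rfl⟩ := hp.surj n
  refine F2 x (k2 x ?_)
  have hne : p₀ (k x) ≠ p₀ y₀ := by
    intro h
    rw [← F1, ← hn₀] at h
    exact hn (F.injective h)
  have hcont : Continuous fun z : V4 => p₀ (k z) := h2.contMDiff.continuous.comp k.continuous
  have hev : ∀ᶠ z in 𝓝 x, p₀ (k z) ≠ p₀ y₀ :=
    hcont.continuousAt.eventually (isOpen_ne.mem_nhds hne)
  rw [nhds_subtype_eq_comap, eventually_comap] at hev
  filter_upwards [hev, V4_eventually_ne x] with z hz hz0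
  have hz1 := hz ⟨z, hz0⟩ rfl
  -- `z` is a regular point
  set w : E4 := (Φ⁻¹ : E4 ≃ₜ E4) z with hw
  have hkz : (k ⟨z, hz0⟩ : E4) = w := (k1 ⟨z, hz0⟩).symm
  have hw0 : w ≠ 0 := by rw [← hkz]; exact (k ⟨z, hz0⟩).2
  have hwy : ∀ j : ℤ, w ≠ (tauL L ^ j) y := by
    intro j hj
    by_cases hy : y = 0
    · have e1 : ∀ j : ℤ, (tauL L ^ j : E4 ≃ₜ E4) 0 = 0 := fun j => (hρ.zpow j).zero
      rw [hy, e1] at hj
      exact hw0 hj
    · apply hz1
      have e1 : k ⟨z, hz0⟩ = (ρ ^ j) y₀ := by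
        apply Subtype.ext
        rw [hkz, hj, ← hρ.zpow j y₀, hy₀ hy]
      exact ((h3 _ _).2 ⟨j, e1⟩).symm
  have e2 := f3 w hw0 hwy
  have e3 := LD.inv Φ e2
  have e4 : Φ w = z := apply_inv_self' Φ z
  rwa [e4] at e3

/-- an orbit space with an orientation preserving generator is oriented -/
theorem oriented_of_PD (hT1 : SpecMfderiv) {g : V4 ≃ₜ V4} {G : E4 ≃ₜ E4}
    {p : V4 → M} (hp : OrbitMap g p) (hG : Extends G g) (h : PD 1 G) : Oriented p := by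
  intro x x' hx
  obtain ⟨n, rfl⟩ := (hp.fib x x').1 hx
  obtain ⟨k, k1, k2⟩ := exists_restr_PD (h.zpow n)
  have hk : k = g ^ n := k1.eq_of (hG.zpow n)
  subst hk
  have h0 : ∀ y, p ((g ^ n) y) = p y := fun y => ((hp.fib y _).2 ⟨n, rfl⟩).symm
  have e1 := det_chain (A := p) (B := p) (Ψ := (g ^ n : V4 ≃ₜ V4)) (y := x)
    (mdiff_of_loc hp.loc _) (mdiff_of_loc k2 _) h0
  have e2 : 0 < (mfderiv (𝓡 4) (𝓡 4) (g ^ n : V4 ≃ₜ V4) x : E4 →L[ℝ] E4).det := by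
    rw [hT1 _ x (k2 x).contMDiffAt]
    have e3 : LD 1 (ext0 (g ^ n : V4 ≃ₜ V4)) (x : E4) := by
      refine ((h.zpow n).2 x x.2).congr ?_
      filter_upwards [V4_eventually_ne x] with y hy
      show (G ^ n) y = ext0 _ y
      rw [ext0, dif_pos hy]
      exact k1 ⟨y, hy⟩
    have e3' := e3.2
    rw [one_mul] at e3'
    exact e3'
  have e4 := det_ne_zero_of_loc (hp.loc ((g ^ n) x))
  rw [e1]
  have e5 : ∀ α β : ℝ, α ≠ 0 → 0 < β → 0 < α * β * α := by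
    intro α β ha hb
    have := mul_pos (mul_self_pos.2 ha) hb
    calc 0 < α * α * β := this
      _ = α * β * α := by ring
  exact e5 _ _ e4 e2

/-- **Large finite coverings are standard off one point.** -/
theorem covers_off_point (hT1 : SpecMfderiv) (hT2 : SpecSign) (hT8 : SpecModelMap)
    [T2Space M] [CompactSpace M] {g₀ : V4 ≃ₜ V4} {p : V4 → M} (hp₀ : OrbitMap g₀ p) :
    ∃ m₀ : ℕ, ∀ m : ℕ, m₀ ≤ m → ∀ (N : Type) [TopologicalSpace N] [ChartedSpace E4 N]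
      [IsManifold (𝓡 4) ∞ N] [ConnectedSpace N] (q : N → M), SmoothCover m q →
      (Oriented p ∨ Even m → ∃ F : N ≃ₜ Circle × sphere (0 : E4) 1, ∃ n₀ : N, ∀ n, n ≠ n₀ →
        IsLocalDiffeomorphAt (𝓡 4) ((𝓡 1).prod (𝓡 3)) ∞ F n) ∧
      (¬ Oriented p → Odd m → ∀ (L : E4 ≃ₗᵢ[ℝ] E4),
        (L.toContinuousLinearEquiv : E4 →L[ℝ] E4).det < 0 → ∀ ρ : V4 ≃ₜ V4,
        (∀ x : V4, (ρ x : E4) = (2⁻¹ : ℝ) • L x) → ∀ (T : Type) [TopologicalSpace T]
        [ChartedSpace E4 T] [IsManifold (𝓡 4) ∞ T] [T1Space T] (pT : V4 → T), OrbitMap ρ pT →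
        ∃ F : N ≃ₜ T, ∃ n₀ : N, ∀ n, n ≠ n₀ → IsLocalDiffeomorphAt (𝓡 4) (𝓡 4) ∞ F n) := by
  obtain ⟨g, G, hp, hG, hPD, hc⟩ := exists_gen hp₀
  obtain ⟨m₀, hm₀⟩ := hc.trap
  refine ⟨max m₀ 1, fun m hm N _ _ _ _ q hq => ⟨fun ho => ?_, fun ho hodd => ?_⟩⟩
  · have hmpos : 0 < m := lt_of_lt_of_le one_pos ((le_max_right _ _).trans hm)
    obtain ⟨p', h1, -⟩ := cover_data hp hmpos hq
    have h2 : PD 1 (G ^ m) := by
      rcases ho with ho | ho
      · exact (PD_of_oriented hT1 hT2 hp hG ho).pow m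
      · rcases hPD with h | h
        · exact h.pow m
        · exact PD_of_even (by norm_num) h ho
    obtain ⟨τ, h5, h6⟩ := exists_tau
    obtain ⟨q₀, c1, c2, c3⟩ := hT8 τ h6
    exact off_point (one_mul 1) (hG.pow m) h2 (hm₀ m ((le_max_left _ _).trans hm))
      (hc.pow hmpos) h1 det_refl_pos h5 c1 c2 c3
  · intro L hL ρ hρ T _ _ _ _ pT hpT
    have hmpos : 0 < m := lt_of_lt_of_le one_pos ((le_max_right _ _).trans hm)
    obtain ⟨p', h1, -⟩ := cover_data hp hmpos hq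
    have hPD' : PD (-1) G := by
      rcases hPD with h | h
      · exact absurd (oriented_of_PD hT1 hp hG h) ho
      · exact h
    have h2 : PD (-1) (G ^ m) := by
      have := hPD'.zpow' (by norm_num) m
      rw [zpow_natCast, zpow_natCast, hodd.neg_one_pow] at this
      exact this
    have h3 : Extends (tauL L) ρ := fun x => (hρ x).symm
    exact off_point (by norm_num) (hG.pow m) h2 (hm₀ m ((le_max_left _ _).trans hm))
      (hc.pow hmpos) h1 (by linarith) h3 hpT.surj hpT.loc hpT.fib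

end

end Pool.Agent.HopfCov
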