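import Pool.Agent.HopfCov.Spec4

/-!
# The inversion of the punctured space; `S¹ × S³` as an orbit space
-/

set_option autoImplicit false

open scoped ContDiff Topology Manifold
open Set Filter Metric

namespace Pool.Agent.HopfCov

theorem specModelMap : SpecModelMap := fun τ hτ => modelMap τ hτ

theorem specModelOrbit : SpecModelOrbit := by
  intro τ hτ M _ _ _ hM
  obtain ⟨F⟩ := hM
  obtain ⟨q₀, h1, h2, h3⟩ := modelMap τ hτ
  refine ⟨fun x => F.symm (q₀ x), ?_, ?_, ?_⟩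
  · intro y
    obtain ⟨x, hx⟩ := h1 (F y)
    refine ⟨x, ?_⟩
    show F.symm (q₀ x) = y
    rw [hx]
    exact F.symm_apply_apply y
  · intro x
    exact (h2 x).comp (K := 𝓡 4) (hg := F.symm.isLocalDiffeomorph (q₀ x))
  · intro x y
    rw [← h3]
    exact F.symm.injective.eq_iff

/-- the inversion, as a function -/
private noncomputable def invFun (x : V4) : V4 :=
  ⟨(‖(x : E4)‖ ^ 2)⁻¹ • (x : E4), smul_ne_zero
    (inv_ne_zero (pow_ne_zero 2 (norm_ne_zero_iff.2 (V4_ne x)))) (V4_ne x)⟩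

private theorem invFun_val (x : V4) : (invFun x : E4) = (‖(x : E4)‖ ^ 2)⁻¹ • (x : E4) := rfl

private theorem norm_invFun (x : V4) : ‖(invFun x : E4)‖ = ‖(x : E4)‖⁻¹ := by
  have h : ‖(x : E4)‖ ≠ 0 := norm_ne_zero_iff.2 (V4_ne x)
  rw [invFun_val, norm_smul, norm_inv, norm_pow, norm_norm]
  field_simp

private theorem invFun_invFun (x : V4) : invFun (invFun x) = x := by
  have h : ‖(x : E4)‖ ≠ 0 := norm_ne_zero_iff.2 (V4_ne x)
  apply Subtype.ext
  rw [invFun_val, norm_invFun, invFun_val, smul_smul]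
  have : (‖(x : E4)‖⁻¹ ^ 2)⁻¹ * (‖(x : E4)‖ ^ 2)⁻¹ = 1 := by field_simp
  rw [this, one_smul]

private theorem contMDiff_invFun : ContMDiff (𝓡 4) (𝓡 4) ∞ invFun := by
  intro x
  rw [← ContMDiffAt.subtypeVal_comp_iff]
  have h2 : ContDiffAt ℝ ∞ (fun y : E4 => (‖y‖ ^ 2)⁻¹ • y) (x : E4) :=
    (((contDiffAt_norm ℝ (V4_ne x)).pow 2).inv
      (pow_ne_zero 2 (norm_ne_zero_iff.2 (V4_ne x)))).smul contDiffAt_id
  exact ContMDiffAt.comp (g := fun y : E4 => (‖y‖ ^ 2)⁻¹ • y) (f := fun x : V4 => (x : E4)) x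
    h2.contMDiffAt (contMDiff_subtype_val x)

private noncomputable def invDiff : Diffeomorph (𝓡 4) (𝓡 4) V4 V4 ∞ where
  toFun := invFun
  invFun := invFun
  left_inv := invFun_invFun
  right_inv := invFun_invFun
  contMDiff_toFun := contMDiff_invFun
  contMDiff_invFun := contMDiff_invFun

/-- the inversion `x ↦ x / ‖x‖²` -/
theorem inversion_data : ∃ J : V4 ≃ₜ V4, IsLocalDiffeomorph (𝓡 4) (𝓡 4) ∞ J ∧
    (¬ ∃ H : E4 ≃ₜ E4, Extends H J) ∧ ∀ x : V4, (J x : E4) = (‖(x : E4)‖ ^ 2)⁻¹ • (x : E4) := by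
  refine ⟨invDiff.toHomeomorph, invDiff.isLocalDiffeomorph, ?_, fun x => rfl⟩
  rintro ⟨H, hH⟩
  have h0 := hH.zero
  have h1 : Tendsto H (𝓝 0) (𝓝 0) := by
    have := H.continuous.tendsto 0
    rwa [h0] at this
  obtain ⟨δ, hδ, hδ'⟩ := Metric.eventually_nhds_iff_ball.1
    (h1.eventually (ball_mem_nhds (0 : E4) one_pos))
  obtain ⟨v, hv⟩ := exists_ne (0 : E4)
  have hv0 : ‖v‖ ≠ 0 := norm_ne_zero_iff.2 hv
  set r : ℝ := min δ 1 / 2 with hr
  have hr0 : 0 < r := by positivity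
  set x : E4 := (r / ‖v‖) • v with hx
  have hxn : ‖x‖ = r := by
    rw [hx, norm_smul, norm_div, norm_norm, Real.norm_eq_abs, abs_of_pos hr0]
    field_simp
  have hx0 : x ≠ 0 := by
    rw [← norm_ne_zero_iff, hxn]
    exact hr0.ne'
  have h2 : ‖x‖ < δ := by
    rw [hxn, hr]
    have := min_le_left δ 1
    linarith
  have h3 := hδ' x (by simpa using h2)
  have h4 : H x = (invFun ⟨x, hx0⟩ : E4) := hH ⟨x, hx0⟩
  rw [h4, dist_zero_right, norm_invFun] at h3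
  have h5 : (1 : ℝ) ≤ ‖x‖⁻¹ := by
    rw [hxn]
    apply (one_le_inv₀ hr0).2
    have := min_le_right δ 1
    linarith
  exact absurd h3 (not_lt.2 h5)

/-- the inversion conjugates `x ↦ L x / 2` to its inverse, for an involutive isometry `L` -/
theorem inversion_conj {J : V4 ≃ₜ V4} (hJ : ∀ x : V4, (J x : E4) = (‖(x : E4)‖ ^ 2)⁻¹ • (x : E4))
    {L : E4 ≃ₗᵢ[ℝ] E4} (hL : ∀ x, L (L x) = x) {τ : V4 ≃ₜ V4}
    (hτ : ∀ x : V4, (τ x : E4) = (2⁻¹ : ℝ) • L (x : E4)) : J * τ * J⁻¹ = τ⁻¹ := by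
  rw [mul_inv_eq_iff_eq_mul, eq_inv_mul_iff_mul_eq]
  ext1 x
  show τ (J (τ x)) = J x
  apply Subtype.ext
  have h : ‖(x : E4)‖ ≠ 0 := norm_ne_zero_iff.2 (V4_ne x)
  rw [hτ, hJ, hτ, hJ, norm_smul, L.norm_map, norm_inv, Real.norm_ofNat, L.map_smul, L.map_smul, hL,
    smul_smul, smul_smul]
  congr 1
  field_simp

theorem specInversion : SpecInversion := by
  obtain ⟨J, h1, h2, h3⟩ := inversion_data
  exact ⟨J, h1, h2, fun τ hτ => inversion_conj (L := LinearIsometryEquiv.refl ℝ E4) h3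
    (fun _ => rfl) hτ⟩

end Pool.Agent.HopfCov
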