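import Pool.Agent.HopfCov.Basic

/-!
# Connecting the identity near the origin with a given map near infinity; squeezing
-/

set_option autoImplicit false
set_option linter.unusedSectionVars false

open scoped ContDiff Topology
open Set Filter Metric

namespace Pool.Agent.HopfCov

variable {E : Type} [NormedAddCommGroup E] [InnerProductSpace ℝ E] [FiniteDimensional ℝ E]

/-- some homeomorphism which is the identity near the origin agrees with `h` near infinity and
is an oriented local diffeomorphism off `Y` -/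
def Conn (h : E ≃ₜ E) (Y : Set E) : Prop :=
  ∃ Θ : E ≃ₜ E, (∀ᶠ x in 𝓝 (0 : E), Θ x = x) ∧ EqInf Θ h ∧ ∀ x, x ∉ Y → LD 1 Θ x

section

variable (hG : SpecGermFix) (hS : SpecSwap) (hR : SpecRadial)

include hG hS in
theorem Ext.conn (hdim : 1 < Module.finrank ℝ E) {h : E ≃ₜ E} (hh : Ext h) : Conn h ∅ := by
  obtain ⟨Θ, h1, h2⟩ := hh
  obtain ⟨H, g1, g2, g3⟩ := germ_move hG hS hdim Θ 0 (Eventually.of_forall h1)
  refine ⟨H⁻¹ * Θ, ?_, ?_, ?_⟩
  · filter_upwards [g2] with x hx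
    show (H⁻¹ : E ≃ₜ E) (Θ x) = x
    rw [← hx, inv_apply_self']
  · have := g3.inv.eqInf.mul h2
    rwa [one_mul] at this
  · intro x _
    exact LD_all_mul (LD_all_inv g1) h1 x

include hG hS in
/-- every punctured diffeomorphism can be cut off near the origin at the expense of one
singular point -/
theorem PD.conn (hdim : 1 < Module.finrank ℝ E) {h : E ≃ₜ E} (hh : PD 1 h) :
    ∃ y : E, y ≠ 0 ∧ Conn h {y} := by
  have hnt : Nontrivial E := Module.nontrivial_of_finrank_pos (R := ℝ) (by omega)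
  obtain ⟨q, hq⟩ := exists_ne (0 : E)
  obtain ⟨T, t1, t2, -, t4⟩ := hS E hdim q hq
  have hT0 : T 0 = q := by
    have := t2.self_of_nhds
    rw [this]; simp
  set F : E ≃ₜ E := h * T * h⁻¹ with hF
  -- the germ `h ∘ T` at the origin
  have hφ : ∀ᶠ x in 𝓝 (0 : E), LD 1 (h * T : E ≃ₜ E) x := by
    have hc : Tendsto T (𝓝 0) (𝓝 q) := by
      have := T.continuous.tendsto 0
      rwa [hT0] at this
    filter_upwards [hc.eventually (isOpen_ne.mem_nhds hq)] with x hx
    exact LD.mul_one' (hh.2 _ hx) (t1 x)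
  obtain ⟨H, g1, g2, g3⟩ := germ_move hG hS hdim (h * T : E ≃ₜ E) 0 hφ
  set s : E := (T⁻¹ : E ≃ₜ E) 0 with hs
  have hTs : T s = 0 := apply_inv_self' T 0
  have hs0 : s ≠ 0 := by
    intro h0
    rw [h0, hT0] at hTs
    exact hq hTs
  set y : E := h s with hy
  have hy0 : y ≠ 0 := hh.ne hs0
  -- `F' = H⁻¹ F` is `h⁻¹` near the origin
  set F' : E ≃ₜ E := H⁻¹ * F with hF'
  have hF'near : ∀ᶠ x in 𝓝 (0 : E), F' x = (h⁻¹ : E ≃ₜ E) x := by
    have c1 : Tendsto (h⁻¹ : E ≃ₜ E) (𝓝 0) (𝓝 0) := by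
      have := (h⁻¹ : E ≃ₜ E).continuous.tendsto 0
      rwa [hh.inv_zero] at this
    filter_upwards [c1.eventually g2] with x hx
    show (H⁻¹ : E ≃ₜ E) ((h * T : E ≃ₜ E) ((h⁻¹ : E ≃ₜ E) x)) = _
    rw [← hx, inv_apply_self']
  have hF'0 : F' 0 = 0 := by
    have := hF'near.self_of_nhds
    rw [this, hh.inv_zero]
  have hF'inf : EqInf F' 1 := by
    have h1 : EqInf F' (1⁻¹ * (h * 1 * h⁻¹)) :=
      (g3.eqInf.inv).mul (((EqInf.refl h).mul t4.eqInf).mul (EqInf.refl _))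
    simpa using h1
  have hF'L : ∀ x, x ≠ 0 → x ≠ y → LD 1 F' x := by
    intro x hx0 hxy
    have h1 : LD 1 (h⁻¹ : E ≃ₜ E) x := hh.inv.2 x hx0
    have h2 : LD 1 h (T ((h⁻¹ : E ≃ₜ E) x)) := by
      apply hh.2
      intro h0
      apply hxy
      have h3 : (h⁻¹ : E ≃ₜ E) x = s := T.injective (h0.trans hTs.symm)
      rw [hy, ← h3, apply_inv_self']
    exact (LD_all_inv g1 (F x)).mul_one' ((h2.mul_one' (t1 _)).mul_one' h1)
  refine ⟨y, hy0, h * F', ?_, ?_, ?_⟩
  · filter_upwards [hF'near] with x hx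
    show h (F' x) = x
    rw [hx, apply_inv_self']
  · have := (EqInf.refl h).mul hF'inf
    rwa [mul_one] at this
  · intro x hx
    rw [mem_singleton_iff] at hx
    by_cases hx0 : x = 0
    · subst hx0
      have hev : (fun y : E => y) =ᶠ[𝓝 (0 : E)] (h * F' : E ≃ₜ E) := by
        filter_upwards [hF'near] with x hx
        show x = h (F' x)
        rw [hx, apply_inv_self']
      exact (LD_id 0).congr hev
    · have h1 : F' x ≠ 0 := by
        intro h0
        exact hx0 (F'.injective (h0.trans hF'0.symm))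
      exact (hh.2 _ h1).mul_one' (hF'L x hx0 hx)

include hR in
/-- a radial diffeomorphism which is the identity near the origin and for large arguments and
which makes a given ball small -/
theorem exists_squeeze {r R R' : ℝ} (hr : 0 < r) (hR0 : 0 < R) (hRR : R < R') :
    ∃ s : E ≃ₜ E, (∀ x, LD 1 s x) ∧ (∀ᶠ x in 𝓝 (0 : E), s x = x) ∧
      (∀ x, ‖x‖ ≤ R → ‖s x‖ < r) ∧ ∀ x, R' ≤ ‖x‖ → s x = x := by
  -- `s₁` contracts the ball of radius `R` by the factor `ε`
  set ε : ℝ := min (1 / 2) (r / (2 * R)) with hε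
  have hε0 : 0 < ε := lt_min (by norm_num) (by positivity)
  have hε1 : ε ≤ 1 := (min_le_left _ _).trans (by norm_num)
  obtain ⟨s₁, a1, a2, a3⟩ := hR E ε R R' hε0 hε1 hR0 hRR
  obtain ⟨s₂, b1, b2, b3⟩ := hR E ε (R / 2) R hε0 hε1 (by positivity) (by linarith)
  refine ⟨s₁ * s₂⁻¹, LD_all_mul a1 (LD_all_inv b1), ?_, ?_, ?_⟩
  · have hc : Tendsto (s₂⁻¹ : E ≃ₜ E) (𝓝 0) (𝓝 0) := by
      have h0 : s₂ 0 = 0 := by
        rw [b2 0 (by rw [norm_zero]; positivity), smul_zero]
      have h1 : (s₂⁻¹ : E ≃ₜ E) 0 = 0 := by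
        conv_lhs => rw [← h0]
        exact inv_apply_self' _ _
      have := (s₂⁻¹ : E ≃ₜ E).continuous.tendsto 0
      rwa [h1] at this
    have hball : closedBall (0 : E) (R / 2) ∈ 𝓝 (0 : E) := closedBall_mem_nhds _ (by positivity)
    filter_upwards [hc.eventually hball] with x hx
    have hx' : ‖(s₂⁻¹ : E ≃ₜ E) x‖ ≤ R / 2 := by simpa using hx
    show s₁ ((s₂⁻¹ : E ≃ₜ E) x) = x
    have h1 := b2 _ hx'
    rw [apply_inv_self'] at h1
    rw [a2 _ (hx'.trans (by linarith)), ← h1]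
  · intro x hx
    have h1 : ‖(s₂⁻¹ : E ≃ₜ E) x‖ ≤ R := by
      by_contra hcon
      push Not at hcon
      have h2 := b3 _ hcon.le
      rw [apply_inv_self'] at h2
      rw [← h2] at hcon
      linarith
    show ‖s₁ ((s₂⁻¹ : E ≃ₜ E) x)‖ < r
    rw [a2 _ h1, norm_smul, Real.norm_eq_abs, abs_of_pos hε0]
    calc ε * ‖(s₂⁻¹ : E ≃ₜ E) x‖ ≤ (r / (2 * R)) * R := by
          apply mul_le_mul (min_le_right _ _) h1 (norm_nonneg _) (by positivity)
      _ = r / 2 := by field_simp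
      _ < r := by linarith
  · intro x hx
    show s₁ ((s₂⁻¹ : E ≃ₜ E) x) = x
    have h1 : s₂ x = x := b3 x (hRR.le.trans hx)
    have h2 : (s₂⁻¹ : E ≃ₜ E) x = x := by
      conv_lhs => rw [← h1]
      exact inv_apply_self' _ _
    rw [h2, a3 x hx]

end

end Pool.Agent.HopfCov
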