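import Pool.Agent.HopfCov.Spec2
import Pool.Agent.HopfCov.Conn

/-!
# Conjugation by a diffeomorphism of the punctured space which exchanges the two ends
-/

set_option autoImplicit false
set_option linter.unusedSectionVars false

open scoped ContDiff Topology
open Set Filter Metric

namespace Pool.Agent.HopfCov

variable {E : Type} [NormedAddCommGroup E] [InnerProductSpace ℝ E] [FiniteDimensional ℝ E]

open Classical in
/-- the map `ψ ∘ A ∘ φ` on the punctured space, extended by `0 ↦ 0` -/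
noncomputable def swapFun (ψ φ : E → E) (A : E ≃ₜ E) (x : E) : E :=
  if x = 0 then 0 else ψ (A (φ x))

theorem swapFun_zero (ψ φ : E → E) (A : E ≃ₜ E) : swapFun ψ φ A 0 = 0 := if_pos rfl

theorem swapFun_ne (ψ φ : E → E) (A : E ≃ₜ E) {x : E} (hx : x ≠ 0) :
    swapFun ψ φ A x = ψ (A (φ x)) := if_neg hx

theorem swapFun_near_zero {ψ φ : E → E} {A B c : E ≃ₜ E}
    (hφ : ∀ x, x ≠ 0 → φ x ≠ 0 ∧ ψ (φ x) = x ∧ LD 1 φ x)
    (hφ0 : Tendsto φ (𝓝[≠] 0) (cocompact E)) (hA : EqInf A B)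
    (hB : ∀ x, x ≠ 0 → ψ (B x) = c (ψ x)) (hc : c 0 = 0) :
    ∀ᶠ x in 𝓝 (0 : E), swapFun ψ φ A x = c x := by
  have h1 := hφ0.eventually hA
  rw [eventually_nhdsWithin_iff] at h1
  filter_upwards [h1] with x hx
  by_cases hx0 : x = 0
  · rw [hx0, swapFun_zero, hc]
  · rw [swapFun_ne _ _ _ hx0, hx hx0, hB _ (hφ x hx0).1, (hφ x hx0).2.1]

theorem swapFun_near_inf {ψ φ : E → E} {A : E ≃ₜ E}
    (hφ : ∀ x, x ≠ 0 → φ x ≠ 0 ∧ ψ (φ x) = x ∧ LD 1 φ x)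
    (hφi : Tendsto φ (cocompact E) (𝓝 0)) (hA : ∀ᶠ x in 𝓝 (0 : E), A x = x) :
    ∀ᶠ x in cocompact E, swapFun ψ φ A x = x := by
  have h0 : ({0} : Set E)ᶜ ∈ cocompact E := isCompact_singleton.compl_mem_cocompact
  filter_upwards [hφi.eventually hA, h0] with x hx hx0
  have hx0' : x ≠ 0 := hx0
  rw [swapFun_ne _ _ _ hx0', hx, (hφ x hx0').2.1]

theorem swapFun_continuous {ψ φ : E → E} {A B c : E ≃ₜ E}
    (hψ : ∀ x, x ≠ 0 → ψ x ≠ 0 ∧ φ (ψ x) = x ∧ LD 1 ψ x)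
    (hφ : ∀ x, x ≠ 0 → φ x ≠ 0 ∧ ψ (φ x) = x ∧ LD 1 φ x)
    (hφ0 : Tendsto φ (𝓝[≠] 0) (cocompact E)) (hA : EqInf A B) (hA0 : A 0 = 0)
    (hB : ∀ x, x ≠ 0 → ψ (B x) = c (ψ x)) (hc : c 0 = 0) :
    Continuous (swapFun ψ φ A) := by
  rw [continuous_iff_continuousAt]
  intro x
  by_cases hx0 : x = 0
  · subst hx0
    have hev := swapFun_near_zero hφ hφ0 hA hB hc
    exact c.continuous.continuousAt.congr (hev.mono fun _ h => h.symm)
  · have hev : (fun y => ψ (A (φ y))) =ᶠ[𝓝 x] swapFun ψ φ A := by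
      filter_upwards [isOpen_ne.mem_nhds hx0] with y hy
      rw [swapFun_ne _ _ _ hy]
    have hne : A (φ x) ≠ 0 := by
      intro h
      exact (hφ x hx0).1 (A.injective (h.trans hA0.symm))
    have h1 : ContinuousAt φ x := (hφ x hx0).2.2.continuousAt
    have h2 : ContinuousAt (fun y => A (φ y)) x :=
      ContinuousAt.comp (g := A) A.continuous.continuousAt h1
    have h3 : ContinuousAt (fun y => ψ (A (φ y))) x :=
      ContinuousAt.comp (g := ψ) (f := fun y => A (φ y)) (hψ _ hne).2.2.continuousAt h2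
    exact h3.congr hev

theorem swapFun_left_inv {ψ φ : E → E} {A : E ≃ₜ E}
    (hψ : ∀ x, x ≠ 0 → ψ x ≠ 0 ∧ φ (ψ x) = x ∧ LD 1 ψ x)
    (hφ : ∀ x, x ≠ 0 → φ x ≠ 0 ∧ ψ (φ x) = x ∧ LD 1 φ x) (hA0 : A 0 = 0) (x : E) :
    swapFun ψ φ A⁻¹ (swapFun ψ φ A x) = x := by
  by_cases hx0 : x = 0
  · rw [hx0, swapFun_zero, swapFun_zero]
  · have hne : A (φ x) ≠ 0 := by
      intro h
      exact (hφ x hx0).1 (A.injective (h.trans hA0.symm))
    rw [swapFun_ne _ _ _ hx0, swapFun_ne _ _ _ (hψ _ hne).1, (hψ _ hne).2.1, inv_apply_self',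
      (hφ x hx0).2.1]

section

variable (hG : SpecGermFix) (hS : SpecSwap)

include hG hS in
/-- **Conjugation by a diffeomorphism which exchanges the ends.** -/
theorem end_swap (hdim : 1 < Module.finrank ℝ E) {h k : E ≃ₜ E} (hh : PD 1 h) (hk : PD 1 k)
    {ψ φ : E → E}
    (hψ : ∀ x, x ≠ 0 → ψ x ≠ 0 ∧ φ (ψ x) = x ∧ LD 1 ψ x)
    (hφ : ∀ x, x ≠ 0 → φ x ≠ 0 ∧ ψ (φ x) = x ∧ LD 1 φ x)
    (hφ0 : Tendsto φ (𝓝[≠] 0) (cocompact E)) (hφi : Tendsto φ (cocompact E) (𝓝 0))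
    (hrel : ∀ x, x ≠ 0 → k (ψ x) = ψ ((h⁻¹ : E ≃ₜ E) x)) : Ext (k⁻¹ * h) := by
  obtain ⟨y₀, hy₀, Θ, hΘ0, hΘi, hΘL⟩ := PD.conn hG hS hdim hh
  have hΘz : Θ 0 = 0 := hΘ0.self_of_nhds
  have hΘiz : (Θ⁻¹ : E ≃ₜ E) 0 = 0 := by
    conv_lhs => rw [← hΘz]
    exact inv_apply_self' _ _
  have hrel' : ∀ x, x ≠ 0 → ψ (h x) = (k⁻¹ : E ≃ₜ E) (ψ x) := by
    intro x hx
    have h1 := hrel (h x) (hh.ne hx)
    rw [inv_apply_self'] at h1
    rw [← h1, inv_apply_self']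
  have hrel'' : ∀ x, x ≠ 0 → ψ ((h⁻¹ : E ≃ₜ E) x) = k (ψ x) := fun x hx => (hrel x hx).symm
  -- the conjugate of `Θ`
  set Q : E ≃ₜ E :=
    { toFun := swapFun ψ φ Θ
      invFun := swapFun ψ φ Θ⁻¹
      left_inv := swapFun_left_inv hψ hφ hΘz
      right_inv := fun x => by
        have := swapFun_left_inv (A := Θ⁻¹) hψ hφ hΘiz x
        rwa [inv_inv] at this
      continuous_toFun := swapFun_continuous hψ hφ hφ0 hΘi hΘz hrel' hk.inv_zero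
      continuous_invFun := swapFun_continuous hψ hφ hφ0 hΘi.inv hΘiz hrel'' hk.1 } with hQ
  have hQa : ∀ x, Q x = swapFun ψ φ Θ x := fun _ => rfl
  have hQi : ∀ x, (Q⁻¹ : E ≃ₜ E) x = swapFun ψ φ Θ⁻¹ x := fun _ => rfl
  have hQz : Q 0 = 0 := swapFun_zero _ _ _
  have hQiz : (Q⁻¹ : E ≃ₜ E) 0 = 0 := swapFun_zero _ _ _
  have hQinf : EqInf Q 1 := swapFun_near_inf hφ hφi hΘ0
  have hQi0 : ∀ᶠ x in 𝓝 (0 : E), (Q⁻¹ : E ≃ₜ E) x = k x :=
    swapFun_near_zero hφ hφ0 hΘi.inv hrel'' hk.1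
  set w : E := Θ y₀ with hw
  have hw0 : w ≠ 0 := by
    intro h0
    exact hy₀ (Θ.injective (h0.trans hΘz.symm))
  set y₁ : E := ψ w with hy₁
  -- `Q` off `0` and `ψ y₀`
  have hQL : ∀ x, x ≠ 0 → φ x ≠ y₀ → LD 1 Q x := by
    intro x hx0 hxy
    have hne : Θ (φ x) ≠ 0 := by
      intro h0
      exact (hφ x hx0).1 (Θ.injective (h0.trans hΘz.symm))
    have h1 : LD 1 Θ (φ x) := hΘL _ hxy
    have h3 : LD 1 (fun y => Θ (φ y)) x := by
      have := LD.comp (f := φ) h1 (hφ x hx0).2.2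
      rwa [one_mul] at this
    have h2 := LD.comp (g := ψ) (f := fun y => Θ (φ y)) (hψ _ hne).2.2 h3
    rw [one_mul] at h2
    refine h2.congr ?_
    filter_upwards [isOpen_ne.mem_nhds hx0] with y hy
    exact (swapFun_ne ψ φ Θ hy).symm
  -- `k⁻¹ Q⁻¹` off `y₁`
  have hL' : ∀ u, u ≠ y₁ → LD 1 (k⁻¹ * Q⁻¹ : E ≃ₜ E) u := by
    intro u hu
    by_cases hu0 : u = 0
    · subst hu0
      refine (LD_id 0).congr ?_
      filter_upwards [hQi0] with x hx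
      show x = (k⁻¹ : E ≃ₜ E) ((Q⁻¹ : E ≃ₜ E) x)
      rw [hx, inv_apply_self']
    · have hv0 : (Q⁻¹ : E ≃ₜ E) u ≠ 0 := by
        intro h0
        exact hu0 ((Q⁻¹ : E ≃ₜ E).injective (h0.trans hQiz.symm))
      have hvy : φ ((Q⁻¹ : E ≃ₜ E) u) ≠ y₀ := by
        intro h0
        apply hu
        have h1 : Q ((Q⁻¹ : E ≃ₜ E) u) = u := apply_inv_self' _ _
        rw [hQa, swapFun_ne _ _ _ hv0, h0] at h1
        rw [← h1]
      exact (hk.inv.2 _ hv0).mul_one' (LD.inv' (hQL _ hv0 hvy))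
  obtain ⟨K, k1, k2, k3⟩ := germ_move hG hS hdim ψ w (by
    filter_upwards [isOpen_ne.mem_nhds hw0] with x hx
    exact (hψ x hx).2.2)
  have hKw : K w = y₁ := k2.self_of_nhds
  refine ⟨k⁻¹ * Q⁻¹ * K * Θ, ?_, ?_⟩
  · intro x
    by_cases hx : x = y₀
    · subst hx
      have h1 : LD 1 ψ x := (hψ x hy₀).2.2
      have h2 := (hk.inv.2 _ (hψ x hy₀).1).comp h1
      rw [one_mul] at h2
      refine h2.congr ?_
      have c1 : Tendsto Θ (𝓝 x) (𝓝 w) := Θ.continuous.tendsto x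
      filter_upwards [c1.eventually k2, isOpen_ne.mem_nhds hy₀] with y hy1 hy0
      show (k⁻¹ : E ≃ₜ E) (ψ y) = (k⁻¹ : E ≃ₜ E) ((Q⁻¹ : E ≃ₜ E) (K (Θ y)))
      have hΘy : Θ y ≠ 0 := by
        intro h0
        exact hy0 (Θ.injective (h0.trans hΘz.symm))
      rw [hy1, hQi, swapFun_ne _ _ _ (hψ _ hΘy).1, (hψ _ hΘy).2.1, inv_apply_self']
    · have h1 : LD 1 Θ x := hΘL x hx
      have h2 : K (Θ x) ≠ y₁ := by
        intro h0
        exact hx (Θ.injective (K.injective (h0.trans hKw.symm)))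
      exact ((hL' _ h2).mul_one' (k1 (Θ x))).mul_one' h1
  · have h5 : EqInf (k⁻¹ * Q⁻¹ * K * Θ) (k⁻¹ * 1⁻¹ * 1 * h) :=
      (((EqInf.refl k⁻¹).mul hQinf.inv).mul k3.eqInf).mul hΘi
    simpa using h5

include hG hS in
theorem specEndSwap : SpecEndSwap := by
  intro E _ _ _ hdim h k hh hk ψ φ hψ hφ _ hφ0 _ hφi hrel
  exact end_swap hG hS hdim hh hk hψ hφ hφ0 hφi hrel

end

end Pool.Agent.HopfCov
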