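import Pool.Agent.HopfCov.Spec4
import Pool.Agent.HopfCov.EndSwap

/-!
# Lifts of diffeomorphisms: derivative, sign of the Jacobian determinant, exchange of the ends
-/

set_option autoImplicit false
set_option linter.unusedSectionVars false

open scoped ContDiff Topology Manifold
open Set Filter Metric

namespace Pool.Agent.HopfCov

/-! ### the extension by zero -/

theorem ext0_val (f : V4 → V4) (x : V4) : ext0 f (x : E4) = (f x : E4) := by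
  have hx : (x : E4) ≠ 0 := x.2
  rw [ext0, dif_pos hx]

theorem ext0_mk (f : V4 → V4) {x : E4} (hx : x ≠ 0) : ext0 f x = (f ⟨x, hx⟩ : E4) :=
  dif_pos hx

theorem ext0_ne0 (f : V4 → V4) {x : E4} (hx : x ≠ 0) : ext0 f x ≠ 0 := by
  rw [ext0_mk f hx]
  exact V4_ne _

theorem ext0_inv (Ψ : V4 ≃ₜ V4) {x : E4} (hx : x ≠ 0) :
    ext0 (Ψ⁻¹ : V4 ≃ₜ V4) (ext0 Ψ x) = x := by
  rw [ext0_mk Ψ hx, ext0_val]
  have h1 : (Ψ⁻¹ : V4 ≃ₜ V4) (Ψ ⟨x, hx⟩) = ⟨x, hx⟩ := Ψ.symm_apply_apply _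
  rw [h1]

theorem ext0_inv' (Ψ : V4 ≃ₜ V4) {x : E4} (hx : x ≠ 0) :
    ext0 Ψ (ext0 (Ψ⁻¹ : V4 ≃ₜ V4) x) = x := by
  rw [ext0_mk _ hx, ext0_val]
  have h1 : Ψ ((Ψ⁻¹ : V4 ≃ₜ V4) ⟨x, hx⟩) = ⟨x, hx⟩ := Ψ.apply_symm_apply _
  rw [h1]

theorem contDiffAt_ext0 {f : V4 → V4} {x : V4} (h : ContMDiffAt (𝓡 4) (𝓡 4) ∞ f x) :
    ContDiffAt ℝ ∞ (ext0 f) (x : E4) := by
  have h1 : ContMDiffAt (𝓡 4) 𝓘(ℝ, E4) ∞ (fun y : V4 => (f y : E4)) x :=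
    (contMDiff_subtype_val (f x)).comp x h
  have h2 : ContMDiffAt (𝓡 4) 𝓘(ℝ, E4) ∞ (fun y : V4 => ext0 f y) x := by
    have h3 : (fun y : V4 => ext0 f y) = fun y : V4 => (f y : E4) := funext (ext0_val f)
    rw [h3]
    exact h1
  exact (contMDiffAt_subtype_iff.1 h2).contDiffAt

/-- T1 -/
theorem specMfderiv : SpecMfderiv := by
  intro f x hf
  have hmd : MDifferentiableAt (𝓡 4) (𝓡 4) f x := hf.mdifferentiableAt (by simp)
  have h2 := TopologicalSpace.Opens.chartAt_subtype_val_symm_eventuallyEq (H := E4) V4 (x := x)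
  have h1 : writtenInExtChartAt (𝓡 4) (𝓡 4) x f =ᶠ[𝓝 (x : E4)] ext0 f := by
    have h3 : ∀ᶠ y in 𝓝 (x : E4), ((chartAt E4 (x : E4)).symm y) =
        (((chartAt E4 x).symm y : V4) : E4) := h2
    filter_upwards [h3, isOpen_ne.mem_nhds (V4_ne x)] with y hy hy0
    have hy1 : y = (((chartAt E4 x).symm y : V4) : E4) := hy
    have hy2 : (chartAt E4 x).symm y = (⟨y, hy0⟩ : V4) := Subtype.ext hy1.symm
    rw [ext0_mk f hy0, ← hy2]
    rfl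
  rw [mfderiv, if_pos hmd]
  have h4 : (extChartAt (𝓡 4) x) x = (x : E4) := rfl
  rw [h4]
  simp only [ModelWithCorners.range_eq_univ, fderivWithin_univ]
  exact h1.fderiv_eq

theorem contMDiffAt_inv4 {Ψ : V4 ≃ₜ V4} {x : V4}
    (h : IsLocalDiffeomorphAt (𝓡 4) (𝓡 4) ∞ Ψ x) :
    ContMDiffAt (𝓡 4) (𝓡 4) ∞ (Ψ⁻¹ : V4 ≃ₜ V4) (Ψ x) := by
  have h1 := h.localInverse_contMDiffAt
  refine h1.congr_of_eventuallyEq ?_
  filter_upwards [h.localInverse_open_source.mem_nhds h.localInverse_mem_source] with y hy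
  have h2 := h.localInverse_right_inv hy
  show Ψ.symm y = _
  rw [Homeomorph.symm_apply_eq]
  exact h2.symm

/-- the determinants of the derivatives of mutually inverse maps -/
theorem det_mul_ext0 {Ψ : V4 ≃ₜ V4} {x : V4} (h : IsLocalDiffeomorphAt (𝓡 4) (𝓡 4) ∞ Ψ x) :
    (fderiv ℝ (ext0 (Ψ⁻¹ : V4 ≃ₜ V4)) (Ψ x : E4)).det * (fderiv ℝ (ext0 Ψ) (x : E4)).det = 1 := by
  have h1 : ContDiffAt ℝ ∞ (ext0 (Ψ⁻¹ : V4 ≃ₜ V4)) (ext0 Ψ (x : E4)) := by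
    rw [ext0_val]
    exact contDiffAt_ext0 (contMDiffAt_inv4 h)
  have h2 : ContDiffAt ℝ ∞ (ext0 Ψ) (x : E4) := contDiffAt_ext0 h.contMDiffAt
  have hcomp : HasFDerivAt (fun y => ext0 (Ψ⁻¹ : V4 ≃ₜ V4) (ext0 Ψ y))
      ((fderiv ℝ (ext0 (Ψ⁻¹ : V4 ≃ₜ V4)) (ext0 Ψ (x : E4))).comp
        (fderiv ℝ (ext0 Ψ) (x : E4))) (x : E4) :=
    ((h1.differentiableAt (by simp)).hasFDerivAt).comp (x : E4)
      (h2.differentiableAt (by simp)).hasFDerivAt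
  have hid : (fun y => ext0 (Ψ⁻¹ : V4 ≃ₜ V4) (ext0 Ψ y)) =ᶠ[𝓝 (x : E4)] fun y => y := by
    filter_upwards [isOpen_ne.mem_nhds (V4_ne x)] with y hy
    exact ext0_inv Ψ hy
  have hcomp' := hcomp.fderiv
  rw [hid.fderiv_eq, ext0_val] at hcomp'
  rw [← det_comp_clm, ← hcomp', fderiv_fun_id]
  simp [ContinuousLinearMap.det]

/-- the inverse of a local diffeomorphism of the punctured space -/
theorem LD_ext0_inv {s : ℝ} {Ψ : V4 ≃ₜ V4} {x : V4}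
    (h : IsLocalDiffeomorphAt (𝓡 4) (𝓡 4) ∞ Ψ x) (hs : LD s (ext0 Ψ) (x : E4)) :
    LD s (ext0 (Ψ⁻¹ : V4 ≃ₜ V4)) (Ψ x : E4) := by
  refine ⟨contDiffAt_ext0 (contMDiffAt_inv4 h), ?_⟩
  have h1 := det_mul_ext0 h
  have h2 := hs.2
  set a := (fderiv ℝ (ext0 (Ψ⁻¹ : V4 ≃ₜ V4)) (Ψ x : E4)).det
  set b := (fderiv ℝ (ext0 Ψ) (x : E4)).det
  have hb : b ≠ 0 := by
    intro h0
    rw [h0, mul_zero] at h1
    exact zero_ne_one h1
  have ha : a = b⁻¹ := eq_inv_of_mul_eq_one_left h1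
  rw [ha]
  have h3 : s * b⁻¹ = (s * b) * (b⁻¹ * b⁻¹) := by
    field_simp
  rw [h3]
  exact mul_pos h2 (mul_self_pos.2 (inv_ne_zero hb))

/-- T2 -/
theorem specSign : SpecSign := by
  intro Ψ hΨ
  have hd : ∀ x : E4, x ≠ 0 → ContDiffAt ℝ ∞ (ext0 Ψ) x := fun x hx =>
    contDiffAt_ext0 (x := (⟨x, hx⟩ : V4)) (hΨ ⟨x, hx⟩).contMDiffAt
  have hdet : ∀ x : E4, x ≠ 0 → (fderiv ℝ (ext0 Ψ) x).det ≠ 0 := by
    intro x hx h0
    have h1 := det_mul_ext0 (hΨ ⟨x, hx⟩)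
    have h2 : (fderiv ℝ (ext0 Ψ) ((⟨x, hx⟩ : V4) : E4)).det = 0 := h0
    rw [h2, mul_zero] at h1
    exact zero_ne_one h1
  have hcont : ContinuousOn (fun x : E4 => (fderiv ℝ (ext0 Ψ) x).det) {0}ᶜ := by
    have h1 : ContDiffOn ℝ ∞ (ext0 Ψ) {0}ᶜ := fun x hx => (hd x hx).contDiffWithinAt
    exact ContinuousLinearMap.continuous_det.comp_continuousOn
      (h1.continuousOn_fderiv_of_isOpen isOpen_compl_singleton (by simp))
  have hconn : IsPreconnected ({0}ᶜ : Set E4) := by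
    refine (isConnected_compl_singleton_of_one_lt_rank ?_ 0).isPreconnected
    rw [rank_eq_card_basis (EuclideanSpace.basisFun (Fin 4) ℝ).toBasis]
    simp
  obtain ⟨x₀, hx₀⟩ : ∃ x₀ : E4, x₀ ≠ 0 := exists_ne 0
  rcases lt_or_gt_of_ne (hdet x₀ hx₀) with h | h
  · refine Or.inr fun x hx => ⟨hd x hx, ?_⟩
    have h1 : (fderiv ℝ (ext0 Ψ) x).det < 0 := by
      by_contra hcon
      obtain ⟨y, hy, hy0⟩ := hconn.intermediate_value hx₀ hx hcont ⟨h.le, not_lt.1 hcon⟩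
      exact hdet y hy hy0
    linarith
  · refine Or.inl fun x hx => ⟨hd x hx, ?_⟩
    have h1 : 0 < (fderiv ℝ (ext0 Ψ) x).det := by
      by_contra hcon
      obtain ⟨y, hy, hy0⟩ := hconn.intermediate_value hx hx₀ hcont ⟨not_lt.1 hcon, h.le⟩
      exact hdet y hy hy0
    linarith

/-! ### homeomorphisms which exchange the ends -/

/-- `Ψ` exchanges the two ends of the punctured space -/
theorem swap_ends {Ψ : V4 ≃ₜ V4} (h : ¬ ∃ H : E4 ≃ₜ E4, Extends H Ψ) :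
    Tendsto (ext0 Ψ) (𝓝[≠] 0) (cocompact E4) ∧ Tendsto (ext0 Ψ) (cocompact E4) (𝓝 0) := by
  rcases specEnds E4 hdim4 Ψ with ⟨H, -, hH⟩ | ⟨hinf, hzero⟩
  · exact absurd ⟨H, hH⟩ h
  · constructor
    · rw [← Metric.cobounded_eq_cocompact, ← tendsto_norm_atTop_iff_cobounded,
        Filter.tendsto_atTop]
      intro R
      obtain ⟨t, ht, hts⟩ := mem_comap.1 (hinf R)
      rw [eventually_nhdsWithin_iff]
      filter_upwards [ht] with x hx hx0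
      have hx0' : x ≠ 0 := hx0
      rw [ext0_mk Ψ hx0']
      exact hts (a := (⟨x, hx0⟩ : {x : E4 // x ≠ 0})) hx
    · have h0 : ({0} : Set E4)ᶜ ∈ cocompact E4 := isCompact_singleton.compl_mem_cocompact
      rw [tendsto_zero_iff_norm_tendsto_zero, Metric.tendsto_nhds]
      intro ε hε
      obtain ⟨t, ht, hts⟩ := mem_comap.1 (hzero (ε / 2) (by positivity))
      filter_upwards [ht, h0] with x hx hx0
      have hx0' : x ≠ 0 := hx0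
      have h1 : ‖ext0 Ψ x‖ ≤ ε / 2 := by
        rw [ext0_mk Ψ hx0']
        exact hts (a := (⟨x, hx0⟩ : {x : E4 // x ≠ 0})) hx
      rw [Real.dist_eq, sub_zero, abs_of_nonneg (norm_nonneg _)]
      linarith

theorem swap_inv {Ψ : V4 ≃ₜ V4} (h : ¬ ∃ H : E4 ≃ₜ E4, Extends H Ψ) :
    ¬ ∃ H : E4 ≃ₜ E4, Extends H (Ψ⁻¹ : V4 ≃ₜ V4) := by
  rintro ⟨H, hH⟩
  refine h ⟨H⁻¹, ?_⟩
  have := hH.inv
  rwa [inv_inv] at this

/-- the relation between functions from the relation between homeomorphisms -/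
theorem ext0_rel {Ψ g k : V4 ≃ₜ V4} {G K : E4 ≃ₜ E4} (hG : Extends G g) (hK : Extends K k)
    (h : Ψ * g * Ψ⁻¹ = k) {x : E4} (hx : x ≠ 0) : ext0 Ψ (G x) = K (ext0 Ψ x) := by
  have h1 : G x = (g ⟨x, hx⟩ : E4) := hG ⟨x, hx⟩
  rw [h1, ext0_val, ext0_mk Ψ hx, hK]
  congr 1
  have h2 : Ψ * g = k * Ψ := by rw [← h]; group
  exact congrArg (fun f : V4 ≃ₜ V4 => f ⟨x, hx⟩) h2

/-- T3 -/
theorem specLiftSwap : SpecLiftSwap := by
  intro Ψ g k G K hΨ hs hne hGg hKk hG hK hrel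
  have hsw := swap_ends hne
  have hsw' := swap_ends (swap_inv hne)
  have hs' : ∀ x : E4, x ≠ 0 → LD 1 (ext0 (Ψ⁻¹ : V4 ≃ₜ V4)) x := by
    intro x hx
    have h1 := LD_ext0_inv (hΨ ((Ψ⁻¹ : V4 ≃ₜ V4) ⟨x, hx⟩)) (hs _ (V4_ne _))
    have h2 : Ψ ((Ψ⁻¹ : V4 ≃ₜ V4) ⟨x, hx⟩) = ⟨x, hx⟩ := Ψ.apply_symm_apply _
    rwa [h2] at h1
  have h1 : Ext (K⁻¹ * G) := by
    refine specEndSwap hGerm hSwap E4 hdim4 G K hG hK (ext0 Ψ) (ext0 (Ψ⁻¹ : V4 ≃ₜ V4))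
      (fun x hx => ⟨ext0_ne0 _ hx, ext0_inv Ψ hx, hs x hx⟩)
      (fun x hx => ⟨ext0_ne0 _ hx, ext0_inv' Ψ hx, hs' x hx⟩) hsw.1 hsw'.1 hsw.2 hsw'.2 ?_
    intro x hx
    have h2 : Ψ * g⁻¹ * Ψ⁻¹ = k := by
      have h3 : Ψ * g⁻¹ * Ψ⁻¹ = (Ψ * g * Ψ⁻¹)⁻¹ := by group
      rw [h3, hrel, inv_inv]
    exact (ext0_rel hGg.inv hKk h2 hx).symm
  have h2 := Ext.conj hGerm hSwap hdim4 (one_mul (1 : ℝ)) h1.inv hG
  have h3 : G * (K⁻¹ * G)⁻¹ * G⁻¹ = K * G⁻¹ := by group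
  rwa [h3] at h2

/-- T5 -/
theorem specSwapMul : SpecSwapMul := by
  intro Ψ Ψ' h h'
  by_contra hcon
  have h1 := (swap_ends hcon).2
  have h2 := (swap_ends h').2
  have h3 := (swap_ends h).1
  have h0 : ({0} : Set E4)ᶜ ∈ cocompact E4 := isCompact_singleton.compl_mem_cocompact
  have h2' : Tendsto (ext0 Ψ') (cocompact E4) (𝓝[≠] 0) := by
    refine tendsto_nhdsWithin_iff.2 ⟨h2, ?_⟩
    filter_upwards [h0] with x hx
    exact ext0_ne0 Ψ' hx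
  have h4 : Tendsto (ext0 (Ψ * Ψ' : V4 ≃ₜ V4)) (cocompact E4) (cocompact E4) := by
    refine (h3.comp h2').congr' ?_
    filter_upwards [h0] with x hx
    have hx0 : x ≠ 0 := hx
    show ext0 Ψ (ext0 Ψ' x) = _
    rw [ext0_mk Ψ' hx0, ext0_val, ext0_mk _ hx0]
    rfl
  have hnb : (cocompact E4).NeBot := inferInstance
  rw [← Metric.cobounded_eq_cocompact] at h1 h4 hnb
  rw [← tendsto_norm_atTop_iff_cobounded, Filter.tendsto_atTop] at h4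
  have h5 := h1.norm
  rw [norm_zero] at h5
  have h6 := h5.eventually (gt_mem_nhds (show (0 : ℝ) < 1 by norm_num))
  obtain ⟨x, hx1, hx2⟩ := ((h4 1).and h6).exists
  exact absurd hx2 (not_lt.2 hx1)

theorem Contr.tendsto4 {g : E4 ≃ₜ E4} (hg : Contr g) (x : E4) :
    Tendsto (fun n : ℕ => (g ^ n) x) atTop (𝓝 0) := by
  rw [Metric.tendsto_atTop]
  intro ε hε
  obtain ⟨n₀, hn₀⟩ := hg ‖x‖ ε hε
  exact ⟨n₀, fun n hn => by rw [dist_zero_right]; exact hn₀ n hn x le_rfl⟩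

/-- T6 -/
theorem specSwapContr : SpecSwapContr := by
  intro Ψ g k G K hne hGg hKk cG cK hrel
  obtain ⟨e, he⟩ : ∃ e : E4, e ≠ 0 := exists_ne 0
  have hpow : ∀ n : ℕ, ext0 Ψ ((G ^ n) e) = (K ^ n) (ext0 Ψ e) := by
    intro n
    refine ext0_rel (hGg.pow n) (hKk.pow n) ?_ he
    rw [← hrel, conj_pow]
  have hne' : ∀ n : ℕ, (G ^ n) e ≠ 0 := by
    intro n
    have h1 : (G ^ n) e = ((g ^ n) ⟨e, he⟩ : V4) := hGg.pow n ⟨e, he⟩
    rw [h1]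
    exact V4_ne _
  have h2 : Tendsto (fun n : ℕ => (G ^ n) e) atTop (𝓝[≠] 0) :=
    tendsto_nhdsWithin_iff.2 ⟨cG.tendsto4 e, Eventually.of_forall hne'⟩
  have h3 := (swap_ends hne).1.comp h2
  have h4 : Tendsto (fun n : ℕ => (K ^ n) (ext0 Ψ e)) atTop (cocompact E4) := by
    refine h3.congr fun n => ?_
    exact hpow n
  rw [← Metric.cobounded_eq_cocompact, ← tendsto_norm_atTop_iff_cobounded,
    Filter.tendsto_atTop] at h4
  have h5 := (cK.tendsto4 (ext0 Ψ e)).norm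
  rw [norm_zero] at h5
  have h6 := h5.eventually (gt_mem_nhds (show (0 : ℝ) < 1 by norm_num))
  obtain ⟨n, hn1, hn2⟩ := ((h4 1).and h6).exists
  exact absurd hn2 (not_lt.2 hn1)

end Pool.Agent.HopfCov
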