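import Pool.Agent.HopfCov.Statement
import Pool.Agent.HopfCov.Final3
import Pool.Agent.HopfCov.Lifts
import Pool.Agent.HopfCov.Inv

/-!
# From the statements to the library
-/

set_option autoImplicit false

open scoped ContDiff Topology Manifold
open Set Filter Metric

namespace Pool.Agent.HopfCov.Smooth

theorem oriented_iff {M : Mfd4} {p : Punctured → M} :
    OrientedBy p ↔ Oriented (M := M.carrier) p := Iff.rfl

theorem preserves_iff {M : Mfd4} {p : Punctured → M} {q : M → M} :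
    Preserves p q ↔ OrPres (X := M.carrier) (Y := M.carrier) p p q := Iff.rfl

theorem preservesOver_iff {M N N' : Mfd4} {p : Punctured → M} {q : N → M} {q' : N' → M}
    {F : N → N'} : PreservesOver p q q' F ↔
      OrPresOver (M := M.carrier) (N := N.carrier) (N' := N'.carrier) p q q' F := Iff.rfl

theorem diffeoS1S3_iff {M : Mfd4} : DiffeoS1S3 M ↔ Std M.carrier := Iff.rfl

theorem Cover.old {N M : Mfd4} {m : ℕ} {q : N → M} (h : Cover m q) :
    SmoothCover (N := N.carrier) (M := M.carrier) m q := ⟨h.cov, h.loc, h.sheets⟩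

theorem SmoothCover.new {N M : Mfd4} {m : ℕ} {q : N → M}
    (h : SmoothCover (N := N.carrier) (M := M.carrier) m q) : Cover m q := ⟨h.cov, h.loc, h.sheets⟩

theorem orbit_of_homeo {M : Mfd4} (hM : HomeoS1S3 M) {p : Punctured → M} (hp : IsCoveringMap p)
    (hp' : LocalDiffeo p) : T2Space M ∧ CompactSpace M ∧ ∃ g : V4 ≃ₜ V4,
      OrbitMap g (M := M.carrier) p := by
  obtain ⟨F⟩ := hM
  have hM' : Nonempty (M.carrier ≃ₜ Circle × sphere (0 : E4) 1) := ⟨F⟩
  obtain ⟨h1, g, h2⟩ := specDeck M.carrier hM' p hp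
  have F' : M.carrier ≃ₜ Circle × sphere (0 : E4) 1 := F
  have a1 : T2Space M.carrier := F'.symm.t2Space
  have a2 : CompactSpace M.carrier := F'.symm.compactSpace
  exact ⟨a1, a2, g, ⟨h1, hp', h2⟩⟩

theorem compact_twisted : CompactSpace Twisted := by
  have h : IsCompact {p : ℂ × ℂ × EuclideanSpace ℝ (Fin 3) |
      ‖p.1‖ = 1 ∧ p.2.1 ^ 2 = ((‖p.2.1‖ ^ 2 : ℝ) : ℂ) * p.1 ∧
        ‖p.2.1‖ ^ 2 + ‖p.2.2‖ ^ 2 = 1} := by
    apply Metric.isCompact_of_isClosed_isBounded
    · refine (isClosed_eq (by fun_prop) (by fun_prop)).inter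
        ((isClosed_eq (by fun_prop) ?_).inter (isClosed_eq (by fun_prop) (by fun_prop)))
      exact (Complex.continuous_ofReal.comp (by fun_prop)).mul (by fun_prop)
    · refine (isBounded_iff_forall_norm_le).2 ⟨1, ?_⟩
      rintro ⟨a, b, c⟩ ⟨h1, -, h3⟩
      have h1' : ‖a‖ = 1 := h1
      have h3' : ‖b‖ ^ 2 + ‖c‖ ^ 2 = 1 := h3
      have hb : ‖b‖ ≤ 1 := by nlinarith [sq_nonneg ‖c‖, norm_nonneg b]
      have hc : ‖c‖ ≤ 1 := by nlinarith [sq_nonneg ‖b‖, norm_nonneg c]
      exact max_le h1'.le (max_le hb hc)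
  exact isCompact_iff_compactSpace.1 h

theorem orbit_of_twisted {M : Mfd4} (hM : HomeoTwisted M) {p : Punctured → M}
    (hp : IsCoveringMap p) (hp' : LocalDiffeo p) : T2Space M ∧ CompactSpace M ∧
      ∃ g : V4 ≃ₜ V4, OrbitMap g (M := M.carrier) p := by
  have := compact_twisted
  obtain ⟨h1, g, h2⟩ := deckTwisted M.carrier hM p hp
  obtain ⟨F⟩ := hM
  exact ⟨F.symm.t2Space, F.symm.compactSpace, g, ⟨h1, hp', h2⟩⟩

/-- a bijective local diffeomorphism as a homeomorphism -/
noncomputable def toHomeo {M N : Mfd4} {F : M → N} (hF : IsDiffeo F) : M.carrier ≃ₜ N.carrier :=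
  Equiv.toHomeomorphOfContinuousOpen (Equiv.ofBijective F hF.1)
    (show Continuous F from (show IsLocalDiffeomorph (𝓡 4) (𝓡 4) ∞ F from hF.2).contMDiff.continuous)
    (show IsOpenMap F from (show IsLocalDiffeomorph (𝓡 4) (𝓡 4) ∞ F from hF.2).isOpenMap)

/-- a bijective local diffeomorphism as a diffeomorphism -/
noncomputable def toDiffeo {M N : Mfd4} {F : M → N} (hF : IsDiffeo F) :
    Diffeomorph (𝓡 4) (𝓡 4) M.carrier N.carrier ∞ :=
  diffeoOfHomeo (toHomeo hF) hF.2

/-! ### the twisted product -/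

/-- the reflection in the first coordinate -/
noncomputable def refl0 : E4 ≃ₗᵢ[ℝ] E4 :=
  (ℝ ∙ (EuclideanSpace.single 0 1 : E4))ᗮ.reflection

theorem refl0_apply (z : E4) (i : Fin 4) : refl0 z i = if i = 0 then - z 0 else z i := by
  rw [refl0, Submodule.reflection_orthogonal_apply, Submodule.reflection_singleton_apply]
  simp only [EuclideanSpace.norm_single, norm_one, one_pow, RCLike.ofReal_one, div_one,
    PiLp.neg_apply, PiLp.sub_apply, PiLp.smul_apply, EuclideanSpace.inner_single_left,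
    map_one, one_mul, EuclideanSpace.single_apply, smul_eq_mul]
  split_ifs with h
  · subst h
    simp
    ring
  · simp

theorem half_apply (z : E4) : (2⁻¹ : ℝ) • refl0 z = halfReflection z := by
  ext i
  rw [PiLp.smul_apply, refl0_apply, halfReflection]
  fin_cases i <;> simp <;> ring

theorem det_refl0 : (refl0.toContinuousLinearEquiv : E4 →L[ℝ] E4).det < 0 := by
  have hv : (EuclideanSpace.single 0 1 : E4) ≠ 0 := by
    intro h
    have := congrArg (fun z : E4 => z 0) h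
    simp at this
  have h1 : (refl0.toContinuousLinearEquiv : E4 →L[ℝ] E4).det = -1 := by
    have h2 := (ℝ ∙ (EuclideanSpace.single 0 1 : E4))ᗮ.det_reflection
    rw [Submodule.orthogonal_orthogonal, finrank_span_singleton hv, pow_one] at h2
    exact h2
  rw [h1]
  norm_num

theorem exists_half : ∃ ρ : V4 ≃ₜ V4, ∀ x : V4, (ρ x : E4) = halfReflection x := by
  obtain ⟨ρ, h1, -⟩ := exists_restr_LD (K := tauL refl0) (by rw [tauL_apply]; simp)
  exact ⟨ρ, fun x => by rw [← h1 x, tauL_apply, half_apply]⟩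

theorem iterate_half {ρ : V4 ≃ₜ V4} (hρ : ∀ x : V4, (ρ x : E4) = halfReflection x) (n : ℕ)
    (x : V4) : (((ρ ^ n) x : V4) : E4) = halfReflection^[n] x := by
  induction n with
  | zero => rfl
  | succ n ih =>
    rw [pow_succ', Function.iterate_succ_apply', ← ih, ← hρ]
    rfl

theorem sameOrbit_iff {ρ : V4 ≃ₜ V4} (hρ : ∀ x : V4, (ρ x : E4) = halfReflection x)
    (x y : V4) : SameOrbit x y ↔ ∃ n : ℤ, y = (ρ ^ n) x := by
  constructor
  · rintro ⟨n, h | h⟩
    · exact ⟨n, Subtype.ext (by rw [h, zpow_natCast, iterate_half hρ])⟩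
    · refine ⟨-n, ?_⟩
      have h1 : x = (ρ ^ n) y := Subtype.ext (by rw [h, iterate_half hρ])
      rw [h1, zpow_neg, zpow_natCast]
      exact ((ρ ^ n).symm_apply_apply y).symm
  · rintro ⟨n, rfl⟩
    cases n with
    | ofNat n =>
      refine ⟨n, Or.inl ?_⟩
      rw [Int.ofNat_eq_natCast, zpow_natCast, iterate_half hρ]
    | negSucc n =>
      refine ⟨n + 1, Or.inr ?_⟩
      rw [← iterate_half hρ, zpow_negSucc]
      congr 1
      exact ((ρ ^ (n + 1)).apply_symm_apply x).symm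

theorem IsTwisted.data {T : Mfd4} (hT : IsTwisted T) : ∃ (L : E4 ≃ₗᵢ[ℝ] E4)
    (_ : (L.toContinuousLinearEquiv : E4 →L[ℝ] E4).det < 0) (ρ : V4 ≃ₜ V4)
    (_ : ∀ x : V4, (ρ x : E4) = (2⁻¹ : ℝ) • L x) (_ : T1Space T.carrier) (pT : V4 → T.carrier),
    OrbitMap ρ pT := by
  obtain ⟨h1, pT, h2, h3, h4⟩ := hT
  obtain ⟨ρ, hρ⟩ := exists_half
  refine ⟨refl0, det_refl0, ρ, fun x => by rw [hρ, half_apply], inferInstance, pT, h2, h3,
    fun x y => ?_⟩
  exact (h4 x y).trans (sameOrbit_iff hρ x y)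

end Pool.Agent.HopfCov.Smooth
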