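import Pool.Agent.HopfCov.Basic

/-!
# Conjugating two contractions by gluing on fundamental domains
-/

set_option autoImplicit false
set_option linter.unusedSectionVars false

open scoped ContDiff Topology
open Set Filter Metric

namespace Pool.Agent.HopfCov

variable {E : Type} [NormedAddCommGroup E] [InnerProductSpace ℝ E] [FiniteDimensional ℝ E]

/-- the positive powers of `g` tend to zero uniformly on bounded sets -/
def Contr (g : E ≃ₜ E) : Prop :=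
  ∀ R ε : ℝ, 0 < ε → ∃ n₀ : ℕ, ∀ n ≥ n₀, ∀ x : E, ‖x‖ ≤ R → ‖(g ^ n) x‖ < ε

/-- `g` maps the closed unit ball into the open unit ball -/
def Trap (g : E ≃ₜ E) : Prop := ∀ x : E, ‖x‖ ≤ 1 → ‖g x‖ < 1

theorem Trap.pow {g : E ≃ₜ E} (hg : Trap g) (n : ℕ) {x : E} (hx : ‖x‖ ≤ 1) :
    ‖(g ^ n) x‖ ≤ 1 := by
  induction n with
  | zero => simpa using hx
  | succ n ih => rw [pow_succ', mul_apply']; exact (hg _ ih).le

/-- `x` lies in the `k`-th translate of the fundamental domain -/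
def InA (g : E ≃ₜ E) (k : ℤ) (x : E) : Prop :=
  ‖(g ^ (-k)) x‖ ≤ 1 ∧ 1 < ‖(g ^ (-(k + 1))) x‖

theorem zpow_apply_add (g : E ≃ₜ E) (m n : ℤ) (x : E) : (g ^ (m + n)) x = (g ^ m) ((g ^ n) x) := by
  rw [zpow_add]; rfl

theorem norm_le_of_le {g : E ≃ₜ E} (hg : Trap g) {j k : ℤ} (hjk : j ≤ k) {x : E}
    (hx : ‖(g ^ (-k)) x‖ ≤ 1) : ‖(g ^ (-j)) x‖ ≤ 1 := by
  obtain ⟨n, hn⟩ := Int.eq_ofNat_of_zero_le (sub_nonneg.2 hjk)
  have h1 : (-j : ℤ) = (n : ℤ) + (-k) := by omega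
  rw [h1, zpow_apply_add, zpow_natCast]
  exact hg.pow n hx

theorem exists_InA {g : E ≃ₜ E} (_ : Trap g) (hc : Contr g) {x : E} (hx : x ≠ 0) :
    ∃ k : ℤ, InA g k x := by
  obtain ⟨k, hk1, hk2⟩ := Int.exists_greatest_of_bdd (P := fun k : ℤ => ‖(g ^ (-k)) x‖ ≤ 1) (by
    obtain ⟨n₀, hn₀⟩ := hc 1 ‖x‖ (norm_pos_iff.2 hx)
    refine ⟨n₀, fun z hz => ?_⟩
    by_contra hcon
    push Not at hcon
    obtain ⟨n, hn⟩ := Int.eq_ofNat_of_zero_le (show (0 : ℤ) ≤ z by omega)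
    have h1 := hn₀ n (by omega) _ hz
    rw [hn, ← zpow_natCast, ← zpow_apply_add, add_neg_cancel, zpow_zero] at h1
    exact lt_irrefl _ h1) (by
    obtain ⟨n₀, hn₀⟩ := hc ‖x‖ 1 one_pos
    refine ⟨-(n₀ : ℤ), ?_⟩
    show ‖(g ^ (-(-(n₀ : ℤ)))) x‖ ≤ 1
    rw [neg_neg, zpow_natCast]
    exact (hn₀ n₀ le_rfl x le_rfl).le)
  refine ⟨k, hk1, ?_⟩
  by_contra hcon
  push Not at hcon
  have := hk2 (k + 1) hcon
  omega

theorem InA.unique {g : E ≃ₜ E} (hg : Trap g) {x : E} {j k : ℤ} (hj : InA g j x)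
    (hk : InA g k x) : j = k := by
  rcases lt_trichotomy j k with h | h | h
  · exact absurd (norm_le_of_le hg (show j + 1 ≤ k by omega) hk.1) (not_le.2 hj.2)
  · exact h
  · exact absurd (norm_le_of_le hg (show k + 1 ≤ j by omega) hj.1) (not_le.2 hk.2)

open Classical in
/-- the index of the translate of the fundamental domain containing `x` -/
noncomputable def lev (g : E ≃ₜ E) (x : E) : ℤ := if h : ∃ k, InA g k x then h.choose else 0

theorem lev_eq {g : E ≃ₜ E} (hg : Trap g) {x : E} {k : ℤ} (hk : InA g k x) : lev g x = k := by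
  have h : ∃ k, InA g k x := ⟨k, hk⟩
  rw [lev, dif_pos h]
  exact h.choose_spec.unique hg hk

/-- the data for gluing a conjugation between `g₁` and `g₂` -/
structure Glue (g₁ g₂ G : E ≃ₜ E) : Prop where
  out : ∃ ρ < (1 : ℝ), ∀ x, ρ ≤ ‖x‖ → G x = x
  eq : ∃ r R : ℝ, r < 1 ∧ 1 < R ∧ ∀ x, r ≤ ‖x‖ → ‖x‖ ≤ R → G (g₁ x) = g₂ x
  img : ∀ x, ‖(g₁⁻¹ : E ≃ₜ E) x‖ ≤ 1 ↔ ‖(g₂⁻¹ : E ≃ₜ E) (G x)‖ ≤ 1

theorem Glue.symm {g₁ g₂ G : E ≃ₜ E} (h : Glue g₁ g₂ G) : Glue g₂ g₁ G⁻¹ := by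
  obtain ⟨⟨ρ, hρ, h1⟩, ⟨r, R, hr, hR, h2⟩, h3⟩ := h
  refine ⟨⟨ρ, hρ, fun x hx => ?_⟩, ⟨r, R, hr, hR, fun x hx hx' => ?_⟩, fun x => ?_⟩
  · conv_lhs => rw [← h1 x hx]
    exact inv_apply_self' _ _
  · rw [← h2 x hx hx', inv_apply_self']
  · rw [h3, apply_inv_self']

theorem Glue.ball {g₁ g₂ G : E ≃ₜ E} (h : Glue g₁ g₂ G) {z : E} (hz : ‖z‖ ≤ 1) : ‖G z‖ ≤ 1 := by
  obtain ⟨ρ, hρ, h1⟩ := h.out
  by_contra hcon
  push Not at hcon
  have h2 := h1 (G z) (hρ.le.trans hcon.le)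
  have h3 := G.injective h2
  rw [h3] at hcon
  exact absurd hcon (not_lt.2 hz)

open Classical in
/-- the glued conjugation -/
noncomputable def glueFun (g₁ g₂ G : E ≃ₜ E) (x : E) : E :=
  if x = 0 then 0 else (g₂ ^ lev g₁ x) (G ((g₁ ^ (-lev g₁ x)) x))

theorem glueFun_zero (g₁ g₂ G : E ≃ₜ E) : glueFun g₁ g₂ G 0 = 0 := if_pos rfl

theorem InA.ne_zero {g : E ≃ₜ E} (h0 : g 0 = 0) {k : ℤ} {x : E} (h : InA g k x) : x ≠ 0 := by
  rintro rfl
  have hp : ∀ n : ℕ, (g ^ n) (0 : E) = 0 := by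
    intro n
    induction n with
    | zero => rfl
    | succ n ih => rw [pow_succ', mul_apply', ih, h0]
  have hz : ∀ n : ℤ, (g ^ n) (0 : E) = 0 := by
    intro n
    cases n with
    | ofNat n => simpa using hp n
    | negSucc n =>
      rw [zpow_negSucc]
      conv_lhs => rw [← hp (n + 1)]
      exact inv_apply_self' _ _
  have := h.2
  rw [hz, norm_zero] at this
  linarith

theorem glueFun_eq {g₁ g₂ G : E ≃ₜ E} (h0 : g₁ 0 = 0) (hg : Trap g₁) {k : ℤ} {x : E}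
    (hk : InA g₁ k x) : glueFun g₁ g₂ G x = (g₂ ^ k) (G ((g₁ ^ (-k)) x)) := by
  rw [glueFun, if_neg (hk.ne_zero h0), lev_eq hg hk]

theorem zpow_neg_zpow (g : E ≃ₜ E) (k : ℤ) (x : E) : (g ^ (-k)) ((g ^ k) x) = x := by
  rw [← zpow_apply_add, neg_add_cancel]; rfl

theorem zpow_zpow_neg (g : E ≃ₜ E) (k : ℤ) (x : E) : (g ^ k) ((g ^ (-k)) x) = x := by
  rw [← zpow_apply_add, add_neg_cancel]; rfl

theorem InA.glue {g₁ g₂ G : E ≃ₜ E} (h : Glue g₁ g₂ G) (h0 : g₁ 0 = 0) (hg : Trap g₁) {k : ℤ}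
    {x : E} (hk : InA g₁ k x) : InA g₂ k (glueFun g₁ g₂ G x) := by
  rw [glueFun_eq h0 hg hk]
  constructor
  · rw [zpow_neg_zpow]
    exact h.ball hk.1
  · have h1 : (-(k + 1) : ℤ) = -1 + -k := by ring
    rw [h1, zpow_apply_add, zpow_neg_zpow, zpow_neg_one]
    have h2 := hk.2
    rw [h1, zpow_apply_add, zpow_neg_one] at h2
    by_contra hcon
    push Not at hcon
    exact absurd ((h.img _).2 hcon) (not_le.2 h2)

theorem glue_left_inv {g₁ g₂ G : E ≃ₜ E} (h : Glue g₁ g₂ G) (h0 : g₁ 0 = 0) (h0' : g₂ 0 = 0)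
    (hg : Trap g₁) (hg' : Trap g₂) (hc : Contr g₁) (x : E) :
    glueFun g₂ g₁ G⁻¹ (glueFun g₁ g₂ G x) = x := by
  by_cases hx : x = 0
  · rw [hx, glueFun_zero, glueFun_zero]
  · obtain ⟨k, hk⟩ := exists_InA hg hc hx
    have h1 := hk.glue h h0 hg
    rw [glueFun_eq h0' hg' h1, glueFun_eq h0 hg hk, zpow_neg_zpow, inv_apply_self', zpow_zpow_neg]

/-- the local formula for the glued map -/
theorem glue_local {g₁ g₂ G : E ≃ₜ E} (h : Glue g₁ g₂ G) (h0 : g₁ 0 = 0) (hg : Trap g₁) {k : ℤ}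
    {x : E} (hk : InA g₁ k x) :
    ∀ᶠ y in 𝓝 x, glueFun g₁ g₂ G y = (g₂ ^ k) (G ((g₁ ^ (-k)) y)) := by
  obtain ⟨ρ, hρ, h1⟩ := h.out
  obtain ⟨r, R, hr, hR, h2⟩ := h.eq
  have hcz : Continuous fun y : E => (g₁ ^ (-k)) y := (g₁ ^ (-k)).continuous
  have e1 : ∀ᶠ y in 𝓝 x, 1 < ‖(g₁⁻¹ : E ≃ₜ E) ((g₁ ^ (-k)) y)‖ := by
    have hc : Continuous fun y : E => ‖(g₁⁻¹ : E ≃ₜ E) ((g₁ ^ (-k)) y)‖ :=
      ((g₁⁻¹ : E ≃ₜ E).continuous.comp hcz).norm
    refine hc.continuousAt.eventually (lt_mem_nhds ?_)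
    have := hk.2
    have h3 : (-(k + 1) : ℤ) = -1 + -k := by ring
    rwa [h3, zpow_apply_add, zpow_neg_one] at this
  have e2 : ∀ᶠ y in 𝓝 x, ‖(g₁ ^ (-k)) y‖ < R :=
    hcz.norm.continuousAt.eventually (gt_mem_nhds (hk.1.trans_lt hR))
  have e3 : ∀ᶠ y in 𝓝 x, ‖g₁ ((g₁ ^ (-k)) y)‖ < 1 := by
    have hc : Continuous fun y : E => ‖g₁ ((g₁ ^ (-k)) y)‖ := (g₁.continuous.comp hcz).norm
    exact hc.continuousAt.eventually (gt_mem_nhds (hg _ hk.1))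
  filter_upwards [e1, e2, e3] with y hy1 hy2 hy3
  by_cases hw : ‖(g₁ ^ (-k)) y‖ ≤ 1
  · have hky : InA g₁ k y := by
      refine ⟨hw, ?_⟩
      have h3 : (-(k + 1) : ℤ) = -1 + -k := by ring
      rwa [h3, zpow_apply_add, zpow_neg_one]
    exact glueFun_eq h0 hg hky
  · push Not at hw
    have h3 : (-(k - 1) : ℤ) = 1 + -k := by ring
    have hky : InA g₁ (k - 1) y := by
      constructor
      · rw [h3, zpow_apply_add, zpow_one]
        exact hy3.le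
      · rw [sub_add_cancel]
        exact hw
    rw [glueFun_eq h0 hg hky, h3, zpow_apply_add, zpow_one, h2 _ (hr.le.trans hw.le) hy2.le,
      h1 _ (hρ.le.trans hw.le)]
    conv_rhs => rw [show k = (k - 1) + 1 by ring, zpow_apply_add, zpow_one]
    rw [show (k - 1) + 1 = k by ring]

theorem glue_continuous {g₁ g₂ G : E ≃ₜ E} (h : Glue g₁ g₂ G) (h0 : g₁ 0 = 0)
    (hg : Trap g₁) (hc : Contr g₁) (hc' : Contr g₂) : Continuous (glueFun g₁ g₂ G) := by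
  rw [continuous_iff_continuousAt]
  intro x
  by_cases hx : x = 0
  · subst hx
    rw [ContinuousAt, glueFun_zero, Metric.tendsto_nhds]
    intro ε hε
    obtain ⟨n₀, hn₀⟩ := hc' 1 ε hε
    have hcz : Continuous fun y : E => ‖(g₁ ^ (-(n₀ : ℤ))) y‖ := (g₁ ^ (-(n₀ : ℤ))).continuous.norm
    have hz : (g₁ ^ (-(n₀ : ℤ))) (0 : E) = 0 := by
      have hp : ∀ n : ℕ, (g₁ ^ n) (0 : E) = 0 := by
        intro n
        induction n with
        | zero => rfl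
        | succ n ih => rw [pow_succ', mul_apply', ih, h0]
      rw [zpow_neg, zpow_natCast]
      conv_lhs => rw [← hp n₀]
      exact inv_apply_self' _ _
    have e1 : ∀ᶠ y in 𝓝 (0 : E), ‖(g₁ ^ (-(n₀ : ℤ))) y‖ < 1 := by
      refine hcz.continuousAt.eventually (gt_mem_nhds ?_)
      show ‖(g₁ ^ (-(n₀ : ℤ))) (0 : E)‖ < 1
      rw [hz, norm_zero]
      exact one_pos
    filter_upwards [e1] with y hy
    rw [dist_zero_right]
    by_cases hy0 : y = 0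
    · rw [hy0, glueFun_zero, norm_zero]; exact hε
    · obtain ⟨k, hk⟩ := exists_InA hg hc hy0
      have hkn : (n₀ : ℤ) ≤ k := by
        by_contra hcon
        push Not at hcon
        exact absurd (norm_le_of_le hg (show k + 1 ≤ n₀ by omega) hy.le) (not_le.2 hk.2)
      obtain ⟨n, hn⟩ := Int.eq_ofNat_of_zero_le (show (0 : ℤ) ≤ k by omega)
      rw [glueFun_eq h0 hg hk]
      have h2 := hn₀ n (by omega) (G ((g₁ ^ (-k)) y)) (h.ball hk.1)
      rw [hn] at h2 ⊢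
      rwa [zpow_natCast]
  · obtain ⟨k, hk⟩ := exists_InA hg hc hx
    have h1 := glue_local h h0 hg hk
    have h2 : Continuous fun y : E => (g₂ ^ k) (G ((g₁ ^ (-k)) y)) :=
      (g₂ ^ k).continuous.comp (G.continuous.comp (g₁ ^ (-k)).continuous)
    exact h2.continuousAt.congr (h1.mono fun y hy => hy.symm)

/-- the glued conjugation as a homeomorphism -/
noncomputable def glueHomeo {g₁ g₂ G : E ≃ₜ E} (h : Glue g₁ g₂ G) (h0 : g₁ 0 = 0) (h0' : g₂ 0 = 0)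
    (hg : Trap g₁) (hg' : Trap g₂) (hc : Contr g₁) (hc' : Contr g₂) : E ≃ₜ E where
  toFun := glueFun g₁ g₂ G
  invFun := glueFun g₂ g₁ G⁻¹
  left_inv := glue_left_inv h h0 h0' hg hg' hc
  right_inv := fun x => by
    have := glue_left_inv h.symm h0' h0 hg' hg hc' x
    rwa [inv_inv] at this
  continuous_toFun := glue_continuous h h0 hg hc hc'
  continuous_invFun := glue_continuous h.symm h0' hg' hc' hc

theorem glueHomeo_apply {g₁ g₂ G : E ≃ₜ E} (h : Glue g₁ g₂ G) (h0 : g₁ 0 = 0) (h0' : g₂ 0 = 0)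
    (hg : Trap g₁) (hg' : Trap g₂) (hc : Contr g₁) (hc' : Contr g₂) (x : E) :
    glueHomeo h h0 h0' hg hg' hc hc' x = glueFun g₁ g₂ G x := rfl

theorem glueFun_equivariant {g₁ g₂ G : E ≃ₜ E} (h0 : g₁ 0 = 0) (h0' : g₂ 0 = 0)
    (hg : Trap g₁) (hc : Contr g₁) (x : E) :
    glueFun g₁ g₂ G (g₁ x) = g₂ (glueFun g₁ g₂ G x) := by
  by_cases hx : x = 0
  · rw [hx, h0, glueFun_zero, h0']
  · obtain ⟨k, hk⟩ := exists_InA hg hc hx
    have h1 : (-(k + 1) : ℤ) = -k + -1 := by ring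
    have h2 : ∀ y : E, (g₁ ^ (-(k + 1))) (g₁ y) = (g₁ ^ (-k)) y := by
      intro y
      rw [h1, zpow_apply_add, zpow_neg_one, inv_apply_self']
    have h3 : InA g₁ (k + 1) (g₁ x) := by
      refine ⟨?_, ?_⟩
      · rw [h2]; exact hk.1
      · have h4 : (-(k + 1 + 1) : ℤ) = -(k + 1) + -1 := by ring
        rw [h4, zpow_apply_add, zpow_neg_one, inv_apply_self']
        exact hk.2
    rw [glueFun_eq h0 hg hk, glueFun_eq h0 hg h3, h2, add_comm, zpow_apply_add, zpow_one]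

theorem PD.zpow' {s : ℝ} (hs : s * s = 1) {g : E ≃ₜ E} (hg : PD s g) (k : ℤ) :
    PD (s ^ k) (g ^ k) := by
  have hs0 : s ≠ 0 := by
    rintro rfl
    simp at hs
  have hsi : s⁻¹ = s := by
    rw [inv_eq_iff_eq_inv, eq_comm]
    exact inv_eq_of_mul_eq_one_left hs
  have hn : ∀ n : ℕ, PD (s ^ n) (g ^ n) := by
    intro n
    induction n with
    | zero => simpa using PD_one
    | succ n ih => rw [pow_succ, pow_succ]; exact ih.mul hg
  cases k with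
  | ofNat n => simpa using hn n
  | negSucc n =>
    rw [zpow_negSucc, zpow_negSucc, ← inv_pow, hsi]
    exact (hn (n + 1)).inv

/-- the glued map is a local diffeomorphism where the gluing map is one -/
theorem glue_LD {s : ℝ} (hs : s * s = 1) {g₁ g₂ G : E ≃ₜ E} (h : Glue g₁ g₂ G)
    (h1 : PD s g₁) (h2 : PD s g₂) (hg : Trap g₁) {k : ℤ} {x : E} (hk : InA g₁ k x)
    (hG0 : G ((g₁ ^ (-k)) x) ≠ 0) (hL : LD 1 G ((g₁ ^ (-k)) x)) :
    LD 1 (glueFun g₁ g₂ G) x := by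
  have hs0 : s ≠ 0 := by
    rintro rfl
    simp at hs
  have hx0 : x ≠ 0 := hk.ne_zero h1.1
  have a1 : LD (s ^ (-k)) (g₁ ^ (-k) : E ≃ₜ E) x := (h1.zpow' hs (-k)).2 x hx0
  have a2 : LD (s ^ k) (g₂ ^ k : E ≃ₜ E) (G ((g₁ ^ (-k)) x)) := (h2.zpow' hs k).2 _ hG0
  have a3 := (a2.mul hL).mul a1
  have a4 : s ^ k * 1 * s ^ (-k) = 1 := by
    rw [mul_one, ← zpow_add₀ hs0, add_neg_cancel, zpow_zero]
  rw [a4] at a3
  exact a3.congr ((glue_local h h1.1 hg hk).mono fun y hy => hy.symm)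

end Pool.Agent.HopfCov
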