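import Pool.Agent.HopfCov.Conn
import Pool.Agent.HopfCov.Glue

/-!
# Contractions of the same class are conjugate
-/

set_option autoImplicit false
set_option linter.unusedSectionVars false

open scoped ContDiff Topology
open Set Filter Metric

namespace Pool.Agent.HopfCov

variable {E : Type} [NormedAddCommGroup E] [InnerProductSpace ℝ E] [FiniteDimensional ℝ E]

theorem Trap.bound {g : E ≃ₜ E} (hg : Trap g) :
    ∃ R ρ : ℝ, 1 < R ∧ ρ < 1 ∧ ∀ x, ‖x‖ ≤ R → ‖g x‖ ≤ ρ := by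
  have hK : IsCompact (closedBall (0 : E) 1) := isCompact_closedBall _ _
  have hcn : Continuous fun x => ‖g x‖ := g.continuous.norm
  obtain ⟨x₀, hx₀, hmax⟩ := hK.exists_isMaxOn ⟨0, by simp⟩ hcn.continuousOn
  have hm : ‖g x₀‖ < 1 := hg _ (by simpa using hx₀)
  have hmax' : ∀ x, ‖x‖ ≤ 1 → ‖g x‖ ≤ ‖g x₀‖ := fun x hx => hmax (by simpa using hx)
  have hopen : IsOpen {x : E | ‖g x‖ < (1 + ‖g x₀‖) / 2} := isOpen_lt hcn continuous_const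
  have hsub : closedBall (0 : E) 1 ⊆ {x : E | ‖g x‖ < (1 + ‖g x₀‖) / 2} := by
    intro x hx
    have := hmax' x (by simpa using hx)
    show ‖g x‖ < _
    linarith
  obtain ⟨δ, hδ, hδs⟩ := hK.exists_cthickening_subset_open hopen hsub
  rw [cthickening_closedBall hδ.le zero_le_one] at hδs
  refine ⟨δ + 1, (1 + ‖g x₀‖) / 2, by linarith, by linarith, fun x hx => ?_⟩
  have : x ∈ closedBall (0 : E) (δ + 1) := by simpa using hx
  exact (hδs this).le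

theorem bounded_image (g : E ≃ₜ E) (R : ℝ) : ∃ R₁ : ℝ, ∀ x, ‖x‖ ≤ R → ‖g x‖ ≤ R₁ := by
  have hK : IsCompact (g '' closedBall (0 : E) R) := (isCompact_closedBall _ _).image g.continuous
  obtain ⟨R₁, hR₁⟩ := hK.isBounded.subset_closedBall (0 : E)
  refine ⟨R₁, fun x hx => ?_⟩
  have : g x ∈ closedBall (0 : E) R₁ := hR₁ ⟨x, by simpa using hx, rfl⟩
  simpa using this

theorem inv_id_near {s : E ≃ₜ E} (h : ∀ᶠ x in 𝓝 (0 : E), s x = x) :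
    ∀ᶠ x in 𝓝 (0 : E), (s⁻¹ : E ≃ₜ E) x = x := by
  filter_upwards [h] with x hx
  conv_lhs => rw [← hx]
  exact inv_apply_self' _ _

section

variable (hR : SpecRadial)

include hR in
theorem conj_of_conn {s : ℝ} (hs : s * s = 1) {g₁ g₂ : E ≃ₜ E} (h1 : PD s g₁) (h2 : PD s g₂)
    (t1 : Trap g₁) (t2 : Trap g₂) (c1 : Contr g₁) (c2 : Contr g₂) {Y : Set E} {R₀ : ℝ}
    (hY : ∀ y ∈ Y, ‖y‖ ≤ R₀) (hC : Conn (g₂ * g₁⁻¹) Y) :
    ∃ Φ : E ≃ₜ E, Φ 0 = 0 ∧ (∀ x, Φ (g₁ x) = g₂ (Φ x)) ∧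
      ∃ ξ : E → E, ∀ x, x ≠ 0 → (∀ y ∈ Y, ∀ k : ℤ, x ≠ (g₁ ^ k) (ξ y)) → LD 1 Φ x := by
  obtain ⟨Θ, hΘ0, hΘinf, hΘL⟩ := hC
  have hΘz : Θ 0 = 0 := hΘ0.self_of_nhds
  -- the map `F = g₂⁻¹ Θ g₁`
  set F : E ≃ₜ E := g₂⁻¹ * Θ * g₁ with hF
  have hFinf : EqInf F 1 := by
    have := ((EqInf.refl g₂⁻¹).mul hΘinf).mul (EqInf.refl g₁)
    have h3 : g₂⁻¹ * (g₂ * g₁⁻¹) * g₁ = 1 := by group
    rwa [h3] at this
  obtain ⟨RF, hRF0, hRF⟩ := exists_radius hFinf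
  have hg1c : Tendsto g₁ (𝓝 0) (𝓝 0) := by
    have := g₁.continuous.tendsto 0
    rwa [h1.1] at this
  have hFnear : ∀ᶠ x in 𝓝 (0 : E), F x = (g₂⁻¹ : E ≃ₜ E) (g₁ x) := by
    filter_upwards [hg1c.eventually hΘ0] with x hx
    show (g₂⁻¹ : E ≃ₜ E) (Θ (g₁ x)) = _
    rw [hx]
  have hF0 : F 0 = 0 := by rw [hFnear.self_of_nhds, h1.1, h2.inv_zero]
  obtain ⟨R₁, hR₁⟩ := bounded_image (g₁⁻¹ : E ≃ₜ E) R₀
  set R : ℝ := max RF R₁ with hRdef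
  have hRpos : 0 < R := hRF0.trans_le (le_max_left _ _)
  obtain ⟨s₀, a1, a2, a3, a4⟩ := exists_squeeze (E := E) hR (r := 1 / 2) (R := R) (R' := R + 1)
    (by norm_num) hRpos (by linarith)
  have a2' := inv_id_near a2
  set F' : E ≃ₜ E := s₀ * F * s₀⁻¹ with hF'
  have hF'out : ∀ x, 1 / 2 ≤ ‖x‖ → F' x = x := by
    intro x hx
    have h3 : R < ‖(s₀⁻¹ : E ≃ₜ E) x‖ := by
      by_contra hcon
      push Not at hcon
      have := a3 _ hcon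
      rw [apply_inv_self'] at this
      linarith
    have h4 : F ((s₀⁻¹ : E ≃ₜ E) x) = (s₀⁻¹ : E ≃ₜ E) x := hRF _ ((le_max_left _ _).trans h3.le)
    show s₀ (F ((s₀⁻¹ : E ≃ₜ E) x)) = x
    rw [h4, apply_inv_self']
  have hF'near : ∀ᶠ x in 𝓝 (0 : E), F' x = (g₂⁻¹ : E ≃ₜ E) (g₁ x) := by
    have hFc : Tendsto F (𝓝 0) (𝓝 0) := by
      have := F.continuous.tendsto 0
      rwa [hF0] at this
    filter_upwards [a2', hFnear, hFc.eventually a2] with x hx1 hx2 hx3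
    show s₀ (F ((s₀⁻¹ : E ≃ₜ E) x)) = _
    rw [hx1, hx3, hx2]
  have hF'0 : F' 0 = 0 := by rw [hF'near.self_of_nhds, h1.1, h2.inv_zero]
  have hF'half : ∀ x, ‖x‖ < 1 / 2 → ‖F' x‖ < 1 / 2 := by
    intro x hx
    by_contra hcon
    push Not at hcon
    have h3 := F'.injective (hF'out _ hcon)
    rw [h3] at hcon
    linarith
  have hF'one : ∀ x, ‖x‖ ≤ 1 → ‖F' x‖ ≤ 1 := by
    intro x hx
    by_cases h : ‖x‖ < 1 / 2
    · have := hF'half x h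
      linarith
    · push Not at h
      rw [hF'out x h]; exact hx
  have hF'inv_one : ∀ x, ‖x‖ ≤ 1 → ‖(F'⁻¹ : E ≃ₜ E) x‖ ≤ 1 := by
    intro x hx
    by_contra hcon
    push Not at hcon
    have h3 := hF'out _ (show 1 / 2 ≤ ‖(F'⁻¹ : E ≃ₜ E) x‖ by linarith)
    rw [apply_inv_self'] at h3
    rw [← h3] at hcon
    linarith
  have hs0z : s₀ 0 = 0 := a2.self_of_nhds
  have hs0iz : (s₀⁻¹ : E ≃ₜ E) 0 = 0 := a2'.self_of_nhds
  -- `Λ = g₂ F'`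
  set Λ : E ≃ₜ E := g₂ * F' with hΛ
  have hΛ0 : Λ 0 = 0 := by rw [hΛ, mul_apply', hF'0, h2.1]
  have hΛnear : ∀ᶠ x in 𝓝 (0 : E), Λ x = g₁ x := by
    filter_upwards [hF'near] with x hx
    show g₂ (F' x) = _
    rw [hx, apply_inv_self']
  have hΛout : ∀ x, 1 / 2 ≤ ‖x‖ → Λ x = g₂ x := by
    intro x hx
    show g₂ (F' x) = _
    rw [hF'out x hx]
  have hΛL : ∀ x, x ≠ 0 → g₁ ((s₀⁻¹ : E ≃ₜ E) x) ∉ Y → LD s Λ x := by
    intro x hx hxY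
    have b1 : LD 1 (s₀⁻¹ : E ≃ₜ E) x := LD_all_inv a1 x
    have hu : (s₀⁻¹ : E ≃ₜ E) x ≠ 0 := by
      intro h
      apply hx
      have := congrArg s₀ h
      rwa [apply_inv_self', hs0z] at this
    have b2 : LD s g₁ ((s₀⁻¹ : E ≃ₜ E) x) := h1.2 _ hu
    have b3 : LD 1 Θ (g₁ ((s₀⁻¹ : E ≃ₜ E) x)) := hΘL _ hxY
    have hu2 : Θ (g₁ ((s₀⁻¹ : E ≃ₜ E) x)) ≠ 0 := by
      intro h
      exact h1.ne hu (Θ.injective (h.trans hΘz.symm))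
    have b4 : LD s (g₂⁻¹ : E ≃ₜ E) (Θ (g₁ ((s₀⁻¹ : E ≃ₜ E) x))) := h2.inv.2 _ hu2
    have b5 : LD (s * 1 * s) F ((s₀⁻¹ : E ≃ₜ E) x) := (b4.mul b3).mul b2
    have b6 : LD 1 F ((s₀⁻¹ : E ≃ₜ E) x) := by rwa [mul_one, hs] at b5
    have b7 : LD 1 F' x := ((a1 _).mul_one' b6).mul_one' b1
    have hu3 : F' x ≠ 0 := by
      intro h
      exact hx (F'.injective (h.trans hF'0.symm))
    have b8 := (h2.2 _ hu3).mul b7
    rwa [mul_one] at b8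
  obtain ⟨ε, hε, hΛε⟩ : ∃ ε : ℝ, 0 < ε ∧ ∀ x, ‖x‖ < ε → Λ x = g₁ x := by
    obtain ⟨ε, hε, h3⟩ := Metric.eventually_nhds_iff_ball.1 hΛnear
    exact ⟨ε, hε, fun x hx => h3 x (by simpa using hx)⟩
  obtain ⟨R₂, ρ₂, hR₂, hρ₂, hb₂⟩ := t1.bound
  obtain ⟨R₃, ρ₃, hR₃, hρ₃, hb₃⟩ := t2.bound
  set Ro : ℝ := min R₂ R₃ with hRo
  have hRo1 : 1 < Ro := lt_min hR₂ hR₃
  set ρ : ℝ := max ρ₂ ρ₃ with hρ
  have hρ1 : ρ < 1 := max_lt hρ₂ hρ₃
  have hbg₁ : ∀ x, ‖x‖ ≤ Ro → ‖g₁ x‖ ≤ ρ := fun x hx =>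
    (hb₂ x (hx.trans (min_le_left _ _))).trans (le_max_left _ _)
  have hbg₂ : ∀ x, ‖x‖ ≤ Ro → ‖g₂ x‖ ≤ ρ := fun x hx =>
    (hb₃ x (hx.trans (min_le_right _ _))).trans (le_max_right _ _)
  obtain ⟨c, d1, d2, d3, d4⟩ := exists_squeeze (E := E) hR (r := ε) (R := (1 + Ro) / 2) (R' := Ro)
    hε (by linarith) (by linarith)
  have hc0 : c 0 = 0 := d2.self_of_nhds
  set Ri : ℝ := (1 + Ro) / 2 with hRi
  have hRi1 : 1 < Ri := by rw [hRi]; linarith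
  set G₁ : E ≃ₜ E := g₁ * c * g₁⁻¹ with hG₁
  set G₂ : E ≃ₜ E := Λ * c * Λ⁻¹ with hG₂
  set G : E ≃ₜ E := G₂⁻¹ * G₁ with hGdef
  have hG₁g : ∀ x, G₁ (g₁ x) = g₁ (c x) := by
    intro x
    show g₁ (c ((g₁⁻¹ : E ≃ₜ E) (g₁ x))) = _
    rw [inv_apply_self']
  have hG₂Λ : ∀ x, G₂ (Λ x) = Λ (c x) := by
    intro x
    show Λ (c ((Λ⁻¹ : E ≃ₜ E) (Λ x))) = _
    rw [inv_apply_self']
  have hGg : ∀ x, ‖x‖ ≤ Ri → G (g₁ x) = Λ x := by
    intro x hx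
    show (G₂⁻¹ : E ≃ₜ E) (G₁ (g₁ x)) = _
    rw [hG₁g, ← hΛε _ (d3 x hx), ← hG₂Λ, inv_apply_self']
  have hΛbound : ∀ v, ‖v‖ ≤ Ro → ‖Λ v‖ ≤ ρ := by
    intro v hv
    by_cases h : ‖v‖ < 1 / 2
    · show ‖g₂ (F' v)‖ ≤ ρ
      apply hbg₂
      have := hF'half v h
      linarith
    · push Not at h
      rw [hΛout v h]
      exact hbg₂ v hv
  have hglue : Glue g₁ g₂ G := by
    refine ⟨⟨(1 + ρ) / 2, by linarith, fun x hx => ?_⟩, ⟨1 / 2, Ri, by norm_num, hRi1,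
      fun x hx hx' => ?_⟩, fun x => ⟨fun hx => ?_, fun hx => ?_⟩⟩
    · have hx' : ρ < ‖x‖ := by linarith
      have e1 : G₁ x = x := by
        have h3 : Ro < ‖(g₁⁻¹ : E ≃ₜ E) x‖ := by
          by_contra hcon
          push Not at hcon
          have := hbg₁ _ hcon
          rw [apply_inv_self'] at this
          linarith
        show g₁ (c ((g₁⁻¹ : E ≃ₜ E) x)) = x
        rw [d4 _ h3.le, apply_inv_self']
      have e2 : G₂ x = x := by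
        have h3 : Ro < ‖(Λ⁻¹ : E ≃ₜ E) x‖ := by
          by_contra hcon
          push Not at hcon
          have := hΛbound _ hcon
          rw [apply_inv_self'] at this
          linarith
        show Λ (c ((Λ⁻¹ : E ≃ₜ E) x)) = x
        rw [d4 _ h3.le, apply_inv_self']
      show (G₂⁻¹ : E ≃ₜ E) (G₁ x) = x
      rw [e1]
      conv_lhs => rw [← e2]
      exact inv_apply_self' _ _
    · rw [hGg x hx', hΛout x hx]
    · have h3 : G x = Λ ((g₁⁻¹ : E ≃ₜ E) x) := by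
        have := hGg ((g₁⁻¹ : E ≃ₜ E) x) (hx.trans hRi1.le)
        rwa [apply_inv_self'] at this
      rw [h3]
      show ‖(g₂⁻¹ : E ≃ₜ E) (g₂ (F' ((g₁⁻¹ : E ≃ₜ E) x)))‖ ≤ 1
      rw [inv_apply_self']
      exact hF'one _ hx
    · set v : E := (g₂⁻¹ : E ≃ₜ E) (G x) with hv
      set w : E := (F'⁻¹ : E ≃ₜ E) v with hw
      have hw1 : ‖w‖ ≤ 1 := hF'inv_one _ hx
      have h3 : G (g₁ w) = G x := by
        rw [hGg w (hw1.trans hRi1.le)]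
        show g₂ (F' w) = _
        rw [hw, apply_inv_self', hv, apply_inv_self']
      have h4 := G.injective h3
      rw [← h4, inv_apply_self']
      exact hw1
  refine ⟨glueHomeo hglue h1.1 h2.1 t1 t2 c1 c2, ?_, ?_, ?_⟩
  · rw [glueHomeo_apply, glueFun_zero]
  · intro x
    rw [glueHomeo_apply, glueHomeo_apply]
    exact glueFun_equivariant h1.1 h2.1 t1 c1 x
  · refine ⟨fun y => (G⁻¹ : E ≃ₜ E) (Λ ((c⁻¹ : E ≃ₜ E) (s₀ ((g₁⁻¹ : E ≃ₜ E) y)))), fun x hx hxY => ?_⟩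
    obtain ⟨k, hk⟩ := exists_InA t1 c1 hx
    set z : E := (g₁ ^ (-k)) x with hz
    have hz1 : ‖z‖ ≤ 1 := hk.1
    have hz2 : 1 < ‖(g₁⁻¹ : E ≃ₜ E) z‖ := by
      have h3 : (-(k + 1) : ℤ) = -1 + -k := by ring
      have h4 := hk.2
      rwa [h3, zpow_apply_add, zpow_neg_one] at h4
    have hz0 : z ≠ 0 := by
      intro h
      rw [h, h1.inv_zero, norm_zero] at hz2
      linarith
    -- `G₁` is a local diffeomorphism at `z`
    have hG₁L : LD 1 G₁ z := by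
      have hu : (g₁⁻¹ : E ≃ₜ E) z ≠ 0 := h1.inv.ne hz0
      have hcu : c ((g₁⁻¹ : E ≃ₜ E) z) ≠ 0 := by
        intro h
        exact hu (c.injective (h.trans hc0.symm))
      have b5 : LD (s * 1 * s) G₁ z := ((h1.2 _ hcu).mul (d1 _)).mul (h1.inv.2 z hz0)
      rwa [mul_one, hs] at b5
    set w : E := G z with hw
    have hG₂w : G₂ w = G₁ z := by
      show G₂ ((G₂⁻¹ : E ≃ₜ E) (G₁ z)) = _
      exact apply_inv_self' _ _
    set v : E := (Λ⁻¹ : E ≃ₜ E) w with hv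
    have hΛv : Λ v = w := apply_inv_self' _ _
    have hv1 : 1 < ‖v‖ := by
      by_contra hcon
      push Not at hcon
      have h3 : ‖(g₂⁻¹ : E ≃ₜ E) (G z)‖ ≤ 1 := by
        rw [← hw, ← hΛv]
        show ‖(g₂⁻¹ : E ≃ₜ E) (g₂ (F' v))‖ ≤ 1
        rw [inv_apply_self']
        exact hF'one _ hcon
      exact absurd ((hglue.img z).2 h3) (not_le.2 hz2)
    have hv0 : v ≠ 0 := by
      intro h
      rw [h, norm_zero] at hv1
      linarith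
    have hcv0 : c v ≠ 0 := by
      intro h
      exact hv0 (c.injective (h.trans hc0.symm))
    have hw0 : w ≠ 0 := by
      intro h
      rw [h] at hΛv
      exact hv0 (Λ.injective (hΛv.trans hΛ0.symm))
    have hvY : g₁ ((s₀⁻¹ : E ≃ₜ E) v) ∉ Y := by
      intro hmem
      have h3 := hR₁ _ (hY _ hmem)
      rw [inv_apply_self'] at h3
      have h4 := a3 _ (h3.trans (le_max_right _ _))
      rw [apply_inv_self'] at h4
      linarith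
    have hcvY : g₁ ((s₀⁻¹ : E ≃ₜ E) (c v)) ∉ Y := by
      intro hmem
      apply hxY _ hmem k
      show x = (g₁ ^ k) ((G⁻¹ : E ≃ₜ E) (Λ ((c⁻¹ : E ≃ₜ E) (s₀ ((g₁⁻¹ : E ≃ₜ E)
        (g₁ ((s₀⁻¹ : E ≃ₜ E) (c v))))))))
      rw [inv_apply_self' g₁, apply_inv_self' s₀, inv_apply_self' c, hΛv, hw, inv_apply_self' G,
        hz, zpow_zpow_neg]
    have hG₂L : LD 1 G₂ w := by
      have b1 : LD s (Λ⁻¹ : E ≃ₜ E) w := LD.inv' (hΛL v hv0 hvY)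
      have b5 : LD (s * 1 * s) G₂ w := ((hΛL (c v) hcv0 hcvY).mul (d1 _)).mul b1
      rwa [mul_one, hs] at b5
    have hG₂iL : LD 1 (G₂⁻¹ : E ≃ₜ E) (G₁ z) := by
      rw [← hG₂w]
      exact LD.inv G₂ hG₂L
    exact glue_LD hs hglue h1 h2 t1 hk hw0 (hG₂iL.mul_one' hG₁L)

end

end Pool.Agent.HopfCov
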