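import Pool.Agent.HopfCov.Push
import Pool.Agent.HopfCov.Inv
import Pool.Agent.HopfCov.Realise

/-!
# Classification of the orbit spaces in which the unit sphere is embedded
-/

set_option autoImplicit false
set_option linter.unusedSectionVars false

open scoped ContDiff Topology Manifold
open Set Filter Metric

namespace Pool.Agent.HopfCov

/-! ### the projection of the unit sphere -/

section core

variable {E : Type} [NormedAddCommGroup E] [InnerProductSpace ℝ E] [FiniteDimensional ℝ E]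

theorem preconnected_outside1 (h1 : 1 < Module.rank ℝ E) :
    IsPreconnected {y : E | 1 ≤ ‖y‖} := by
  have h : {y : E | 1 ≤ ‖y‖} =
      (fun q : ℝ × E => q.1 • q.2) '' (Ici 1 ×ˢ sphere (0 : E) 1) := by
    ext y
    constructor
    · intro hy
      have hy' : 1 ≤ ‖y‖ := hy
      have hpos : 0 < ‖y‖ := lt_of_lt_of_le one_pos hy'
      refine ⟨(‖y‖, ‖y‖⁻¹ • y), ⟨hy', ?_⟩, ?_⟩
      · simp [norm_smul, hpos.ne']
      · simp [smul_smul, hpos.ne']
    · rintro ⟨⟨t, u⟩, ⟨ht, hu⟩, rfl⟩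
      have hu' : ‖u‖ = 1 := by simpa using hu
      have ht' : 1 ≤ t := ht
      have h3 : ‖t • u‖ = |t| := by rw [norm_smul, hu', mul_one, Real.norm_eq_abs]
      change 1 ≤ ‖t • u‖
      rw [h3]
      exact ht'.trans (le_abs_self t)
  rw [h]
  exact (isPreconnected_Ici.prod (isPreconnected_sphere h1 0 1)).image _
    (by fun_prop)

/-- a contraction whose images of the unit sphere avoid the unit sphere maps the closed unit
ball into the open one -/
theorem trap_of_sphere (hdim : 1 < Module.finrank ℝ E) {G : E ≃ₜ E} (hc : Contr G)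
    (hs : ∀ x, ‖x‖ = 1 → ‖G x‖ ≠ 1) : Trap G := by
  have h1 : 1 < Module.rank ℝ E := by
    rw [← Module.finrank_eq_rank]
    exact_mod_cast hdim
  have hG0 : G 0 = 0 := hc.apply_zero
  have hnt : Nontrivial E := Module.nontrivial_of_finrank_pos (R := ℝ) (by omega)
  obtain ⟨e₀, he₀⟩ := exists_norm_eq E (zero_le_one' ℝ)
  have hsph : IsPreconnected (sphere (0 : E) 1) := isPreconnected_sphere h1 0 1
  have hcn : Continuous fun x => ‖G x‖ := G.continuous.norm
  have hside : (∀ x, ‖x‖ = 1 → ‖G x‖ < 1) ∨ (∀ x, ‖x‖ = 1 → 1 < ‖G x‖) := by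
    by_contra hcon
    push Not at hcon
    obtain ⟨⟨x, hx, hx1⟩, ⟨y, hy, hy1⟩⟩ := hcon
    have hxs : x ∈ sphere (0 : E) 1 := by simpa using hx
    have hys : y ∈ sphere (0 : E) 1 := by simpa using hy
    obtain ⟨z, hz, hz1⟩ := hsph.intermediate_value hys hxs hcn.continuousOn ⟨hy1, hx1⟩
    exact hs z (by simpa using hz) hz1
  rcases hside with h | h
  · intro x hx
    by_contra hcon
    push Not at hcon
    have hx1 : ‖x‖ < 1 := lt_of_le_of_ne hx fun h2 => absurd (h x h2) (not_lt.2 hcon)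
    -- the outside of the ball is contained in the image of the open ball
    have hsub : {y : E | 1 ≤ ‖y‖} ⊆ G '' ball 0 1 := by
      intro y hy
      by_contra hy2
      have hU : IsOpen (G '' ball (0 : E) 1) := G.isOpenMap _ isOpen_ball
      have hV : IsOpen (G '' closedBall (0 : E) 1)ᶜ :=
        (G.isClosedMap _ isClosed_closedBall).isOpen_compl
      have hcover : {y : E | 1 ≤ ‖y‖} ⊆ G '' ball 0 1 ∪ (G '' closedBall 0 1)ᶜ := by
        intro z hz
        by_cases hz1 : z ∈ G '' closedBall 0 1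
        · left
          obtain ⟨w, hw, rfl⟩ := hz1
          refine ⟨w, ?_, rfl⟩
          rw [mem_closedBall_zero_iff] at hw
          rw [mem_ball_zero_iff]
          exact lt_of_le_of_ne hw fun h2 => absurd (h w h2) (not_lt.2 hz)
        · exact Or.inr hz1
      have hyV : y ∈ (G '' closedBall (0 : E) 1)ᶜ := (hcover hy).resolve_left hy2
      obtain ⟨z, -, hz1, hz2⟩ := preconnected_outside1 h1 _ _ hU hV hcover
        ⟨G x, hcon, x, by simpa using hx1, rfl⟩ ⟨y, hy, hyV⟩
      exact hz2 (image_mono ball_subset_closedBall hz1)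
    obtain ⟨R₁, hR₁⟩ := bounded_image G 1
    obtain ⟨y, hy⟩ := exists_norm_eq E (show (0 : ℝ) ≤ max R₁ 0 + 1 by positivity)
    obtain ⟨w, hw, hwy⟩ := hsub (show y ∈ {y : E | 1 ≤ ‖y‖} by
      show 1 ≤ ‖y‖
      rw [hy]
      linarith [le_max_right R₁ 0])
    have h2 := hR₁ w (by simpa using (ball_subset_closedBall hw))
    rw [hwy, hy] at h2
    linarith [le_max_left R₁ 0]
  · exfalso
    -- the closed ball is contained in the image of the open ball
    have hsub : closedBall (0 : E) 1 ⊆ G '' ball 0 1 := by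
      intro y hy
      by_contra hy2
      have hU : IsOpen (G '' ball (0 : E) 1) := G.isOpenMap _ isOpen_ball
      have hV : IsOpen (G '' closedBall (0 : E) 1)ᶜ :=
        (G.isClosedMap _ isClosed_closedBall).isOpen_compl
      have hcover : closedBall (0 : E) 1 ⊆ G '' ball 0 1 ∪ (G '' closedBall 0 1)ᶜ := by
        intro z hz
        by_cases hz1 : z ∈ G '' closedBall 0 1
        · left
          obtain ⟨w, hw, rfl⟩ := hz1
          refine ⟨w, ?_, rfl⟩
          rw [mem_closedBall_zero_iff] at hw hz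
          rw [mem_ball_zero_iff]
          exact lt_of_le_of_ne hw fun h2 => absurd (h w h2) (not_lt.2 hz)
        · exact Or.inr hz1
      have hyV : y ∈ (G '' closedBall (0 : E) 1)ᶜ := (hcover hy).resolve_left hy2
      have hpc : IsPreconnected (closedBall (0 : E) 1) := (convex_closedBall 0 1).isPreconnected
      obtain ⟨z, -, hz1, hz2⟩ := hpc _ _ hU hV hcover
        ⟨0, by simp, 0, by simp, hG0⟩ ⟨y, hy, hyV⟩
      exact hz2 (image_mono ball_subset_closedBall hz1)
    have hti : Trap G⁻¹ := by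
      intro y hy
      obtain ⟨w, hw, hwy⟩ := hsub (by simpa using hy)
      rw [← hwy, inv_apply_self']
      simpa using hw
    obtain ⟨n, hn⟩ := hc 1 1 one_pos
    have h2 : ‖((G⁻¹) ^ (n + 1)) e₀‖ < 1 := by
      rw [pow_succ', mul_apply']
      exact hti _ (hti.pow n he₀.le)
    have h3 := hn (n + 1) (Nat.le_succ n) _ h2.le
    rw [inv_pow, apply_inv_self'] at h3
    linarith

theorem Trap.pow_lt {G : E ≃ₜ E} (hG : Trap G) {n : ℕ} (hn : 0 < n) {x : E} (hx : ‖x‖ ≤ 1) :
    ‖(G ^ n) x‖ < 1 := by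
  obtain ⟨m, rfl⟩ := Nat.exists_eq_succ_of_ne_zero hn.ne'
  rw [Nat.succ_eq_add_one, pow_succ', mul_apply']
  exact hG _ (hG.pow m hx)

end core

section

variable {M : Type} [TopologicalSpace M] [ChartedSpace E4 M] [IsManifold (𝓡 4) ∞ M]
variable {M' : Type} [TopologicalSpace M'] [ChartedSpace E4 M'] [IsManifold (𝓡 4) ∞ M']

/-- the unit sphere of `ℝ⁴` -/
def unitS : Set V4 := {x | ‖(x : E4)‖ = 1}

/-- the projection embeds the unit sphere if and only if the contracting generator maps the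
closed unit ball into the open one -/
theorem injOn_iff_trap {g : V4 ≃ₜ V4} {G : E4 ≃ₜ E4} {p : V4 → M} (hp : OrbitMap g p)
    (hG : Extends G g) (hc : Contr G) : InjOn p unitS ↔ Trap G := by
  constructor
  · intro h
    refine trap_of_sphere hdim4 hc fun x hx hx1 => ?_
    have hx0 : x ≠ 0 := by
      rw [← norm_pos_iff, hx]
      exact one_pos
    have h1 : ((g ⟨x, hx0⟩ : V4) : E4) = G x := (hG ⟨x, hx0⟩).symm
    have h2 : p ⟨x, hx0⟩ = p (g ⟨x, hx0⟩) := (hp.fib _ _).2 ⟨1, by rw [zpow_one]⟩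
    have h3 := h (show (⟨x, hx0⟩ : V4) ∈ unitS from hx)
      (show g ⟨x, hx0⟩ ∈ unitS by show ‖((g ⟨x, hx0⟩ : V4) : E4)‖ = 1; rw [h1, hx1]) h2
    have h4 : G x = x := by
      rw [← h1, ← h3]
    have h5 : ∀ n : ℕ, (G ^ n) x = x := by
      intro n
      induction n with
      | zero => rfl
      | succ n ih => rw [pow_succ', mul_apply', ih, h4]
    obtain ⟨n, hn⟩ := hc 1 1 one_pos
    have h6 := hn n le_rfl x hx.le
    rw [h5, hx] at h6
    exact lt_irrefl _ h6
  · intro ht x hx y hy hxy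
    obtain ⟨n, hn⟩ := (hp.fib x y).1 hxy
    have hx' : ‖(x : E4)‖ = 1 := hx
    have hy' : ‖(y : E4)‖ = 1 := hy
    rcases lt_trichotomy n 0 with h | h | h
    · exfalso
      obtain ⟨m, hm⟩ := Int.eq_ofNat_of_zero_le (show 0 ≤ -n by omega)
      have h1 : x = (g ^ m) y := by
        rw [hn, ← zpow_natCast, ← hm]
        show x = ((g ^ (-n)) * (g ^ n)) x
        rw [← zpow_add]
        simp
      have h2 : (x : E4) = (G ^ m) (y : E4) := by
        rw [h1]
        exact (hG.pow m y).symm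
      have h3 := ht.pow_lt (show 0 < m by omega) hy'.le
      rw [← h2, hx'] at h3
      exact lt_irrefl _ h3
    · rw [h, zpow_zero] at hn
      exact hn.symm
    · exfalso
      obtain ⟨m, hm⟩ := Int.eq_ofNat_of_zero_le h.le
      have h2 : (y : E4) = (G ^ m) (x : E4) := by
        rw [hn, hm]
        rw [zpow_natCast]
        exact (hG.pow m x).symm
      have h3 := ht.pow_lt (show 0 < m by omega) hx'.le
      rw [← h2, hy'] at h3
      exact lt_irrefl _ h3

/-- the criterion for `S¹ × S³` -/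
theorem std_iff_ext [T2Space M] [CompactSpace M] {g : V4 ≃ₜ V4} {G : E4 ≃ₜ E4} {p : V4 → M}
    (hp : OrbitMap g p) (hG : Extends G g) (h1 : PD 1 G) (hc : Contr G) (ht : Trap G) :
    Std M ↔ Ext G :=
  ⟨fun h => ext_of_std specSwapMul specSwapContr specInversion specModelOrbit hp hG hc h,
    fun h => std_of_ext hp hG h1 hc ht h⟩

/-- the classification up to orientation preserving diffeomorphisms -/
theorem diffeo_iff_ext [T2Space M] [CompactSpace M] [T2Space M'] [CompactSpace M']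
    {g g' : V4 ≃ₜ V4} {G G' : E4 ≃ₜ E4} {p : V4 → M} {p' : V4 → M'}
    (hp : OrbitMap g p) (hp' : OrbitMap g' p') (hG : Extends G g) (hG' : Extends G' g')
    (h1 : PD 1 G) (h1' : PD 1 G') (hc : Contr G) (hc' : Contr G') (ht : Trap G)
    (ht' : Trap G') :
    (∃ F : Diffeomorph (𝓡 4) (𝓡 4) M M' ∞, OrPres p p' F) ↔ Ext (G' * G⁻¹) := by
  constructor
  · rintro ⟨F, hF⟩
    obtain ⟨Ψ, f1, f2, f3⟩ := hLift g g' M M' p p' hp hp' F
    obtain ⟨y⟩ : Nonempty V4 := inferInstance
    have f4 : ∀ x : E4, x ≠ 0 → LD 1 (ext0 Ψ) x :=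
      sign_of_pos specMfderiv specSign f1 (A := p') (B := fun z => F (p z)) (y := y)
        (mdiff_of_loc hp'.loc _) f2 (hF y (Ψ y) (f2 y).symm)
    exact pair_oriented specLiftSwap specSwapContr hG hG' h1 h1' hc hc' f1 f4 f3
  · intro h
    obtain ⟨Φ, f1, f2⟩ := core_conj hGerm hSwap hRad hdim4 (one_mul 1) h1 h1' ht ht' hc hc' h
    obtain ⟨φ, f3, f4⟩ := exists_restr_PD f1
    have f5 : φ * g = g' * φ := by
      have d1 : Extends (Φ * G) (φ * g) := f3.mul hG
      have d2 : Extends (G' * Φ) (g' * φ) := hG'.mul f3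
      rw [f2] at d1
      exact d1.eq_of d2
    obtain ⟨F, f6, f7⟩ := descend g g' M M' p p' hp hp' φ f5
    have f8 : IsLocalDiffeomorph (𝓡 4) (𝓡 4) ∞ F := by
      intro n
      obtain ⟨x, rfl⟩ := hp.surj n
      exact f7 x (f4 x)
    refine ⟨diffeoOfHomeo F f8, fun x x' hxx => ?_⟩
    have hxx' : F (p x) = p' x' := hxx
    have e0 : p' (φ x) = p' x' := by rw [← f6, hxx']
    have e1 := det_chain (A := p') (B := fun y => F (p y)) (Ψ := φ) (y := x)
      (mdiff_of_loc hp'.loc _) (mdiff_of_loc f4 _) fun z => (f6 z).symm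
    have e2 : 0 < (mfderiv (𝓡 4) (𝓡 4) φ x : E4 →L[ℝ] E4).det := by
      rw [specMfderiv _ x (f4 x).contMDiffAt]
      have e3 : LD 1 (ext0 φ) (x : E4) := by
        refine (f1.2 x x.2).congr ?_
        filter_upwards [V4_eventually_ne x] with y hy
        rw [ext0_mk _ hy]
        exact f3 ⟨y, hy⟩
      have e4 := e3.2
      rwa [one_mul] at e4
    have e5 := oriented_of_PD specMfderiv hp' hG' h1' (φ x) x' e0
    show 0 < (mfderiv (𝓡 4) (𝓡 4) (fun y => F (p y)) x : E4 →L[ℝ] E4).det *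
      (mfderiv (𝓡 4) (𝓡 4) p' x' : E4 →L[ℝ] E4).det
    rw [e1]
    have e6 : ∀ a b c : ℝ, 0 < a * c → 0 < b → 0 < a * b * c := by
      intro a b c hac hb
      calc 0 < (a * c) * b := mul_pos hac hb
        _ = a * b * c := by ring
    exact e6 _ _ _ e5 e2

end

/-- every class occurs -/
theorem exists_space_of {h : E4 ≃ₜ E4} (hh : PD 1 h) :
    ∃ (g : V4 ≃ₜ V4) (G : E4 ≃ₜ E4) (_ : ChartedSpace E4 (Circle × sphere (0 : E4) 1))
      (p : V4 → Circle × sphere (0 : E4) 1), IsManifold (𝓡 4) ∞ (Circle × sphere (0 : E4) 1) ∧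
      OrbitMap g p ∧ Extends G g ∧ PD 1 G ∧ Contr G ∧ Trap G ∧ Ext (G * h⁻¹) := by
  obtain ⟨G, h1, h2, h3⟩ := realise hh
  have ht := trap_of_half h2
  have hc := contr_of_half h2
  obtain ⟨g, C, p, g1, g2, g3⟩ := exists_orbit_space h1 ht hc
  exact ⟨g, G, C, p, g2, g3, g1, h1, hc, ht, h3⟩

end Pool.Agent.HopfCov
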