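import Pool.Agent.HopfCov.Statement2
import Pool.Agent.HopfCov.Bridge
import Pool.Agent.HopfCov.Crit

/-!
# From the statement of the classification to the library
-/

set_option autoImplicit false
set_option linter.unusedSectionVars false

open scoped ContDiff Topology Manifold
open Set Filter Metric

namespace Pool.Agent.HopfCov.Smooth

theorem regular_iff {f : E4 → E4} {x : E4} : RegularAt f x ↔ LD 1 f x := by
  unfold RegularAt LD
  rw [one_mul]

/-- a homeomorphism, as an element of the group of homeomorphisms -/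
def Homeo4.old (h : Homeo4) : E4 ≃ₜ E4 := h

theorem Homeo4.fn_eq (h : Homeo4) : h.fn = (h.old : E4 → E4) := rfl

theorem punctured_iff {h : Homeo4} : PuncturedDiffeo h ↔ PD 1 h.old := by
  unfold PuncturedDiffeo PD
  simp only [regular_iff]
  rfl

theorem extendable_iff {h : Homeo4} : Extendable h ↔ Ext h.old := by
  constructor
  · rintro ⟨Θ, h1, R, h2⟩
    refine ⟨Θ.old, fun x => regular_iff.1 (h1 x), ?_⟩
    have h3 : ∀ᶠ x : E4 in cocompact E4, R ≤ ‖x‖ :=
      tendsto_norm_cocompact_atTop.eventually (eventually_ge_atTop R)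
    filter_upwards [h3] with x hx
    exact h2 x hx
  · rintro ⟨Θ, h1, h2⟩
    obtain ⟨R, -, hR⟩ := exists_radius h2
    exact ⟨Θ, fun x => regular_iff.2 (h1 x), R, hR⟩

theorem iterate_eq (G : E4 ≃ₜ E4) (n : ℕ) (x : E4) : (G : E4 → E4)^[n] x = (G ^ n) x := by
  induction n with
  | zero => rfl
  | succ n ih =>
    rw [Function.iterate_succ_apply', ih, pow_succ']
    rfl

theorem iter_iff {g : V4 ≃ₜ V4} {G : E4 ≃ₜ E4} (hG : Extends G g) (x y : V4) :
    OneOrbit G (x : E4) (y : E4) ↔ ∃ n : ℤ, y = (g ^ n) x := by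
  have h0 : OneOrbit G (x : E4) (y : E4) ↔
      ∃ n : ℕ, (y : E4) = (G ^ n) (x : E4) ∨ (x : E4) = (G ^ n) (y : E4) := by
    unfold OneOrbit
    refine exists_congr fun n => ?_
    rw [← iterate_eq, ← iterate_eq]
    rfl
  rw [h0]
  constructor
  · rintro ⟨n, h | h⟩
    · exact ⟨n, Subtype.ext (by rw [h, zpow_natCast, hG.pow n x])⟩
    · refine ⟨-n, ?_⟩
      have h1 : x = (g ^ n) y := Subtype.ext (by rw [h, hG.pow n y])
      rw [h1, zpow_neg, zpow_natCast]
      exact ((g ^ n).symm_apply_apply y).symm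
  · rintro ⟨n, rfl⟩
    cases n with
    | ofNat n =>
      refine ⟨n, Or.inl ?_⟩
      rw [Int.ofNat_eq_natCast, zpow_natCast, hG.pow n x]
    | negSucc n =>
      refine ⟨n + 1, Or.inr ?_⟩
      rw [hG.pow (n + 1), zpow_negSucc]
      congr 1
      exact ((g ^ (n + 1)).apply_symm_apply x).symm

theorem Contr_of_orbit {M : Type} [TopologicalSpace M] [ChartedSpace E4 M]
    [IsManifold (𝓡 4) ∞ M] [T2Space M] [CompactSpace M] {g : V4 ≃ₜ V4} {G : E4 ≃ₜ E4}
    {p : V4 → M} (hp : OrbitMap g p) (hG : Extends G g) (ht : Trap G) : Contr G := by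
  obtain ⟨G', h1, -, h3⟩ := exists_contraction orbitLoc pd hp
  have h4 : G' = G := Extends.unique (g := g) h1 hG
  rw [h4] at h3
  rcases h3 with h3 | h3
  · exact h3
  · exfalso
    obtain ⟨e, he⟩ := exists_norm_eq E4 (zero_le_one' ℝ)
    obtain ⟨n, hn⟩ := h3 1 1 one_pos
    have h5 := ht.pow_lt (Nat.succ_pos n) he.le
    have h6 := hn (n + 1) (Nat.le_succ n) _ h5.le
    rw [inv_pow, inv_apply_self', he] at h6
    exact lt_irrefl _ h6

/-- the data of an orbit space -/
theorem IsOrbitSpace.data {M : Mfd4} {p : Punctured → M} {G : Homeo4}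
    (h : IsOrbitSpace M p G) : T2Space M.carrier ∧ CompactSpace M.carrier ∧ PD 1 G.old ∧
      Trap G.old ∧ Contr G.old ∧
      ∃ g : V4 ≃ₜ V4, Extends G.old g ∧ OrbitMap g (M := M.carrier) p := by
  have h1 := punctured_iff.1 h.diffeo
  obtain ⟨g, hg⟩ := exists_restr h1
  have h2 : OrbitMap g (M := M.carrier) p :=
    ⟨h.surj, h.loc, fun x y => (h.fib x y).trans (iter_iff hg x y)⟩
  have a1 : T2Space M.carrier := h.closed.hausdorff
  have a2 : CompactSpace M.carrier := h.closed.compact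
  exact ⟨a1, a2, h1, h.trap, Contr_of_orbit h2 hg h.trap, g, hg, h2⟩

theorem IsOrbitSpace.mk' {M : Mfd4} {p : Punctured → M} {G : Homeo4} {g : V4 ≃ₜ V4}
    [T2Space M.carrier] [CompactSpace M.carrier] (hp : OrbitMap g (M := M.carrier) p)
    (hG : Extends G.old g) (h1 : PD 1 G.old) (ht : Trap G.old) : IsOrbitSpace M p G :=
  ⟨⟨inferInstance, inferInstance, hp.connected⟩, hp.surj, hp.loc,
    fun x y => (hp.fib x y).trans (iter_iff hG x y).symm, punctured_iff.2 h1, ht⟩

/-- in the class of the manifolds in which the unit sphere is embedded there is a trapping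
generator -/
theorem EmbedsSphere.data {M : Mfd4} {p : Punctured → M} (h : EmbedsSphere M p) :
    ∃ G : Homeo4, IsOrbitSpace M p G := by
  obtain ⟨a1, a2, g₀, h1⟩ := orbit_of_homeo h.homeo h.cov h.loc
  have a1' : T2Space M.carrier := a1
  have a2' : CompactSpace M.carrier := a2
  obtain ⟨g, G, h2, h3, -, h5⟩ := exists_gen h1
  have h6 : PD 1 G := PD_of_oriented specMfderiv specSign h2 h3 h.oriented
  exact ⟨G, IsOrbitSpace.mk' h2 h3 h6 ((injOn_iff_trap h2 h3 h5).1 h.inj)⟩

/-- a contraction acts freely on the punctured space -/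
theorem free_of_contr {g : V4 ≃ₜ V4} {G : E4 ≃ₜ E4} (hG : Extends G g) (hc : Contr G) (k : ℤ)
    (x : V4) (hx : (g ^ k) x = x) : k = 0 := by
  have key : ∀ m : ℕ, 0 < m → ¬ (g ^ m) x = x := by
    intro m hm h
    have h1 : ∀ n : ℕ, ((G ^ m) ^ n) (x : E4) = x := by
      intro n
      induction n with
      | zero => rfl
      | succ n ih =>
        rw [pow_succ', mul_apply', ih, hG.pow m x, h]
    have h2 := (hc.pow hm).tendsto4 (x : E4)
    have h3 : Tendsto (fun _ : ℕ => (x : E4)) atTop (𝓝 0) := by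
      refine h2.congr fun n => ?_
      exact h1 n
    exact V4_ne x (tendsto_nhds_unique tendsto_const_nhds h3)
  by_contra hk
  rcases lt_or_gt_of_ne hk with h | h
  · obtain ⟨m, hm⟩ := Int.eq_ofNat_of_zero_le (show 0 ≤ -k by omega)
    refine key m (by omega) ?_
    have h1 : (g ^ (-k)) x = x := by
      conv_lhs => rw [← hx]
      show ((g ^ (-k)) * (g ^ k)) x = x
      rw [← zpow_add]
      simp
    rw [hm, zpow_natCast] at h1
    exact h1
  · obtain ⟨m, hm⟩ := Int.eq_ofNat_of_zero_le h.le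
    refine key m (by omega) ?_
    rw [hm, zpow_natCast] at hx
    exact hx

/-- every class is the class of an orbit space homeomorphic to `S¹ × S³` -/
theorem exists_of_class {h : E4 ≃ₜ E4} (hh : PD 1 h) : ∃ (M : Mfd4) (p : Punctured → M)
    (G : Homeo4), EmbedsSphere M p ∧ IsOrbitSpace M p G ∧ Ext (G.old * h⁻¹) := by
  obtain ⟨g, G, C, p, h1, h2, h3, h4, h5, h6, h7⟩ := exists_space_of hh
  let M : Mfd4 := ⟨Circle × sphere (0 : E4) 1, inferInstance, C, h1⟩
  have a1 : T2Space M.carrier := inferInstanceAs (T2Space (Circle × sphere (0 : E4) 1))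
  have a2 : CompactSpace M.carrier := inferInstanceAs (CompactSpace (Circle × sphere (0 : E4) 1))
  have h2' : OrbitMap g (M := M.carrier) p := h2
  have hM : HomeoS1S3 M := ⟨Homeomorph.refl _⟩
  refine ⟨M, p, G, ⟨hM, ?_, h2'.loc, ?_, (injOn_iff_trap h2' h3 h5).2 h6⟩,
    IsOrbitSpace.mk' h2' h3 h4 h6, h7⟩
  · exact isCoveringMap_of_orbits h2'.loc.isLocalHomeomorph h2'.surj h2'.fib
      fun k x hx => free_of_contr h3 h5 k x hx
  · exact oriented_of_PD specMfderiv h2' h3 h4

/-- every orbit space is homeomorphic to `S¹ × S³`, and the unit sphere is embedded in it -/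
theorem IsOrbitSpace.embeds {M : Mfd4} {p : Punctured → M} {G : Homeo4}
    (h : IsOrbitSpace M p G) : EmbedsSphere M p := by
  obtain ⟨a1, a2, h1, ht, hc, g, hg, hp⟩ := h.data
  obtain ⟨τ, h5, h6⟩ := exists_tau
  obtain ⟨q₀, c1, c2, c3⟩ := modelMap τ h6
  obtain ⟨F, -⟩ := off_point (one_mul 1) hg h1 ht hc hp det_refl_pos h5 c1 c2 c3
  refine ⟨⟨F⟩, ?_, h.loc, oriented_of_PD specMfderiv hp hg h1, (injOn_iff_trap hp hg hc).2 ht⟩
  exact isCoveringMap_of_orbits hp.loc.isLocalHomeomorph hp.surj hp.fib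
    fun k x hx => free_of_contr hg hc k x hx

end Pool.Agent.HopfCov.Smooth
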