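import Pool.Agent.HopfCov.Final2

/-!
# The group of punctured diffeomorphisms modulo those which extend near infinity
-/

set_option autoImplicit false
set_option linter.unusedSectionVars false

open scoped ContDiff Topology Manifold
open Set Filter Metric

namespace Pool.Agent.HopfCov

/-- the group of orientation preserving punctured diffeomorphisms of `ℝ⁴` -/
def DD : Subgroup (E4 ≃ₜ E4) where
  carrier := {h | PD 1 h}
  mul_mem' := fun ha hb => ha.mul_one' hb
  one_mem' := PD_one
  inv_mem' := fun ha => ha.inv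

/-- those which extend near infinity -/
def D1 : Subgroup DD where
  carrier := {h | Ext (h : E4 ≃ₜ E4)}
  mul_mem' := fun ha hb => Ext.mul ha hb
  one_mem' := Ext_one
  inv_mem' := fun ha => Ext.inv ha

instance : D1.Normal where
  conj_mem := fun n hn g => Ext.conj hGerm hSwap hdim4 (one_mul 1) hn g.2

/-- the class group -/
abbrev AA : Type := DD ⧸ D1

theorem AA_comm (x y : AA) : x * y = y * x := by
  induction x using QuotientGroup.induction_on with | H a => ?_
  induction y using QuotientGroup.induction_on with | H b => ?_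
  rw [← QuotientGroup.mk_mul, ← QuotientGroup.mk_mul, QuotientGroup.eq]
  show Ext (((a * b)⁻¹ * (b * a) : DD) : E4 ≃ₜ E4)
  have h := comm_ext hGerm hSwap hdim4 b.2 a.2
  have e : (((a * b)⁻¹ * (b * a) : DD) : E4 ≃ₜ E4) =
      (b : E4 ≃ₜ E4)⁻¹ * (a : E4 ≃ₜ E4)⁻¹ * b * a := by
    simp [mul_assoc]
  rw [e]
  exact h

instance : CommGroup AA := { (inferInstance : Group AA) with mul_comm := AA_comm }

/-- the class of a punctured diffeomorphism -/
def cls (h : E4 ≃ₜ E4) (hh : PD 1 h) : AA := ((⟨h, hh⟩ : DD) : AA)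

theorem cls_mul {a b : E4 ≃ₜ E4} (ha : PD 1 a) (hb : PD 1 b) :
    cls (a * b) (ha.mul_one' hb) = cls a ha * cls b hb := rfl

theorem cls_mul' {a b : E4 ≃ₜ E4} (ha : PD 1 a) (hb : PD 1 b) (hab : PD 1 (a * b)) :
    cls (a * b) hab = cls a ha * cls b hb := rfl

theorem cls_inv {a : E4 ≃ₜ E4} (ha : PD 1 a) (hai : PD 1 a⁻¹) : cls a⁻¹ hai = (cls a ha)⁻¹ := rfl

theorem cls_eq_one {a : E4 ≃ₜ E4} (ha : PD 1 a) : cls a ha = 1 ↔ Ext a := by
  have h : cls a ha = ((⟨a, ha⟩ : DD) : AA) := rfl
  rw [h, QuotientGroup.eq_one_iff]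
  rfl

theorem cls_surj (x : AA) : ∃ (w : E4 ≃ₜ E4) (hw : PD 1 w), cls w hw = x := by
  induction x using QuotientGroup.induction_on with | H a => ?_
  exact ⟨a, a.2, rfl⟩

theorem cls_congr {a b : E4 ≃ₜ E4} (ha : PD 1 a) (h : a = b) (hb : PD 1 b) :
    cls a ha = cls b hb := by subst h; rfl

/-- conjugation with an orientation reversing punctured diffeomorphism -/
theorem PD_conj {s : ℝ} (hs : s * s = 1) {T u : E4 ≃ₜ E4} (hT : PD s T) (hu : PD 1 u) :
    PD 1 (T * u * T⁻¹) := by
  have h := (hT.mul hu).mul hT.inv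
  rwa [mul_one, hs] at h

/-- conjugation with `T` as an automorphism of the class group -/
noncomputable def rr (T : E4 ≃ₜ E4) (hT : PD (-1) T) : AA →* AA :=
  QuotientGroup.lift D1
    { toFun := fun u => cls (T * u * T⁻¹) (PD_conj (by norm_num) hT u.2)
      map_one' := by
        rw [cls_eq_one]
        have : (T * ((1 : DD) : E4 ≃ₜ E4) * T⁻¹) = 1 := by simp
        rw [this]
        exact Ext_one
      map_mul' := fun u v => by
        rw [← cls_mul]
        exact cls_congr _ (by simp [mul_assoc]) _ }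
    (fun u hu => by
      show cls _ _ = 1
      rw [cls_eq_one]
      exact Ext.conj hGerm hSwap hdim4 (by norm_num) hu hT)

theorem rr_cls {T : E4 ≃ₜ E4} (hT : PD (-1) T) {u : E4 ≃ₜ E4} (hu : PD 1 u)
    (h : PD 1 (T * u * T⁻¹)) : rr T hT (cls u hu) = cls (T * u * T⁻¹) h := rfl

theorem rr_rr {T : E4 ≃ₜ E4} (hT : PD (-1) T) (x : AA) : rr T hT (rr T hT x) = x := by
  obtain ⟨u, hu, rfl⟩ := cls_surj x
  have h1 : PD 1 (T * T) := by
    have := hT.mul hT
    rwa [show (-1 : ℝ) * -1 = 1 by norm_num] at this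
  have h2 := PD_conj (s := -1) (by norm_num) hT hu
  have h3 := PD_conj (s := -1) (by norm_num) hT h2
  rw [rr_cls hT hu h2, rr_cls hT h2 h3]
  have h4 : T * (T * u * T⁻¹) * T⁻¹ = (T * T) * u * (T * T)⁻¹ := by group
  rw [cls_congr h3 h4 ((h1.mul_one' hu).mul_one' h1.inv), cls_mul (h1.mul_one' hu) h1.inv,
    cls_mul h1 hu, cls_inv h1 h1.inv, mul_comm (cls (T * T) h1), mul_assoc, mul_inv_cancel,
    mul_one]

end Pool.Agent.HopfCov
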