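import Pool.Agent.HopfCov.Core
import Pool.Agent.HopfCov.EndSwap

/-!
# Classification of trapping contractions up to oriented conjugation of the punctured space
-/

set_option autoImplicit false
set_option linter.unusedSectionVars false

open scoped ContDiff Topology
open Set Filter Metric

namespace Pool.Agent.HopfCov

variable {E : Type} [NormedAddCommGroup E] [InnerProductSpace ℝ E] [FiniteDimensional ℝ E]

/-- `ψ` and `φ` restrict to mutually inverse orientation preserving diffeomorphisms of the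
punctured space -/
def OD (ψ φ : E → E) : Prop :=
  (∀ x, x ≠ 0 → ψ x ≠ 0 ∧ φ (ψ x) = x ∧ LD 1 ψ x) ∧
  (∀ x, x ≠ 0 → φ x ≠ 0 ∧ ψ (φ x) = x ∧ LD 1 φ x)

/-- the restriction to the punctured space as a homeomorphism -/
noncomputable def OD.homeo {ψ φ : E → E} (h : OD ψ φ) :
    {x : E // x ≠ 0} ≃ₜ {x : E // x ≠ 0} where
  toFun x := ⟨ψ x, (h.1 x x.2).1⟩
  invFun x := ⟨φ x, (h.2 x x.2).1⟩
  left_inv x := Subtype.ext (h.1 x x.2).2.1
  right_inv x := Subtype.ext (h.2 x x.2).2.1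
  continuous_toFun := by
    rw [continuous_induced_rng, continuous_iff_continuousAt]
    intro x
    exact ContinuousAt.comp (g := ψ) (f := Subtype.val) (h.1 x x.2).2.2.continuousAt
      continuous_subtype_val.continuousAt
  continuous_invFun := by
    rw [continuous_induced_rng, continuous_iff_continuousAt]
    intro x
    exact ContinuousAt.comp (g := φ) (f := Subtype.val) (h.2 x x.2).2.2.continuousAt
      continuous_subtype_val.continuousAt

theorem OD.symm {ψ φ : E → E} (h : OD ψ φ) : OD φ ψ := ⟨h.2, h.1⟩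

theorem Contr.tendsto {g : E ≃ₜ E} (hg : Contr g) (x : E) :
    Tendsto (fun n : ℕ => (g ^ n) x) atTop (𝓝 0) := by
  rw [Metric.tendsto_atTop]
  intro ε hε
  obtain ⟨n₀, hn₀⟩ := hg ‖x‖ ε hε
  exact ⟨n₀, fun n hn => by rw [dist_zero_right]; exact hn₀ n hn x le_rfl⟩

theorem Contr.pow_ne {g : E ≃ₜ E} (hg : Contr g) {x : E} (hx : x ≠ 0) (n : ℕ) :
    (g ^ n) x ≠ 0 := by
  induction n with
  | zero => simpa using hx
  | succ n ih =>
    rw [pow_succ', mul_apply']
    intro h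
    exact ih (g.injective (h.trans hg.apply_zero.symm))

/-- iterating an equivariance -/
theorem pow_equiv {g k : E ≃ₜ E} {ψ : E → E} (hg0 : g 0 = 0)
    (h : ∀ x, x ≠ 0 → ψ (g x) = k (ψ x)) (n : ℕ) {x : E} (hx : x ≠ 0) :
    ψ ((g ^ n) x) = (k ^ n) (ψ x) := by
  induction n generalizing x with
  | zero => rfl
  | succ n ih =>
    have h1 : g x ≠ 0 := fun h0 => hx (g.injective (h0.trans hg0.symm))
    rw [pow_succ, mul_apply', ih h1, h x hx, pow_succ, mul_apply']

section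

variable (hG : SpecGermFix) (hS : SpecSwap) (hR : SpecRadial) (hE : SpecEnds)

include hG hS hE in
/-- **Conjugate contractions have the same class.** -/
theorem ext_of_OD (hdim : 1 < Module.finrank ℝ E) {g k : E ≃ₜ E} (hg : PD 1 g) (hk : PD 1 k)
    (cg : Contr g) (ck : Contr k) {ψ φ : E → E} (hψ : OD ψ φ)
    (h : (∀ x, x ≠ 0 → ψ (g x) = k (ψ x)) ∨
      (∀ x, x ≠ 0 → ψ (g x) = (k⁻¹ : E ≃ₜ E) (ψ x))) :
    Ext (k * g⁻¹) := by
  have hnt : Nontrivial E := Module.nontrivial_of_finrank_pos (R := ℝ) (by omega)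
  obtain ⟨e, he⟩ := exists_ne (0 : E)
  have hne : ∀ x, x ≠ 0 → g x ≠ 0 := fun x hx => hg.ne hx
  rcases hE E hdim hψ.symm.homeo with ⟨H, H0, hH⟩ | ⟨hinf, hzero⟩
  · -- the ends are preserved
    have hHφ : ∀ x, x ≠ 0 → H x = φ x := fun x hx => hH ⟨x, hx⟩
    have hHψ : ∀ x, x ≠ 0 → (H⁻¹ : E ≃ₜ E) x = ψ x := by
      intro x hx
      have h1 := hHφ (ψ x) (hψ.1 x hx).1
      rw [(hψ.1 x hx).2.1] at h1
      conv_lhs => rw [← h1]
      exact inv_apply_self' _ _
    have hHi0 : (H⁻¹ : E ≃ₜ E) 0 = 0 := by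
      conv_lhs => rw [← H0]
      exact inv_apply_self' _ _
    have hPD : PD 1 (H⁻¹ : E ≃ₜ E) := by
      refine ⟨hHi0, fun x hx => (hψ.1 x hx).2.2.congr ?_⟩
      filter_upwards [isOpen_ne.mem_nhds hx] with y hy
      exact (hHψ y hy).symm
    rcases h with h | h
    · have h1 : H⁻¹ * g = k * H⁻¹ := by
        refine Homeomorph.ext fun x => ?_
        show (H⁻¹ : E ≃ₜ E) (g x) = k ((H⁻¹ : E ≃ₜ E) x)
        by_cases hx : x = 0
        · rw [hx, hg.1, hHi0, hk.1]
        · rw [hHψ _ (hne x hx), hHψ x hx, h x hx]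
      have h2 := comm_ext hG hS hdim hPD.inv hg.inv
      have h3 : (H⁻¹ : E ≃ₜ E)⁻¹⁻¹ * g⁻¹⁻¹ * (H⁻¹ : E ≃ₜ E)⁻¹ * g⁻¹ = k * g⁻¹ := by
        rw [inv_inv, inv_inv, h1]
        group
      rwa [h3] at h2
    · exfalso
      -- `k` would be expanding along the image of an orbit
      have h1 : ∀ n : ℕ, (H⁻¹ : E ≃ₜ E) ((g ^ n) e) = ((k⁻¹) ^ n) (ψ e) := by
        intro n
        rw [hHψ _ (cg.pow_ne he n)]
        exact pow_equiv hg.1 h n he
      have h2 : Tendsto (fun n : ℕ => (H⁻¹ : E ≃ₜ E) ((g ^ n) e)) atTop (𝓝 0) := by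
        have h3 := ((H⁻¹ : E ≃ₜ E).continuous.tendsto 0).comp (cg.tendsto e)
        rwa [hHi0] at h3
      have hψe : ψ e ≠ 0 := (hψ.1 e he).1
      obtain ⟨n₁, hn₁⟩ := ck 1 ‖ψ e‖ (norm_pos_iff.2 hψe)
      rw [Metric.tendsto_atTop] at h2
      obtain ⟨n₂, hn₂⟩ := h2 1 one_pos
      have h4 := hn₂ (max n₁ n₂) (le_max_right _ _)
      rw [dist_zero_right, h1] at h4
      have h5 := hn₁ (max n₁ n₂) (le_max_left _ _) _ h4.le
      rw [inv_pow, apply_inv_self'] at h5
      exact lt_irrefl _ h5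
  · -- the ends are exchanged
    have hφ0 : Tendsto φ (𝓝[≠] 0) (cocompact E) := by
      rw [← Metric.cobounded_eq_cocompact, ← tendsto_norm_atTop_iff_cobounded,
        Filter.tendsto_atTop]
      intro R
      obtain ⟨t, ht, hts⟩ := mem_comap.1 (hinf R)
      rw [eventually_nhdsWithin_iff]
      filter_upwards [ht] with x hx hx0
      exact hts (a := (⟨x, hx0⟩ : {x : E // x ≠ 0})) hx
    have hφi : Tendsto φ (cocompact E) (𝓝 0) := by
      have h0 : ({0} : Set E)ᶜ ∈ cocompact E := isCompact_singleton.compl_mem_cocompact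
      rw [tendsto_zero_iff_norm_tendsto_zero, Metric.tendsto_nhds]
      intro ε hε
      obtain ⟨t, ht, hts⟩ := mem_comap.1 (hzero (ε / 2) (by positivity))
      filter_upwards [ht, h0] with x hx hx0
      have h1 : ‖φ x‖ ≤ ε / 2 := hts (a := (⟨x, hx0⟩ : {x : E // x ≠ 0})) hx
      rw [Real.dist_eq, sub_zero, abs_of_nonneg (norm_nonneg _)]
      linarith
    rcases h with h | h
    · exfalso
      have h' : ∀ x, x ≠ 0 → φ (k x) = g (φ x) := by
        intro x hx
        have h1 := h (φ x) (hψ.2 x hx).1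
        rw [(hψ.2 x hx).2.1] at h1
        rw [← h1, (hψ.1 _ (hne _ (hψ.2 x hx).1)).2.1]
      have h1 : ∀ n : ℕ, φ ((k ^ n) e) = (g ^ n) (φ e) := fun n => pow_equiv hk.1 h' n he
      have h2 : Tendsto (fun n : ℕ => (k ^ n) e) atTop (𝓝[≠] 0) :=
        tendsto_nhdsWithin_iff.2 ⟨ck.tendsto e, Eventually.of_forall fun n => ck.pow_ne he n⟩
      have h3 := hφ0.comp h2
      have h4 : Tendsto (fun n : ℕ => (g ^ n) (φ e)) atTop (cocompact E) := by
        refine h3.congr fun n => ?_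
        exact h1 n
      rw [← Metric.cobounded_eq_cocompact, ← tendsto_norm_atTop_iff_cobounded,
        Filter.tendsto_atTop] at h4
      have h5 := (cg.tendsto (φ e)).norm
      rw [norm_zero] at h5
      have h6 := h5.eventually (gt_mem_nhds (show (0 : ℝ) < 1 by norm_num))
      obtain ⟨n, hn1, hn2⟩ := ((h4 1).and h6).exists
      exact absurd hn2 (not_lt.2 hn1)
    · have hrel : ∀ x, x ≠ 0 → k (ψ x) = ψ ((g⁻¹ : E ≃ₜ E) x) := by
        intro x hx
        have h1 := h ((g⁻¹ : E ≃ₜ E) x) (hg.inv.ne hx)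
        rw [apply_inv_self'] at h1
        rw [h1, apply_inv_self']
      have h1 : Ext (k⁻¹ * g) := end_swap hG hS hdim hg hk hψ.1 hψ.2 hφ0 hφi hrel
      have h2 := Ext.conj hG hS hdim (one_mul (1 : ℝ)) h1.inv hg
      have h3 : g * (k⁻¹ * g)⁻¹ * g⁻¹ = k * g⁻¹ := by group
      rwa [h3] at h2

include hG hS hR hE in
/-- **Classification.** Two oriented contractions which map the closed unit ball into its
interior are conjugate up to inversion by an orientation preserving diffeomorphism of the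
punctured space if and only if `k * g⁻¹` agrees near infinity with a diffeomorphism of `E`. -/
theorem classify (hdim : 1 < Module.finrank ℝ E) {g k : E ≃ₜ E} (hg : PD 1 g) (hk : PD 1 k)
    (tg : Trap g) (tk : Trap k) (cg : Contr g) (ck : Contr k) :
    (∃ ψ φ : E → E, OD ψ φ ∧ ((∀ x, x ≠ 0 → ψ (g x) = k (ψ x)) ∨
      (∀ x, x ≠ 0 → ψ (g x) = (k⁻¹ : E ≃ₜ E) (ψ x)))) ↔ Ext (k * g⁻¹) := by
  constructor
  · rintro ⟨ψ, φ, hψ, h⟩
    exact ext_of_OD hG hS hE hdim hg hk cg ck hψ h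
  · intro h
    obtain ⟨Φ, hΦ, hc⟩ := core_conj hG hS hR hdim (one_mul 1) hg hk tg tk cg ck h
    refine ⟨Φ, (Φ⁻¹ : E ≃ₜ E), ⟨fun x hx => ⟨hΦ.ne hx, inv_apply_self' _ _, hΦ.2 x hx⟩,
      fun x hx => ⟨hΦ.inv.ne hx, apply_inv_self' _ _, hΦ.inv.2 x hx⟩⟩, Or.inl fun x _ => ?_⟩
    have := congrArg (fun f : E ≃ₜ E => f x) hc
    exact this

end

end Pool.Agent.HopfCov
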