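import Pool.Agent.HopfCov.Spec

/-!
# The generator of a free cocompact action of the integers on the punctured space contracts

`specContract : SpecEnds → SpecContract` (package HC2b).
-/

set_option autoImplicit false

open scoped Topology
open Set Filter Metric

namespace Pool.Agent.HopfCov

section Euclid

variable {E : Type} [NormedAddCommGroup E] [NormedSpace ℝ E]

private theorem preconnected_outside (h1 : 1 < Module.rank ℝ E) (ε : ℝ) (hε : 0 < ε) :
    IsPreconnected {y : E | ε ≤ ‖y‖} := by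
  have h : {y : E | ε ≤ ‖y‖} =
      (fun q : ℝ × E => q.1 • q.2) '' (Ici ε ×ˢ sphere (0 : E) 1) := by
    ext y
    constructor
    · intro hy
      have hy' : ε ≤ ‖y‖ := hy
      have hpos : 0 < ‖y‖ := lt_of_lt_of_le hε hy'
      refine ⟨(‖y‖, ‖y‖⁻¹ • y), ⟨hy', ?_⟩, ?_⟩
      · simp [norm_smul, hpos.ne']
      · simp [smul_smul, hpos.ne']
    · rintro ⟨⟨t, u⟩, ⟨ht, hu⟩, rfl⟩
      have hu' : ‖u‖ = 1 := by simpa using hu
      have ht' : ε ≤ t := ht
      have h3 : ‖t • u‖ = |t| := by rw [norm_smul, hu', mul_one, Real.norm_eq_abs]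
      change ε ≤ ‖t • u‖
      rw [h3]
      exact ht'.trans (le_abs_self t)
  rw [h]
  exact (isPreconnected_Ici.prod (isPreconnected_sphere h1 0 1)).image _
    (by fun_prop)

omit [NormedSpace ℝ E] in
/-- a preconnected set missing a sphere and meeting the open ball is in the open ball -/
private theorem subset_ball_of_miss {T : Set E} (hT : IsPreconnected T) {R : ℝ}
    (hmiss : ∀ x ∈ T, ‖x‖ ≠ R) {x₀ : E} (hx₀ : x₀ ∈ T) (h0 : ‖x₀‖ < R) :
    ∀ x ∈ T, ‖x‖ < R := by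
  intro x hx
  by_contra hcon
  have hgt : R < ‖x‖ := lt_of_le_of_ne (not_lt.1 hcon) (hmiss x hx).symm
  obtain ⟨z, hz, hzu, hzv⟩ := hT {x | ‖x‖ < R} {x | R < ‖x‖}
    (isOpen_lt continuous_norm continuous_const) (isOpen_lt continuous_const continuous_norm)
    (fun y hy => lt_or_gt_of_ne (hmiss y hy)) ⟨x₀, hx₀, h0⟩ ⟨x, hx, hgt⟩
  exact lt_asymm (show ‖z‖ < R from hzu) hzv

private theorem ball_lemma [FiniteDimensional ℝ E] (h1 : 1 < Module.rank ℝ E) (H : E ≃ₜ E)
    {R ε : ℝ} (hε : 0 < ε) (hs : ∀ x, ‖x‖ = R → ‖H x‖ < ε) :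
    ∀ x, ‖x‖ ≤ R → ‖H x‖ < ε := by
  intro x₀ hx₀
  by_contra hcon
  have hcon' : ε ≤ ‖H x₀‖ := not_lt.1 hcon
  have hlt : ‖x₀‖ < R := by
    rcases lt_or_eq_of_le hx₀ with h | h
    · exact h
    · exact absurd (hs x₀ h) hcon
  set T : Set E := H.symm '' {y : E | ε ≤ ‖y‖} with hTdef
  have hTmem : ∀ x ∈ T, ε ≤ ‖H x‖ := by
    rintro x ⟨y, hy, rfl⟩
    simpa using hy
  have hT : IsPreconnected T :=
    (preconnected_outside h1 ε hε).image _ H.symm.continuous.continuousOn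
  have hball := subset_ball_of_miss hT (R := R)
    (fun x hx h => absurd (hs x h) (not_lt.2 (hTmem x hx)))
    ⟨H x₀, hcon', by simp⟩ hlt
  have hprop : ProperSpace E := FiniteDimensional.proper ℝ E
  have hc : IsCompact (H '' closedBall (0 : E) R) := (isCompact_closedBall 0 R).image H.continuous
  obtain ⟨C, hC⟩ := hc.isBounded.exists_norm_le
  have hnt : Nontrivial E := by
    have : 0 < Module.rank ℝ E := lt_trans zero_lt_one h1
    exact rank_pos_iff_nontrivial.1 this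
  obtain ⟨y, hy⟩ := NormedSpace.exists_lt_norm ℝ E (max C ε)
  have hyε : ε ≤ ‖y‖ := (le_max_right C ε).trans hy.le
  have := hball (H.symm y) ⟨y, hyε, rfl⟩
  have h2 := hC y ⟨H.symm y, by simpa using this.le, by simp⟩
  exact absurd (lt_of_le_of_lt (le_max_left C ε) hy) (not_lt.2 h2)

/-- alternatives for a homeomorphism which moves an annulus off itself -/
private theorem alternative [FiniteDimensional ℝ E] (h1 : 1 < Module.rank ℝ E) (H : E ≃ₜ E)
    (h0 : H 0 = 0) {R ε : ℝ} (hR : 0 < R) (hε : 0 < ε) (hεR : ε ≤ R)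
    (hann : ∀ x, ε ≤ ‖x‖ → ‖x‖ ≤ R → ¬ (ε ≤ ‖H x‖ ∧ ‖H x‖ ≤ R)) :
    (∀ x, ‖x‖ ≤ R → ‖H x‖ < ε) ∨ (∀ x, ‖x‖ ≤ R → ‖H⁻¹ x‖ < R) := by
  have hS : IsPreconnected (H '' sphere (0 : E) R) :=
    (isPreconnected_sphere h1 0 R).image _ H.continuous.continuousOn
  have hmiss : ∀ x, ‖x‖ = R → ¬ (ε ≤ ‖H x‖ ∧ ‖H x‖ ≤ R) := fun x hx =>
    hann x (hεR.trans hx.ge) hx.le
  by_cases hex : ∃ x, ‖x‖ = R ∧ ‖H x‖ < ε
  · left
    obtain ⟨x₁, hx₁, hx₁'⟩ := hex
    refine ball_lemma h1 H hε ?_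
    intro x hx
    refine subset_ball_of_miss hS (R := ε) ?_ ⟨x₁, by simpa using hx₁, rfl⟩ hx₁' _
      ⟨x, by simpa using hx, rfl⟩
    rintro y ⟨z, hz, rfl⟩ hzz
    have hz' : ‖z‖ = R := by simpa using hz
    exact hmiss z hz' ⟨hzz.ge, hzz.le.trans hεR⟩
  · right
    have hall : ∀ x, ‖x‖ = R → R < ‖H x‖ := by
      intro x hx
      by_contra hcon
      refine hmiss x hx ⟨?_, not_lt.1 hcon⟩
      by_contra h
      exact hex ⟨x, hx, not_le.1 h⟩
    intro x hx
    have hB : IsPreconnected ((H⁻¹ : E ≃ₜ E) '' closedBall (0 : E) R) :=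
      ((convex_closedBall (0 : E) R).isPreconnected).image _ (H⁻¹ : E ≃ₜ E).continuous.continuousOn
    have h00 : (H⁻¹ : E ≃ₜ E) 0 = 0 := by
      have : H.symm (H 0) = 0 := H.symm_apply_apply 0
      rw [h0] at this
      exact this
    refine subset_ball_of_miss hB (R := R) ?_ ⟨0, by simp [hR.le], rfl⟩ ?_ _
      ⟨x, by simpa using hx, rfl⟩
    · rintro y ⟨z, hz, rfl⟩ hzz
      have hz' : ‖z‖ ≤ R := by simpa using hz
      have h3 := hall _ hzz
      have h4 : H ((H⁻¹ : E ≃ₜ E) z) = z := H.apply_symm_apply z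
      rw [h4] at h3
      exact absurd hz' (not_le.2 h3)
    · rw [h00]; simpa using hR

private def CC (G : E ≃ₜ E) (R : ℝ) (n : ℤ) : Prop := ∀ x, ‖x‖ ≤ R → ‖(G ^ n) x‖ < R

omit [NormedSpace ℝ E] in
private theorem CC.mul_nat {G : E ≃ₜ E} {R : ℝ} {n : ℤ} (h : CC G R n) (k : ℕ) :
    CC G R (n * (k + 1 : ℕ)) := by
  induction k with
  | zero => simpa using h
  | succ k ih =>
    intro x hx
    have h2 : (G ^ (n * ((k + 1 + 1 : ℕ) : ℤ))) x = (G ^ n) ((G ^ (n * ((k + 1 : ℕ) : ℤ))) x) := by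
      have h3 : n * ((k + 1 + 1 : ℕ) : ℤ) = n + n * ((k + 1 : ℕ) : ℤ) := by
        push_cast; ring
      rw [h3, zpow_add]
      rfl
    rw [h2]
    exact h _ (ih x hx).le

private theorem CC.not_both {G : E ≃ₜ E} {R : ℝ} [Nontrivial E] (hR : 0 < R) {n : ℤ}
    (h : CC G R n) (h' : CC G R (-n)) : False := by
  obtain ⟨x, hx⟩ := NormedSpace.exists_lt_norm ℝ E 0
  set y : E := (R * ‖x‖⁻¹) • x with hy
  have hyn : ‖y‖ = R := by
    rw [hy, norm_smul, norm_mul, norm_inv, norm_norm, Real.norm_eq_abs, abs_of_pos hR]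
    field_simp
  have h1 := h' y hyn.le
  have h2 := h _ h1.le
  have h3 : (G ^ n) ((G ^ (-n)) y) = y := by
    have : (G ^ n * G ^ (-n)) y = y := by
      rw [← zpow_add]; simp
    exact this
  rw [h3, hyn] at h2
  exact lt_irrefl _ h2

private theorem CC.sign {G : E ≃ₜ E} {R : ℝ} [Nontrivial E] (hR : 0 < R) {n m : ℕ}
    (hn : 0 < n) (hm : 0 < m) (h : CC G R n) (h' : CC G R (-(m : ℤ))) : False := by
  obtain ⟨a, rfl⟩ : ∃ a, n = a + 1 := ⟨n - 1, by omega⟩
  obtain ⟨b, rfl⟩ : ∃ b, m = b + 1 := ⟨m - 1, by omega⟩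
  have h1 := h.mul_nat b
  have h2 := h'.mul_nat a
  refine CC.not_both hR h1 ?_
  convert h2 using 1
  push_cast
  ring

/-- the main alternative -/
private theorem main_alt [FiniteDimensional ℝ E] (h1 : 1 < Module.rank ℝ E) (G : E ≃ₜ E)
    (h0 : G 0 = 0)
    (hpd : ∀ C : Set E, IsCompact C → (0 : E) ∉ C → {n : ℤ | ∃ x ∈ C, (G ^ n) x ∈ C}.Finite) :
    (∀ R ε : ℝ, 0 < ε → ∃ n₀ : ℕ, ∀ n ≥ n₀, ∀ x : E, ‖x‖ ≤ R → ‖(G ^ n) x‖ < ε) ∨
       (∀ R ε : ℝ, 0 < ε → ∃ n₀ : ℕ, ∀ n ≥ n₀, ∀ x : E, ‖x‖ ≤ R → ‖((G⁻¹) ^ n) x‖ < ε) := by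
  have hnt : Nontrivial E := by
    have : 0 < Module.rank ℝ E := lt_trans zero_lt_one h1
    exact rank_pos_iff_nontrivial.1 this
  have hprop : ProperSpace E := FiniteDimensional.proper ℝ E
  have hz0 : ∀ n : ℤ, (G ^ n) 0 = 0 := by
    have hnat : ∀ n : ℕ, (G ^ n) 0 = 0 := by
      intro n
      induction n with
      | zero => rfl
      | succ n ih =>
        rw [pow_succ]
        change (G ^ n) (G 0) = 0
        rw [h0, ih]
    intro n
    cases n with
    | ofNat n => simpa using hnat n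
    | negSucc n =>
      rw [zpow_negSucc]
      have h2 := hnat (n + 1)
      have h3 : (G ^ (n + 1)).symm ((G ^ (n + 1)) 0) = 0 := (G ^ (n + 1)).symm_apply_apply 0
      rw [h2] at h3
      exact h3
  -- bad exponents are bounded
  have hbd : ∀ R ε : ℝ, 0 < ε → ∃ N : ℕ, ∀ n : ℤ, N ≤ |n| →
      ∀ x, ε ≤ ‖x‖ → ‖x‖ ≤ R → ¬ (ε ≤ ‖(G ^ n) x‖ ∧ ‖(G ^ n) x‖ ≤ R) := by
    intro R ε hε
    have hC : IsCompact {x : E | ε ≤ ‖x‖ ∧ ‖x‖ ≤ R} := by
      have : {x : E | ε ≤ ‖x‖ ∧ ‖x‖ ≤ R} = closedBall 0 R ∩ {x | ε ≤ ‖x‖} := by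
        ext x
        simp [and_comm]
      rw [this]
      exact (isCompact_closedBall 0 R).inter_right (isClosed_le continuous_const continuous_norm)
    have hfin := hpd _ hC (by
      intro h
      have : ε ≤ ‖(0 : E)‖ := h.1
      rw [norm_zero] at this
      exact absurd hε (not_lt.2 this))
    obtain ⟨B, hB⟩ := (hfin.image fun n : ℤ => n.natAbs).bddAbove
    refine ⟨B + 1, ?_⟩
    intro n hn x hx1 hx2 hx3
    have h2 : n.natAbs ≤ B := hB ⟨n, ⟨x, ⟨hx1, hx2⟩, hx3⟩, rfl⟩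
    have h3 : |n| = (n.natAbs : ℤ) := Int.abs_eq_natAbs n
    rw [h3] at hn
    omega
  have halt : ∀ R ε : ℝ, 0 < R → 0 < ε → ε ≤ R → ∃ N : ℕ, ∀ n : ℤ, N ≤ |n| →
      (∀ x, ‖x‖ ≤ R → ‖(G ^ n) x‖ < ε) ∨ CC G R (-n) := by
    intro R ε hR hε hεR
    obtain ⟨N, hN⟩ := hbd R ε hε
    refine ⟨N, ?_⟩
    intro n hn
    rcases alternative h1 (G ^ n) (hz0 n) hR hε hεR (hN n hn) with h | h
    · exact Or.inl h
    · right
      intro x hx
      rw [zpow_neg]
      exact h x hx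
  -- the two alternatives for a single radius
  have hone : ∀ R : ℝ, 0 < R →
      (∀ ε : ℝ, 0 < ε → ε ≤ R → ∃ n₀ : ℕ, ∀ n ≥ n₀, ∀ x : E, ‖x‖ ≤ R → ‖(G ^ n) x‖ < ε) ∨
      (∀ ε : ℝ, 0 < ε → ε ≤ R → ∃ n₀ : ℕ, ∀ n ≥ n₀, ∀ x : E, ‖x‖ ≤ R →
        ‖((G⁻¹) ^ n) x‖ < ε) := by
    intro R hR
    obtain ⟨N, hN⟩ := halt R R hR hR le_rfl
    have hcase : CC G R ((N + 1 : ℕ) : ℤ) ∨ CC G R (-((N + 1 : ℕ) : ℤ)) := by
      refine hN ((N + 1 : ℕ) : ℤ) ?_
      rw [abs_of_nonneg (by positivity)]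
      push_cast
      linarith
    rcases hcase with hc | hc
    · left
      intro ε hε hεR
      obtain ⟨N', hN'⟩ := halt R ε hR hε hεR
      refine ⟨N' + 1, ?_⟩
      intro n hn
      rcases hN' (n : ℤ) (by rw [abs_of_nonneg (by positivity)]; omega) with h | h
      · intro x hx
        have := h x hx
        rwa [zpow_natCast] at this
      · exact (CC.sign hR (Nat.succ_pos N) (by omega) hc h).elim
    · right
      intro ε hε hεR
      obtain ⟨N', hN'⟩ := halt R ε hR hε hεR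
      refine ⟨N' + 1, ?_⟩
      intro n hn
      rcases hN' (-(n : ℤ)) (by rw [abs_neg, abs_of_nonneg (by positivity)]; omega) with h | h
      · intro x hx
        have := h x hx
        rwa [zpow_neg, zpow_natCast, ← inv_pow] at this
      · rw [neg_neg] at h
        exact (CC.sign hR (by omega) (Nat.succ_pos N) h hc).elim
  -- the alternatives for different radii agree
  have hcomp : ∀ R S : ℝ, 0 < R → 0 < S →
      (∀ ε : ℝ, 0 < ε → ε ≤ R → ∃ n₀ : ℕ, ∀ n ≥ n₀, ∀ x : E, ‖x‖ ≤ R → ‖(G ^ n) x‖ < ε) →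
      (∀ ε : ℝ, 0 < ε → ε ≤ S → ∃ n₀ : ℕ, ∀ n ≥ n₀, ∀ x : E, ‖x‖ ≤ S →
        ‖((G⁻¹) ^ n) x‖ < ε) → False := by
    intro R S hR hS hp hn
    have hm : 0 < min R S := lt_min hR hS
    obtain ⟨a, ha⟩ := hp (min R S) hm (min_le_left _ _)
    obtain ⟨b, hb⟩ := hn (min R S) hm (min_le_right _ _)
    have h1 : CC G (min R S) ((a + b : ℕ) : ℤ) := by
      intro x hx
      have := ha (a + b) (by omega) x (hx.trans (min_le_left _ _))
      rwa [zpow_natCast]
    have h2 : CC G (min R S) (-((a + b : ℕ) : ℤ)) := by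
      intro x hx
      have := hb (a + b) (by omega) x (hx.trans (min_le_right _ _))
      rwa [zpow_neg, zpow_natCast, ← inv_pow]
    exact CC.not_both hm h1 h2
  rcases hone 1 one_pos with hp | hn
  · left
    intro R ε hε
    have hRpos : 0 < max R 1 := lt_of_lt_of_le one_pos (le_max_right _ _)
    rcases hone (max R 1) hRpos with hp' | hn'
    · obtain ⟨n₀, h⟩ := hp' (min ε (max R 1)) (lt_min hε hRpos) (min_le_right _ _)
      exact ⟨n₀, fun n hn x hx =>
        lt_of_lt_of_le (h n hn x (hx.trans (le_max_left _ _))) (min_le_left _ _)⟩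
    · exact (hcomp 1 _ one_pos hRpos hp hn').elim
  · right
    intro R ε hε
    have hRpos : 0 < max R 1 := lt_of_lt_of_le one_pos (le_max_right _ _)
    rcases hone (max R 1) hRpos with hp' | hn'
    · exact (hcomp _ 1 hRpos one_pos hp' hn).elim
    · obtain ⟨n₀, h⟩ := hn' (min ε (max R 1)) (lt_min hε hRpos) (min_le_right _ _)
      exact ⟨n₀, fun n hn x hx =>
        lt_of_lt_of_le (h n hn x (hx.trans (le_max_left _ _))) (min_le_left _ _)⟩

end Euclid

section Action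

variable {X : Type} [TopologicalSpace X] {M : Type} [TopologicalSpace M]

/-- a compact set onto the compact orbit space -/
private theorem exists_compact_image [LocallyCompactSpace X] [CompactSpace M] {p : X → M}
    (hc : IsLocalHomeomorph p) (hs : Function.Surjective p) :
    ∃ K : Set X, IsCompact K ∧ p '' K = univ := by
  have h : ∃ K : Set X, IsCompact K ∧ univ ⊆ p '' K := by
    refine (isCompact_univ (X := M)).induction_on
      (p := fun s => ∃ K : Set X, IsCompact K ∧ s ⊆ p '' K) ?_ ?_ ?_ ?_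
    · exact ⟨∅, isCompact_empty, by simp⟩
    · rintro s t hst ⟨K, hK, ht⟩
      exact ⟨K, hK, hst.trans ht⟩
    · rintro s t ⟨K, hK, hs'⟩ ⟨L, hL, ht⟩
      exact ⟨K ∪ L, hK.union hL, by rw [image_union]; exact union_subset_union hs' ht⟩
    · intro m _
      obtain ⟨x, rfl⟩ := hs m
      obtain ⟨K, hK, hx⟩ := exists_compact_mem_nhds x
      refine ⟨p '' K, ?_, K, hK, subset_rfl⟩
      exact mem_nhdsWithin_of_mem_nhds (hc.isOpenMap.image_mem_nhds hx)
  obtain ⟨K, hK, h⟩ := h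
  exact ⟨K, hK, univ_subset_iff.1 h⟩

private theorem zpow_apply_add (g : X ≃ₜ X) (a b : ℤ) (x : X) :
    (g ^ (a + b)) x = (g ^ a) ((g ^ b) x) := by
  rw [zpow_add]; rfl

/-- the generator has infinite order -/
private theorem infinite_order [LocallyCompactSpace X] [CompactSpace M]
    (hX : ¬ IsCompact (univ : Set X)) {g : X ≃ₜ X} {p : X → M}
    (hc : IsLocalHomeomorph p) (hs : Function.Surjective p)
    (hf : ∀ x y, p x = p y ↔ ∃ n : ℤ, y = (g ^ n) x) {n : ℤ} (hn : n ≠ 0) : g ^ n ≠ 1 := by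
  intro h1
  obtain ⟨K, hK, hKM⟩ := exists_compact_image hc hs
  refine hX ?_
  have hcov : (univ : Set X) ⊆ ⋃ k ∈ Finset.range n.natAbs, (g ^ k) '' K := by
    intro y _
    have hy : p y ∈ p '' K := by rw [hKM]; trivial
    obtain ⟨x, hx, hxy⟩ := hy
    obtain ⟨m, hm⟩ := (hf x y).1 hxy
    have hpos : 0 < |n| := abs_pos.2 hn
    have h2 : (g ^ (|n|)) = 1 := by
      rcases abs_choice n with h | h
      · rw [h, h1]
      · rw [h, zpow_neg, h1, inv_one]
    have hmod : g ^ m = g ^ (m % |n|) := by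
      conv_lhs => rw [← Int.emod_add_mul_ediv m (|n|)]
      rw [zpow_add, zpow_mul, h2, one_zpow, mul_one]
    have hnn : 0 ≤ m % |n| := Int.emod_nonneg _ hpos.ne'
    have hlt : m % |n| < |n| := Int.emod_lt_of_pos _ hpos
    simp only [mem_iUnion]
    refine ⟨(m % |n|).toNat, ?_, x, hx, ?_⟩
    · rw [Finset.mem_range]
      have h3 : |n| = (n.natAbs : ℤ) := Int.abs_eq_natAbs n
      rw [h3] at hlt hnn ⊢
      omega
    · have h4 : (g ^ (m % |n|).toNat) = g ^ (m % |n|) := by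
        rw [← zpow_natCast, Int.toNat_of_nonneg hnn]
      rw [h4, ← hmod, hm]
  have hcomp : IsCompact (⋃ k ∈ Finset.range n.natAbs, (g ^ k) '' K) :=
    (Finset.range n.natAbs).isCompact_biUnion fun k _ => hK.image (g ^ k).continuous
  exact hcomp.of_isClosed_subset isClosed_univ hcov

/-- the action is free -/
private theorem free [T2Space X] [LocallyCompactSpace X] [PreconnectedSpace X] [CompactSpace M]
    (hX : ¬ IsCompact (univ : Set X)) {g : X ≃ₜ X} {p : X → M}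
    (hc : IsLocalHomeomorph p) (hs : Function.Surjective p)
    (hf : ∀ x y, p x = p y ↔ ∃ n : ℤ, y = (g ^ n) x) {n : ℤ} {x : X} (hx : (g ^ n) x = x) :
    n = 0 := by
  by_contra hn
  set F : Set X := {y | (g ^ n) y = y} with hF
  have hclosed : IsClosed F := isClosed_eq (g ^ n).continuous continuous_id
  have hopen : IsOpen F := by
    rw [isOpen_iff_mem_nhds]
    intro y hy
    have hy' : (g ^ n) y = y := hy
    obtain ⟨e, hye, he⟩ := hc y
    have h1 : e.source ∈ 𝓝 y := e.open_source.mem_nhds hye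
    have h2 : (g ^ n) ⁻¹' e.source ∈ 𝓝 y :=
      (g ^ n).continuous.continuousAt.preimage_mem_nhds (by rw [hy']; exact h1)
    filter_upwards [h1, h2] with z hz1 hz2
    have h3 : p z = p ((g ^ n) z) := (hf _ _).2 ⟨n, rfl⟩
    rw [he] at h3
    exact (e.injOn hz1 hz2 h3).symm
  have huniv : F = univ := IsClopen.eq_univ ⟨hclosed, hopen⟩ ⟨x, hx⟩
  refine infinite_order hX hc hs hf hn ?_
  ext y
  have : y ∈ F := by rw [huniv]; trivial
  exact this

/-- proper discontinuity -/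
private theorem pd_local [T2Space X] [LocallyCompactSpace X] [PreconnectedSpace X] [T2Space M]
    [CompactSpace M] (hX : ¬ IsCompact (univ : Set X)) {g : X ≃ₜ X} {p : X → M}
    (hc : IsLocalHomeomorph p) (hs : Function.Surjective p)
    (hf : ∀ x y, p x = p y ↔ ∃ n : ℤ, y = (g ^ n) x) (x y : X) :
    ∃ t ∈ 𝓝 (x, y), {n : ℤ | ∃ q ∈ t, (g ^ n) q.1 = q.2}.Finite := by
  by_cases hxy : p x = p y
  · obtain ⟨m, rfl⟩ := (hf x y).1 hxy
    obtain ⟨e, hxe, he⟩ := hc x
    have h1 : e.source ∈ 𝓝 x := e.open_source.mem_nhds hxe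
    have h2 : (g ^ (-m)) ⁻¹' e.source ∈ 𝓝 ((g ^ m) x) := by
      refine (g ^ (-m)).continuous.continuousAt.preimage_mem_nhds ?_
      have : (g ^ (-m)) ((g ^ m) x) = x := by
        rw [← zpow_apply_add]; simp
      rw [this]
      exact h1
    refine ⟨e.source ×ˢ ((g ^ (-m)) ⁻¹' e.source), prod_mem_nhds h1 h2, ?_⟩
    refine (finite_singleton m).subset ?_
    rintro n ⟨⟨u, v⟩, ⟨hu, hv⟩, huv⟩
    simp only at huv hu hv
    have h3 : (g ^ (-m + n)) u ∈ e.source := by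
      rw [zpow_apply_add, huv]
      exact hv
    have h4 : p u = p ((g ^ (-m + n)) u) := (hf _ _).2 ⟨_, rfl⟩
    rw [he] at h4
    have h5 := free hX hc hs hf (e.injOn hu h3 h4).symm
    rw [mem_singleton_iff]
    omega
  · obtain ⟨A, B, hA, hB, hxA, hyB, hAB⟩ := t2_separation hxy
    refine ⟨(p ⁻¹' A) ×ˢ (p ⁻¹' B), prod_mem_nhds
      (hc.continuous.continuousAt.preimage_mem_nhds (hA.mem_nhds hxA))
      (hc.continuous.continuousAt.preimage_mem_nhds (hB.mem_nhds hyB)), ?_⟩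
    convert finite_empty
    rw [eq_empty_iff_forall_notMem]
    rintro n ⟨⟨u, v⟩, ⟨hu, hv⟩, huv⟩
    simp only at huv hu hv
    have h4 : p u = p v := (hf _ _).2 ⟨n, huv.symm⟩
    have hu' : p u ∈ A := hu
    have hv' : p v ∈ B := hv
    rw [h4] at hu'
    exact hAB.le_bot ⟨hu', hv'⟩

private theorem pd_compact [T2Space X] [LocallyCompactSpace X] [PreconnectedSpace X] [T2Space M]
    [CompactSpace M] (hX : ¬ IsCompact (univ : Set X)) {g : X ≃ₜ X} {p : X → M}
    (hc : IsLocalHomeomorph p) (hs : Function.Surjective p)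
    (hf : ∀ x y, p x = p y ↔ ∃ n : ℤ, y = (g ^ n) x) {C : Set X} (hC : IsCompact C) :
    {n : ℤ | ∃ x ∈ C, (g ^ n) x ∈ C}.Finite := by
  have h : {n : ℤ | ∃ q ∈ C ×ˢ C, (g ^ n) q.1 = q.2}.Finite := by
    refine (hC.prod hC).induction_on
      (p := fun s => {n : ℤ | ∃ q ∈ s, (g ^ n) q.1 = q.2}.Finite) ?_ ?_ ?_ ?_
    · simp
    · intro s t hst ht
      exact ht.subset fun n ⟨q, hq, h⟩ => ⟨q, hst hq, h⟩
    · intro s t hs' ht
      refine (hs'.union ht).subset ?_
      rintro n ⟨q, hq | hq, h⟩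
      · exact Or.inl ⟨q, hq, h⟩
      · exact Or.inr ⟨q, hq, h⟩
    · rintro ⟨x, y⟩ _
      obtain ⟨t, ht, h⟩ := pd_local hX hc hs hf x y
      exact ⟨t, mem_nhdsWithin_of_mem_nhds ht, h⟩
  refine h.subset ?_
  rintro n ⟨x, hx, hgx⟩
  exact ⟨(x, (g ^ n) x), ⟨hx, hgx⟩, rfl⟩

end Action

section Final

variable {E : Type} [NormedAddCommGroup E] [NormedSpace ℝ E]

omit [NormedSpace ℝ E] in
private theorem zpow_extends {g : {x : E // x ≠ 0} ≃ₜ {x : E // x ≠ 0}} {G : E ≃ₜ E}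
    (hG : ∀ x : {x : E // x ≠ 0}, G x = g x) (n : ℤ) (x : {x : E // x ≠ 0}) :
    (G ^ n) x = ((g ^ n) x : {x : E // x ≠ 0}) := by
  have hnat : ∀ n : ℕ, ∀ x : {x : E // x ≠ 0}, (G ^ n) x = ((g ^ n) x : {x : E // x ≠ 0}) := by
    intro n
    induction n with
    | zero => intro x; rfl
    | succ n ih =>
      intro x
      rw [pow_succ, pow_succ]
      change (G ^ n) (G x) = ((g ^ n) (g x) : {x : E // x ≠ 0})
      rw [hG, ih]
  cases n with
  | ofNat n => simpa using hnat n x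
  | negSucc n =>
    rw [zpow_negSucc, zpow_negSucc]
    have h2 := hnat (n + 1) (((g ^ (n + 1))⁻¹ : {x : E // x ≠ 0} ≃ₜ {x : E // x ≠ 0}) x)
    have h3 : (g ^ (n + 1)) (((g ^ (n + 1))⁻¹ : {x : E // x ≠ 0} ≃ₜ {x : E // x ≠ 0}) x) = x :=
      (g ^ (n + 1)).apply_symm_apply x
    rw [h3] at h2
    have h4 : (G ^ (n + 1)).symm ((G ^ (n + 1))
      (((g ^ (n + 1))⁻¹ : {x : E // x ≠ 0} ≃ₜ {x : E // x ≠ 0}) x)) =
      (((g ^ (n + 1))⁻¹ : {x : E // x ≠ 0} ≃ₜ {x : E // x ≠ 0}) x) :=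
      (G ^ (n + 1)).symm_apply_apply _
    rw [h2] at h4
    exact h4

omit [NormedSpace ℝ E] in
private theorem pd_extends {g : {x : E // x ≠ 0} ≃ₜ {x : E // x ≠ 0}} {G : E ≃ₜ E}
    (hG : ∀ x : {x : E // x ≠ 0}, G x = g x)
    (hpd : ∀ C : Set {x : E // x ≠ 0}, IsCompact C →
      {n : ℤ | ∃ x ∈ C, (g ^ n) x ∈ C}.Finite)
    (C : Set E) (hC : IsCompact C) (h0 : (0 : E) ∉ C) :
    {n : ℤ | ∃ x ∈ C, (G ^ n) x ∈ C}.Finite := by
  have hC' : IsCompact ((Subtype.val : {x : E // x ≠ 0} → E) ⁻¹' C) := by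
    refine Topology.IsInducing.subtypeVal.isCompact_preimage' hC ?_
    intro x hx
    exact ⟨⟨x, fun h => h0 (h ▸ hx)⟩, rfl⟩
  refine (hpd _ hC').subset ?_
  rintro n ⟨x, hx, hx'⟩
  have hne : x ≠ 0 := fun h => h0 (h ▸ hx)
  refine ⟨⟨x, hne⟩, hx, ?_⟩
  have := zpow_extends hG n ⟨x, hne⟩
  change (((g ^ n) ⟨x, hne⟩ : {x : E // x ≠ 0}) : E) ∈ C
  rw [← this]
  exact hx'

/-- package HC2b -/
theorem specContract (hEnds : SpecEnds) : SpecContract := by
  intro E _ _ _ hfr M _ _ _ g p hc hs hf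
  have h1 : 1 < Module.rank ℝ E := Module.one_lt_rank_of_one_lt_finrank hfr
  have hnt : Nontrivial E := by
    have : 0 < Module.rank ℝ E := lt_trans zero_lt_one h1
    exact rank_pos_iff_nontrivial.1 this
  have hprop : ProperSpace E := FiniteDimensional.proper ℝ E
  have hpc : PreconnectedSpace {x : E // x ≠ 0} := by
    have := (isConnected_compl_singleton_of_one_lt_rank h1 (0 : E)).isPreconnected
    exact Subtype.preconnectedSpace this
  have hlc : LocallyCompactSpace {x : E // x ≠ 0} := by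
    have : IsOpen {x : E | x ≠ 0} := isOpen_compl_singleton
    exact this.locallyCompactSpace
  have hnc : ¬ IsCompact (univ : Set {x : E // x ≠ 0}) := by
    intro h
    have h2 := h.image (continuous_subtype_val)
    obtain ⟨C, hC⟩ := h2.isBounded.exists_norm_le
    obtain ⟨y, hy⟩ := NormedSpace.exists_lt_norm ℝ E (max C 0)
    have hy0 : y ≠ 0 := by
      rintro rfl
      rw [norm_zero] at hy
      exact absurd (lt_of_le_of_lt (le_max_right C 0) hy) (lt_irrefl _)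
    exact absurd (lt_of_le_of_lt (le_max_left C 0) hy)
      (not_lt.2 (hC y ⟨⟨y, hy0⟩, trivial, rfl⟩))
  have hpd : ∀ C : Set {x : E // x ≠ 0}, IsCompact C →
      {n : ℤ | ∃ x ∈ C, (g ^ n) x ∈ C}.Finite := fun C hC => pd_compact hnc hc hs hf hC
  rcases hEnds E hfr g with ⟨G, hG0, hG⟩ | ⟨hz, hinf⟩
  · exact ⟨G, hG0, hG, main_alt h1 G hG0 (pd_extends hG hpd)⟩
  · exfalso
    rcases hEnds E hfr (g ^ 2) with ⟨G, hG0, hG⟩ | ⟨hz2, -⟩
    · have hpd2 : ∀ C : Set {x : E // x ≠ 0}, IsCompact C →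
          {n : ℤ | ∃ x ∈ C, ((g ^ 2) ^ n) x ∈ C}.Finite := by
        intro C hC
        refine ((hpd C hC).preimage (f := fun n : ℤ => 2 * n) ?_).subset ?_
        · intro a _ b _ hab
          simpa using hab
        · rintro n ⟨x, hx, hx'⟩
          refine ⟨x, hx, ?_⟩
          have : (g ^ 2) ^ n = g ^ (2 * n) := by
            rw [zpow_mul]; rfl
          rw [this] at hx'
          exact hx'
      have hone := hz 1
      rw [eventually_comap, Metric.eventually_nhds_iff] at hone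
      obtain ⟨δ, hδ, hone⟩ := hone
      obtain ⟨y, hy⟩ := NormedSpace.exists_lt_norm ℝ E 0
      have hy0 : y ≠ 0 := norm_pos_iff.1 hy
      set x : {x : E // x ≠ 0} := ⟨y, hy0⟩ with hx
      -- a power of `g ^ 2` moving both `x` and `g x` close to the origin
      have hmove : ∃ n : ℤ, ‖(((g ^ 2) ^ n) x : E)‖ < δ ∧ ‖(((g ^ 2) ^ n) (g x) : E)‖ < 1 := by
        rcases main_alt h1 G hG0 (pd_extends hG hpd2) with h | h
        · obtain ⟨a, ha⟩ := h (max ‖(x : E)‖ ‖(g x : E)‖) (min δ 1) (lt_min hδ one_pos)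
          refine ⟨a, ?_, ?_⟩
          · rw [← zpow_extends hG, zpow_natCast]
            exact lt_of_lt_of_le (ha a le_rfl _ (le_max_left _ _)) (min_le_left _ _)
          · rw [← zpow_extends hG, zpow_natCast]
            exact lt_of_lt_of_le (ha a le_rfl _ (le_max_right _ _)) (min_le_right _ _)
        · obtain ⟨a, ha⟩ := h (max ‖(x : E)‖ ‖(g x : E)‖) (min δ 1) (lt_min hδ one_pos)
          refine ⟨-a, ?_, ?_⟩
          · rw [← zpow_extends hG, zpow_neg, zpow_natCast, ← inv_pow]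
            exact lt_of_lt_of_le (ha a le_rfl _ (le_max_left _ _)) (min_le_left _ _)
          · rw [← zpow_extends hG, zpow_neg, zpow_natCast, ← inv_pow]
            exact lt_of_lt_of_le (ha a le_rfl _ (le_max_right _ _)) (min_le_right _ _)
      obtain ⟨n, hn1, hn2⟩ := hmove
      have h2 := hone (y := (((g ^ 2) ^ n) x : E)) (by simpa using hn1) _ rfl
      have hcomm : g (((g ^ 2) ^ n) x) = ((g ^ 2) ^ n) (g x) := by
        have h3 : g * (g ^ 2) ^ n = (g ^ 2) ^ n * g := by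
          have : Commute g ((g ^ 2) ^ n) := ((Commute.refl g).pow_right 2).zpow_right n
          exact this
        have := congrArg (fun f : {x : E // x ≠ 0} ≃ₜ {x : E // x ≠ 0} => f x) h3
        exact this
      rw [hcomm] at h2
      exact absurd hn2 (not_lt.2 h2)
    · -- `g ^ 2` cannot exchange the ends
      have hi := hinf 1 one_pos
      rw [eventually_comap, Filter.Eventually, mem_cocompact] at hi
      obtain ⟨t, ht, hti⟩ := hi
      obtain ⟨C, hC⟩ := ht.isBounded.exists_norm_le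
      have ha := hz (C + 1)
      have hb := hz2 2
      have hne : (comap (Subtype.val : {x : E // x ≠ 0} → E) (𝓝 (0 : E))).NeBot := by
        rw [comap_neBot_iff]
        intro s hs
        rw [Metric.mem_nhds_iff] at hs
        obtain ⟨δ, hδ, hs⟩ := hs
        obtain ⟨y, hy⟩ := NormedSpace.exists_lt_norm ℝ E 0
        refine ⟨⟨(δ / 2 * ‖y‖⁻¹) • y, ?_⟩, hs ?_⟩
        · have hy0 : y ≠ 0 := norm_pos_iff.1 hy
          have : (δ / 2 * ‖y‖⁻¹) ≠ 0 := by positivity
          exact smul_ne_zero this hy0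
        · rw [mem_ball_zero_iff, norm_smul, norm_mul, norm_inv, norm_norm, Real.norm_eq_abs,
            abs_of_pos (by positivity : 0 < δ / 2)]
          field_simp
          linarith
      obtain ⟨x, hxa, hxb⟩ := (ha.and hb).exists
      have h3 : (g x : E) ∉ t := fun h => absurd (hC _ h) (by linarith)
      have h4 := hti h3 (g x) rfl
      have h5 : (g ^ 2) x = g (g x) := by
        rw [pow_two]; rfl
      rw [h5] at hxb
      linarith

end Final

end Pool.Agent.HopfCov
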