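import Pool.Agent.HopfCov.Conj

/-!
# The core theorems on the level of punctured diffeomorphisms
-/

set_option autoImplicit false
set_option linter.unusedSectionVars false

open scoped ContDiff Topology
open Set Filter Metric

namespace Pool.Agent.HopfCov

variable {E : Type} [NormedAddCommGroup E] [InnerProductSpace ℝ E] [FiniteDimensional ℝ E]

/-- the linear contraction `x ↦ L x / 2` for a linear isometry `L` -/
noncomputable def tauL (L : E ≃ₗᵢ[ℝ] E) : E ≃ₜ E where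
  toFun x := (2⁻¹ : ℝ) • L x
  invFun x := L.symm ((2 : ℝ) • x)
  left_inv x := by simp
  right_inv x := by simp
  continuous_toFun := by fun_prop
  continuous_invFun := by fun_prop

theorem tauL_apply (L : E ≃ₗᵢ[ℝ] E) (x : E) : tauL L x = (2⁻¹ : ℝ) • L x := rfl

theorem norm_tauL (L : E ≃ₗᵢ[ℝ] E) (x : E) : ‖tauL L x‖ = 2⁻¹ * ‖x‖ := by
  rw [tauL_apply, norm_smul, L.norm_map]
  norm_num

theorem norm_tauL_pow (L : E ≃ₗᵢ[ℝ] E) (n : ℕ) (x : E) :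
    ‖(tauL L ^ n) x‖ = (2⁻¹ : ℝ) ^ n * ‖x‖ := by
  induction n with
  | zero => simp
  | succ n ih => rw [pow_succ', mul_apply', norm_tauL, ih]; ring

theorem Trap_tauL (L : E ≃ₗᵢ[ℝ] E) : Trap (tauL L) := by
  intro x hx
  rw [norm_tauL]
  linarith [norm_nonneg x]

theorem Contr_tauL (L : E ≃ₗᵢ[ℝ] E) : Contr (tauL L) := by
  intro R ε hε
  obtain ⟨n₀, hn₀⟩ := exists_pow_lt_of_lt_one (show 0 < ε / (|R| + 1) by positivity)
    (show (2⁻¹ : ℝ) < 1 by norm_num)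
  refine ⟨n₀, fun n hn x hx => ?_⟩
  rw [norm_tauL_pow]
  have h1 : (2⁻¹ : ℝ) ^ n ≤ (2⁻¹ : ℝ) ^ n₀ := pow_le_pow_of_le_one (by norm_num) (by norm_num) hn
  have h2 : ‖x‖ ≤ |R| := hx.trans (le_abs_self R)
  calc (2⁻¹ : ℝ) ^ n * ‖x‖ ≤ (2⁻¹ : ℝ) ^ n₀ * |R| := by gcongr
    _ ≤ (2⁻¹ : ℝ) ^ n₀ * (|R| + 1) := by gcongr; linarith
    _ < ε / (|R| + 1) * (|R| + 1) := by gcongr
    _ = ε := by field_simp

theorem LD_tauL (L : E ≃ₗᵢ[ℝ] E) {s : ℝ}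
    (hL : 0 < s * (L.toContinuousLinearEquiv : E →L[ℝ] E).det) (x : E) : LD s (tauL L) x := by
  have h1 : (tauL L : E → E) = ((2⁻¹ : ℝ) • (L.toContinuousLinearEquiv : E →L[ℝ] E) : E →L[ℝ] E) := by
    funext x
    rfl
  rw [h1]
  apply LD_clm
  have h2 : ((2⁻¹ : ℝ) • (L.toContinuousLinearEquiv : E →L[ℝ] E) : E →L[ℝ] E).det =
      (2⁻¹ : ℝ) ^ (Module.finrank ℝ E) * (L.toContinuousLinearEquiv : E →L[ℝ] E).det := by
    simp only [ContinuousLinearMap.det, ContinuousLinearMap.toLinearMap_smul, LinearMap.det_smul]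
  rw [h2]
  have : 0 < (2⁻¹ : ℝ) ^ (Module.finrank ℝ E) := by positivity
  calc 0 < (2⁻¹ : ℝ) ^ (Module.finrank ℝ E) * (s * (L.toContinuousLinearEquiv : E →L[ℝ] E).det) :=
        mul_pos this hL
    _ = _ := by ring

theorem PD_tauL (L : E ≃ₗᵢ[ℝ] E) {s : ℝ}
    (hL : 0 < s * (L.toContinuousLinearEquiv : E →L[ℝ] E).det) : PD s (tauL L) :=
  ⟨by rw [tauL_apply]; simp, fun x _ => LD_tauL L hL x⟩

/-- multiplication by one half -/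
noncomputable def tau : E ≃ₜ E := tauL (LinearIsometryEquiv.refl ℝ E)

theorem tau_apply (x : E) : (tau : E ≃ₜ E) x = (2⁻¹ : ℝ) • x := rfl

theorem det_refl_pos :
    0 < (1 : ℝ) * ((LinearIsometryEquiv.refl ℝ E).toContinuousLinearEquiv : E →L[ℝ] E).det := by
  have : ((LinearIsometryEquiv.refl ℝ E).toContinuousLinearEquiv : E →L[ℝ] E) =
      ContinuousLinearMap.id ℝ E := rfl
  rw [this]
  simp [ContinuousLinearMap.det]

theorem LD_tau (x : E) : LD 1 (tau : E ≃ₜ E) x := LD_tauL _ det_refl_pos x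

theorem PD_tau : PD 1 (tau : E ≃ₜ E) := PD_tauL _ det_refl_pos

theorem Ext_of_LD {h : E ≃ₜ E} (hh : ∀ x, LD 1 h x) : Ext h := ⟨h, hh, EqInf.refl _⟩

theorem Ext_tau : Ext (tau : E ≃ₜ E) := Ext_of_LD LD_tau

theorem Contr.apply_zero {g : E ≃ₜ E} (hg : Contr g) : g 0 = 0 := by
  by_contra hne
  have hp : ∀ x : E, ∀ ε : ℝ, 0 < ε → ∃ n₀ : ℕ, ∀ n ≥ n₀, ‖(g ^ n) x‖ < ε := by
    intro x ε hε
    obtain ⟨n₀, hn₀⟩ := hg ‖x‖ ε hε
    exact ⟨n₀, fun n hn => hn₀ n hn x le_rfl⟩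
  -- `(g ^ n) 0 → 0` and `(g ^ n) (g 0) → 0`, by continuity `g 0 = 0`
  have ht : Tendsto (fun n : ℕ => (g ^ n) 0) atTop (𝓝 0) := by
    rw [Metric.tendsto_atTop]
    intro ε hε
    obtain ⟨n₀, hn₀⟩ := hp 0 ε hε
    exact ⟨n₀, fun n hn => by rw [dist_zero_right]; exact hn₀ n hn⟩
  have h1 : Tendsto (fun n : ℕ => (g ^ (n + 1)) 0) atTop (𝓝 0) :=
    (tendsto_add_atTop_iff_nat 1).2 ht
  have h2 : Tendsto (fun n : ℕ => g ((g ^ n) 0)) atTop (𝓝 (g 0)) :=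
    (g.continuous.tendsto 0).comp ht
  have h3 : (fun n : ℕ => g ((g ^ n) 0)) = fun n : ℕ => (g ^ (n + 1)) 0 := by
    funext n
    rw [pow_succ', mul_apply']
  rw [h3] at h2
  exact hne (tendsto_nhds_unique h2 h1)

theorem Contr.pow {g : E ≃ₜ E} (hg : Contr g) {m : ℕ} (hm : 0 < m) : Contr (g ^ m) := by
  intro R ε hε
  obtain ⟨n₀, hn₀⟩ := hg R ε hε
  refine ⟨n₀, fun n hn x hx => ?_⟩
  rw [← pow_mul]
  exact hn₀ _ (le_trans hn (Nat.le_mul_of_pos_left n hm)) x hx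

theorem Contr.trap {g : E ≃ₜ E} (hg : Contr g) : ∃ m₀ : ℕ, ∀ m ≥ m₀, Trap (g ^ m) := by
  obtain ⟨n₀, hn₀⟩ := hg 1 1 one_pos
  exact ⟨n₀, fun m hm x hx => hn₀ m hm x hx⟩

/-- a contraction and its inverse cannot both contract (in positive dimension) -/
theorem Contr.not_inv [Nontrivial E] {g : E ≃ₜ E} (hg : Contr g) (hg' : Contr g⁻¹) : False := by
  obtain ⟨x, hx⟩ := exists_ne (0 : E)
  obtain ⟨n₁, h1⟩ := hg' ‖x‖ 1 one_pos
  obtain ⟨n₂, h2⟩ := hg 1 ‖x‖ (norm_pos_iff.2 hx)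
  set n := max n₁ n₂
  have h3 := h1 n (le_max_left _ _) x le_rfl
  have h4 := h2 n (le_max_right _ _) _ h3.le
  have h5 : (g ^ n) ((g⁻¹ ^ n) x) = x := by
    rw [inv_pow]
    exact apply_inv_self' _ _
  rw [h5] at h4
  exact lt_irrefl _ h4

section

variable (hG : SpecGermFix) (hS : SpecSwap) (hR : SpecRadial)

include hG hS in
/-- the extendable classes form a normal subgroup -/
theorem Ext.conj (hdim : 1 < Module.finrank ℝ E) {s : ℝ} (hs : s * s = 1) {h α : E ≃ₜ E}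
    (hh : Ext h) (hα : PD s α) : Ext (α * h * α⁻¹) := by
  obtain ⟨Θ, h1, h2, h3⟩ := hh.conn hG hS hdim
  refine ⟨α * Θ * α⁻¹, fun x => ?_, ((EqInf.refl α).mul h2).mul (EqInf.refl _)⟩
  by_cases hx : x = 0
  · subst hx
    have hc : Tendsto (α⁻¹ : E ≃ₜ E) (𝓝 0) (𝓝 0) := by
      have := (α⁻¹ : E ≃ₜ E).continuous.tendsto 0
      rwa [hα.inv_zero] at this
    have hev : (fun y : E => y) =ᶠ[𝓝 (0 : E)] (α * Θ * α⁻¹ : E ≃ₜ E) := by
      filter_upwards [hc.eventually h1] with y hy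
      show y = α (Θ ((α⁻¹ : E ≃ₜ E) y))
      rw [hy, apply_inv_self']
    exact (LD_id 0).congr hev
  · have a1 := hα.inv.2 x hx
    have hu : (α⁻¹ : E ≃ₜ E) x ≠ 0 := hα.inv.ne hx
    have a2 : LD 1 Θ ((α⁻¹ : E ≃ₜ E) x) := h3 _ (notMem_empty _)
    have hΘ0 : Θ 0 = 0 := h1.self_of_nhds
    have hu2 : Θ ((α⁻¹ : E ≃ₜ E) x) ≠ 0 := by
      intro h
      exact hu (Θ.injective (h.trans hΘ0.symm))
    have a3 := ((hα.2 _ hu2).mul a2).mul a1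
    rwa [mul_one, hs] at a3

include hG hS in
/-- conjugation of powers by an oriented punctured diffeomorphism -/
theorem ext_of_conj (hdim : 1 < Module.finrank ℝ E) {g Ψ : E ≃ₜ E} (hg : PD 1 g) (hΨ : PD 1 Ψ)
    {a b : ℤ} (h : Ψ * g ^ a * Ψ⁻¹ = g ^ b) : Ext (g ^ (b - a)) := by
  have h1 := comm_ext hG hS hdim hΨ.inv (hg.zpow (-a))
  have h2 : Ψ⁻¹⁻¹ * (g ^ (-a))⁻¹ * Ψ⁻¹ * g ^ (-a) = g ^ (b - a) := by
    have h3 : (g ^ (-a))⁻¹ = g ^ a := by rw [zpow_neg, inv_inv]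
    rw [inv_inv, h3, h, sub_eq_add_neg, zpow_add]
  rwa [h2] at h1

theorem conj_sq {g Ψ : E ≃ₜ E} {a b : ℤ} (h : Ψ * g ^ a * Ψ⁻¹ = g ^ b) :
    (Ψ * Ψ) * g ^ (a * a) * (Ψ * Ψ)⁻¹ = g ^ (b * b) := by
  have h1 : Ψ * g ^ (a * a) * Ψ⁻¹ = g ^ (a * b) := by
    have : (Ψ * g ^ a * Ψ⁻¹) ^ a = Ψ * (g ^ a) ^ a * Ψ⁻¹ := conj_zpow
    rw [h, ← zpow_mul, ← zpow_mul] at this
    rw [← this, mul_comm]
  have h2 : Ψ * g ^ (a * b) * Ψ⁻¹ = g ^ (b * b) := by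
    have : (Ψ * g ^ a * Ψ⁻¹) ^ b = Ψ * (g ^ a) ^ b * Ψ⁻¹ := conj_zpow
    rw [h, ← zpow_mul, ← zpow_mul] at this
    rw [← this]
  calc (Ψ * Ψ) * g ^ (a * a) * (Ψ * Ψ)⁻¹ = Ψ * (Ψ * g ^ (a * a) * Ψ⁻¹) * Ψ⁻¹ := by group
    _ = _ := by rw [h1, h2]

include hG hS in
/-- conjugation of powers by any punctured diffeomorphism -/
theorem ext_of_conj_sq (hdim : 1 < Module.finrank ℝ E) {g Ψ : E ≃ₜ E} (hg : PD 1 g) {s : ℝ}
    (hs : s * s = 1) (hΨ : PD s Ψ) {a b : ℤ} (h : Ψ * g ^ a * Ψ⁻¹ = g ^ b) :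
    Ext (g ^ (b * b - a * a)) := by
  have h1 : PD 1 (Ψ * Ψ) := by
    have := hΨ.mul hΨ
    rwa [hs] at this
  exact ext_of_conj hG hS hdim hg h1 (conj_sq h)

include hG hS hR in
/-- a contraction is conjugate to the linear one off the orbit of one point -/
theorem core_point (hdim : 1 < Module.finrank ℝ E) {s : ℝ} (hs : s * s = 1) {g : E ≃ₜ E}
    (hg : PD s g) (ht : Trap g) (hc : Contr g) (L : E ≃ₗᵢ[ℝ] E)
    (hL : 0 < s * (L.toContinuousLinearEquiv : E →L[ℝ] E).det) :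
    ∃ Φ : E ≃ₜ E, Φ 0 = 0 ∧ (∀ x, Φ (tauL L x) = g (Φ x)) ∧
      ∃ y : E, ∀ x, x ≠ 0 → (∀ k : ℤ, x ≠ (tauL L ^ k) y) → LD 1 Φ x := by
  have h1 : PD 1 (g * (tauL L)⁻¹) := by
    have := hg.mul (PD_tauL L hL).inv
    rwa [hs] at this
  obtain ⟨y, -, hy⟩ := h1.conn hG hS hdim
  obtain ⟨Φ, f1, f2, ξ, f3⟩ := conj_of_conn hR hs (PD_tauL L hL) hg (Trap_tauL L) ht
    (Contr_tauL L) hc (Y := {y}) (R₀ := ‖y‖) (fun z hz => by rw [mem_singleton_iff.1 hz]) hy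
  refine ⟨Φ, f1, f2, ξ y, fun x hx hk => f3 x hx fun z hz k => ?_⟩
  rw [mem_singleton_iff.1 hz]
  exact hk k

include hG hS hR in
/-- two contractions of the same class are conjugate -/
theorem core_conj (hdim : 1 < Module.finrank ℝ E) {s : ℝ} (hs : s * s = 1) {g₁ g₂ : E ≃ₜ E}
    (h1 : PD s g₁) (h2 : PD s g₂) (t1 : Trap g₁) (t2 : Trap g₂) (c1 : Contr g₁) (c2 : Contr g₂)
    (he : Ext (g₂ * g₁⁻¹)) :
    ∃ Φ : E ≃ₜ E, PD 1 Φ ∧ Φ * g₁ = g₂ * Φ := by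
  obtain ⟨Φ, f1, f2, ξ, f3⟩ := conj_of_conn hR hs h1 h2 t1 t2 c1 c2 (Y := ∅) (R₀ := 0)
    (fun z hz => absurd hz (notMem_empty z)) (he.conn hG hS hdim)
  exact ⟨Φ, ⟨f1, fun x hx => f3 x hx fun z hz => absurd hz (notMem_empty z)⟩,
    Homeomorph.ext f2⟩

include hG hS hR in
/-- an extendable contraction is conjugate to multiplication by one half -/
theorem core_std (hdim : 1 < Module.finrank ℝ E) {g : E ≃ₜ E} (hg : PD 1 g) (ht : Trap g)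
    (hc : Contr g) (he : Ext g) : ∃ Φ : E ≃ₜ E, PD 1 Φ ∧ Φ * tau = g * Φ :=
  core_conj hG hS hR hdim (one_mul 1) PD_tau hg (Trap_tauL _) ht (Contr_tauL _) hc
    (he.mul Ext_tau.inv)

end

end Pool.Agent.HopfCov
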