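import Pool.Agent.HopfCov.SelfCov

/-!
# The structure of the finite coverings, both manifolds
-/

set_option autoImplicit false
set_option linter.unusedSectionVars false

open scoped ContDiff Topology Manifold
open Set Filter Metric

namespace Pool.Agent.HopfCov

theorem chi_TT : chi TT PD_TT = 1 := by
  have h : PD 1 (TT * TT⁻¹) := PD_TT.mul_neg PD_TT.inv
  have h1 : cls (TT * TT⁻¹) h = 1 := by
    rw [cls_eq_one, mul_inv_cancel]
    exact Ext_one
  show pr (cls (TT * TT⁻¹) h) = 1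
  rw [h1, map_one]

end Pool.Agent.HopfCov

namespace Pool.Agent.HopfCov.Smooth

theorem covers_all (M : Mfd4) (hM : HomeoS1S3 M ∨ HomeoTwisted M) (p : Punctured → M)
    (hp : IsCoveringMap p) (hp' : LocalDiffeo p) :
    ∃ d m₀ : ℕ,
      (∀ (m : ℕ) (N : Mfd4) (q : N → M), 0 < m → OrientedBy p ∨ Odd m → Closed N → Cover m q →
        (Standard p N → d ∣ m) ∧ (m₀ ≤ m → d ∣ m → Standard p N)) ∧
      ∀ (a b : ℕ) (N N' : Mfd4) (q : N → M) (q' : N' → M), 0 < a → 0 < b →
        OrientedBy p ∨ Odd a ∧ Odd b → Closed N → Closed N' → Cover a q → Cover b q' →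
        (Diffeomorphic N N' → (d : ℤ) ∣ (a : ℤ) ^ 2 - (b : ℤ) ^ 2) ∧
        (∀ F : N → N', IsDiffeo F → ¬ OrientedBy p ∨ PreservesOver p q q' F →
          (d : ℤ) ∣ (a : ℤ) - b) ∧
        (m₀ ≤ a → m₀ ≤ b → (d : ℤ) ∣ (a : ℤ) - b →
          ∃ F : N → N', IsDiffeo F ∧ (OrientedBy p → PreservesOver p q q' F)) := by
  obtain ⟨h1, h2, g₀, h3⟩ := hM.elim (fun h => orbit_of_homeo h hp hp')
    (fun h => orbit_of_twisted h hp hp')
  have hconn := h3.connected
  by_cases hor : OrientedBy p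
  · obtain ⟨d, m₀, h4, h5⟩ := covers specMfderiv specSign specLiftSwap specSwapMul specSwapContr
      specInversion specModelOrbit h3 hor
    refine ⟨d, m₀, fun m N q hm _ hN hq => ?_, fun a b N N' q q' ha hb _ hN hN' hq hq' => ?_⟩
    · have c1 := hN.compact
      have c2 := hN.hausdorff
      have c3 := hN.connected
      obtain ⟨e1, e2⟩ := h4 m hm N q hq.old
      refine ⟨fun h => e1 (h.elim (fun h => h.2) fun h => absurd hor h.1), fun i1 i2 =>
        Or.inl ⟨hor, e2 i1 i2⟩⟩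
    · have c1 := hN.compact
      have c2 := hN.hausdorff
      have c3 := hN.connected
      have c1' := hN'.compact
      have c2' := hN'.hausdorff
      have c3' := hN'.connected
      obtain ⟨e1, e2, e3⟩ := h5 a b ha hb N q N' q' hq.old hq'.old
      refine ⟨fun ⟨F, hF⟩ => e1 (toDiffeo hF),
        fun F hF ho => e2 (toDiffeo hF) (ho.resolve_left fun h => h hor), fun i1 i2 i3 => ?_⟩
      obtain ⟨F, hF⟩ := e3 i1 i2 i3
      exact ⟨F, ⟨F.bijective, F.isLocalDiffeomorph⟩, fun _ => hF⟩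
  · obtain ⟨g, G, hpg, hG, hPD, hco⟩ := exists_gen h3
    have hPD' : PD (-1) G := by
      rcases hPD with h | h
      · exact absurd (oriented_of_PD (M := M.carrier) specMfderiv hpg hG h) hor
      · exact h
    clear hPD
    set x : AB := chi G hPD' with hx
    set d := orderOf x with hd
    -- conjugacy of large powers
    have hlcm : Even (Nat.lcm 2 d) := even_iff_two_dvd.2 (Nat.dvd_lcm_left 2 d)
    have hxl : x ^ Nat.lcm 2 d = 1 := orderOf_dvd_iff_pow_eq_one.1 (Nat.dvd_lcm_right 2 d)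
    obtain ⟨m₂, hm₂⟩ := chain_neg hPD' hco hlcm hxl
    -- the standard ones
    have hstd : ∃ m₃ : ℕ, ∀ m : ℕ, m₃ ≤ m → Odd m → d ∣ m → CJ TT (G ^ m) := by
      by_cases hdo : Odd d
      · have e1 : chi (G ^ d) (hPD'.pow_odd hdo) = 1 := by
          rw [chi_pow hPD' hdo, ← hx, hd, pow_orderOf_eq_one]
        have hdpos : 0 < d := hdo.pos
        obtain ⟨m₁, hm₁⟩ := std_neg (hPD'.pow_odd hdo) (hco.pow hdpos) e1
        refine ⟨d * m₁, fun m hm hodd hdm => ?_⟩
        obtain ⟨k, rfl⟩ := hdm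
        rw [pow_mul]
        exact hm₁ k (Nat.le_of_mul_le_mul_left hm hdpos) (Nat.odd_mul.1 hodd).2
      · refine ⟨0, fun m _ hodd hdm => ?_⟩
        exfalso
        obtain ⟨k, rfl⟩ := hdm
        exact hdo (Nat.odd_mul.1 hodd).1
    obtain ⟨m₃, hm₃⟩ := hstd
    refine ⟨d, max m₂ m₃, fun m N q hm ho hN hq => ?_,
      fun a b N N' q q' ha hb ho hN hN' hq hq' => ?_⟩
    · have c1 := hN.compact
      have c2 := hN.hausdorff
      have c3 := hN.connected
      have hodd : Odd m := ho.resolve_left hor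
      obtain ⟨p', i1, -⟩ := cover_data hpg hm hq.old
      refine ⟨fun hs => ?_, fun hmm hdm => Or.inr ⟨hor, ?_⟩⟩
      · have hT : IsTwisted N := (hs.resolve_left fun h => hor h.1).2
        obtain ⟨ρ, pT, j1, j2⟩ := hT.data_TT
        obtain ⟨Ψ, f1, -, f3⟩ := hLift _ _ N.carrier N.carrier p' pT i1 j2
          (Diffeomorph.refl (𝓡 4) N.carrier ∞)
        have f4 := chi_pair (hG.pow m) j1 (hPD'.pow_odd hodd) PD_TT (hco.pow hm) Contr_TT f1 f3
        rw [chi_TT, chi_pow hPD' hodd] at f4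
        exact orderOf_dvd_iff_pow_eq_one.2 f4.symm
      · exact isTwisted_of_CJ (hG.pow m) (hm₃ m ((le_max_right _ _).trans hmm) hodd hdm) i1 c2
    · have c1 := hN.compact
      have c2 := hN.hausdorff
      have c3 := hN.connected
      have c1' := hN'.compact
      have c2' := hN'.hausdorff
      have c3' := hN'.connected
      obtain ⟨hoa, hob⟩ := ho.resolve_left hor
      obtain ⟨pa, i1, -⟩ := cover_data hpg ha hq.old
      obtain ⟨pb, i2, -⟩ := cover_data hpg hb hq'.old
      have key : ∀ F : N → N', IsDiffeo F → (d : ℤ) ∣ (a : ℤ) - b := by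
        intro F hF
        obtain ⟨Ψ, f1, -, f3⟩ := hLift _ _ N.carrier N'.carrier pa pb i1 i2 (toDiffeo hF)
        have f4 := chi_pair (hG.pow a) (hG.pow b) (hPD'.pow_odd hoa) (hPD'.pow_odd hob)
          (hco.pow ha) (hco.pow hb) f1 f3
        rw [chi_pow hPD' hoa, chi_pow hPD' hob, ← hx] at f4
        have f5 : x ^ ((a : ℤ) - b) = 1 := by
          rw [zpow_sub, zpow_natCast, zpow_natCast, f4, mul_inv_cancel]
        exact orderOf_dvd_iff_zpow_eq_one.2 f5
      refine ⟨fun ⟨F, hF⟩ => ?_, fun F hF _ => key F hF, fun haa hbb hdvd => ?_⟩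
      · have : (a : ℤ) ^ 2 - (b : ℤ) ^ 2 = ((a : ℤ) - b) * (a + b) := by ring
        rw [this]
        exact (key F hF).mul_right _
      · have h5 : (d : ℤ) ∣ (b : ℤ) - a := by
          have := hdvd.neg_right
          rwa [neg_sub] at this
        have h6 : (2 : ℤ) ∣ (b : ℤ) - a := by
          obtain ⟨s, hs⟩ := hob
          obtain ⟨t, ht⟩ := hoa
          exact ⟨(s : ℤ) - t, by rw [hs, ht]; push_cast; ring⟩
        have h7 := Int.natAbs_dvd_natAbs.2 h5
        have h8 := Int.natAbs_dvd_natAbs.2 h6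
        rw [Int.natAbs_natCast] at h7
        have h9 : ((Nat.lcm 2 d : ℕ) : ℤ) ∣ (b : ℤ) - a := Int.natCast_dvd.2 (Nat.lcm_dvd h8 h7)
        have h10 := chain_of_step hlcm hm₂ ((le_max_left _ _).trans haa)
          ((le_max_left _ _).trans hbb) hoa hob h9
        obtain ⟨F, hF⟩ := diffeo_of_CJ (hG.pow a) (hG.pow b) h10 i1 i2
        exact ⟨F, ⟨F.bijective, hF⟩, fun h => absurd h hor⟩

end Pool.Agent.HopfCov.Smooth
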