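import Pool.Agent.HopfCov.Spec

/-!
# A real vector space of dimension at least three minus the origin is simply connected

A loop `γ` is homotopic to a polynomial loop `P` near it (straight line homotopy); for a vector `w`
outside a set of dimension two all the paths `(1 - s) P(t) + s x + s t (1 - t) w` avoid the origin.
-/

set_option autoImplicit false

open scoped unitInterval Topology
open Set Filter Metric

namespace Pool.Agent.HopfCov

section

variable {E : Type*} [NormedAddCommGroup E] [NormedSpace ℝ E]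

/-- straight line homotopies -/
theorem homotopic_straight {x : {x : E // x ≠ 0}} (p q : Path x x)
    (h : ∀ s t : I, (1 - (s : ℝ)) • (p t : E) + (s : ℝ) • (q t : E) ≠ 0) : p.Homotopic q := by
  refine ⟨{ toFun := fun st => ⟨_, h st.1 st.2⟩
            continuous_toFun := ?_
            map_zero_left := ?_
            map_one_left := ?_
            prop' := ?_ }⟩
  · apply Continuous.subtype_mk
    fun_prop
  · intro t
    apply Subtype.ext
    simp
  · intro t
    apply Subtype.ext
    simp
  · intro s t ht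
    apply Subtype.ext
    have h1 : ∀ y : E, (1 - (s : ℝ)) • y + (s : ℝ) • y = y := by
      intro y
      rw [← add_smul]
      simp
    rcases ht with rfl | rfl
    · simp [h1]
    · simp [h1]

/-- a polynomial path near a given path -/
theorem exists_polynomial_path (f : C(I, E)) {ρ : ℝ} (hρ : 0 < ρ) :
    ∃ P : ℝ → E, ContDiff ℝ 1 P ∧ P 0 = f 0 ∧ P 1 = f 1 ∧ ∀ t : I, ‖P t - f t‖ < ρ := by
  have h1 := (bernsteinApproximation_uniform f).eventually (ball_mem_nhds f hρ)
  obtain ⟨n, hn, hn0⟩ := (h1.and (eventually_ge_atTop 1)).exists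
  have hn0' : n ≠ 0 := by omega
  set P : ℝ → E := fun t => ∑ k : Fin (n + 1),
    ((n.choose k : ℝ) * t ^ (k : ℕ) * (1 - t) ^ (n - k)) • f (bernstein.z k) with hP
  have hPB : ∀ t : I, P t = bernsteinApproximation n f t := by
    intro t
    rw [bernsteinApproximation.apply]
    simp only [hP, bernstein_apply]
  refine ⟨P, ?_, ?_, ?_, ?_⟩
  · fun_prop
  · have := hPB 0
    rwa [bernsteinApproximation.apply_zero, Set.Icc.coe_zero] at this
  · have := hPB 1
    rwa [bernsteinApproximation.apply_one hn0', Set.Icc.coe_one] at this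
  · intro t
    rw [hPB t, ← dist_eq_norm]
    exact lt_of_le_of_lt (ContinuousMap.dist_apply_le_dist t) hn

theorem loop_nullhomotopic [FiniteDimensional ℝ E] (hE : 2 < Module.finrank ℝ E)
    (x : {x : E // x ≠ 0}) (γ : Path x x) : γ.Homotopic (Path.refl x) := by
  set f : C(I, E) := ⟨fun t => (γ t : E), by fun_prop⟩ with hf
  -- the distance from the origin
  obtain ⟨t₀, ht₀⟩ : ∃ t₀ : I, ∀ t : I, ‖f t₀‖ ≤ ‖f t‖ := by
    have hc : Continuous fun t : I => ‖f t‖ := by fun_prop
    obtain ⟨t₀, -, h⟩ := isCompact_univ.exists_isMinOn (univ_nonempty (α := I)) hc.continuousOn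
    exact ⟨t₀, fun t => h (mem_univ t)⟩
  have hρ : 0 < ‖f t₀‖ := norm_pos_iff.2 (γ t₀).2
  obtain ⟨P, hP, hP0, hP1, hPf⟩ := exists_polynomial_path f hρ
  have hf0 : f 0 = x := by
    change ((γ 0 : {x : E // x ≠ 0}) : E) = x
    rw [γ.source]
  have hf1 : f 1 = x := by
    change ((γ 1 : {x : E // x ≠ 0}) : E) = x
    rw [γ.target]
  rw [hf0] at hP0
  rw [hf1] at hP1
  have hline : ∀ s t : I, (1 - (s : ℝ)) • f t + (s : ℝ) • P t ≠ 0 := by
    intro s t h0
    have h1 : f t = (s : ℝ) • (f t - P t) := by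
      have h2 : (1 - (s : ℝ)) • f t + (s : ℝ) • P t = f t - (s : ℝ) • (f t - P t) := by
        rw [sub_smul, one_smul, smul_sub]
        abel
      rw [h2, sub_eq_zero] at h0
      exact h0
    have h2 : ‖f t‖ ≤ ‖P t - f t‖ := by
      calc ‖f t‖ = ‖(s : ℝ) • (f t - P t)‖ := by rw [← h1]
        _ = (s : ℝ) * ‖P t - f t‖ := by
            rw [norm_smul, Real.norm_of_nonneg s.2.1, norm_sub_rev]
        _ ≤ 1 * ‖P t - f t‖ := mul_le_mul_of_nonneg_right s.2.2 (norm_nonneg _)
        _ = ‖P t - f t‖ := one_mul _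
    exact absurd (ht₀ t) (not_le.2 (lt_of_le_of_lt h2 (hPf t)))
  have hPne : ∀ t : I, P t ≠ 0 := by
    intro t
    have := hline 1 t
    simpa using this
  -- the vector `w`
  set S : Set (ℝ × ℝ) := Ioi (0 : ℝ) ×ˢ Ioo (0 : ℝ) 1 with hS
  set G : ℝ × ℝ → E := fun q =>
    -((q.1 * q.2 * (1 - q.2))⁻¹ • ((1 - q.1) • P q.2 + q.1 • (x : E))) with hG
  have hGs : ContDiffOn ℝ 1 G S := by
    have h1 : ContDiffOn ℝ 1 (fun q : ℝ × ℝ => (q.1 * q.2 * (1 - q.2))⁻¹) S := by
      apply ContDiffOn.inv
      · fun_prop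
      · rintro ⟨s, t⟩ ⟨hs, ht⟩
        have hs' : 0 < s := hs
        have ht1 : 0 < t := ht.1
        have ht2 : 0 < 1 - t := by
          have := ht.2
          simp only at this
          linarith
        exact (mul_pos (mul_pos hs' ht1) ht2).ne'
    have h2 : ContDiffOn ℝ 1 (fun q : ℝ × ℝ => (1 - q.1) • P q.2 + q.1 • (x : E)) S := by
      apply ContDiff.contDiffOn
      fun_prop
    exact (h1.smul h2).neg
  have hdim : dimH S < Module.finrank ℝ E := by
    calc dimH S ≤ dimH (univ : Set (ℝ × ℝ)) := dimH_mono (subset_univ _)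
      _ = Module.finrank ℝ (ℝ × ℝ) := Real.dimH_univ_eq_finrank _
      _ < Module.finrank ℝ E := by
          rw [Module.finrank_prod, Module.finrank_self]
          exact_mod_cast hE
  obtain ⟨w, hw⟩ := (hGs.dense_compl_image_of_dimH_lt_finrank
    ((convex_Ioi 0).prod (convex_Ioo 0 1)) subset_rfl hdim).nonempty
  have hN : ∀ s t : ℝ, 0 < s → 0 ≤ t → t ≤ 1 →
      (1 - s) • P t + s • (x : E) + (s * t * (1 - t)) • w ≠ 0 := by
    intro s t hs ht0 ht1 h0
    have hend : ∀ y : E, (1 - s) • y + s • y = y := by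
      intro y
      rw [← add_smul]
      simp
    rcases ht0.eq_or_lt with rfl | ht0
    · rw [hP0, hend] at h0
      simp only [mul_zero, zero_mul, zero_smul, add_zero] at h0
      exact x.2 h0
    rcases ht1.eq_or_lt with rfl | ht1
    · rw [hP1, hend] at h0
      simp only [sub_self, mul_zero, zero_smul, add_zero] at h0
      exact x.2 h0
    · apply hw
      refine ⟨(s, t), ⟨hs, ht0, ht1⟩, ?_⟩
      have hne : s * t * (1 - t) ≠ 0 := (mul_pos (mul_pos hs ht0) (by linarith)).ne'
      simp only [hG]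
      have h1 : (1 - s) • P t + s • (x : E) = -((s * t * (1 - t)) • w) :=
        eq_neg_of_add_eq_zero_left h0
      rw [h1, smul_neg, neg_neg, smul_smul, inv_mul_cancel₀ hne, one_smul]
  have hN1 : ∀ t : ℝ, 0 ≤ t → t ≤ 1 → (x : E) + (t * (1 - t)) • w ≠ 0 := by
    intro t h0 h1
    have := hN 1 t one_pos h0 h1
    simpa using this
  -- the paths
  let p₁ : Path x x :=
    { toFun := fun t => ⟨P t, hPne t⟩
      continuous_toFun := by
        apply Continuous.subtype_mk
        exact hP.continuous.comp continuous_subtype_val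
      source' := by
        apply Subtype.ext
        simpa using hP0
      target' := by
        apply Subtype.ext
        simpa using hP1 }
  let p₂ : Path x x :=
    { toFun := fun t => ⟨(x : E) + ((t : ℝ) * (1 - t)) • w, hN1 t t.2.1 t.2.2⟩
      continuous_toFun := by
        apply Continuous.subtype_mk
        fun_prop
      source' := by
        apply Subtype.ext
        simp
      target' := by
        apply Subtype.ext
        simp }
  have e1 : γ.Homotopic p₁ := homotopic_straight γ p₁ hline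
  have e2 : p₁.Homotopic p₂ := by
    apply homotopic_straight
    intro s t
    change (1 - (s : ℝ)) • P t + (s : ℝ) • ((x : E) + ((t : ℝ) * (1 - t)) • w) ≠ 0
    rcases s.2.1.eq_or_lt with hs | hs
    · rw [← hs]
      simpa using hPne t
    · have := hN s t hs t.2.1 t.2.2
      rwa [smul_add, smul_smul, ← add_assoc, ← mul_assoc]
  have e3 : p₂.Homotopic (Path.refl x) := by
    apply homotopic_straight
    intro s t
    change (1 - (s : ℝ)) • ((x : E) + ((t : ℝ) * (1 - t)) • w) + (s : ℝ) • (x : E) ≠ 0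
    have h1 : (1 - (s : ℝ)) • ((x : E) + ((t : ℝ) * (1 - t)) • w) + (s : ℝ) • (x : E) =
        (x : E) + ((1 - (s : ℝ)) * ((t : ℝ) * (1 - t))) • w := by
      rw [smul_add, smul_smul, sub_smul, one_smul]
      abel
    rw [h1]
    -- `c = t' (1 - t')`
    set c : ℝ := (1 - (s : ℝ)) * ((t : ℝ) * (1 - t)) with hc
    have ht0 := t.2.1
    have ht1 := t.2.2
    have hs0 := s.2.1
    have hs1 := s.2.2
    have hc0 : 0 ≤ c := mul_nonneg (by linarith) (mul_nonneg ht0 (by linarith))
    have hc1 : c ≤ 1 / 4 := by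
      have h2 : (t : ℝ) * (1 - t) ≤ 1 / 4 := by nlinarith [sq_nonneg ((t : ℝ) - 1 / 2)]
      have h3 : 0 ≤ (t : ℝ) * (1 - t) := mul_nonneg ht0 (by linarith)
      nlinarith
    have hsq := Real.sq_sqrt (by linarith : 0 ≤ 1 - 4 * c)
    have hsq0 := Real.sqrt_nonneg (1 - 4 * c)
    have hsq1 : √(1 - 4 * c) ≤ 1 := by
      rw [Real.sqrt_le_iff]
      exact ⟨zero_le_one, by linarith⟩
    have h4 := hN1 ((1 - √(1 - 4 * c)) / 2) (by linarith) (by linarith)
    have h5 : (1 - √(1 - 4 * c)) / 2 * (1 - (1 - √(1 - 4 * c)) / 2) = c := by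
      nlinarith
    rwa [h5] at h4
  exact (e1.trans e2).trans e3

end

theorem specSimplyConnected : SpecSimplyConnected := by
  intro E _ _ _ hE
  rw [simply_connected_iff_loops_nullhomotopic]
  refine ⟨?_, fun x γ => loop_nullhomotopic hE x γ⟩
  have h1 : 1 < Module.rank ℝ E := by
    rw [← Module.finrank_eq_rank]
    exact_mod_cast (by omega : 1 < Module.finrank ℝ E)
  exact isPathConnected_iff_pathConnectedSpace.1 (isPathConnected_compl_singleton_of_one_lt_rank h1 0)

end Pool.Agent.HopfCov
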