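import Pool.Agent.HopfCov.Spec3
import Pool.Agent.HopfCov.SimplyConn

/-!
# Connected finite coverings of the orbit space of `g` are the orbit spaces of the powers of `g`
-/

set_option autoImplicit false

open scoped ContDiff Topology Manifold
open Set Filter Metric

namespace Pool.Agent.HopfCov

section Top

variable {V M : Type*} [TopologicalSpace V] [TopologicalSpace M] {g : V ≃ₜ V} {p : V → M}

/-- The group generated by `g` acts freely if the orbit space is compact and the space is not. -/
private theorem free_of_noncompact [T2Space V] [PreconnectedSpace V] [LocallyCompactSpace V]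
    [NoncompactSpace V] [CompactSpace M] (hl : IsLocalHomeomorph p)
    (hs : Function.Surjective p) (hf : ∀ x y : V, p x = p y ↔ ∃ n : ℤ, y = (g ^ n) x)
    (k : ℤ) (x : V) (hk : (g ^ k) x = x) : k = 0 := by
  by_contra hk0
  have hinv : ∀ (n : ℤ) (y : V), p ((g ^ n) y) = p y := fun n y => ((hf _ _).2 ⟨n, rfl⟩).symm
  have hS : {y : V | (g ^ k) y = y} = univ := by
    refine IsClopen.eq_univ ⟨isClosed_eq (g ^ k).continuous continuous_id, ?_⟩ ⟨x, hk⟩
    rw [isOpen_iff_mem_nhds]
    intro y hy
    obtain ⟨U, hU, hyU, hinj⟩ := hl.isLocallyInjective y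
    have h1 : U ∈ 𝓝 y := hU.mem_nhds hyU
    have h2 : (g ^ k) ⁻¹' U ∈ 𝓝 y := by
      refine (g ^ k).continuous.continuousAt.preimage_mem_nhds ?_
      have hy' : (g ^ k) y = y := hy
      rw [hy']
      exact h1
    filter_upwards [h1, h2] with z hz1 hz2
    exact hinj hz2 hz1 (hinv k z)
  have hS' : ∀ y : V, (g ^ k) y = y := fun y => by
    have : y ∈ {y : V | (g ^ k) y = y} := by rw [hS]; trivial
    exact this
  have hgk : g ^ k = 1 := Homeomorph.ext hS'
  choose K hK1 hK2 using fun y : V => exists_compact_mem_nhds y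
  obtain ⟨t, ht⟩ := CompactSpace.elim_nhds_subcover
    (fun m : M => p '' (K (Function.surjInv hs m))) (fun m => by
      have := hl.isOpenMap.image_mem_nhds (hK2 (Function.surjInv hs m))
      rwa [Function.surjInv_eq hs m] at this)
  refine noncompact_univ V ?_
  have hcov : (univ : Set V) = ⋃ m ∈ t, ⋃ j ∈ Finset.range k.natAbs,
      (g ^ (j : ℤ)) '' (K (Function.surjInv hs m)) := by
    refine (eq_univ_of_forall fun y => ?_).symm
    have hy : p y ∈ ⋃ m ∈ t, p '' (K (Function.surjInv hs m)) := by rw [ht]; trivial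
    obtain ⟨m, hm, z, hz, hzy⟩ := mem_iUnion₂.1 hy
    obtain ⟨n, hn⟩ := (hf _ _).1 hzy
    refine mem_iUnion₂.2 ⟨m, hm, mem_iUnion₂.2 ⟨(n % k).toNat, ?_, z, hz, ?_⟩⟩
    · rw [Finset.mem_range]
      have h1 := Int.emod_nonneg n hk0
      have h2 := Int.emod_lt_abs n hk0
      rw [Int.abs_eq_natAbs] at h2
      omega
    · rw [Int.toNat_of_nonneg (Int.emod_nonneg n hk0), hn]
      have h3 : g ^ n = g ^ (n % k) := by
        conv_lhs => rw [← Int.emod_add_mul_ediv n k]
        rw [zpow_add, zpow_mul, hgk, one_zpow, mul_one]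
      rw [h3]
  rw [hcov]
  exact t.isCompact_biUnion fun m _ => (Finset.range _).isCompact_biUnion fun j _ =>
    (hK1 _).image (g ^ (j : ℤ)).continuous

private theorem isCoveringMap_of_free (hl : IsLocalHomeomorph p)
    (hs : Function.Surjective p) (hf : ∀ x y : V, p x = p y ↔ ∃ n : ℤ, y = (g ^ n) x)
    (hfree : ∀ (k : ℤ) (x : V), (g ^ k) x = x → k = 0) : IsCoveringMap p := by
  let _ : MulAction (Multiplicative ℤ) V :=
    { smul := fun n x => (g ^ (Multiplicative.toAdd n)) x
      one_smul := fun x => by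
        change (g ^ (0 : ℤ)) x = x
        rw [zpow_zero]; rfl
      mul_smul := fun a b x => by
        change (g ^ (Multiplicative.toAdd a + Multiplicative.toAdd b)) x =
          (g ^ (Multiplicative.toAdd a)) ((g ^ (Multiplicative.toAdd b)) x)
        rw [zpow_add]; rfl }
  have hsm : ∀ (n : Multiplicative ℤ) (x : V), n • x = (g ^ (Multiplicative.toAdd n)) x :=
    fun _ _ => rfl
  have hQ : IsQuotientCoveringMap p (Multiplicative ℤ) :=
    { toIsQuotientMap := hl.isOpenMap.isQuotientMap hl.continuous hs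
      continuous_const_smul := fun n => (g ^ (Multiplicative.toAdd n)).continuous
      apply_eq_iff_mem_orbit := by
        intro x y
        constructor
        · intro h
          obtain ⟨n, hn⟩ := (hf _ _).1 h.symm
          exact ⟨Multiplicative.ofAdd n, hn.symm⟩
        · rintro ⟨n, hn⟩
          exact ((hf _ _).2 ⟨Multiplicative.toAdd n, hn.symm⟩).symm
      disjoint := by
        intro x
        obtain ⟨U, hU, hxU, hinj⟩ := hl.isLocallyInjective x
        refine ⟨U, hU.mem_nhds hxU, ?_⟩
        rintro n ⟨y, ⟨z, hz, rfl⟩, hy⟩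
        have h1 : (g ^ (Multiplicative.toAdd n)) z = z :=
          hinj hy hz ((hf _ _).2 ⟨Multiplicative.toAdd n, rfl⟩).symm
        have h2 := hfree _ _ h1
        exact Multiplicative.toAdd.injective h2 }
  exact hQ.isCoveringMap


/-- Lifts to a path connected covering are surjective. -/
private theorem surj_of_lift {N : Type*} [TopologicalSpace N] [PathConnectedSpace N] [Nonempty V]
    {q : N → M} {p' : V → N} (hp : IsCoveringMap p) (hq : IsCoveringMap q) (hp' : Continuous p')
    (h : ∀ x, q (p' x) = p x) : Function.Surjective p' := by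
  intro y
  obtain ⟨x₀⟩ := ‹Nonempty V›
  obtain ⟨γ⟩ := PathConnectedSpace.joined (p' x₀) y
  obtain ⟨Γ, hΓ, hΓ0⟩ := hp.exists_path_lifts
    (⟨fun t => q (γ t), hq.continuous.comp γ.continuous⟩ : C(unitInterval, M)) x₀
    (by
      change q (γ 0) = p x₀
      rw [γ.source, h])
  have h1 : (fun t => p' (Γ t)) = fun t => γ t :=
    hq.eq_of_comp_eq (hp'.comp Γ.continuous) γ.continuous
      (by
        funext t
        change q (p' (Γ t)) = q (γ t)
        rw [h]
        exact congrFun hΓ t) 0 (by rw [hΓ0, γ.source])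
  have h2 := congrFun h1 1
  rw [γ.target] at h2
  exact ⟨_, h2⟩

/-- The fibres of the lift. -/
private theorem fibres_of_lift {N : Type*} [TopologicalSpace N] [PreconnectedSpace V]
    [Nonempty V] {q : N → M} {p' : V → N} (hf : ∀ x y : V, p x = p y ↔ ∃ n : ℤ, y = (g ^ n) x)
    (hq : IsCoveringMap q) (hp' : Continuous p') (h : ∀ x, q (p' x) = p x)
    (hs : Function.Surjective p') (m : ℕ) (hN : ∀ y : M, (q ⁻¹' {y}).ncard = m)
    (x y : V) : p' x = p' y ↔ ∃ n : ℤ, y = ((g ^ m) ^ n) x := by
  have hinv : ∀ (n : ℤ) (y : V), p ((g ^ n) y) = p y := fun n y => ((hf _ _).2 ⟨n, rfl⟩).symm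
  have hone : ∀ (n : ℤ) (x y : V), p' ((g ^ n) x) = p' x → p' ((g ^ n) y) = p' y := by
    intro n x y hx
    have h1 : (fun z => p' ((g ^ n) z)) = fun z => p' z :=
      hq.eq_of_comp_eq (hp'.comp (g ^ n).continuous) hp'
        (by
          funext z
          change q (p' ((g ^ n) z)) = q (p' z)
          rw [h, h, hinv]) x hx
    exact congrFun h1 y
  obtain ⟨x₀⟩ := ‹Nonempty V›
  let H : AddSubgroup ℤ :=
    { carrier := {n | p' ((g ^ n) x₀) = p' x₀}
      zero_mem' := by
        change p' ((g ^ (0 : ℤ)) x₀) = p' x₀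
        rw [zpow_zero]; rfl
      add_mem' := by
        intro a b ha hb
        change p' ((g ^ (a + b)) x₀) = p' x₀
        rw [zpow_add]
        change p' ((g ^ a) ((g ^ b) x₀)) = p' x₀
        rw [hone a x₀ _ ha]
        exact hb
      neg_mem' := by
        intro a ha
        change p' ((g ^ (-a)) x₀) = p' x₀
        have h1 := hone a x₀ ((g ^ (-a)) x₀) ha
        rw [← h1]
        change p' ((g ^ a * g ^ (-a)) x₀) = p' x₀
        rw [← zpow_add, add_neg_cancel, zpow_zero]; rfl }
  have hH : ∀ n : ℤ, n ∈ H ↔ p' ((g ^ n) x₀) = p' x₀ := fun n => Iff.rfl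
  have hHx : ∀ (n : ℤ) (x : V), n ∈ H ↔ p' ((g ^ n) x) = p' x := fun n x =>
    ⟨fun hn => hone n x₀ x hn, fun hn => hone n x x₀ hn⟩
  -- the fibre through `p x₀`
  have hindex : H.index = m := by
    rw [← hN (p x₀), ← _root_.Nat.card_coe_set_eq, AddSubgroup.index]
    let φ : ℤ → q ⁻¹' {p x₀} := fun n => ⟨p' ((g ^ n) x₀), by
      change q (p' ((g ^ n) x₀)) = p x₀
      rw [h, hinv]⟩
    have hφ : ∀ a b : ℤ, φ a = φ b ↔ -a + b ∈ H := by
      intro a b
      rw [hHx (-a + b) ((g ^ a) x₀)]
      have h1 : (g ^ (-a + b)) ((g ^ a) x₀) = (g ^ b) x₀ := by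
        change (g ^ (-a + b) * g ^ a) x₀ = (g ^ b) x₀
        rw [← zpow_add]
        congr 2
        ring
      rw [h1]
      constructor
      · intro hab
        exact (congrArg Subtype.val hab).symm
      · intro hab
        exact Subtype.ext hab.symm
    refine Nat.card_congr (Equiv.ofBijective
      (Quotient.lift φ fun a b hab => (hφ a b).2 (QuotientAddGroup.leftRel_apply.1 hab)) ⟨?_, ?_⟩)
    · intro a b
      induction a using Quotient.inductionOn with | _ a
      induction b using Quotient.inductionOn with | _ b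
      intro hab
      exact Quotient.sound (QuotientAddGroup.leftRel_apply.2 ((hφ a b).1 hab))
    · rintro ⟨y, hy⟩
      obtain ⟨z, rfl⟩ := hs y
      have h1 : p x₀ = p z := by
        have : q (p' z) = p x₀ := hy
        rw [h] at this
        exact this.symm
      obtain ⟨n, hn⟩ := (hf _ _).1 h1
      refine ⟨Quotient.mk _ n, Subtype.ext ?_⟩
      change p' ((g ^ n) x₀) = p' z
      rw [hn]
  obtain ⟨k, hk⟩ := Int.subgroup_cyclic H
  rw [← AddSubgroup.zmultiples_eq_closure] at hk
  have hkm : k.natAbs = m := by rw [← Int.index_zmultiples, ← hk, hindex]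
  have hdvd : ∀ n : ℤ, n ∈ H ↔ (m : ℤ) ∣ n := by
    intro n
    rw [hk, Int.mem_zmultiples_iff, ← hkm, Int.natAbs_dvd]
  constructor
  · intro hxy
    have h1 : p x = p y := by rw [← h, ← h, hxy]
    obtain ⟨n, hn⟩ := (hf _ _).1 h1
    have h2 : n ∈ H := by
      rw [hHx n x, ← hn, hxy]
    obtain ⟨l, hl⟩ := (hdvd n).1 h2
    refine ⟨l, ?_⟩
    rw [hn, hl, zpow_mul, zpow_natCast]
  · rintro ⟨l, rfl⟩
    have h2 : (m : ℤ) * l ∈ H := (hdvd _).2 ⟨l, rfl⟩
    rw [hHx _ x, zpow_mul, zpow_natCast] at h2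
    exact h2.symm

end Top

private theorem localDiffeo_congr {N : Type} [TopologicalSpace N] [ChartedSpace E4 N]
    {f f' : V4 → N} {x : V4}
    (h : IsLocalDiffeomorphAt (𝓡 4) (𝓡 4) ∞ f x) (hff : f' =ᶠ[𝓝 x] f) :
    IsLocalDiffeomorphAt (𝓡 4) (𝓡 4) ∞ f' x := by
  obtain ⟨Φ, hx, hΦ⟩ := h
  obtain ⟨U, hU, hUo, hxU⟩ := _root_.eventually_nhds_iff.1 hff
  refine ⟨{ toPartialEquiv := (Φ.toOpenPartialHomeomorph.restrOpen U hUo).toPartialEquiv
            open_source := (Φ.toOpenPartialHomeomorph.restrOpen U hUo).open_source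
            open_target := (Φ.toOpenPartialHomeomorph.restrOpen U hUo).open_target
            contMDiffOn_toFun := Φ.contMDiffOn_toFun.mono ?_
            contMDiffOn_invFun := Φ.contMDiffOn_invFun.mono ?_ }, ?_, ?_⟩
  · intro y hy; exact hy.1
  · intro y hy; exact hy.1
  · exact ⟨hx, hxU⟩
  · intro y hy
    exact (hU y hy.2).trans (hΦ hy.1)

/-- HC9 -/
theorem specCover : SpecCover := by
  intro g M _ _ _ _ _ p hp N _ _ _ _ q hq hql m hm hN
  have : LocallyCompactSpace V4 := V4.isOpen.isOpenEmbedding_subtypeVal.locallyCompactSpace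
  have : LocallyPathConnectedSpace V4 := V4.isOpen.locallyPathConnectedSpace
  have : SimplyConnectedSpace V4 := specSimplyConnected E4 (by simp)
  have : NoncompactSpace V4 := by
    refine ⟨fun hcpt => ?_⟩
    have h1 : IsCompact (Subtype.val '' (univ : Set V4)) := hcpt.image continuous_subtype_val
    rw [image_univ, Subtype.range_coe] at h1
    have h2 : IsClopen (V4 : Set E4) := ⟨h1.isClosed, V4.isOpen⟩
    obtain ⟨x⟩ : Nonempty V4 := inferInstance
    have h3 : (V4 : Set E4) = univ := h2.eq_univ ⟨x, x.2⟩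
    have h4 : (0 : E4) ∈ (V4 : Set E4) := by rw [h3]; trivial
    exact h4 rfl
  have : LocallyPathConnectedSpace N := ChartedSpace.locallyPathConnectedSpace E4 N
  have : PathConnectedSpace N := pathConnectedSpace_iff_connectedSpace.2 inferInstance
  have hl : IsLocalHomeomorph p := hp.loc.isLocalHomeomorph
  have hfree := free_of_noncompact hl hp.surj hp.fib
  have hc := isCoveringMap_of_free hl hp.surj hp.fib hfree
  obtain ⟨x₀⟩ : Nonempty V4 := inferInstance
  obtain ⟨y₀, hy₀⟩ : ∃ y₀ : N, q y₀ = p x₀ := by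
    have h1 : (q ⁻¹' {p x₀}).Nonempty := by
      rw [Set.nonempty_iff_ne_empty]
      intro h0
      have := hN (p x₀)
      rw [h0, Set.ncard_empty] at this
      omega
    exact h1
  obtain ⟨P, ⟨hP0, hP⟩, -⟩ := hq.existsUnique_continuousMap_lifts
    (⟨fun x => p x, hl.continuous⟩ : C(V4, M)) x₀ y₀ hy₀
  have hP' : ∀ x, q (P x) = p x := fun x => congrFun hP x
  have hsurj := surj_of_lift hc hq P.continuous hP'
  refine ⟨P, ⟨hsurj, ?_, ?_⟩, hP'⟩
  · intro x
    have hqx := hql (P x)
    have h7 : IsLocalDiffeomorphAt (𝓡 4) (𝓡 4) ∞ (fun y => hqx.localInverse (p y)) x := by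
      refine (hp.loc x).comp (𝓡 4) N (g := hqx.localInverse) ?_
      rw [← hP' x]
      exact hqx.localInverse_isLocalDiffeomorphAt
    refine localDiffeo_congr h7 ?_
    have h8 := hqx.localInverse_eventuallyEq_left
    have h9 : ∀ᶠ y in 𝓝 x, (hqx.localInverse ∘ q) (P y) = id (P y) :=
      P.continuous.continuousAt.eventually h8
    filter_upwards [h9] with y hy
    rw [← hP' y]
    exact hy.symm
  · exact fibres_of_lift hp.fib hq P.continuous hP' hsurj m hN

end Pool.Agent.HopfCov
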