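import Pool.Agent.HopfCov.Spec3
import Pool.Agent.HopfCov.SimplyConn

/-!
# Coverings of `S¹ × S³` by the punctured space
-/

set_option autoImplicit false

open scoped ContDiff Topology Manifold
open Set Filter Metric

namespace Pool.Agent.HopfCov

section Top

variable {V M : Type*} [TopologicalSpace V] [TopologicalSpace M] {g : V ≃ₜ V} {p : V → M}

/-- A local homeomorphism whose fibres are the orbits of a free action of the integers is a
covering map. -/
theorem isCoveringMap_of_orbits (hl : IsLocalHomeomorph p)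
    (hs : Function.Surjective p) (hf : ∀ x y : V, p x = p y ↔ ∃ n : ℤ, y = (g ^ n) x)
    (hfree : ∀ (k : ℤ) (x : V), (g ^ k) x = x → k = 0) : IsCoveringMap p := by
  let _ : MulAction (Multiplicative ℤ) V :=
    { smul := fun n x => (g ^ (Multiplicative.toAdd n)) x
      one_smul := fun x => by
        change (g ^ (0 : ℤ)) x = x
        rw [zpow_zero]; rfl
      mul_smul := fun a b x => by
        change (g ^ (Multiplicative.toAdd a + Multiplicative.toAdd b)) x =
          (g ^ (Multiplicative.toAdd a)) ((g ^ (Multiplicative.toAdd b)) x)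
        rw [zpow_add]; rfl }
  have hQ : IsQuotientCoveringMap p (Multiplicative ℤ) :=
    { toIsQuotientMap := hl.isOpenMap.isQuotientMap hl.continuous hs
      continuous_const_smul := fun n => (g ^ (Multiplicative.toAdd n)).continuous
      apply_eq_iff_mem_orbit := by
        intro x y
        constructor
        · intro h
          obtain ⟨n, hn⟩ := (hf _ _).1 h.symm
          exact ⟨Multiplicative.ofAdd n, hn.symm⟩
        · rintro ⟨n, hn⟩
          exact ((hf _ _).2 ⟨Multiplicative.toAdd n, hn.symm⟩).symm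
      disjoint := by
        intro x
        obtain ⟨U, hU, hxU, hinj⟩ := hl.isLocallyInjective x
        refine ⟨U, hU.mem_nhds hxU, ?_⟩
        rintro n ⟨y, ⟨z, hz, rfl⟩, hy⟩
        have h1 : (g ^ (Multiplicative.toAdd n)) z = z :=
          hinj hy hz ((hf _ _).2 ⟨Multiplicative.toAdd n, rfl⟩).symm
        have h2 := hfree _ _ h1
        exact Multiplicative.toAdd.injective h2 }
  exact hQ.isCoveringMap

end Top

/-- The covering `(t, y) ↦ (exp (i t), y)` is a local homeomorphism. -/
theorem isLocalHomeomorph_expProd (Y : Type*) [TopologicalSpace Y] :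
    IsLocalHomeomorph (fun x : ℝ × Y => (Circle.exp x.1, x.2)) := by
  apply IsLocalHomeomorph.mk
  rintro ⟨t, y⟩
  obtain ⟨e, ht, he⟩ := isLocalHomeomorph_circleExp t
  refine ⟨e.prod (OpenPartialHomeomorph.refl Y), ⟨ht, trivial⟩, ?_⟩
  rintro ⟨t', y'⟩ ⟨ht', -⟩
  refine Prod.ext ?_ rfl
  rw [he]
  rfl

/-- All coverings of `X` by the punctured space are isomorphic. -/
theorem deck_of_model {M X : Type} [TopologicalSpace M] [TopologicalSpace X] (F : M ≃ₜ X)
    {p₀ : V4 → X} (hc : IsCoveringMap p₀) (hs : Function.Surjective p₀) (τ : V4 ≃ₜ V4)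
    (hf : ∀ x y, p₀ x = p₀ y ↔ ∃ n : ℤ, y = (τ ^ n) x) {p : V4 → M} (hp : IsCoveringMap p) :
    Function.Surjective p ∧ ∃ g : V4 ≃ₜ V4, ∀ x y : V4, p x = p y ↔ ∃ n : ℤ, y = (g ^ n) x := by
  have : LocallyCompactSpace V4 := V4.isOpen.isOpenEmbedding_subtypeVal.locallyCompactSpace
  have : LocallyPathConnectedSpace V4 := V4.isOpen.locallyPathConnectedSpace
  have : SimplyConnectedSpace V4 := specSimplyConnected E4 (by simp)
  obtain ⟨x₀⟩ : Nonempty V4 := inferInstance
  obtain ⟨y₀, hy₀⟩ := hs (F (p x₀))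
  obtain ⟨Ψ, ⟨hΨ0, hΨ⟩, -⟩ := hc.existsUnique_continuousMap_lifts
    (⟨fun x => F (p x), F.continuous.comp hp.continuous⟩ : C(V4, X)) x₀ y₀ hy₀
  obtain ⟨Φ, ⟨hΦ0, hΦ⟩, -⟩ := hp.existsUnique_continuousMap_lifts
    (⟨fun x => F.symm (p₀ x), F.symm.continuous.comp hc.continuous⟩ : C(V4, M)) y₀ x₀
      (by
        change p x₀ = F.symm (p₀ y₀)
        rw [hy₀, F.symm_apply_apply])
  have hΨ' : ∀ x, p₀ (Ψ x) = F (p x) := fun x => congrFun hΨ x
  have hΦ' : ∀ x, p (Φ x) = F.symm (p₀ x) := fun x => congrFun hΦ x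
  have h1 : (fun x => Φ (Ψ x)) = fun x => x :=
    hp.eq_of_comp_eq (Φ.continuous.comp Ψ.continuous) continuous_id
      (by
        funext x
        change p (Φ (Ψ x)) = p x
        rw [hΦ', hΨ', F.symm_apply_apply]) x₀ (by
        rw [hΨ0, hΦ0])
  have h2 : (fun x => Ψ (Φ x)) = fun x => x :=
    hc.eq_of_comp_eq (Ψ.continuous.comp Φ.continuous) continuous_id
      (by
        funext x
        change p₀ (Ψ (Φ x)) = p₀ x
        rw [hΨ', hΦ', F.apply_symm_apply]) y₀ (by
        rw [hΦ0, hΨ0])
  let Θ : V4 ≃ₜ V4 :=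
    { toFun := Ψ
      invFun := Φ
      left_inv := fun x => congrFun h1 x
      right_inv := fun x => congrFun h2 x
      continuous_toFun := Ψ.continuous
      continuous_invFun := Φ.continuous }
  have hΘ : ∀ x, p₀ (Θ x) = F (p x) := hΨ'
  refine ⟨?_, Θ⁻¹ * τ * Θ, ?_⟩
  · intro y
    obtain ⟨x, hx⟩ := hs (F y)
    refine ⟨Φ x, ?_⟩
    rw [hΦ', hx, F.symm_apply_apply]
  · intro x y
    have e1 : p x = p y ↔ p₀ (Θ x) = p₀ (Θ y) := by
      rw [hΘ, hΘ, F.injective.eq_iff]
    rw [e1, hf]
    refine exists_congr fun n => ?_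
    have h3 : (Θ⁻¹ * τ * Θ) ^ n = Θ⁻¹ * τ ^ n * Θ := by
      have := conj_zpow (i := n) (a := Θ⁻¹) (b := τ)
      rwa [inv_inv] at this
    rw [h3]
    constructor
    · intro h
      change y = Θ.symm ((τ ^ n) (Θ x))
      rw [← h, Θ.symm_apply_apply]
    · intro h
      have h4 : y = Θ.symm ((τ ^ n) (Θ x)) := h
      rw [h4, Θ.apply_symm_apply]

/-- polar coordinates -/
noncomputable def polar : V4 ≃ₜ ℝ × sphere (0 : E4) 1 :=
  ((homeomorphUnitSphereProd E4).trans
    ((Homeomorph.refl _).prodCongr Real.expOrderIso.toHomeomorph.symm)).trans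
    (Homeomorph.prodComm _ _)

/-- the generator of the deck group of the standard covering -/
noncomputable def polarShift : V4 ≃ₜ V4 :=
  (polar.trans ((Homeomorph.addRight (2 * Real.pi)).prodCongr (Homeomorph.refl _))).trans
    polar.symm

theorem polar_shift (x : V4) : polar (polarShift x) = ((polar x).1 + 2 * Real.pi, (polar x).2) := by
  change polar (polar.symm _) = _
  rw [polar.apply_symm_apply]
  rfl

theorem polar_shift_inv (x : V4) :
    polar ((polarShift⁻¹ : V4 ≃ₜ V4) x) = ((polar x).1 - 2 * Real.pi, (polar x).2) := by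
  have h := polar_shift ((polarShift⁻¹ : V4 ≃ₜ V4) x)
  have h2 : polarShift ((polarShift⁻¹ : V4 ≃ₜ V4) x) = x := polarShift.apply_symm_apply x
  rw [h2] at h
  rw [h]
  simp

theorem polar_shift_zpow (n : ℤ) : ∀ x : V4,
    polar ((polarShift ^ n : V4 ≃ₜ V4) x) = ((polar x).1 + n * (2 * Real.pi), (polar x).2) := by
  induction n using Int.induction_on with
  | zero =>
    intro x
    rw [zpow_zero]
    change polar x = _
    simp
  | succ n ih =>
    intro x
    rw [zpow_add_one]
    change polar ((polarShift ^ (n : ℤ) : V4 ≃ₜ V4) (polarShift x)) = _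
    rw [ih, polar_shift]
    push_cast
    refine Prod.ext ?_ rfl
    simp only
    ring
  | pred n ih =>
    intro x
    rw [zpow_sub_one]
    change polar ((polarShift ^ (-(n : ℤ)) : V4 ≃ₜ V4) ((polarShift⁻¹ : V4 ≃ₜ V4) x)) = _
    rw [ih, polar_shift_inv]
    push_cast
    refine Prod.ext ?_ rfl
    simp only
    ring

/-- HC10a -/
theorem specDeck : SpecDeck := by
  rintro M _ ⟨F⟩ p hp
  set p₀ : V4 → Circle × sphere (0 : E4) 1 := fun x => (Circle.exp (polar x).1, (polar x).2)
    with hp₀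
  have hl : IsLocalHomeomorph p₀ :=
    (isLocalHomeomorph_expProd (sphere (0 : E4) 1)).comp polar.isLocalHomeomorph
  have hs : Function.Surjective p₀ := by
    rintro ⟨z, u⟩
    refine ⟨polar.symm (Complex.arg (z : ℂ), u), ?_⟩
    simp only [hp₀, polar.apply_symm_apply, Circle.exp_arg]
  have hf : ∀ x y, p₀ x = p₀ y ↔ ∃ n : ℤ, y = (polarShift ^ n) x := by
    intro x y
    simp only [hp₀, Prod.mk.injEq, Circle.exp_eq_exp]
    constructor
    · rintro ⟨⟨m, hm⟩, hu⟩
      refine ⟨-m, polar.injective ?_⟩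
      rw [polar_shift_zpow]
      refine Prod.ext ?_ hu.symm
      simp only
      push_cast
      linarith
    · rintro ⟨n, rfl⟩
      rw [polar_shift_zpow]
      refine ⟨⟨-n, ?_⟩, rfl⟩
      simp only
      push_cast
      ring
  have hfree : ∀ (k : ℤ) (x : V4), (polarShift ^ k) x = x → k = 0 := by
    intro k x h
    have h1 := polar_shift_zpow k x
    rw [h] at h1
    have h2 : (polar x).1 = (polar x).1 + k * (2 * Real.pi) := congrArg Prod.fst h1
    have h3 : (k : ℝ) * (2 * Real.pi) = 0 := by linarith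
    rcases mul_eq_zero.mp h3 with h4 | h4
    · exact_mod_cast h4
    · exact absurd h4 (by positivity)
  exact deck_of_model F (isCoveringMap_of_orbits hl hs hf hfree) hs polarShift hf hp

end Pool.Agent.HopfCov
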