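import Pool.Agent.HopfCov.Halving
import Pool.Agent.HopfCov.Spec3

/-!
# Coverings of the twisted product by the punctured space
-/

set_option autoImplicit false

open scoped ContDiff Topology Manifold
open Set Filter Metric

namespace Pool.Agent.HopfCov

/-- the scaling factors `(-1/2, 1/2, 1/2, 1/2)` -/
private noncomputable def dtwA : Fin 4 → ℝ := Fin.cons (-2⁻¹) fun _ => 2⁻¹

private theorem dtwA_ne (i : Fin 4) : dtwA i ≠ 0 := by
  refine Fin.cases ?_ (fun i => ?_) i <;> simp [dtwA]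

private theorem dtwA_sq (i : Fin 4) : dtwA i ^ 2 = 2⁻¹ ^ 2 := by
  refine Fin.cases ?_ (fun i => ?_) i <;> simp [dtwA]

/-- coordinatewise scaling -/
private noncomputable def dtwS (a : Fin 4 → ℝ) (x : E4) : E4 := WithLp.toLp 2 fun i => a i * x i

private theorem dtwS_apply (a : Fin 4 → ℝ) (x : E4) (i : Fin 4) : dtwS a x i = a i * x i := rfl

private theorem continuous_dtwS (a : Fin 4 → ℝ) : Continuous (dtwS a) := by
  unfold dtwS
  fun_prop

private theorem dtwS_inv {a b : Fin 4 → ℝ} (h : ∀ i, a i * b i = 1) (x : E4) :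
    dtwS a (dtwS b x) = x := by
  ext i
  rw [dtwS_apply, dtwS_apply, ← mul_assoc, h, one_mul]

private theorem dtwS_ne {a b : Fin 4 → ℝ} (h : ∀ i, a i * b i = 1) {x : E4} (hx : x ≠ 0) :
    dtwS b x ≠ 0 := by
  intro h0
  apply hx
  rw [← dtwS_inv h x, h0]
  ext i
  simp [dtwS_apply]

/-- the homeomorphism `x ↦ r(x) / 2` -/
private noncomputable def dtwT : V4 ≃ₜ V4 where
  toFun x := ⟨dtwS dtwA x, dtwS_ne (a := fun i => (dtwA i)⁻¹)
    (fun i => inv_mul_cancel₀ (dtwA_ne i)) x.2⟩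
  invFun x := ⟨dtwS (fun i => (dtwA i)⁻¹) x, dtwS_ne (a := dtwA)
    (fun i => mul_inv_cancel₀ (dtwA_ne i)) x.2⟩
  left_inv x := Subtype.ext (dtwS_inv (fun i => inv_mul_cancel₀ (dtwA_ne i)) _)
  right_inv x := Subtype.ext (dtwS_inv (fun i => mul_inv_cancel₀ (dtwA_ne i)) _)
  continuous_toFun := ((continuous_dtwS _).comp continuous_subtype_val).subtype_mk _
  continuous_invFun := ((continuous_dtwS _).comp continuous_subtype_val).subtype_mk _

private theorem dtwT_apply (x : V4) (i : Fin 4) : (dtwT x : E4) i = dtwA i * (x : E4) i := rfl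

private theorem norm_dtwT (x : V4) : ‖(dtwT x : E4)‖ = 2⁻¹ * ‖(x : E4)‖ := by
  have h : ‖(dtwT x : E4)‖ ^ 2 = (2⁻¹ * ‖(x : E4)‖) ^ 2 := by
    rw [mul_pow, EuclideanSpace.norm_sq_eq, EuclideanSpace.norm_sq_eq, Finset.mul_sum]
    refine Finset.sum_congr rfl fun i _ => ?_
    rw [dtwT_apply, Real.norm_eq_abs, Real.norm_eq_abs, sq_abs, sq_abs, mul_pow, dtwA_sq]
  exact (pow_left_inj₀ (norm_nonneg _) (by positivity) two_ne_zero).1 h

/-- the logarithm to base two of the norm -/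
private noncomputable def dtwL (x : V4) : ℝ := Real.log ‖(x : E4)‖ / Real.log 2

private theorem continuous_dtwL : Continuous dtwL := by
  unfold dtwL
  refine Continuous.div_const (Continuous.log ?_ fun x => (norm_pos_V4 x).ne') _
  exact continuous_norm.comp continuous_subtype_val

private theorem log_two_pos : 0 < Real.log 2 := Real.log_pos (by norm_num)

private theorem dtwL_T (x : V4) : dtwL (dtwT x) = dtwL x - 1 := by
  have := log_two_pos
  rw [dtwL, dtwL, norm_dtwT, Real.log_mul (by norm_num) (norm_pos_V4 x).ne', Real.log_inv]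
  field_simp
  ring

private theorem dtw_mem (x : V4) :
    ‖Complex.exp ((2 * Real.pi * dtwL x : ℝ) * Complex.I)‖ = 1 ∧
    (Complex.exp ((Real.pi * dtwL x : ℝ) * Complex.I) * (((x : E4) 0 / ‖(x : E4)‖ : ℝ) : ℂ)) ^ 2 =
      ((‖Complex.exp ((Real.pi * dtwL x : ℝ) * Complex.I) *
        (((x : E4) 0 / ‖(x : E4)‖ : ℝ) : ℂ)‖ ^ 2 : ℝ) : ℂ) *
        Complex.exp ((2 * Real.pi * dtwL x : ℝ) * Complex.I) ∧
    ‖Complex.exp ((Real.pi * dtwL x : ℝ) * Complex.I) *
        (((x : E4) 0 / ‖(x : E4)‖ : ℝ) : ℂ)‖ ^ 2 +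
      ‖(WithLp.toLp 2 fun i : Fin 3 => (x : E4) i.succ / ‖(x : E4)‖ :
        EuclideanSpace ℝ (Fin 3))‖ ^ 2 = 1 := by
  have hx := norm_pos_V4 x
  have h1 : ‖Complex.exp ((Real.pi * dtwL x : ℝ) * Complex.I) *
        (((x : E4) 0 / ‖(x : E4)‖ : ℝ) : ℂ)‖ ^ 2 = ((x : E4) 0 / ‖(x : E4)‖) ^ 2 := by
    rw [norm_mul, Complex.norm_exp_ofReal_mul_I, one_mul, Complex.norm_real, Real.norm_eq_abs,
      sq_abs]
  refine ⟨Complex.norm_exp_ofReal_mul_I _, ?_, ?_⟩
  · rw [h1, mul_pow, ← Complex.exp_nat_mul]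
    have h2 : ((2 : ℕ) : ℂ) * ((Real.pi * dtwL x : ℝ) * Complex.I) =
        (2 * Real.pi * dtwL x : ℝ) * Complex.I := by
      push_cast
      ring
    rw [h2]
    push_cast
    ring
  · rw [h1, EuclideanSpace.norm_sq_eq]
    have h3 := EuclideanSpace.norm_sq_eq (x : E4)
    rw [Fin.sum_univ_succ] at h3
    simp only [Real.norm_eq_abs, sq_abs] at h3 ⊢
    simp only [div_pow]
    rw [← Finset.sum_div, ← add_div, ← h3, div_self (by positivity)]

/-- the standard covering of the twisted product -/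
private noncomputable def dtwP (x : V4) : Twisted :=
  ⟨(Complex.exp ((2 * Real.pi * dtwL x : ℝ) * Complex.I),
    Complex.exp ((Real.pi * dtwL x : ℝ) * Complex.I) * (((x : E4) 0 / ‖(x : E4)‖ : ℝ) : ℂ),
    WithLp.toLp 2 fun i : Fin 3 => (x : E4) i.succ / ‖(x : E4)‖), dtw_mem x⟩

private theorem continuous_dtwP : Continuous dtwP := by
  refine Continuous.subtype_mk ?_ _
  have hL := continuous_dtwL
  have hn : Continuous fun x : V4 => ‖(x : E4)‖ := continuous_norm.comp continuous_subtype_val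
  have hne : ∀ x : V4, ‖(x : E4)‖ ≠ 0 := fun x => (norm_pos_V4 x).ne'
  have hc : ∀ i : Fin 4, Continuous fun x : V4 => (x : E4) i := fun i => by fun_prop
  refine Continuous.prodMk ?_ (Continuous.prodMk ?_ ?_)
  · fun_prop
  · have h1 : Continuous fun x : V4 => (x : E4) 0 / ‖(x : E4)‖ := (hc 0).div hn hne
    fun_prop
  · have h1 : ∀ i : Fin 3, Continuous fun x : V4 => (x : E4) i.succ / ‖(x : E4)‖ :=
      fun i => (hc _).div hn hne
    fun_prop

private theorem dtwP_T (x : V4) : dtwP (dtwT x) = dtwP x := by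
  have hx := norm_pos_V4 x
  apply Subtype.ext
  simp only [dtwP, Prod.mk.injEq]
  refine ⟨?_, ?_, ?_⟩
  · rw [dtwL_T]
    have h1 : ((2 * Real.pi * (dtwL x - 1) : ℝ) : ℂ) * Complex.I =
        ((2 * Real.pi * dtwL x : ℝ) : ℂ) * Complex.I - 2 * Real.pi * Complex.I := by
      push_cast
      ring
    rw [h1, Complex.exp_sub, Complex.exp_two_pi_mul_I, div_one]
  · rw [dtwL_T]
    have h1 : ((Real.pi * (dtwL x - 1) : ℝ) : ℂ) * Complex.I =
        ((Real.pi * dtwL x : ℝ) : ℂ) * Complex.I - Real.pi * Complex.I := by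
      push_cast
      ring
    rw [h1, Complex.exp_sub, Complex.exp_pi_mul_I, dtwT_apply, norm_dtwT]
    have h2 : dtwA 0 * (x : E4) 0 / (2⁻¹ * ‖(x : E4)‖) = -((x : E4) 0 / ‖(x : E4)‖) := by
      simp only [dtwA, Fin.cons_zero]
      field_simp
    rw [h2]
    push_cast
    ring
  · congr 1
    funext i
    rw [dtwT_apply, norm_dtwT]
    simp only [dtwA, Fin.cons_succ]
    field_simp

private theorem dtwP_zpow (n : ℤ) (x : V4) : dtwP ((dtwT ^ n) x) = dtwP x := by
  induction n using Int.induction_on with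
  | zero => simp
  | succ n ih =>
    have h1 : (dtwT ^ ((n : ℤ) + 1)) x = dtwT ((dtwT ^ (n : ℤ)) x) := by
      rw [add_comm, zpow_add, zpow_one]; rfl
    rw [h1, dtwP_T, ih]
  | pred n ih =>
    have h1 : (dtwT ^ (-(n : ℤ))) x = dtwT ((dtwT ^ (-(n : ℤ) - 1)) x) := by
      have : (-(n : ℤ)) = 1 + (-(n : ℤ) - 1) := by ring
      conv_lhs => rw [this, zpow_add, zpow_one]
      rfl
    rw [h1, dtwP_T] at ih
    exact ih

private theorem dtwP_inj {x y : V4} (h : dtwP x = dtwP y) (hn : ‖(x : E4)‖ = ‖(y : E4)‖) :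
    x = y := by
  have hx := norm_pos_V4 x
  have h1 := congrArg Subtype.val h
  simp only [dtwP, Prod.mk.injEq] at h1
  obtain ⟨-, h2, h3⟩ := h1
  have hL : dtwL x = dtwL y := by rw [dtwL, dtwL, hn]
  rw [hL, hn] at h2
  have h4 := mul_left_cancel₀ (Complex.exp_ne_zero _) h2
  have h5 : (x : E4) 0 / ‖(y : E4)‖ = (y : E4) 0 / ‖(y : E4)‖ := by exact_mod_cast h4
  have hy := norm_pos_V4 y
  apply Subtype.ext
  ext i
  refine Fin.cases ?_ (fun i => ?_) i
  · field_simp at h5
    exact h5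
  · have h6 := congrArg (fun w : EuclideanSpace ℝ (Fin 3) => w i) h3
    simp only [hn] at h6
    field_simp at h6
    exact h6

private theorem dtwP_fib (x y : V4) : dtwP x = dtwP y ↔ ∃ n : ℤ, y = (dtwT ^ n) x := by
  constructor
  · intro h
    have hx := norm_pos_V4 x
    have hy := norm_pos_V4 y
    have hl := log_two_pos
    have h1 := congrArg Subtype.val h
    simp only [dtwP, Prod.mk.injEq] at h1
    obtain ⟨n, hn⟩ := Complex.exp_eq_exp_iff_exists_int.1 h1.1
    have h2 : dtwL x = dtwL y + n := by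
      have h3 : ((2 * Real.pi * dtwL x : ℝ) : ℂ) * Complex.I =
          ((2 * Real.pi * (dtwL y + n) : ℝ) : ℂ) * Complex.I := by
        rw [hn]
        push_cast
        ring
      have h4 := mul_right_cancel₀ Complex.I_ne_zero h3
      have h5 : 2 * Real.pi * dtwL x = 2 * Real.pi * (dtwL y + n) := by exact_mod_cast h4
      exact mul_left_cancel₀ (by positivity) h5
    refine ⟨n, ?_⟩
    apply dtwP_inj
    · rw [dtwP_zpow, h]
    · rw [norm_zpow_halving norm_dtwT]
      have h6 : Real.log ‖(y : E4)‖ = Real.log ((2⁻¹ : ℝ) ^ n * ‖(x : E4)‖) := by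
        rw [Real.log_mul (by positivity) hx.ne', Real.log_zpow, Real.log_inv]
        rw [dtwL, dtwL] at h2
        field_simp at h2
        linarith
      exact Real.log_injOn_pos (mem_Ioi.2 hy) (mem_Ioi.2 (by positivity)) h6
  · rintro ⟨n, rfl⟩
    rw [dtwP_zpow]

private theorem dtwP_surj : Function.Surjective dtwP := by
  rintro ⟨⟨c, z, w⟩, hc, hz, hw⟩
  simp only at hc hz hw
  have hl := log_two_pos
  set t : ℝ := Complex.arg c / (2 * Real.pi) with ht
  have hct : Complex.exp ((2 * Real.pi * t : ℝ) * Complex.I) = c := by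
    have h1 := Complex.norm_mul_exp_arg_mul_I c
    rw [hc, Complex.ofReal_one, one_mul] at h1
    have h2 : 2 * Real.pi * t = Complex.arg c := by
      rw [ht]
      field_simp
    rw [h2]
    exact h1
  have hzt : ∃ s : ℝ, z = Complex.exp ((Real.pi * t : ℝ) * Complex.I) * (s : ℂ) := by
    set E : ℂ := Complex.exp ((Real.pi * t : ℝ) * Complex.I) with hE
    have hE2 : E ^ 2 = c := by
      rw [hE, ← Complex.exp_nat_mul, ← hct]
      congr 1
      push_cast
      ring
    have hE0 : E ≠ 0 := Complex.exp_ne_zero _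
    have h1 : (z / E) ^ 2 = ((‖z‖ : ℝ) : ℂ) ^ 2 := by
      rw [div_pow, hE2, hz]
      have hc0 : c ≠ 0 := by rw [← hE2]; exact pow_ne_zero 2 hE0
      push_cast
      field_simp
    rcases sq_eq_sq_iff_eq_or_eq_neg.1 h1 with h2 | h2
    · refine ⟨‖z‖, ?_⟩
      rw [← h2]
      field_simp
    · refine ⟨-‖z‖, ?_⟩
      rw [Complex.ofReal_neg, ← h2]
      field_simp
  obtain ⟨s, hs⟩ := hzt
  have hzs : ‖z‖ ^ 2 = s ^ 2 := by
    rw [hs, norm_mul, Complex.norm_exp_ofReal_mul_I, one_mul, Complex.norm_real, Real.norm_eq_abs,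
      sq_abs]
  set u : E4 := WithLp.toLp 2 (Fin.cons s fun i : Fin 3 => w i) with hu
  have hu0 : u 0 = s := rfl
  have hus : ∀ i : Fin 3, u i.succ = w i := fun _ => rfl
  have hun : ‖u‖ = 1 := by
    have h1 : ‖u‖ ^ 2 = 1 := by
      rw [EuclideanSpace.norm_sq_eq, Fin.sum_univ_succ]
      simp only [hu0, hus, Real.norm_eq_abs, sq_abs]
      rw [EuclideanSpace.norm_sq_eq] at hw
      simp only [Real.norm_eq_abs, sq_abs] at hw
      rw [← hw, hzs]
    have h2 := (pow_left_inj₀ (norm_nonneg u) zero_le_one two_ne_zero).1 (by rw [h1, one_pow])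
    exact h2
  have h2t : (0 : ℝ) < (2 : ℝ) ^ t := by positivity
  have hxn : ‖(2 : ℝ) ^ t • u‖ = 2 ^ t := by
    rw [norm_smul, hun, mul_one, Real.norm_of_nonneg h2t.le]
  have hx0 : (2 : ℝ) ^ t • u ∈ V4 := by
    intro h0
    rw [show (2 : ℝ) ^ t • u = 0 from h0, norm_zero] at hxn
    exact h2t.ne hxn
  have hL : dtwL ⟨(2 : ℝ) ^ t • u, hx0⟩ = t := by
    rw [dtwL]
    simp only [hxn]
    rw [Real.log_rpow (by norm_num)]
    field_simp
  refine ⟨⟨(2 : ℝ) ^ t • u, hx0⟩, ?_⟩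
  apply Subtype.ext
  simp only [dtwP, Prod.mk.injEq]
  rw [hL, hxn]
  refine ⟨hct, ?_, ?_⟩
  · rw [hs]
    have h3 : ((2 : ℝ) ^ t • u) 0 / (2 : ℝ) ^ t = s := by
      rw [PiLp.smul_apply, hu0, smul_eq_mul]
      field_simp
    rw [h3]
  · ext i
    have h3 : ((2 : ℝ) ^ t • u) i.succ / (2 : ℝ) ^ t = w i := by
      rw [PiLp.smul_apply, hus, smul_eq_mul]
      field_simp
    exact h3

/-- HC10b: coverings of the twisted product by the punctured space -/
theorem deckTwisted : SpecDeckTwisted := by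
  rintro M _ ⟨F⟩ p hp
  exact deck_of_covering (isCoveringMap_halving norm_dtwT continuous_dtwP dtwP_surj dtwP_fib)
    dtwP_surj dtwP_fib F hp

end Pool.Agent.HopfCov
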