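import Mathlib

/-!
# Punctured diffeomorphisms of a Euclidean space: basic definitions

`LD s f x` : the map `f` is smooth at `x` and its derivative at `x` is invertible with
determinant of the sign of `s` (used with `s = 1` and `s = -1`).
-/

set_option autoImplicit false

open scoped ContDiff Topology
open Set Filter Metric

namespace Pool.Agent.HopfCov

variable {E : Type*} [NormedAddCommGroup E] [NormedSpace ℝ E]

/-- `f` is a local diffeomorphism at `x` with Jacobian determinant of the sign of `s`. -/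
def LD (s : ℝ) (f : E → E) (x : E) : Prop :=
  ContDiffAt ℝ ∞ f x ∧ 0 < s * (fderiv ℝ f x).det

theorem LD.congr {s : ℝ} {f g : E → E} {x : E} (h : LD s f x) (hfg : f =ᶠ[𝓝 x] g) :
    LD s g x := by
  refine ⟨h.1.congr_of_eventuallyEq hfg.symm, ?_⟩
  rw [← hfg.fderiv_eq]
  exact h.2

theorem LD.continuousAt {s : ℝ} {f : E → E} {x : E} (h : LD s f x) : ContinuousAt f x :=
  h.1.continuousAt

theorem LD.hasFDerivAt {s : ℝ} {f : E → E} {x : E} (h : LD s f x) :
    HasFDerivAt f (fderiv ℝ f x) x :=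
  (h.1.differentiableAt (by simp)).hasFDerivAt

theorem det_comp_clm (A B : E →L[ℝ] E) : (A.comp B).det = A.det * B.det := by
  simp [ContinuousLinearMap.det, LinearMap.det_comp]

theorem LD.comp {s t : ℝ} {f g : E → E} {x : E} (hg : LD s g (f x)) (hf : LD t f x) :
    LD (s * t) (g ∘ f) x := by
  refine ⟨hg.1.comp x hf.1, ?_⟩
  rw [(hg.hasFDerivAt.comp x hf.hasFDerivAt).fderiv, det_comp_clm]
  have := mul_pos hg.2 hf.2
  calc (0 : ℝ) < _ := this
    _ = _ := by ring

theorem LD_id (x : E) : LD 1 (fun y : E => y) x := by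
  refine ⟨contDiffAt_id, ?_⟩
  have : fderiv ℝ (fun y : E => y) x = ContinuousLinearMap.id ℝ E := fderiv_fun_id
  rw [this]
  simp [ContinuousLinearMap.det]

theorem LD_add_const (c x : E) : LD 1 (fun y : E => y + c) x := by
  refine ⟨contDiffAt_id.add contDiffAt_const, ?_⟩
  have : fderiv ℝ (fun y : E => y + c) x = ContinuousLinearMap.id ℝ E := by
    rw [fderiv_add_const]; exact fderiv_fun_id
  rw [this]
  simp [ContinuousLinearMap.det]

theorem LD_sub_const (c x : E) : LD 1 (fun y : E => y - c) x := by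
  simpa [sub_eq_add_neg] using LD_add_const (-c) x

theorem LD_clm {s : ℝ} (A : E →L[ℝ] E) (hA : 0 < s * A.det) (x : E) : LD s A x := by
  refine ⟨A.contDiff.contDiffAt, ?_⟩
  rw [A.fderiv]
  exact hA

theorem LD.inv [FiniteDimensional ℝ E] {s : ℝ} (h : E ≃ₜ E) {x : E} (hx : LD s h x) :
    LD s (h⁻¹ : E ≃ₜ E) (h x) := by
  have hdet : (fderiv ℝ h x).det ≠ 0 := by
    intro h0
    have := hx.2
    rw [h0] at this
    simp at this
  have hcomplete : CompleteSpace E := FiniteDimensional.complete ℝ E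
  set A : E ≃L[ℝ] E := (fderiv ℝ h x).toContinuousLinearEquivOfDetNeZero hdet with hA
  have hAc : (A : E →L[ℝ] E) = fderiv ℝ h x := by
    rw [hA]; exact ContinuousLinearMap.coe_toContinuousLinearEquivOfDetNeZero _ _
  have hd : HasFDerivAt h (A : E →L[ℝ] E) x := by
    rw [hAc]; exact hx.hasFDerivAt
  set P := h.toOpenPartialHomeomorph with hP
  have hsm : P.symm (h x) = x := by
    simp [hP]
  have hmem : h x ∈ P.target := by simp [hP]
  have c1 : ContDiffAt ℝ ∞ P.symm (h x) := by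
    refine P.contDiffAt_symm hmem (f₀' := A) ?_ ?_
    · rw [hsm]; exact hd
    · rw [hsm]; exact hx.1
  have c2 : ContDiffAt ℝ ∞ (h⁻¹ : E ≃ₜ E) (h x) := c1
  refine ⟨c2, ?_⟩
  have hcomp : HasFDerivAt (fun y => (h⁻¹ : E ≃ₜ E) (h y))
      ((fderiv ℝ (h⁻¹ : E ≃ₜ E) (h x)).comp (fderiv ℝ h x)) x :=
    ((c2.differentiableAt (by simp)).hasFDerivAt).comp x hx.hasFDerivAt
  have hid : (fun y => (h⁻¹ : E ≃ₜ E) (h y)) = fun y => y := by
    funext y
    exact h.symm_apply_apply y
  have hcomp' := hcomp.fderiv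
  rw [hid] at hcomp'
  have hdd : (1 : ℝ) = (fderiv ℝ (h⁻¹ : E ≃ₜ E) (h x)).det * (fderiv ℝ h x).det := by
    rw [← det_comp_clm, ← hcomp', fderiv_fun_id]
    simp [ContinuousLinearMap.det]
  set a := (fderiv ℝ (h⁻¹ : E ≃ₜ E) (h x)).det
  set b := (fderiv ℝ h x).det
  have hb : a = b⁻¹ := eq_inv_of_mul_eq_one_left hdd.symm
  rw [hb]
  have h2 : s * b⁻¹ = (s * b) * (b⁻¹ * b⁻¹) := by
    field_simp
  rw [h2]
  have : 0 < b⁻¹ * b⁻¹ := mul_self_pos.2 (inv_ne_zero hdet)
  exact mul_pos hx.2 this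

/-- `h` is an `s`-oriented diffeomorphism of the punctured space (a homeomorphism of `E` fixing
the origin which is a local diffeomorphism at all other points). -/
def PD (s : ℝ) (h : E ≃ₜ E) : Prop := h 0 = 0 ∧ ∀ x, x ≠ 0 → LD s h x

/-- `h` is the identity outside a compact set. -/
def CS (h : E ≃ₜ E) : Prop := ∀ᶠ x in cocompact E, h x = x

/-- two homeomorphisms agree near infinity -/
def EqInf (f g : E ≃ₜ E) : Prop := ∀ᶠ x in cocompact E, f x = g x

end Pool.Agent.HopfCov
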