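import Pool.Agent.HopfCov.Spec

/-!
# Equivariant homeomorphisms induce homeomorphisms of the orbit spaces
-/

set_option autoImplicit false

open scoped ContDiff Topology Manifold
open Set Filter Metric

namespace Pool.Agent.HopfCov

theorem descend : SpecDescend := by
  intro g g' M M' _ _ _ _ _ _ p p' hp hp' Φ hΦ
  -- the maps are quotient maps
  have hqp : Topology.IsQuotientMap p := hp.loc.isOpenMap.isQuotientMap hp.loc.contMDiff.continuous hp.surj
  have hqp' : Topology.IsQuotientMap p' :=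
    hp'.loc.isOpenMap.isQuotientMap hp'.loc.contMDiff.continuous hp'.surj
  have hΦ' : Φ⁻¹ * g' = g * Φ⁻¹ := by
    rw [inv_mul_eq_iff_eq_mul, ← mul_assoc, hΦ, mul_assoc, mul_inv_cancel, mul_one]
  have key : ∀ (h h' Θ : V4 ≃ₜ V4), Θ * h = h' * Θ → ∀ (n : ℤ) (x : V4),
      Θ ((h ^ n) x) = (h' ^ n) (Θ x) := by
    intro h h' Θ hc n x
    have h1 : SemiconjBy Θ h h' := hc
    have h2 := (h1.zpow_right n).eq
    exact DFunLike.congr_fun h2 x
  have w1 : ∀ x y, p x = p y → p' (Φ x) = p' (Φ y) := by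
    intro x y hxy
    obtain ⟨n, hn⟩ := (hp.fib x y).1 hxy
    rw [hp'.fib]
    exact ⟨n, by rw [hn, key g g' Φ hΦ]⟩
  have w2 : ∀ x y, p' x = p' y → p (Φ⁻¹ x) = p (Φ⁻¹ y) := by
    intro x y hxy
    obtain ⟨n, hn⟩ := (hp'.fib x y).1 hxy
    rw [hp.fib]
    exact ⟨n, by rw [hn, key g' g Φ⁻¹ hΦ']⟩
  set f : M → M' := fun m => p' (Φ (Function.surjInv hp.surj m)) with hf
  set f' : M' → M := fun m => p (Φ⁻¹ (Function.surjInv hp'.surj m)) with hf'
  have e1 : ∀ x, f (p x) = p' (Φ x) := fun x => w1 _ _ (Function.surjInv_eq hp.surj _)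
  have e2 : ∀ x, f' (p' x) = p (Φ⁻¹ x) := fun x => w2 _ _ (Function.surjInv_eq hp'.surj _)
  have c1 : Continuous f := by
    rw [hqp.continuous_iff]
    have h1 : f ∘ p = p' ∘ Φ := funext e1
    rw [h1]
    exact hp'.loc.contMDiff.continuous.comp Φ.continuous
  have c2 : Continuous f' := by
    rw [hqp'.continuous_iff]
    have h1 : f' ∘ p' = p ∘ (Φ⁻¹ : V4 ≃ₜ V4) := funext e2
    rw [h1]
    exact hp.loc.contMDiff.continuous.comp (Φ⁻¹ : V4 ≃ₜ V4).continuous
  refine ⟨⟨⟨f, f', ?_, ?_⟩, c1, c2⟩, e1, ?_⟩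
  · intro m
    obtain ⟨x, rfl⟩ := hp.surj m
    rw [e1, e2]
    congr 1
    exact Φ.symm_apply_apply x
  · intro m
    obtain ⟨x, rfl⟩ := hp'.surj m
    rw [e2, e1]
    congr 1
    exact Φ.apply_symm_apply x
  · intro x hx
    have h2 : IsLocalDiffeomorphAt (𝓡 4) (𝓡 4) ∞ (p' ∘ Φ) x := hx.comp (K := 𝓡 4) (hg := hp'.loc (Φ x))
    obtain ⟨Ψ, hxΨ, hΨ⟩ := h2
    have hl := hp.loc x
    refine ⟨hl.localInverse.trans Ψ, ?_, ?_⟩
    · refine ⟨hl.localInverse_mem_source, ?_⟩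
      have h3 : hl.localInverse (p x) = x :=
        hl.localInverse_left_inv hl.localInverse_mem_target
      change hl.localInverse (p x) ∈ Ψ.source
      rw [h3]
      exact hxΨ
    · rintro y ⟨hy1, hy2⟩
      have h3 : p (hl.localInverse y) = y := hl.localInverse_right_inv hy1
      change f y = Ψ (hl.localInverse y)
      have h4 : (p' ∘ Φ) (hl.localInverse y) = Ψ (hl.localInverse y) := hΨ hy2
      rw [← h4]
      conv_lhs => rw [← h3]
      exact e1 _

end Pool.Agent.HopfCov
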