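import Pool.Agent.HopfCov.Spec

/-!
# Ends of the punctured space

A homeomorphism of `E ∖ 0` (with `dim E > 1`) either extends to a homeomorphism of `E` fixing
the origin, or exchanges the two ends.
-/

set_option autoImplicit false

open scoped ContDiff Topology Manifold
open Set Filter Metric

namespace Pool.Agent.HopfCov

section

variable {E : Type} [NormedAddCommGroup E] [NormedSpace ℝ E]

lemma ends_preconn (hE : 1 < Module.finrank ℝ E) : PreconnectedSpace {x : E // x ≠ 0} := by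
  have h1 : 1 < Module.rank ℝ E := by
    by_contra hcon
    have h2 : Module.rank ℝ E ≤ 1 := not_lt.mp hcon
    have h3 : Module.finrank ℝ E ≤ 1 := by
      have := Cardinal.toNat_le_toNat h2 (by exact Cardinal.one_lt_aleph0)
      simpa [Module.finrank] using this
    omega
  have h4 := isConnected_compl_singleton_of_one_lt_rank h1 (0 : E)
  have h5 : IsPreconnected {x : E | x ≠ 0} := h4.isPreconnected
  exact Subtype.preconnectedSpace h5

lemma ends_inner (hE : 1 < Module.finrank ℝ E) (r : ℝ) (hr : 0 < r) :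
    IsPreconnected {x : {x : E // x ≠ 0} | ‖(x : E)‖ < r} := by
  have := ends_preconn hE
  have key : {x : {x : E // x ≠ 0} | ‖(x : E)‖ < r} =
      range (fun x : {x : E // x ≠ 0} => (⟨(r / (1 + ‖(x : E)‖)) • (x : E), by
        have h1 : (0 : ℝ) < 1 + ‖(x : E)‖ := by positivity
        exact smul_ne_zero (div_pos hr h1).ne' x.2⟩ : {x : E // x ≠ 0})) := by
    ext y
    constructor
    · intro hy
      have hy' : ‖(y : E)‖ < r := hy
      have h1 : 0 < r - ‖(y : E)‖ := by linarith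
      refine ⟨⟨(1 / (r - ‖(y : E)‖)) • (y : E), smul_ne_zero (by positivity) y.2⟩, ?_⟩
      apply Subtype.ext
      have h2 : ‖(1 / (r - ‖(y : E)‖)) • (y : E)‖ = ‖(y : E)‖ / (r - ‖(y : E)‖) := by
        rw [norm_smul, Real.norm_of_nonneg (by positivity)]
        ring
      show (r / (1 + ‖(1 / (r - ‖(y : E)‖)) • (y : E)‖)) • ((1 / (r - ‖(y : E)‖)) • (y : E)) = y
      rw [h2, smul_smul]
      have h3 : r / (1 + ‖(y : E)‖ / (r - ‖(y : E)‖)) * (1 / (r - ‖(y : E)‖)) = 1 := by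
        field_simp
        ring
      rw [h3, one_smul]
    · rintro ⟨x, rfl⟩
      show ‖(r / (1 + ‖(x : E)‖)) • (x : E)‖ < r
      have h1 : (0 : ℝ) < 1 + ‖(x : E)‖ := by positivity
      rw [norm_smul, Real.norm_of_nonneg (by positivity), div_mul_eq_mul_div, div_lt_iff₀ h1]
      nlinarith [norm_nonneg (x : E)]
  rw [key]
  apply isPreconnected_range
  apply Continuous.subtype_mk
  have h2 : Continuous fun x : {x : E // x ≠ 0} => ‖(x : E)‖ := by fun_prop
  refine Continuous.smul (Continuous.div continuous_const (by fun_prop) ?_) (by fun_prop)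
  intro x
  positivity

lemma ends_outer (hE : 1 < Module.finrank ℝ E) (ρ : ℝ) (hρ : 0 ≤ ρ) :
    IsPreconnected {x : {x : E // x ≠ 0} | ρ < ‖(x : E)‖} := by
  have := ends_preconn hE
  have key : {x : {x : E // x ≠ 0} | ρ < ‖(x : E)‖} =
      range (fun x : {x : E // x ≠ 0} => (⟨(1 + ρ / ‖(x : E)‖) • (x : E), by
        have h1 : (0 : ℝ) < 1 + ρ / ‖(x : E)‖ := by positivity
        exact smul_ne_zero h1.ne' x.2⟩ : {x : E // x ≠ 0})) := by
    ext y
    constructor
    · intro hy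
      have hy' : ρ < ‖(y : E)‖ := hy
      have h0 : 0 < ‖(y : E)‖ := norm_pos_iff.mpr y.2
      have h1 : 0 < 1 - ρ / ‖(y : E)‖ := by
        rw [sub_pos, div_lt_one h0]; exact hy'
      refine ⟨⟨(1 - ρ / ‖(y : E)‖) • (y : E), smul_ne_zero h1.ne' y.2⟩, ?_⟩
      apply Subtype.ext
      have h2 : ‖(1 - ρ / ‖(y : E)‖) • (y : E)‖ = ‖(y : E)‖ - ρ := by
        rw [norm_smul, Real.norm_of_nonneg h1.le]
        field_simp
      show (1 + ρ / ‖(1 - ρ / ‖(y : E)‖) • (y : E)‖) • ((1 - ρ / ‖(y : E)‖) • (y : E)) = y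
      rw [h2, smul_smul]
      have h4 : 0 < ‖(y : E)‖ - ρ := by linarith
      have h3 : (1 + ρ / (‖(y : E)‖ - ρ)) * (1 - ρ / ‖(y : E)‖) = 1 := by
        field_simp
        ring
      rw [h3, one_smul]
    · rintro ⟨x, rfl⟩
      show ρ < ‖(1 + ρ / ‖(x : E)‖) • (x : E)‖
      have h0 : 0 < ‖(x : E)‖ := norm_pos_iff.mpr x.2
      rw [norm_smul, Real.norm_of_nonneg (by positivity)]
      have : (1 + ρ / ‖(x : E)‖) * ‖(x : E)‖ = ‖(x : E)‖ + ρ := by
        field_simp
      rw [this]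
      linarith
  rw [key]
  apply isPreconnected_range
  apply Continuous.subtype_mk
  refine Continuous.smul (Continuous.add continuous_const
    (Continuous.div continuous_const (by fun_prop) ?_)) (by fun_prop)
  intro x
  exact (norm_pos_iff.mpr x.2).ne'

lemma ends_compact [FiniteDimensional ℝ E] (ε R : ℝ) (hε : 0 < ε) :
    IsCompact {y : {x : E // x ≠ 0} | ε ≤ ‖(y : E)‖ ∧ ‖(y : E)‖ ≤ R} := by
  have : ProperSpace E := FiniteDimensional.proper ℝ E
  rw [Subtype.isCompact_iff]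
  have key : (Subtype.val '' {y : {x : E // x ≠ 0} | ε ≤ ‖(y : E)‖ ∧ ‖(y : E)‖ ≤ R}) =
      closedBall (0 : E) R ∩ {y : E | ε ≤ ‖y‖} := by
    ext y
    simp only [mem_image, mem_inter_iff, mem_closedBall, dist_zero_right]
    constructor
    · rintro ⟨x, hx, rfl⟩
      exact ⟨hx.2, hx.1⟩
    · rintro ⟨h1, h2⟩
      have h2' : ε ≤ ‖y‖ := h2
      have hy : y ≠ 0 := by
        rintro rfl
        rw [norm_zero] at h2'
        linarith
      exact ⟨⟨y, hy⟩, ⟨h2', h1⟩, rfl⟩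
  rw [key]
  exact (isCompact_closedBall _ _).inter_right (isClosed_le continuous_const continuous_norm)

lemma ends_bound [FiniteDimensional ℝ E] (h : {x : E // x ≠ 0} ≃ₜ {x : E // x ≠ 0})
    (ε R : ℝ) (hε : 0 < ε) :
    ∃ r : ℝ, 0 < r ∧ ∃ ρ : ℝ, 0 ≤ ρ ∧ ∀ x : {x : E // x ≠ 0}, ε ≤ ‖(h x : E)‖ → ‖(h x : E)‖ ≤ R →
      r ≤ ‖(x : E)‖ ∧ ‖(x : E)‖ ≤ ρ := by
  have hK := (ends_compact (E := E) ε R hε).image h.symm.continuous
  have hmem : ∀ x : {x : E // x ≠ 0}, ε ≤ ‖(h x : E)‖ → ‖(h x : E)‖ ≤ R →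
      x ∈ (h.symm '' {y : {x : E // x ≠ 0} | ε ≤ ‖(y : E)‖ ∧ ‖(y : E)‖ ≤ R}) := by
    intro x h1 h2
    exact ⟨h x, ⟨h1, h2⟩, h.symm_apply_apply x⟩
  have hcont : Continuous fun x : {x : E // x ≠ 0} => ‖(x : E)‖ := by fun_prop
  obtain ⟨K, hKdef⟩ : ∃ K, K = (h.symm '' {y : {x : E // x ≠ 0} | ε ≤ ‖(y : E)‖ ∧ ‖(y : E)‖ ≤ R}) :=
    ⟨_, rfl⟩
  rw [← hKdef] at hK hmem
  rcases K.eq_empty_or_nonempty with hemp | hne
  · refine ⟨1, one_pos, 0, le_refl 0, fun x h1 h2 => ?_⟩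
    have := hmem x h1 h2
    rw [hemp] at this
    exact absurd this (notMem_empty x)
  · obtain ⟨a, ha, hamin⟩ := hK.exists_isMinOn hne hcont.continuousOn
    obtain ⟨b, hb, hbmax⟩ := hK.exists_isMaxOn hne hcont.continuousOn
    refine ⟨‖(a : E)‖, norm_pos_iff.mpr a.2, ‖(b : E)‖, norm_nonneg _, fun x h1 h2 => ?_⟩
    exact ⟨hamin (hmem x h1 h2), hbmax (hmem x h1 h2)⟩

/-- a preconnected set whose image avoids the shell is mapped inside or outside -/
lemma ends_alt (h : {x : E // x ≠ 0} ≃ₜ {x : E // x ≠ 0}) (ε R : ℝ) (hεR : ε ≤ R)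
    (S : Set {x : E // x ≠ 0}) (hS : IsPreconnected S)
    (hav : ∀ x ∈ S, ¬ (ε ≤ ‖(h x : E)‖ ∧ ‖(h x : E)‖ ≤ R)) :
    (∀ x ∈ S, ‖(h x : E)‖ < ε) ∨ (∀ x ∈ S, R < ‖(h x : E)‖) := by
  have hcont : Continuous fun x : {x : E // x ≠ 0} => ‖(h x : E)‖ := by
    have := h.continuous
    fun_prop
  have hU : IsOpen {x : {x : E // x ≠ 0} | ‖(h x : E)‖ < ε} := isOpen_lt hcont continuous_const
  have hV : IsOpen {x : {x : E // x ≠ 0} | R < ‖(h x : E)‖} := isOpen_lt continuous_const hcont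
  have hcov : S ⊆ {x : {x : E // x ≠ 0} | ‖(h x : E)‖ < ε} ∪
      {x : {x : E // x ≠ 0} | R < ‖(h x : E)‖} := by
    intro x hx
    have := hav x hx
    by_cases h1 : ‖(h x : E)‖ < ε
    · exact Or.inl h1
    · refine Or.inr ?_
      show R < ‖(h x : E)‖
      by_contra h2
      exact this ⟨not_lt.mp h1, not_lt.mp h2⟩
  by_cases hA : ∃ x ∈ S, ‖(h x : E)‖ < ε
  · by_cases hB : ∃ x ∈ S, R < ‖(h x : E)‖
    · obtain ⟨x, hx, hx'⟩ := hA
      obtain ⟨y, hy, hy'⟩ := hB
      obtain ⟨z, _, hz1, hz2⟩ := hS _ _ hU hV hcov ⟨x, hx, hx'⟩ ⟨y, hy, hy'⟩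
      have hz1' : ‖(h z : E)‖ < ε := hz1
      have hz2' : R < ‖(h z : E)‖ := hz2
      linarith
    · left
      intro x hx
      rcases hcov hx with h1 | h1
      · exact h1
      · exact absurd ⟨x, hx, h1⟩ hB
  · right
    intro x hx
    rcases hcov hx with h1 | h1
    · exact absurd ⟨x, hx, h1⟩ hA
    · exact h1

lemma ends_small (hE : 1 < Module.finrank ℝ E) (r : ℝ) (hr : 0 < r) :
    ∃ x : {x : E // x ≠ 0}, ‖(x : E)‖ < r := by
  have : Nontrivial E := Module.nontrivial_of_finrank_pos (R := ℝ) (by omega)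
  obtain ⟨v, hv⟩ := exists_ne (0 : E)
  have hv0 : 0 < ‖v‖ := norm_pos_iff.mpr hv
  refine ⟨⟨(r / (2 * ‖v‖)) • v, smul_ne_zero (by positivity) hv⟩, ?_⟩
  show ‖(r / (2 * ‖v‖)) • v‖ < r
  rw [norm_smul, Real.norm_of_nonneg (by positivity)]
  have : r / (2 * ‖v‖) * ‖v‖ = r / 2 := by field_simp
  rw [this]
  linarith

/-- the inner end -/
lemma ends_dich [FiniteDimensional ℝ E] (hE : 1 < Module.finrank ℝ E)
    (h : {x : E // x ≠ 0} ≃ₜ {x : E // x ≠ 0}) :
    (∀ ε : ℝ, 0 < ε → ∃ r : ℝ, 0 < r ∧ ∀ x : {x : E // x ≠ 0}, ‖(x : E)‖ < r → ‖(h x : E)‖ < ε) ∨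
    (∀ R : ℝ, ∃ r : ℝ, 0 < r ∧ ∀ x : {x : E // x ≠ 0}, ‖(x : E)‖ < r → R < ‖(h x : E)‖) := by
  by_cases hA : (∀ ε : ℝ, 0 < ε →
      ∃ r : ℝ, 0 < r ∧ ∀ x : {x : E // x ≠ 0}, ‖(x : E)‖ < r → ‖(h x : E)‖ < ε)
  · exact Or.inl hA
  · right
    push Not at hA
    obtain ⟨ε, hε, hA⟩ := hA
    intro R
    obtain ⟨r, hr, ρ, hρ, hb⟩ := ends_bound h ε (max R ε) hε
    have h1 := ends_alt h ε (max R ε) (le_max_right _ _) _ (ends_inner hE r hr) (by
      rintro x hx ⟨h1, h2⟩
      have := (hb x h1 h2).1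
      have hx' : ‖(x : E)‖ < r := hx
      linarith)
    rcases h1 with h1 | h1
    · obtain ⟨x, hx, hx'⟩ := hA r hr
      have := h1 x hx
      linarith
    · exact ⟨r, hr, fun x hx => lt_of_le_of_lt (le_max_left _ _) (h1 x hx)⟩

/-- the outer end -/
lemma ends_dich' [FiniteDimensional ℝ E] (hE : 1 < Module.finrank ℝ E)
    (h : {x : E // x ≠ 0} ≃ₜ {x : E // x ≠ 0}) :
    (∀ ε : ℝ, 0 < ε → ∃ ρ : ℝ, ∀ x : {x : E // x ≠ 0}, ρ < ‖(x : E)‖ → ‖(h x : E)‖ < ε) ∨
    (∀ R : ℝ, ∃ ρ : ℝ, ∀ x : {x : E // x ≠ 0}, ρ < ‖(x : E)‖ → R < ‖(h x : E)‖) := by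
  by_cases hA : (∀ ε : ℝ, 0 < ε →
      ∃ ρ : ℝ, ∀ x : {x : E // x ≠ 0}, ρ < ‖(x : E)‖ → ‖(h x : E)‖ < ε)
  · exact Or.inl hA
  · right
    push Not at hA
    obtain ⟨ε, hε, hA⟩ := hA
    intro R
    obtain ⟨r, hr, ρ, hρ, hb⟩ := ends_bound h ε (max R ε) hε
    have h1 := ends_alt h ε (max R ε) (le_max_right _ _) _ (ends_outer hE ρ hρ) (by
      rintro x hx ⟨h1, h2⟩
      have := (hb x h1 h2).2
      have hx' : ρ < ‖(x : E)‖ := hx
      linarith)
    rcases h1 with h1 | h1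
    · obtain ⟨x, hx, hx'⟩ := hA ρ
      have := h1 x hx
      linarith
    · exact ⟨ρ, fun x hx => lt_of_le_of_lt (le_max_left _ _) (h1 x hx)⟩

open Classical in
/-- extension by zero -/
noncomputable def endsExt (h : {x : E // x ≠ 0} → {x : E // x ≠ 0}) (x : E) : E :=
  if hx : x ≠ 0 then (h ⟨x, hx⟩ : E) else 0

lemma endsExt_zero (h : {x : E // x ≠ 0} → {x : E // x ≠ 0}) : endsExt h 0 = 0 := by
  unfold endsExt
  rw [dif_neg]
  simp

lemma endsExt_val (h : {x : E // x ≠ 0} → {x : E // x ≠ 0}) (x : {x : E // x ≠ 0}) :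
    endsExt h (x : E) = h x := by
  unfold endsExt
  rw [dif_pos x.2]

lemma endsExt_comp (h k : {x : E // x ≠ 0} → {x : E // x ≠ 0}) (hk : ∀ x, k (h x) = x) (x : E) :
    endsExt k (endsExt h x) = x := by
  by_cases hx : x = 0
  · subst hx
    rw [endsExt_zero, endsExt_zero]
  · have h1 := endsExt_val h ⟨x, hx⟩
    have h2 : endsExt h x = (h ⟨x, hx⟩ : E) := h1
    rw [h2, endsExt_val, hk]

lemma endsExt_cont (h : {x : E // x ≠ 0} → {x : E // x ≠ 0}) (hc : Continuous h)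
    (hA : ∀ ε : ℝ, 0 < ε → ∃ r : ℝ, 0 < r ∧
      ∀ x : {x : E // x ≠ 0}, ‖(x : E)‖ < r → ‖(h x : E)‖ < ε) :
    Continuous (endsExt h) := by
  rw [continuous_iff_continuousAt]
  intro x
  by_cases hx : x = 0
  · subst hx
    rw [Metric.continuousAt_iff]
    intro ε hε
    obtain ⟨r, hr, h1⟩ := hA ε hε
    refine ⟨r, hr, fun {y} hy => ?_⟩
    rw [endsExt_zero, dist_zero_right]
    rw [dist_zero_right] at hy
    by_cases hy0 : y = 0
    · subst hy0
      rw [endsExt_zero, norm_zero]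
      exact hε
    · have h2 : endsExt h y = (h ⟨y, hy0⟩ : E) := endsExt_val h ⟨y, hy0⟩
      rw [h2]
      exact h1 ⟨y, hy0⟩ hy
  · have hopen : IsOpen {x : E | x ≠ 0} := isOpen_ne
    have hon : ContinuousOn (endsExt h) {x : E | x ≠ 0} := by
      rw [continuousOn_iff_continuous_domRestrict]
      have h3 : ({x : E | x ≠ 0}.domRestrict (endsExt h)) =
          fun x : {x : E // x ≠ 0} => (h x : E) := by
        funext y
        exact endsExt_val h y
      rw [h3]
      exact continuous_subtype_val.comp hc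
    exact hon.continuousAt (hopen.mem_nhds hx)

end

/-- P2a -/
theorem specEnds : SpecEnds := by
  intro E _ _ _ hE h
  have : ProperSpace E := FiniteDimensional.proper ℝ E
  rcases ends_dich hE h with hA | hB
  · left
    have hA' : ∀ ε : ℝ, 0 < ε → ∃ r : ℝ, 0 < r ∧
        ∀ x : {x : E // x ≠ 0}, ‖(x : E)‖ < r → ‖(h.symm x : E)‖ < ε := by
      rcases ends_dich hE h.symm with hA' | hB'
      · exact hA'
      · exfalso
        obtain ⟨r, hr, h1⟩ := hB' 1
        obtain ⟨r', hr', h2⟩ := hA r hr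
        obtain ⟨x, hx⟩ := ends_small hE (min r' 1) (lt_min hr' one_pos)
        have h3 := h2 x (lt_of_lt_of_le hx (min_le_left _ _))
        have h4 := h1 (h x) h3
        rw [h.symm_apply_apply] at h4
        have h5 := lt_of_lt_of_le hx (min_le_right _ _)
        linarith
    refine ⟨⟨⟨endsExt h, endsExt h.symm, ?_, ?_⟩, ?_, ?_⟩, ?_, ?_⟩
    · intro x
      exact endsExt_comp h h.symm h.symm_apply_apply x
    · intro x
      exact endsExt_comp h.symm h h.apply_symm_apply x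
    · exact endsExt_cont h h.continuous hA
    · exact endsExt_cont h.symm h.symm.continuous hA'
    · exact endsExt_zero h
    · intro x
      exact endsExt_val h x
  · right
    constructor
    · intro R
      rw [Filter.eventually_comap]
      obtain ⟨r, hr, h1⟩ := hB R
      have h2 : ball (0 : E) r ∈ 𝓝 (0 : E) := ball_mem_nhds _ hr
      filter_upwards [h2] with b hb a hab
      subst hab
      rw [mem_ball, dist_zero_right] at hb
      exact (h1 a hb).le
    · intro ε hε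
      rw [Filter.eventually_comap]
      have hD : ∀ ε : ℝ, 0 < ε → ∃ ρ : ℝ,
          ∀ x : {x : E // x ≠ 0}, ρ < ‖(x : E)‖ → ‖(h x : E)‖ < ε := by
        rcases ends_dich' hE h with hD | hC
        · exact hD
        · exfalso
          obtain ⟨r, hr, h1⟩ := hB 1
          obtain ⟨ρ, h2⟩ := hC 1
          obtain ⟨s, hs, _, _, hb⟩ := ends_bound h.symm r ρ hr
          obtain ⟨y, hy⟩ := ends_small hE (min s 1) (lt_min hs one_pos)
          have hy1 := lt_of_lt_of_le hy (min_le_left _ _)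
          have hy2 := lt_of_lt_of_le hy (min_le_right _ _)
          have h3 : r ≤ ‖(h.symm y : E)‖ := by
            by_contra hcon
            have := h1 (h.symm y) (not_le.mp hcon)
            rw [h.apply_symm_apply] at this
            linarith
          have h4 : ‖(h.symm y : E)‖ ≤ ρ := by
            by_contra hcon
            have := h2 (h.symm y) (not_le.mp hcon)
            rw [h.apply_symm_apply] at this
            linarith
          have := (hb y h3 h4).1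
          linarith
      obtain ⟨ρ, h1⟩ := hD ε hε
      have h2 : ∀ᶠ b : E in cocompact E, ρ < ‖b‖ :=
        (tendsto_norm_cocompact_atTop (E := E)).eventually_gt_atTop ρ
      filter_upwards [h2] with b hb a hab
      subst hab
      exact (h1 a hb).le

end Pool.Agent.HopfCov
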