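import Pool.Agent.HopfCov.Rigid
import Pool.Agent.HopfCov.Deck
import Pool.Agent.HopfCov.DeckTw

/-!
# The final theorems (up to the packages of the fourth round)
-/

set_option autoImplicit false
set_option linter.unusedSectionVars false

open scoped ContDiff Topology Manifold
open Set Filter Metric

namespace Pool.Agent.HopfCov

/-- `M` is diffeomorphic to `S¹ × S³` -/
def Std (M : Type) [TopologicalSpace M] [ChartedSpace E4 M] : Prop :=
  Nonempty (Diffeomorph (𝓡 4) ((𝓡 1).prod (𝓡 3)) M (Circle × sphere (0 : E4) 1) ∞)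

/-- `q : N → M` is a smooth covering with `m` sheets -/
structure SmoothCover {N M : Type} [TopologicalSpace N] [ChartedSpace E4 N] [TopologicalSpace M]
    [ChartedSpace E4 M] (m : ℕ) (q : N → M) : Prop where
  cov : IsCoveringMap q
  loc : IsLocalDiffeomorph (𝓡 4) (𝓡 4) ∞ q
  sheets : ∀ y, (q ⁻¹' {y}).ncard = m

/-- the map `p` induces an orientation of `M` -/
def Oriented {M : Type} [TopologicalSpace M] [ChartedSpace E4 M] (p : V4 → M) : Prop :=
  ∀ x x' : V4, p x = p x' →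
    0 < (mfderiv (𝓡 4) (𝓡 4) p x : E4 →L[ℝ] E4).det *
      (mfderiv (𝓡 4) (𝓡 4) p x' : E4 →L[ℝ] E4).det

instance : ConnectedSpace V4 := by
  have := simplyConnectedV4
  infer_instance

section

variable {M : Type} [TopologicalSpace M] [ChartedSpace E4 M] [IsManifold (𝓡 4) ∞ M]

theorem OrbitMap.connected {g : V4 ≃ₜ V4} {p : V4 → M} (hp : OrbitMap g p) : ConnectedSpace M :=
  hp.surj.connectedSpace hp.loc.contMDiff.continuous

/-- a generator of an orientable orbit space preserves the orientation -/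
theorem PD_of_oriented (hT1 : SpecMfderiv) (hT2 : SpecSign) {g : V4 ≃ₜ V4} {G : E4 ≃ₜ E4}
    {p : V4 → M} (hp : OrbitMap g p) (hG : Extends G g) (ho : Oriented p) : PD 1 G := by
  obtain ⟨x⟩ : Nonempty V4 := inferInstance
  have h0 : ∀ y, p (g y) = p y := fun y => ((hp.fib y (g y)).2 ⟨1, by rw [zpow_one]⟩).symm
  refine LD_of_ext0 (sign_of_pos hT1 hT2 (orbitLoc g M p hp) (A := p) (B := p) (y := x)
    ((hp.loc (g x)).contMDiffAt.mdifferentiableAt (by simp)) h0 ?_) hG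
  exact ho x (g x) (h0 x).symm

theorem Ext.neg_zpow {G : E4 ≃ₜ E4} {a b : ℤ} (h : Ext (G ^ (a - b))) : Ext (G ^ (b - a)) := by
  have h1 : a - b ∈ extExp G := h
  have h2 := (extExp G).neg_mem h1
  rw [neg_sub] at h2
  exact h2

theorem PD_of_even {s : ℝ} (hs : s * s = 1) {G : E4 ≃ₜ E4} (h : PD s G) {n : ℕ} (hn : Even n) :
    PD 1 (G ^ n) := by
  have h1 := h.zpow' hs n
  obtain ⟨k, rfl⟩ := hn
  have h2 : s ^ ((k + k : ℕ) : ℤ) = 1 := by
    rw [zpow_natCast, ← two_mul, pow_mul, pow_two, hs, one_pow]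
  rw [h2, zpow_natCast] at h1
  exact h1

/-- **Rigidity of self-coverings.** -/
theorem rigid (hT1 : SpecMfderiv) (hT2 : SpecSign) (hT3 : SpecLiftSwap) (hT5 : SpecSwapMul)
    (hT6 : SpecSwapContr) [T2Space M] [CompactSpace M] {g₀ : V4 ≃ₜ V4} {p : V4 → M}
    (hp₀ : OrbitMap g₀ p) :
    Std M ∨ ∃ d : ℕ, 2 ≤ d ∧ ∀ (a : ℕ) (q : M → M), 2 ≤ a → SmoothCover a q →
      d ∣ a ^ 2 - 1 ∧ (OrPres p p q → d ∣ a - 1) := by
  have := hp₀.connected
  obtain ⟨g, G, hp, hG, hPD, hc⟩ := exists_gen hp₀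
  by_cases hex : ∃ (c : ℕ) (q : M → M), 2 ≤ c ∧ SmoothCover c q
  swap
  · right
    refine ⟨2, le_rfl, fun a q ha hq => absurd ⟨a, q, ha, hq⟩ hex⟩
  -- the squares of the lifts of the self-coverings
  have sq : ∀ (q : M → M) (c : ℕ), 2 ≤ c → SmoothCover c q →
      ∃ H : E4 ≃ₜ E4, PD 1 H ∧ H * G ^ (c * c) * H⁻¹ = G := by
    intro q c hc2 hq
    obtain ⟨Ψ, f1, -, f3⟩ := selfcover_data hp hq.cov hq.loc (by omega) hq.sheets
    obtain ⟨H, f4, f5⟩ := pair_square hT2 hT5 hG (a := c) (b := 1) f1 (by rwa [pow_one])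
    exact ⟨H, f4, by simpa using f5⟩
  by_cases hPD1 : PD 1 G
  swap
  · -- the orientation reversing case: all the degrees are odd
    right
    refine ⟨2, le_rfl, fun a q ha hq => ?_⟩
    have hPD' : PD (-1) G := hPD.resolve_left hPD1
    have hodd : Odd a := by
      rw [← Nat.not_even_iff_odd]
      intro hev
      obtain ⟨H, f1, f2⟩ := sq q a ha hq
      have f3 : PD 1 (G ^ (a * a)) := PD_of_even (by norm_num) hPD' (hev.mul_right a)
      apply hPD1
      rw [← f2]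
      exact (f1.mul_one' f3).mul_one' f1.inv
    obtain ⟨k, rfl⟩ := hodd
    refine ⟨⟨2 * k * k + 2 * k, ?_⟩, fun _ => ⟨k, by omega⟩⟩
    have : (2 * k + 1) ^ 2 = 2 * (2 * k * k + 2 * k) + 1 := by ring
    omega
  -- the classes
  have hcl : ∀ (q : M → M) (c : ℕ), 2 ≤ c → SmoothCover c q →
      ((c ^ 2 - 1 : ℕ) : ℤ) ∈ extExp G ∧ (OrPres p p q → ((c - 1 : ℕ) : ℤ) ∈ extExp G) := by
    intro q c hc2 hq
    refine ⟨?_, fun ho => ?_⟩
    · obtain ⟨H, f1, f2⟩ := sq q c hc2 hq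
      have f3 : H * G ^ (c * c) * H⁻¹ = G ^ 1 := by rw [f2, pow_one]
      have f4 := Ext.neg_zpow (ext_of_conj_nat hPD1 f1 f3)
      have f5 : ((c * c : ℕ) : ℤ) - ((1 : ℕ) : ℤ) = ((c ^ 2 - 1 : ℕ) : ℤ) := by
        have : 1 ≤ c ^ 2 := Nat.one_le_pow _ _ (by omega)
        push_cast [Nat.cast_sub this]
        ring
      rw [f5] at f4
      exact f4
    · obtain ⟨Ψ, f1, f2, f3⟩ := selfcover_data hp hq.cov hq.loc (by omega) hq.sheets
      obtain ⟨x⟩ : Nonempty V4 := inferInstance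
      have hmd : ∀ z, MDifferentiableAt (𝓡 4) (𝓡 4) (fun y => q (p y)) z := fun z =>
        (((hp.loc z).comp (K := 𝓡 4) (hg := hq.loc (p z))).contMDiffAt).mdifferentiableAt
          (by simp)
      have f4 : ∀ x : E4, x ≠ 0 → LD 1 (ext0 Ψ) x := by
        refine sign_of_pos hT1 hT2 f1 (A := fun y => q (p y)) (B := p) (y := x) (hmd _) f2 ?_
        rw [mul_comm]
        exact ho (Ψ x) x (f2 x)
      have f5 : Ext (G * (G ^ c)⁻¹) := pair_oriented hT3 hT6 (hG.pow c) hG (hPD1.pow c) hPD1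
        (hc.pow (by omega)) hc f1 f4 f3
      have f6 : G * (G ^ c)⁻¹ = G ^ ((1 : ℤ) - c) := by
        rw [zpow_sub, zpow_one, zpow_natCast]
      rw [f6] at f5
      have f7 := Ext.neg_zpow f5
      have f8 : (c : ℤ) - 1 = ((c - 1 : ℕ) : ℤ) := by
        push_cast [Nat.cast_sub (show 1 ≤ c by omega)]
        ring
      rw [f8] at f7
      exact f7
  obtain ⟨d₀, hd₀⟩ := Int.subgroup_cyclic (extExp G)
  have hmem : ∀ k : ℤ, k ∈ extExp G ↔ ((d₀.natAbs : ℕ) : ℤ) ∣ k := by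
    intro k
    rw [hd₀, ← AddSubgroup.zmultiples_eq_closure, Int.mem_zmultiples_iff, Int.natAbs_dvd]
  obtain ⟨c, q, hc2, hq⟩ := hex
  by_cases hd1 : d₀.natAbs = 1
  · left
    have hE : Ext G := by
      have c3 : (1 : ℤ) ∈ extExp G := by
        rw [hmem, hd1]
        simp
      rw [mem_extExp, zpow_one] at c3
      exact c3
    obtain ⟨H, f1, f2⟩ := sq q c hc2 hq
    obtain ⟨Φ, t, ht, f3, f4⟩ := core_self hdim4 (one_mul 1) hPD1 hc f1
      (show 2 ≤ c * c by nlinarith) f2 hE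
    exact std_of_conj hp hG ht f3 f4
  · right
    refine ⟨d₀.natAbs, ?_, fun a q ha hq => ?_⟩
    · have h0 : d₀.natAbs ≠ 0 := by
        intro h0
        have h1 := (hcl q c hc2 hq).1
        rw [hmem, h0] at h1
        have h2 : c ^ 2 - 1 = 0 := by simpa using h1
        have h3 : 4 ≤ c ^ 2 := by nlinarith
        omega
      omega
    · obtain ⟨h1, h2⟩ := hcl q a ha hq
      rw [hmem] at h1
      refine ⟨by exact_mod_cast h1, fun ho => ?_⟩
      have h3 := h2 ho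
      rw [hmem] at h3
      exact_mod_cast h3

end

end Pool.Agent.HopfCov
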