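import Pool.Agent.HopfCov.Final

/-!
# The structure of the finite coverings
-/

set_option autoImplicit false
set_option linter.unusedSectionVars false

open scoped ContDiff Topology Manifold
open Set Filter Metric

namespace Pool.Agent.HopfCov

/-! ### auxiliary facts on differentials -/

theorem det_chain_gen {X Y Z : Type} [TopologicalSpace X] [ChartedSpace E4 X]
    [TopologicalSpace Y] [ChartedSpace E4 Y] [TopologicalSpace Z] [ChartedSpace E4 Z]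
    {A : Y → X} {B : Z → X} {Ψ : Z → Y} {y : Z} (hA : MDifferentiableAt (𝓡 4) (𝓡 4) A (Ψ y))
    (hΨ : MDifferentiableAt (𝓡 4) (𝓡 4) Ψ y) (h : ∀ x, A (Ψ x) = B x) :
    (mfderiv (𝓡 4) (𝓡 4) B y : E4 →L[ℝ] E4).det =
      (mfderiv (𝓡 4) (𝓡 4) A (Ψ y) : E4 →L[ℝ] E4).det *
        (mfderiv (𝓡 4) (𝓡 4) Ψ y : E4 →L[ℝ] E4).det := by
  obtain rfl : A ∘ Ψ = B := funext h
  rw [mfderiv_comp y hA hΨ]
  exact det_comp_clm (E := E4) _ _

theorem det_ne_zero_of_loc {X Y : Type} [TopologicalSpace X] [ChartedSpace E4 X]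
    [IsManifold (𝓡 4) ∞ X] [TopologicalSpace Y] [ChartedSpace E4 Y] [IsManifold (𝓡 4) ∞ Y]
    {f : X → Y} {x : X} (hf : IsLocalDiffeomorphAt (𝓡 4) (𝓡 4) ∞ f x) :
    (mfderiv (𝓡 4) (𝓡 4) f x : E4 →L[ℝ] E4).det ≠ 0 := by
  have h1 := hf.mfderivToContinuousLinearEquiv_coe (by simp)
  have h2 : ∀ e : E4 ≃L[ℝ] E4, (e : E4 →L[ℝ] E4).det ≠ 0 := fun e =>
    (LinearEquiv.isUnit_det' e.toLinearEquiv).ne_zero
  rw [← h1]
  exact h2 _

/-- a homeomorphism which is a local diffeomorphism is a diffeomorphism -/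
noncomputable def diffeoOfHomeo {X Y : Type} [TopologicalSpace X] [ChartedSpace E4 X]
    [TopologicalSpace Y] [ChartedSpace E4 Y] (F : X ≃ₜ Y)
    (hF : IsLocalDiffeomorph (𝓡 4) (𝓡 4) ∞ F) : Diffeomorph (𝓡 4) (𝓡 4) X Y ∞ where
  toEquiv := F.toEquiv
  contMDiff_toFun := hF.contMDiff
  contMDiff_invFun := by
    intro y
    obtain ⟨x, rfl⟩ := F.surjective y
    have h := hF x
    have h1 := h.localInverse_contMDiffAt
    refine h1.congr_of_eventuallyEq ?_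
    filter_upwards [h.localInverse_open_source.mem_nhds h.localInverse_mem_source] with y hy
    have h2 := h.localInverse_right_inv hy
    show F.symm y = _
    rw [Homeomorph.symm_apply_eq]
    exact h2.symm

/-- `F : N → N'` preserves the orientations of the coverings `q : N → M` and `q' : N' → M`
which are pulled back from the orientation of `M` induced by `p` -/
def OrPresOver {M N N' : Type} [TopologicalSpace M] [ChartedSpace E4 M]
    [TopologicalSpace N] [ChartedSpace E4 N] [TopologicalSpace N'] [ChartedSpace E4 N']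
    (p : V4 → M) (q : N → M) (q' : N' → M) (F : N → N') : Prop :=
  ∀ (n : N) (x x' : V4), p x = q n → p x' = q' (F n) →
    0 < ((mfderiv (𝓡 4) (𝓡 4) p x : E4 →L[ℝ] E4).det *
        (mfderiv (𝓡 4) (𝓡 4) q n : E4 →L[ℝ] E4).det) *
      ((mfderiv (𝓡 4) (𝓡 4) p x' : E4 →L[ℝ] E4).det *
        (mfderiv (𝓡 4) (𝓡 4) (fun y => q' (F y)) n : E4 →L[ℝ] E4).det)

theorem real_sign {A B C D E F : ℝ} (h1 : A = B * E) (h2 : D * E = C * F)
    (h : 0 < A * B * (C * D)) : 0 < F := by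
  have hA : A ≠ 0 := by rintro rfl; simp at h
  have hC : C ≠ 0 := by rintro rfl; simp at h
  have hE : E ≠ 0 := by
    rintro rfl
    rw [mul_zero] at h1
    exact hA h1
  have h3 : (A * B * (C * D)) * (E * E) = (A * A) * (C * C) * F := by
    calc (A * B * (C * D)) * (E * E) = A * (B * E) * (C * (D * E)) := by ring
      _ = _ := by rw [← h1, h2]; ring
  have h4 : 0 < (A * A) * (C * C) * F := by
    rw [← h3]
    exact mul_pos h (mul_self_pos.2 hE)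
  exact pos_of_mul_pos_of_pos_left' (mul_pos (mul_self_pos.2 hA) (mul_self_pos.2 hC)) h4
where
  pos_of_mul_pos_of_pos_left' {a b : ℝ} (ha : 0 < a) (h : 0 < a * b) : 0 < b :=
    (mul_pos_iff_of_pos_left ha).1 h

theorem real_sign' {A B C D E F X X' : ℝ} (h1 : A = B * E) (h2 : D * E = C * F) (hA : A ≠ 0)
    (hC : C ≠ 0) (hF : 0 < F) (hX : 0 < X * A) (hX' : 0 < X' * C) :
    0 < X * B * (X' * D) := by
  have hE : E ≠ 0 := by
    rintro rfl
    rw [mul_zero] at h1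
    exact hA h1
  have h3 : (E * E) * (X * B * (X' * D)) = (X * A) * (X' * C) * F := by
    calc (E * E) * (X * B * (X' * D)) = X * (B * E) * (X' * (D * E)) := by ring
      _ = _ := by rw [← h1, h2]; ring
  have h4 : 0 < (E * E) * (X * B * (X' * D)) := by
    rw [h3]
    exact mul_pos (mul_pos hX hX') hF
  exact (mul_pos_iff_of_pos_left (mul_self_pos.2 hE)).1 h4

section

variable {M : Type} [TopologicalSpace M] [ChartedSpace E4 M] [IsManifold (𝓡 4) ∞ M]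
variable {N : Type} [TopologicalSpace N] [ChartedSpace E4 N] [IsManifold (𝓡 4) ∞ N]
variable {N' : Type} [TopologicalSpace N'] [ChartedSpace E4 N'] [IsManifold (𝓡 4) ∞ N']

theorem mdiff_of_loc {X Y : Type} [TopologicalSpace X] [ChartedSpace E4 X]
    [TopologicalSpace Y] [ChartedSpace E4 Y] {f : X → Y}
    (hf : IsLocalDiffeomorph (𝓡 4) (𝓡 4) ∞ f) (x : X) : MDifferentiableAt (𝓡 4) (𝓡 4) f x :=
  (hf x).contMDiffAt.mdifferentiableAt (by simp)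

theorem comp_loc {X Y Z : Type} [TopologicalSpace X] [ChartedSpace E4 X]
    [TopologicalSpace Y] [ChartedSpace E4 Y] [TopologicalSpace Z] [ChartedSpace E4 Z]
    {g : Y → Z} {f : X → Y} (hg : IsLocalDiffeomorph (𝓡 4) (𝓡 4) ∞ g)
    (hf : IsLocalDiffeomorph (𝓡 4) (𝓡 4) ∞ f) :
    IsLocalDiffeomorph (𝓡 4) (𝓡 4) ∞ (fun x => g (f x)) :=
  fun x => (hf x).comp (K := 𝓡 4) (hg := hg (f x))

/-- the two determinant identities for lifts -/
theorem det_identities {p : V4 → M} {q : N → M} {q' : N' → M}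
    (hq : IsLocalDiffeomorph (𝓡 4) (𝓡 4) ∞ q) (hq' : IsLocalDiffeomorph (𝓡 4) (𝓡 4) ∞ q')
    (hp : IsLocalDiffeomorph (𝓡 4) (𝓡 4) ∞ p)
    {pa : V4 → N} {pb : V4 → N'} (hpa : IsLocalDiffeomorph (𝓡 4) (𝓡 4) ∞ pa)
    (ha : ∀ x, q (pa x) = p x) (hb : ∀ x, q' (pb x) = p x) {F : N → N'}
    (hF : IsLocalDiffeomorph (𝓡 4) (𝓡 4) ∞ F) {Ψ : V4 → V4}
    (hΨ : IsLocalDiffeomorph (𝓡 4) (𝓡 4) ∞ Ψ) (h : ∀ x, pb (Ψ x) = F (pa x)) (y : V4) :
    (mfderiv (𝓡 4) (𝓡 4) p y : E4 →L[ℝ] E4).det =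
      (mfderiv (𝓡 4) (𝓡 4) q (pa y) : E4 →L[ℝ] E4).det *
        (mfderiv (𝓡 4) (𝓡 4) pa y : E4 →L[ℝ] E4).det ∧
    (mfderiv (𝓡 4) (𝓡 4) (fun y => q' (F y)) (pa y) : E4 →L[ℝ] E4).det *
        (mfderiv (𝓡 4) (𝓡 4) pa y : E4 →L[ℝ] E4).det =
      (mfderiv (𝓡 4) (𝓡 4) p (Ψ y) : E4 →L[ℝ] E4).det *
        (mfderiv (𝓡 4) (𝓡 4) Ψ y : E4 →L[ℝ] E4).det := by
  refine ⟨det_chain_gen (mdiff_of_loc hq _) (mdiff_of_loc hpa _) ha, ?_⟩
  have e1 := det_chain_gen (A := fun y => q' (F y)) (B := fun y => p (Ψ y)) (Ψ := pa) (y := y)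
    (mdiff_of_loc (comp_loc hq' hF) _) (mdiff_of_loc hpa _) (fun x => by rw [← h, hb])
  have e2 := det_chain_gen (A := p) (B := fun y => p (Ψ y)) (Ψ := Ψ) (y := y)
    (mdiff_of_loc hp _) (mdiff_of_loc hΨ _) (fun x => rfl)
  rw [← e1, e2]

/-- an orientation preserving diffeomorphism lifts to one -/
theorem lift_oriented (hT1 : SpecMfderiv) (hT2 : SpecSign) {p : V4 → M} {q : N → M} {q' : N' → M}
    (hq : IsLocalDiffeomorph (𝓡 4) (𝓡 4) ∞ q) (hq' : IsLocalDiffeomorph (𝓡 4) (𝓡 4) ∞ q')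
    (hp : IsLocalDiffeomorph (𝓡 4) (𝓡 4) ∞ p)
    {pa : V4 → N} {pb : V4 → N'} (hpa : IsLocalDiffeomorph (𝓡 4) (𝓡 4) ∞ pa)
    (ha : ∀ x, q (pa x) = p x) (hb : ∀ x, q' (pb x) = p x) {F : N → N'}
    (hF : IsLocalDiffeomorph (𝓡 4) (𝓡 4) ∞ F) {Ψ : V4 ≃ₜ V4}
    (hΨ : IsLocalDiffeomorph (𝓡 4) (𝓡 4) ∞ Ψ) (h : ∀ x, pb (Ψ x) = F (pa x))
    (ho : OrPresOver p q q' F) : ∀ x : E4, x ≠ 0 → LD 1 (ext0 Ψ) x := by
  obtain ⟨y⟩ : Nonempty V4 := inferInstance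
  obtain ⟨e1, e2⟩ := det_identities hq hq' hp hpa ha hb hF hΨ h y
  have e3 := real_sign e1 e2 (ho (pa y) y (Ψ y) (ha y).symm (by rw [← h, hb]))
  rcases hT2 Ψ hΨ with h1 | h1
  · exact h1
  · exfalso
    have h2 := (h1 (y : E4) y.2).2
    rw [← hT1 Ψ y (hΨ y).contMDiffAt] at h2
    have h3 : 0 < -1 * (mfderiv (𝓡 4) (𝓡 4) Ψ y : E4 →L[ℝ] E4).det := h2
    linarith

/-- conversely, the map induced by an orientation preserving map preserves the orientation -/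
theorem orPres_of_lift (hT1 : SpecMfderiv) {p : V4 → M} {q : N → M} {q' : N' → M}
    (hq : IsLocalDiffeomorph (𝓡 4) (𝓡 4) ∞ q) (hq' : IsLocalDiffeomorph (𝓡 4) (𝓡 4) ∞ q')
    (hp : IsLocalDiffeomorph (𝓡 4) (𝓡 4) ∞ p) (hor : Oriented p)
    {pa : V4 → N} {pb : V4 → N'} (hpa : IsLocalDiffeomorph (𝓡 4) (𝓡 4) ∞ pa)
    (hs : Function.Surjective pa)
    (ha : ∀ x, q (pa x) = p x) (hb : ∀ x, q' (pb x) = p x) {F : N → N'}
    (hF : IsLocalDiffeomorph (𝓡 4) (𝓡 4) ∞ F) {Ψ : V4 ≃ₜ V4}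
    (hΨ : IsLocalDiffeomorph (𝓡 4) (𝓡 4) ∞ Ψ) (h : ∀ x, pb (Ψ x) = F (pa x))
    (hL : ∀ x : E4, x ≠ 0 → LD 1 (ext0 Ψ) x) : OrPresOver p q q' F := by
  intro n x x' hx hx'
  obtain ⟨y, rfl⟩ := hs n
  obtain ⟨e1, e2⟩ := det_identities hq hq' hp hpa ha hb hF hΨ h y
  have h2 := (hL (y : E4) y.2).2
  rw [← hT1 Ψ y (hΨ y).contMDiffAt, one_mul] at h2
  refine real_sign' e1 e2 (det_ne_zero_of_loc (hp y)) (det_ne_zero_of_loc (hp (Ψ y))) h2 ?_ ?_
  · exact hor x y (by rw [hx, ha])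
  · exact hor x' (Ψ y) (by rw [hx', ← h, hb])

theorem cover_data [T2Space M] [CompactSpace M] {g : V4 ≃ₜ V4} {p : V4 → M} (hp : OrbitMap g p)
    [ConnectedSpace N] {q : N → M} {m : ℕ} (hm : 0 < m) (hq : SmoothCover m q) :
    ∃ p' : V4 → N, OrbitMap (g ^ m) p' ∧ ∀ x, q (p' x) = p x :=
  specCover g M p hp N q hq.cov hq.loc m hm hq.sheets

theorem Ext_zpow_sub {G : E4 ≃ₜ E4} {a b : ℕ} :
    Ext (G ^ b * (G ^ a)⁻¹) ↔ Ext (G ^ ((b : ℤ) - a)) := by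
  rw [zpow_sub, zpow_natCast, zpow_natCast]

/-- **Structure of the finite coverings.** -/
theorem covers (hT1 : SpecMfderiv) (hT2 : SpecSign) (hT3 : SpecLiftSwap) (hT5 : SpecSwapMul)
    (hT6 : SpecSwapContr) (hT7 : SpecInversion) (hT8 : SpecModelOrbit)
    [T2Space M] [CompactSpace M] {g₀ : V4 ≃ₜ V4} {p : V4 → M}
    (hp₀ : OrbitMap g₀ p) (hor : Oriented p) :
    ∃ d m₀ : ℕ,
      (∀ (m : ℕ), 0 < m → ∀ (N : Type) [TopologicalSpace N] [ChartedSpace E4 N]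
        [IsManifold (𝓡 4) ∞ N] [T2Space N] [CompactSpace N] [ConnectedSpace N] (q : N → M),
        SmoothCover m q → (Std N → d ∣ m) ∧ (m₀ ≤ m → d ∣ m → Std N)) ∧
      ∀ (a b : ℕ), 0 < a → 0 < b → ∀ (N : Type) [TopologicalSpace N] [ChartedSpace E4 N]
        [IsManifold (𝓡 4) ∞ N] [T2Space N] [CompactSpace N] [ConnectedSpace N] (q : N → M)
        (N' : Type) [TopologicalSpace N'] [ChartedSpace E4 N']
        [IsManifold (𝓡 4) ∞ N'] [T2Space N'] [CompactSpace N'] [ConnectedSpace N'] (q' : N' → M),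
        SmoothCover a q → SmoothCover b q' →
        (∀ F : Diffeomorph (𝓡 4) (𝓡 4) N N' ∞, (d : ℤ) ∣ (a : ℤ) ^ 2 - (b : ℤ) ^ 2) ∧
        (∀ F : Diffeomorph (𝓡 4) (𝓡 4) N N' ∞, OrPresOver p q q' F → (d : ℤ) ∣ (a : ℤ) - b) ∧
        (m₀ ≤ a → m₀ ≤ b → (d : ℤ) ∣ (a : ℤ) - b →
          ∃ F : Diffeomorph (𝓡 4) (𝓡 4) N N' ∞, OrPresOver p q q' F) := by
  have := hp₀.connected
  obtain ⟨g, G, hp, hG, -, hc⟩ := exists_gen hp₀
  have hPD : PD 1 G := PD_of_oriented hT1 hT2 hp hG hor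
  obtain ⟨d₀, hd₀⟩ := Int.subgroup_cyclic (extExp G)
  obtain ⟨m₀, hm₀⟩ := hc.trap
  have hmem : ∀ k : ℤ, Ext (G ^ k) ↔ ((d₀.natAbs : ℕ) : ℤ) ∣ k := by
    intro k
    rw [← mem_extExp, hd₀, ← AddSubgroup.zmultiples_eq_closure, Int.mem_zmultiples_iff,
      Int.natAbs_dvd]
  refine ⟨d₀.natAbs, m₀, ?_, ?_⟩
  · intro m hm N _ _ _ _ _ _ q hq
    obtain ⟨p', h1, h2⟩ := cover_data hp hm hq
    refine ⟨fun hN => ?_, fun hmm hdm => ?_⟩
    · have h3 := ext_of_std hT5 hT6 hT7 hT8 h1 (hG.pow m) (hc.pow hm) hN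
      rw [← zpow_natCast, hmem] at h3
      exact_mod_cast h3
    · refine std_of_ext h1 (hG.pow m) (hPD.pow m) (hc.pow hm) (hm₀ m hmm) ?_
      rw [← zpow_natCast, hmem]
      exact_mod_cast hdm
  · intro a b ha hb N _ _ _ _ _ _ q N' _ _ _ _ _ _ q' hq hq'
    obtain ⟨pa, h1, h2⟩ := cover_data hp ha hq
    obtain ⟨pb, h3, h4⟩ := cover_data hp hb hq'
    refine ⟨fun F => ?_, fun F hF => ?_, fun haa hbb hdvd => ?_⟩
    · obtain ⟨Ψ, f1, f2, f3⟩ := hLift _ _ N N' pa pb h1 h3 F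
      obtain ⟨H, f4, f5⟩ := pair_square hT2 hT5 hG f1 f3
      have f6 := ext_of_conj_nat hPD f4 f5
      rw [hmem] at f6
      have f7 : (a : ℤ) ^ 2 - (b : ℤ) ^ 2 = -(((b * b : ℕ) : ℤ) - ((a * a : ℕ) : ℤ)) := by
        push_cast
        ring
      rw [f7]
      exact f6.neg_right
    · obtain ⟨Ψ, f1, f2, f3⟩ := hLift _ _ N N' pa pb h1 h3 F
      have f4 := lift_oriented hT1 hT2 hq.loc hq'.loc hp.loc h1.loc h2 h4
        F.isLocalDiffeomorph f1 f2 hF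
      have f5 := pair_oriented hT3 hT6 (hG.pow a) (hG.pow b) (hPD.pow a) (hPD.pow b)
        (hc.pow ha) (hc.pow hb) f1 f4 f3
      rw [Ext_zpow_sub, hmem] at f5
      have f7 : (a : ℤ) - b = -((b : ℤ) - a) := by ring
      rw [f7]
      exact f5.neg_right
    · have e1 : Ext (G ^ b * (G ^ a)⁻¹) := by
        rw [Ext_zpow_sub, hmem]
        have f7 : (b : ℤ) - a = -((a : ℤ) - b) := by ring
        rw [f7]
        exact hdvd.neg_right
      obtain ⟨Φ, f1, f2⟩ := core_conj hGerm hSwap hRad hdim4 (one_mul 1) (hPD.pow a) (hPD.pow b)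
        (hm₀ a haa) (hm₀ b hbb) (hc.pow ha) (hc.pow hb) e1
      obtain ⟨φ, f3, f4⟩ := exists_restr_PD f1
      have f5 : φ * g ^ a = g ^ b * φ := by
        have d1 : Extends (Φ * G ^ a) (φ * g ^ a) := f3.mul (hG.pow a)
        have d2 : Extends (G ^ b * Φ) (g ^ b * φ) := (hG.pow b).mul f3
        rw [f2] at d1
        exact d1.eq_of d2
      obtain ⟨F, f6, f7⟩ := descend (g ^ a) (g ^ b) N N' pa pb h1 h3 φ f5
      have f8 : IsLocalDiffeomorph (𝓡 4) (𝓡 4) ∞ F := by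
        intro n
        obtain ⟨x, rfl⟩ := h1.surj n
        exact f7 x (f4 x)
      refine ⟨diffeoOfHomeo F f8, ?_⟩
      have f9 : ∀ x : E4, x ≠ 0 → LD 1 (ext0 φ) x := by
        intro x hx
        refine (f1.2 x hx).congr ?_
        filter_upwards [isOpen_ne.mem_nhds hx] with y hy
        have hy' : y ≠ 0 := hy
        show Φ y = ext0 φ y
        rw [ext0, dif_pos hy']
        exact f3 ⟨y, hy'⟩
      exact orPres_of_lift hT1 hq.loc hq'.loc hp.loc hor h1.loc h1.surj h2 h4 (F := F) f8 f4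
        (fun x => (f6 x).symm) f9

end

end Pool.Agent.HopfCov
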