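import Pool.Agent.HopfCov.Spec

/-!
# Germs of orientation preserving diffeomorphisms extend to diffeomorphisms with small support
-/

set_option autoImplicit false

open scoped ContDiff Topology NNReal
open Set Filter Metric

namespace Pool.Agent.HopfCov

section Normed

variable {E : Type*} [NormedAddCommGroup E] [NormedSpace ℝ E] [FiniteDimensional ℝ E]

/-- a perturbation of the identity of norm `< 1` has positive determinant -/
private theorem det_one_add_pos {A : E →L[ℝ] E} (hA : ‖A‖ < 1) :
    0 < (ContinuousLinearMap.id ℝ E + A).det := by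
  have hne : ∀ t : ℝ, t ∈ Icc (0 : ℝ) 1 → (ContinuousLinearMap.id ℝ E + t • A).det ≠ 0 := by
    intro t ht h0
    have h1 : LinearMap.det ((ContinuousLinearMap.id ℝ E + t • A : E →L[ℝ] E) : E →ₗ[ℝ] E) = 0 := h0
    have h2 : ¬ Function.Injective
        ((ContinuousLinearMap.id ℝ E + t • A : E →L[ℝ] E) : E →ₗ[ℝ] E) := by
      intro hinj
      have h3 : IsUnit (LinearMap.det
          ((ContinuousLinearMap.id ℝ E + t • A : E →L[ℝ] E) : E →ₗ[ℝ] E)) := by
        have := LinearMap.isUnit_iff_ker_eq_bot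
          ((ContinuousLinearMap.id ℝ E + t • A : E →L[ℝ] E) : E →ₗ[ℝ] E)
        exact (LinearMap.isUnit_det _ (this.2 (LinearMap.ker_eq_bot.2 hinj)))
      rw [h1] at h3
      exact not_isUnit_zero h3
    apply h2
    rw [injective_iff_map_eq_zero]
    intro x hx
    have h4 : x + t • A x = 0 := hx
    by_contra hx0
    have h5 : ‖x‖ = ‖t • A x‖ := by
      have : x = -(t • A x) := eq_neg_of_add_eq_zero_left h4
      calc ‖x‖ = ‖-(t • A x)‖ := by rw [← this]
        _ = ‖t • A x‖ := norm_neg _
    have h6 : ‖t • A x‖ ≤ 1 * (‖A‖ * ‖x‖) := by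
      rw [norm_smul]
      apply mul_le_mul _ (A.le_opNorm x) (norm_nonneg _) zero_le_one
      rw [Real.norm_eq_abs, abs_of_nonneg ht.1]; exact ht.2
    have h7 : 0 < ‖x‖ := norm_pos_iff.2 hx0
    nlinarith
  have hcont : Continuous fun t : ℝ => (ContinuousLinearMap.id ℝ E + t • A).det :=
    ContinuousLinearMap.continuous_det.comp (by fun_prop)
  by_contra hneg
  push Not at hneg
  have h0 : (fun t : ℝ => (ContinuousLinearMap.id ℝ E + t • A).det) 0 = 1 := by
    simp [ContinuousLinearMap.det]
  have h1 : (fun t : ℝ => (ContinuousLinearMap.id ℝ E + t • A).det) 1 ≤ 0 := by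
    simpa using hneg
  have := intermediate_value_Icc' (zero_le_one' ℝ) hcont.continuousOn
  obtain ⟨t, ht, ht0⟩ := this ⟨h1, le_of_le_of_eq zero_le_one h0.symm⟩
  exact hne t ht ht0

/-- small perturbations of the identity -/
private theorem near_id (u : E → E) (c : ℝ≥0) (hc : c < 1) (hu : ContDiff ℝ ∞ u)
    (hl : LipschitzWith c u) : ∃ H : E ≃ₜ E, (∀ x, H x = x + u x) ∧ ∀ x, LD 1 H x := by
  have hcomplete : CompleteSpace E := FiniteDimensional.complete ℝ E
  have happ : ApproximatesLinearOn (fun x => x + u x)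
      ((ContinuousLinearEquiv.refl ℝ E : E ≃L[ℝ] E) : E →L[ℝ] E) univ c := by
    intro x _ y _
    have h1 : (x + u x) - (y + u y) -
        ((ContinuousLinearEquiv.refl ℝ E : E ≃L[ℝ] E) : E →L[ℝ] E) (x - y) = u x - u y := by
      simp only [ContinuousLinearEquiv.coe_refl, ContinuousLinearMap.coe_id', id_eq]
      abel
    rw [h1]
    have := hl.dist_le_mul x y
    rwa [dist_eq_norm, dist_eq_norm] at this
  have hcc : Subsingleton E ∨ c < ‖((ContinuousLinearEquiv.refl ℝ E).symm : E →L[ℝ] E)‖₊⁻¹ := by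
    by_cases hE : Subsingleton E
    · exact Or.inl hE
    · right
      rw [not_subsingleton_iff_nontrivial] at hE
      have h1 : ‖((ContinuousLinearEquiv.refl ℝ E).symm : E →L[ℝ] E)‖₊ = 1 := by
        simp
      rw [h1, inv_one]
      exact hc
  refine ⟨happ.toHomeomorph _ hcc, fun x => rfl, fun x => ?_⟩
  have hfun : ((happ.toHomeomorph _ hcc : E ≃ₜ E) : E → E) = fun x => x + u x := rfl
  rw [hfun]
  refine ⟨contDiffAt_id.add hu.contDiffAt, ?_⟩
  have hd : DifferentiableAt ℝ u x := (hu.differentiable (by simp)) x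
  have h1 : fderiv ℝ (fun x => x + u x) x = ContinuousLinearMap.id ℝ E + fderiv ℝ u x := by
    rw [fderiv_fun_add differentiableAt_fun_id hd, fderiv_fun_id]
  rw [h1, one_mul]
  apply det_one_add_pos
  calc ‖fderiv ℝ u x‖ ≤ c := norm_fderiv_le_of_lipschitz ℝ hl
    _ < 1 := by exact_mod_cast hc

end Normed

section Inner

set_option linter.unusedSectionVars false

variable {E : Type*} [NormedAddCommGroup E] [InnerProductSpace ℝ E] [FiniteDimensional ℝ E]

/-- cutting off a small perturbation of the identity -/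
private theorem cutoff (E : Type*) [NormedAddCommGroup E] [InnerProductSpace ℝ E]
    [FiniteDimensional ℝ E] : ∃ C : ℝ≥0, ∀ r : ℝ, 0 < r → ∀ (ρ : E → E) (ε : ℝ≥0),
    (∀ x ∈ ball (0 : E) (3 * r), ContDiffAt ℝ ∞ ρ x) → ρ 0 = 0 →
    LipschitzOnWith ε ρ (ball (0 : E) (3 * r)) → ε * (1 + 2 * C) < 1 →
    ∃ H : E ≃ₜ E, (∀ x, LD 1 H x) ∧ (∀ x, ‖x‖ ≤ r → H x = x + ρ x) ∧
      ∀ x, 2 * r ≤ ‖x‖ → H x = x := by
  let f : ContDiffBump (0 : E) := ⟨1, 2, one_pos, one_lt_two⟩
  have hf1 : ∀ x : E, ‖x‖ ≤ 1 → f x = 1 := by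
    intro x hx
    apply f.one_of_mem_closedBall
    simpa [mem_closedBall_zero_iff] using hx
  have hf0 : ∀ x : E, 2 ≤ ‖x‖ → f x = 0 := by
    intro x hx
    apply f.zero_of_le_dist
    simpa [dist_zero_right] using hx
  have hfs : ContDiff ℝ ∞ (f : E → ℝ) := f.contDiff
  obtain ⟨C, hC⟩ := ContDiff.lipschitzWith_of_hasCompactSupport f.hasCompactSupport hfs (by simp)
  refine ⟨C, fun r hr ρ ε hρ hρ0 hlip hε => ?_⟩
  set u : E → E := fun x => f (r⁻¹ • x) • ρ x with hu
  have hnr : ∀ x : E, ‖r⁻¹ • x‖ = r⁻¹ * ‖x‖ := by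
    intro x
    rw [norm_smul, Real.norm_eq_abs, abs_of_pos (inv_pos.2 hr)]
  have hf1' : ∀ x : E, ‖x‖ ≤ r → f (r⁻¹ • x) = 1 := by
    intro x hx
    apply hf1
    rw [hnr, inv_mul_le_iff₀ hr, mul_one]; exact hx
  have hf0' : ∀ x : E, 2 * r ≤ ‖x‖ → f (r⁻¹ • x) = 0 := by
    intro x hx
    apply hf0
    rw [hnr, le_inv_mul_iff₀ hr, mul_comm]; exact hx
  have hsm : ContDiff ℝ ∞ u := by
    rw [contDiff_iff_contDiffAt]
    intro x
    by_cases hx : ‖x‖ < 3 * r
    · apply ContDiffAt.smul
      · exact (hfs.comp (contDiff_const_smul r⁻¹)).contDiffAt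
      · exact hρ x (by simpa [mem_ball_zero_iff] using hx)
    · have h1 : u =ᶠ[𝓝 x] fun _ => 0 := by
        have h2 : ∀ᶠ y : E in 𝓝 x, 2 * r < ‖y‖ := by
          apply (continuous_norm.tendsto x).eventually
          apply lt_mem_nhds
          push Not at hx
          linarith
        filter_upwards [h2] with y hy
        simp only [hu, hf0' y hy.le, zero_smul]
      exact contDiffAt_const.congr_of_eventuallyEq h1
  have hkey : ∀ x y : E, ‖y‖ < 2 * r →
      ‖(f (r⁻¹ • x) - f (r⁻¹ • y)) • ρ y‖ ≤ 2 * C * ε * ‖x - y‖ := by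
    intro x y hy
    rw [norm_smul]
    have h1 : ‖f (r⁻¹ • x) - f (r⁻¹ • y)‖ ≤ C * (r⁻¹ * ‖x - y‖) := by
      have := hC.dist_le_mul (r⁻¹ • x) (r⁻¹ • y)
      rw [dist_eq_norm, dist_eq_norm, ← smul_sub, hnr] at this
      exact this
    have h2 : ‖ρ y‖ ≤ ε * (2 * r) := by
      have h3 := hlip.dist_le_mul y (by rw [mem_ball_zero_iff]; linarith) 0
        (by rw [mem_ball_zero_iff, norm_zero]; positivity)
      rw [hρ0, dist_zero_right, dist_zero_right] at h3
      exact h3.trans (by gcongr)
    calc ‖f (r⁻¹ • x) - f (r⁻¹ • y)‖ * ‖ρ y‖ ≤ (C * (r⁻¹ * ‖x - y‖)) * (ε * (2 * r)) := by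
          gcongr
      _ = 2 * C * ε * ‖x - y‖ := by
          field_simp
  have hmain : ∀ x y : E, ‖y‖ < 2 * r →
      ‖u x - u y‖ ≤ ε * (1 + 2 * C) * ‖x - y‖ := by
    intro x y hy
    by_cases hx : ‖x‖ < 3 * r
    · have h1 : u x - u y = f (r⁻¹ • x) • (ρ x - ρ y) + (f (r⁻¹ • x) - f (r⁻¹ • y)) • ρ y := by
        simp only [hu]
        rw [smul_sub, sub_smul]; abel
      have h2 : ‖f (r⁻¹ • x) • (ρ x - ρ y)‖ ≤ ε * ‖x - y‖ := by
        rw [norm_smul]
        have h3 : ‖f (r⁻¹ • x)‖ ≤ 1 := by
          rw [Real.norm_eq_abs, abs_of_nonneg f.nonneg]; exact f.le_one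
        have h4 := hlip.dist_le_mul x (by rw [mem_ball_zero_iff]; exact hx) y
          (by rw [mem_ball_zero_iff]; linarith)
        rw [dist_eq_norm, dist_eq_norm] at h4
        calc ‖f (r⁻¹ • x)‖ * ‖ρ x - ρ y‖ ≤ 1 * (ε * ‖x - y‖) := by gcongr
          _ = ε * ‖x - y‖ := one_mul _
      calc ‖u x - u y‖ ≤ ‖f (r⁻¹ • x) • (ρ x - ρ y)‖
            + ‖(f (r⁻¹ • x) - f (r⁻¹ • y)) • ρ y‖ := by rw [h1]; exact norm_add_le _ _
        _ ≤ ε * ‖x - y‖ + 2 * C * ε * ‖x - y‖ := add_le_add h2 (hkey x y hy)
        _ = ε * (1 + 2 * C) * ‖x - y‖ := by ring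
    · push Not at hx
      have h0 : f (r⁻¹ • x) = 0 := hf0' x (by linarith)
      have h1 : u x - u y = (f (r⁻¹ • x) - f (r⁻¹ • y)) • ρ y := by
        simp only [hu, h0, zero_smul, zero_sub, neg_smul]
      calc ‖u x - u y‖ = ‖(f (r⁻¹ • x) - f (r⁻¹ • y)) • ρ y‖ := by rw [h1]
        _ ≤ 2 * C * ε * ‖x - y‖ := hkey x y hy
        _ ≤ ε * (1 + 2 * C) * ‖x - y‖ := by
          have : (0 : ℝ) ≤ ε * ‖x - y‖ := by positivity
          nlinarith
  have hL : LipschitzWith (ε * (1 + 2 * C)) u := by
    apply LipschitzWith.of_dist_le_mul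
    intro x y
    rw [dist_eq_norm, dist_eq_norm]
    push_cast
    by_cases hy : ‖y‖ < 2 * r
    · exact hmain x y hy
    · by_cases hx : ‖x‖ < 2 * r
      · rw [norm_sub_rev, norm_sub_rev x y]; exact hmain y x hx
      · push Not at hx hy
        simp only [hu, hf0' x hx, hf0' y hy, zero_smul, sub_zero, norm_zero]
        positivity
  obtain ⟨H, hH, hLD⟩ := near_id u _ hε hsm hL
  refine ⟨H, hLD, fun x hx => ?_, fun x hx => ?_⟩
  · rw [hH]; simp only [hu, hf1' x hx, one_smul]
  · rw [hH]; simp only [hu, hf0' x hx, zero_smul, add_zero]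

/-- the linear maps whose germ at the origin extends to a diffeomorphism with small support -/
private def Lin (A : E →L[ℝ] E) : Prop :=
  ∀ O ∈ 𝓝 (0 : E), ∃ H : E ≃ₜ E, (∀ x, LD 1 H x) ∧ (∀ᶠ x in 𝓝 (0 : E), H x = A x) ∧
    ∀ x, x ∉ O → H x = x

private theorem Lin.comp {A B : E →L[ℝ] E} (hA : Lin A) (hB : Lin B) : Lin (A.comp B) := by
  intro O hO
  obtain ⟨H, h1, h2, h3⟩ := hA O hO
  obtain ⟨K, k1, k2, k3⟩ := hB O hO
  refine ⟨K.trans H, ?_, ?_, ?_⟩
  · intro x
    have := (h1 (K x)).comp (k1 x)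
    rw [one_mul] at this
    exact this
  · have hK0 : K 0 = 0 := by rw [k2.self_of_nhds, map_zero]
    have h4 : ∀ᶠ x in 𝓝 (0 : E), H (K x) = A (K x) := by
      have := K.continuous.tendsto 0
      rw [hK0] at this
      exact this.eventually h2
    filter_upwards [h4, k2] with x hx hx'
    rw [Homeomorph.trans_apply, hx, hx']; rfl
  · intro x hx
    rw [Homeomorph.trans_apply, k3 x hx, h3 x hx]

private theorem Lin_eventually : ∀ᶠ A in 𝓝 (ContinuousLinearMap.id ℝ E), Lin A := by
  obtain ⟨C, hC⟩ := cutoff E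
  have h1 : ∀ᶠ A in 𝓝 (ContinuousLinearMap.id ℝ E),
      ‖A - ContinuousLinearMap.id ℝ E‖ * (1 + 2 * C) < 1 := by
    have : Tendsto (fun A : E →L[ℝ] E => ‖A - ContinuousLinearMap.id ℝ E‖ * (1 + 2 * (C : ℝ)))
        (𝓝 (ContinuousLinearMap.id ℝ E)) (𝓝 (‖(ContinuousLinearMap.id ℝ E)
          - ContinuousLinearMap.id ℝ E‖ * (1 + 2 * (C : ℝ)))) :=
      Continuous.tendsto (by fun_prop) _
    rw [sub_self, norm_zero, zero_mul] at this
    exact this.eventually (gt_mem_nhds one_pos)
  filter_upwards [h1] with A hA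
  intro O hO
  obtain ⟨s, hs, hsO⟩ := Metric.mem_nhds_iff.1 hO
  have hs3 : 0 < s / 3 := by positivity
  obtain ⟨H, h1, h2, h3⟩ := hC (s / 3) hs3 (fun x => A x - x) ‖A - ContinuousLinearMap.id ℝ E‖₊
    (fun x _ => A.contDiff.contDiffAt.sub contDiffAt_id) (by simp)
    ((A - ContinuousLinearMap.id ℝ E).lipschitz.lipschitzOnWith) (by exact_mod_cast hA)
  refine ⟨H, h1, ?_, ?_⟩
  · filter_upwards [Metric.closedBall_mem_nhds (0 : E) hs3] with x hx
    rw [h2 x (by simpa using hx)]
    abel
  · intro x hx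
    apply h3
    have : x ∉ ball (0 : E) s := fun h => hx (hsO h)
    rw [mem_ball_zero_iff] at this
    push Not at this
    linarith

variable {ι : Type} [Fintype ι] [DecidableEq ι]

/-- matrices as continuous linear maps -/
private noncomputable def cl (b : Module.Basis ι ℝ E) (M : Matrix ι ι ℝ) : E →L[ℝ] E :=
  LinearMap.toContinuousLinearMap (Matrix.toLin b b M)

private theorem cl_mul (b : Module.Basis ι ℝ E) (M N : Matrix ι ι ℝ) :
    cl b (M * N) = (cl b M).comp (cl b N) := by
  unfold cl
  rw [Matrix.toLin_mul b b b]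
  rfl

private theorem cl_one (b : Module.Basis ι ℝ E) : cl b 1 = ContinuousLinearMap.id ℝ E := by
  unfold cl
  rw [Matrix.toLin_one]
  rfl

private theorem cl_continuous (b : Module.Basis ι ℝ E) : Continuous (cl b) := by
  let L : Matrix ι ι ℝ →ₗ[ℝ] (E →L[ℝ] E) :=
    (LinearMap.toContinuousLinearMap : (E →ₗ[ℝ] E) ≃ₗ[ℝ] (E →L[ℝ] E)).toLinearMap ∘ₗ
      (Matrix.toLin b b).toLinearMap
  exact L.continuous_of_finiteDimensional

private theorem lin_mul (b : Module.Basis ι ℝ E) {M N : Matrix ι ι ℝ} (hM : Lin (cl b M))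
    (hN : Lin (cl b N)) : Lin (cl b (M * N)) := by
  rw [cl_mul]; exact hM.comp hN

private theorem lin_one (b : Module.Basis ι ℝ E) : Lin (cl b 1) := by
  rw [cl_one]; exact Lin_eventually.self_of_nhds

private theorem lin_pow (b : Module.Basis ι ℝ E) {M : Matrix ι ι ℝ} (hM : Lin (cl b M)) (n : ℕ) :
    Lin (cl b (M ^ n)) := by
  induction n with
  | zero => rw [pow_zero]; exact lin_one b
  | succ n ih => rw [pow_succ]; exact lin_mul b ih hM

/-- one parameter groups -/
private theorem lin_group (b : Module.Basis ι ℝ E) (γ : ℝ → Matrix ι ι ℝ)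
    (h0 : γ 0 = 1) (hadd : ∀ s t, γ (s + t) = γ s * γ t) (hc : ContinuousAt γ 0) (t : ℝ) :
    Lin (cl b (γ t)) := by
  have h1 : ∀ᶠ s in 𝓝 (0 : ℝ), Lin (cl b (γ s)) := by
    have h2 : Tendsto (fun s => cl b (γ s)) (𝓝 0) (𝓝 (ContinuousLinearMap.id ℝ E)) := by
      have h3 := ((cl_continuous b).tendsto (γ 0)).comp hc
      rw [h0, cl_one] at h3
      exact h3
    exact h2.eventually Lin_eventually
  have h2 : Tendsto (fun n : ℕ => t / ((n : ℝ) + 1)) atTop (𝓝 0) := by
    have := tendsto_const_div_atTop_nhds_zero_nat t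
    have h3 := (tendsto_add_atTop_iff_nat 1).2 this
    simpa using h3
  obtain ⟨n, hn⟩ := (h2.eventually h1).exists
  have h3 : ∀ k : ℕ, γ (k * (t / ((n : ℝ) + 1))) = γ (t / ((n : ℝ) + 1)) ^ k := by
    intro k
    induction k with
    | zero => simp [h0]
    | succ k ih =>
      rw [pow_succ, ← ih, ← hadd]
      congr 1
      push_cast
      ring
  have h4 := h3 (n + 1)
  have h5 : ((n + 1 : ℕ) : ℝ) * (t / ((n : ℝ) + 1)) = t := by
    push_cast
    field_simp
  rw [h5] at h4
  rw [h4]
  exact lin_pow b hn _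

private theorem lin_transvection (b : Module.Basis ι ℝ E) {i j : ι} (hij : i ≠ j) (c : ℝ) :
    Lin (cl b (Matrix.transvection i j c)) := by
  refine lin_group b (fun t => Matrix.transvection i j t) (Matrix.transvection_zero i j)
    (fun s t => (Matrix.transvection_mul_transvection_same i j hij s t).symm) ?_ c
  apply Continuous.continuousAt
  unfold Matrix.transvection
  apply Continuous.add continuous_const
  apply continuous_matrix
  intro a b'
  simp only [Matrix.single_apply]
  split_ifs
  · exact continuous_id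
  · exact continuous_const

private theorem lin_pos_diagonal (b : Module.Basis ι ℝ E) {D : ι → ℝ} (hD : ∀ i, 0 < D i) :
    Lin (cl b (Matrix.diagonal D)) := by
  have h := lin_group b (fun t => Matrix.diagonal fun i => Real.exp (t * Real.log (D i)))
    (by simp) ?_ ?_ 1
  · have : (fun i => Real.exp (1 * Real.log (D i))) = D := by
      funext i
      rw [one_mul, Real.exp_log (hD i)]
    rw [← this]
    exact h
  · intro s t
    rw [Matrix.diagonal_mul_diagonal]
    congr 1
    funext i
    rw [← Real.exp_add]; congr 1; ring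
  · apply Continuous.continuousAt
    apply Continuous.matrix_diagonal
    fun_prop

/-- the matrix with two entries `-1` and the other diagonal entries `1` -/
private theorem two_signs {i j : ι} (hij : i ≠ j) :
    (Matrix.diagonal fun l => if l = i ∨ l = j then (-1 : ℝ) else 1) =
      (Matrix.transvection i j 1 * Matrix.transvection j i (-1) * Matrix.transvection i j 1) *
      (Matrix.transvection i j 1 * Matrix.transvection j i (-1) *
        Matrix.transvection i j 1) := by
  have hji : j ≠ i := hij.symm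
  unfold Matrix.transvection
  set a : Matrix ι ι ℝ := Matrix.single i j 1 with ha
  set d : Matrix ι ι ℝ := Matrix.single j i 1 with hd
  set x : Matrix ι ι ℝ := Matrix.single i i 1 with hx
  set y : Matrix ι ι ℝ := Matrix.single j j 1 with hy
  have hneg : (Matrix.single j i (-1 : ℝ)) = -d := by
    rw [hd, ← Matrix.single_neg]
  have haa : a * a = 0 := Matrix.single_mul_single_of_ne (h := hji) ..
  have hdd : d * d = 0 := Matrix.single_mul_single_of_ne (h := hij) ..
  have had : a * d = x := by rw [ha, hd, Matrix.single_mul_single_same, one_mul]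
  have hda : d * a = y := by rw [ha, hd, Matrix.single_mul_single_same, one_mul]
  have hxx : x * x = x := by rw [hx, Matrix.single_mul_single_same, one_mul]
  have hyy : y * y = y := by rw [hy, Matrix.single_mul_single_same, one_mul]
  have hxy : x * y = 0 := Matrix.single_mul_single_of_ne (h := hij) ..
  have hyx : y * x = 0 := Matrix.single_mul_single_of_ne (h := hji) ..
  have hxa : x * a = a := by rw [hx, ha, Matrix.single_mul_single_same, one_mul]
  have hay : a * y = a := by rw [hy, ha, Matrix.single_mul_single_same, one_mul]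
  have hax : a * x = 0 := Matrix.single_mul_single_of_ne (h := hji) ..
  have hya : y * a = 0 := Matrix.single_mul_single_of_ne (h := hji) ..
  have hyd : y * d = d := by rw [hy, hd, Matrix.single_mul_single_same, one_mul]
  have hdx : d * x = d := by rw [hx, hd, Matrix.single_mul_single_same, one_mul]
  have hxd : x * d = 0 := Matrix.single_mul_single_of_ne (h := hij) ..
  have hdy : d * y = 0 := Matrix.single_mul_single_of_ne (h := hij) ..
  have hw : (1 + a) * (1 + Matrix.single j i (-1 : ℝ)) * (1 + a) = 1 + a - d - x - y := by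
    rw [hneg]
    simp only [mul_add, add_mul, mul_one, one_mul, mul_neg, neg_mul, haa, had, hda, hxa]
    abel
  rw [hw]
  have h2 : (1 + a - d - x - y) * (1 + a - d - x - y) = 1 - x - x - y - y := by
    simp only [mul_add, add_mul, mul_sub, sub_mul, mul_one, one_mul, haa, had, hda, hxa, hdd,
      hxx, hyy, hxy, hyx, hay, hax, hya, hyd, hdx, hxd, hdy]
    abel
  rw [h2]
  ext u v
  simp only [Matrix.diagonal_apply, Matrix.sub_apply, Matrix.one_apply, hx, hy,
    Matrix.single_apply]
  by_cases huv : u = v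
  · subst huv
    by_cases hui : u = i
    · subst hui
      simp [hji]
    · by_cases huj : u = j
      · subst huj
        simp [hij]
      · simp [hui, huj, Ne.symm hui, Ne.symm huj]
  · have h3 : ¬ (i = u ∧ i = v) := fun h => huv (h.1.symm.trans h.2)
    have h4 : ¬ (j = u ∧ j = v) := fun h => huv (h.1.symm.trans h.2)
    simp [huv, h3, h4]

/-- diagonal matrices of positive determinant -/
private theorem lin_diagonal (b : Module.Basis ι ℝ E) : ∀ (n : ℕ) (D : ι → ℝ),
    (Finset.univ.filter fun i => D i < 0).card ≤ n → 0 < ∏ i, D i →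
    Lin (cl b (Matrix.diagonal D)) := by
  intro n
  induction n with
  | zero =>
    intro D hn hD
    apply lin_pos_diagonal
    intro i
    have h1 : i ∉ Finset.univ.filter fun i => D i < 0 := by
      rw [Finset.card_eq_zero.1 (Nat.le_zero.1 hn)]
      exact Finset.notMem_empty i
    have h2 : ¬ D i < 0 := by simpa using h1
    have h3 : D i ≠ 0 := fun h => hD.ne' (Finset.prod_eq_zero (Finset.mem_univ i) h)
    exact lt_of_le_of_ne (not_lt.1 h2) h3.symm
  | succ n ih =>
    intro D hn hD
    by_cases hneg : ∃ i, D i < 0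
    · obtain ⟨i, hi⟩ := hneg
      have h2 : ∃ j, j ≠ i ∧ D j < 0 := by
        by_contra hcon
        push Not at hcon
        rw [← Finset.mul_prod_erase _ _ (Finset.mem_univ i)] at hD
        have h3 : 0 ≤ ∏ l ∈ Finset.univ.erase i, D l :=
          Finset.prod_nonneg fun l hl => hcon l (Finset.ne_of_mem_erase hl)
        nlinarith
      obtain ⟨j, hji, hj⟩ := h2
      set S : ι → ℝ := fun l => if l = i ∨ l = j then (-1 : ℝ) else 1 with hS
      set D' : ι → ℝ := fun l => S l * D l with hD'
      have hSD : Matrix.diagonal D = Matrix.diagonal S * Matrix.diagonal D' := by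
        rw [Matrix.diagonal_mul_diagonal]
        congr 1
        funext l
        simp only [hD', hS]
        split_ifs <;> ring
      rw [hSD]
      apply lin_mul b
      · rw [hS, two_signs hji.symm]
        have t1 := lin_transvection b hji.symm 1
        have t2 := lin_transvection b hji (-1)
        exact lin_mul b (lin_mul b (lin_mul b t1 t2) t1) (lin_mul b (lin_mul b t1 t2) t1)
      · apply ih
        · have h4 : (Finset.univ.filter fun l => D' l < 0) ⊆
              (Finset.univ.filter fun l => D l < 0).erase i := by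
            intro l hl
            simp only [Finset.mem_filter, Finset.mem_univ, true_and, Finset.mem_erase, hD',
              hS] at hl ⊢
            by_cases hli : l = i
            · subst hli; simp at hl; linarith
            · by_cases hlj : l = j
              · subst hlj; simp at hl; linarith
              · simp [hli, hlj] at hl
                exact ⟨hli, hl⟩
          have h5 := Finset.card_le_card h4
          rw [Finset.card_erase_of_mem (by simpa using hi)] at h5
          omega
        · have h6 : ∏ l, D' l = (∏ l, S l) * ∏ l, D l := Finset.prod_mul_distrib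
          have h7 : ∏ l, S l = 1 := by
            rw [← Finset.mul_prod_erase _ _ (Finset.mem_univ i),
              ← Finset.mul_prod_erase _ _ (show j ∈ Finset.univ.erase i by simp [hji])]
            have h8 : ∏ l ∈ (Finset.univ.erase i).erase j, S l = 1 := by
              apply Finset.prod_eq_one
              intro l hl
              have h9 : l ≠ j := Finset.ne_of_mem_erase hl
              have h10 : l ≠ i := Finset.ne_of_mem_erase (Finset.mem_of_mem_erase hl)
              simp [hS, h9, h10]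
            rw [h8]
            simp [hS]
          rw [h6, h7, one_mul]
          exact hD
    · push Not at hneg
      apply lin_pos_diagonal
      intro i
      have h3 : D i ≠ 0 := fun h => hD.ne' (Finset.prod_eq_zero (Finset.mem_univ i) h)
      exact lt_of_le_of_ne (hneg i) h3.symm

private theorem lin_of_det_pos {A : E →L[ℝ] E} (hA : 0 < A.det) : Lin A := by
  let b := Module.finBasis ℝ E
  have h1 : A = cl b (LinearMap.toMatrix b b (A : E →ₗ[ℝ] E)) := by
    unfold cl
    rw [Matrix.toLin_toMatrix]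
    rfl
  set M := LinearMap.toMatrix b b (A : E →ₗ[ℝ] E) with hM
  have hdet : M.det = A.det := LinearMap.det_toMatrix b _
  rw [h1]
  apply Matrix.diagonal_transvection_induction (fun N => Lin (cl b N)) M
  · intro D hD
    apply lin_diagonal b _ D le_rfl
    rw [Matrix.det_diagonal] at hD
    rw [hD, hdet]
    exact hA
  · intro t
    exact lin_transvection b t.hij t.c
  · intro N N' hN hN'
    exact lin_mul b hN hN'

/-- germs at the origin -/
private theorem germ_zero {φ : E → E} (hφ : ∀ᶠ x in 𝓝 (0 : E), LD 1 φ x) (h0 : φ 0 = 0)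
    {O : Set E} (hO : O ∈ 𝓝 (0 : E)) : ∃ H : E ≃ₜ E, (∀ x, LD 1 H x) ∧
      (∀ᶠ x in 𝓝 (0 : E), H x = φ x) ∧ ∀ x, x ∉ O → H x = x := by
  have hcomplete : CompleteSpace E := FiniteDimensional.complete ℝ E
  set A : E →L[ℝ] E := fderiv ℝ φ 0 with hA
  have hLD0 : LD 1 φ 0 := hφ.self_of_nhds
  have hdet : 0 < A.det := by
    have := hLD0.2
    rwa [one_mul] at this
  set A' : E ≃L[ℝ] E := A.toContinuousLinearEquivOfDetNeZero hdet.ne' with hA'
  have hAc : (A' : E →L[ℝ] E) = A := ContinuousLinearMap.coe_toContinuousLinearEquivOfDetNeZero _ _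
  obtain ⟨K, k1, k2, k3⟩ := lin_of_det_pos hdet O hO
  obtain ⟨C, hC⟩ := cutoff E
  set ρ : E → E := fun x => A'.symm (φ x) - x with hρ
  have hρ0 : ρ 0 = 0 := by simp [hρ, h0]
  have hstrict : HasStrictFDerivAt ρ (0 : E →L[ℝ] E) 0 := by
    have h1 : HasStrictFDerivAt φ A 0 :=
      hLD0.1.hasStrictFDerivAt (by simp)
    have h2 : HasStrictFDerivAt (fun x => A'.symm (φ x))
        ((A'.symm : E →L[ℝ] E).comp A) 0 :=
      (A'.symm : E →L[ℝ] E).hasStrictFDerivAt.comp 0 h1
    have h3 := h2.sub (hasStrictFDerivAt_id (0 : E))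
    have h4 : (A'.symm : E →L[ℝ] E).comp A - ContinuousLinearMap.id ℝ E = 0 := by
      rw [← hAc]
      ext x
      simp
    rw [h4] at h3
    exact h3
  set ε : ℝ≥0 := (2 * (1 + 2 * C))⁻¹ with hε
  have hεpos : 0 < ε := by positivity
  have hε1 : ε * (1 + 2 * C) < 1 := by
    have h1 : (1 + 2 * C) ≠ 0 := by positivity
    rw [hε, mul_inv, mul_assoc, inv_mul_cancel₀ h1, mul_one]
    rw [← NNReal.coe_lt_coe]
    push_cast
    norm_num
  obtain ⟨s, hs, hlip⟩ := hstrict.exists_lipschitzOnWith_of_nnnorm_lt ε (by simpa using hεpos)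
  have hN : s ∩ {x | LD 1 φ x} ∩ O ∈ 𝓝 (0 : E) := inter_mem (inter_mem hs hφ) hO
  obtain ⟨R, hR, hRs⟩ := Metric.mem_nhds_iff.1 hN
  have hr : 0 < R / 3 := by positivity
  have h3r : 3 * (R / 3) = R := by ring
  obtain ⟨H, h1, h2, h3⟩ := hC (R / 3) hr ρ ε
    (by
      rw [h3r]
      intro x hx
      have := (hRs hx).1.2
      exact ((A'.symm : E →L[ℝ] E).contDiff.contDiffAt.comp x this.1).sub contDiffAt_id)
    hρ0 (by rw [h3r]; exact hlip.mono fun x hx => (hRs hx).1.1) hε1
  refine ⟨H.trans K, ?_, ?_, ?_⟩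
  · intro x
    have := (k1 (H x)).comp (h1 x)
    rw [one_mul] at this
    exact this
  · have hH : ∀ᶠ x in 𝓝 (0 : E), H x = A'.symm (φ x) := by
      filter_upwards [Metric.closedBall_mem_nhds (0 : E) hr] with x hx
      rw [h2 x (by simpa using hx)]
      simp [hρ]
    have hH0 : H 0 = 0 := by rw [h2 0 (by simpa using hr.le), hρ0, add_zero]
    have h4 : ∀ᶠ x in 𝓝 (0 : E), K (H x) = A (H x) := by
      have := H.continuous.tendsto 0
      rw [hH0] at this
      exact this.eventually k2
    filter_upwards [h4, hH] with x hx hx'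
    rw [Homeomorph.trans_apply, hx, hx', ← hAc]
    simp
  · intro x hx
    have h5 : H x = x := by
      apply h3
      by_contra hcon
      push Not at hcon
      apply hx
      have h6 : x ∈ ball (0 : E) R := by
        rw [mem_ball_zero_iff]; linarith
      exact (hRs h6).2
    rw [Homeomorph.trans_apply, h5, k3 x hx]

/-- every germ of an orientation preserving diffeomorphism fixing a point is the germ of a
diffeomorphism supported near the point -/
theorem germ_fix (φ : E → E) (a : E) (hφ : ∀ᶠ x in 𝓝 a, LD 1 φ x) (ha : φ a = a)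
    (O : Set E) (hO : O ∈ 𝓝 a) : ∃ H : E ≃ₜ E, (∀ x, LD 1 H x) ∧
      (∀ᶠ x in 𝓝 a, H x = φ x) ∧ ∀ x, x ∉ O → H x = x := by
  have hadd : Tendsto (fun x : E => x + a) (𝓝 0) (𝓝 a) := by
    have : Continuous fun x : E => x + a := by fun_prop
    simpa using this.tendsto 0
  have hsub : Tendsto (fun x : E => x - a) (𝓝 a) (𝓝 0) := by
    have : Continuous fun x : E => x - a := by fun_prop
    simpa using this.tendsto a
  have h1 : ∀ᶠ x in 𝓝 (0 : E), LD 1 (fun y => φ (y + a) - a) x := by
    filter_upwards [hadd.eventually hφ] with x hx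
    have h2 := (LD_sub_const a (φ (x + a))).comp (f := fun y => φ (y + a))
      (x := x) (hx.comp (f := fun y => y + a) (LD_add_const a x))
    rw [one_mul, one_mul] at h2
    exact h2
  obtain ⟨H, h2, h3, h4⟩ := germ_zero h1 (by simp [ha]) (O := (fun x => x + a) ⁻¹' O)
    (hadd hO)
  refine ⟨((Homeomorph.addRight (-a)).trans H).trans (Homeomorph.addRight a), ?_, ?_, ?_⟩
  · intro x
    have h5 := (LD_add_const a (H (x + -a))).comp (f := fun y => H (y + -a))
      (x := x) ((h2 (x + -a)).comp (f := fun y => y + -a) (LD_add_const (-a) x))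
    rw [one_mul, one_mul] at h5
    exact h5
  · filter_upwards [hsub.eventually h3] with x hx
    have : H (x + -a) + a = φ x := by
      rw [← sub_eq_add_neg, hx]; simp
    exact this
  · intro x hx
    have h5 : H (x + -a) = x + -a := by
      apply h4
      simpa using hx
    have : H (x + -a) + a = x := by rw [h5]; abel
    exact this

end Inner

theorem specGermFix : SpecGermFix := by
  intro E _ _ _ φ a hφ ha O hO
  exact germ_fix φ a hφ ha O hO

end Pool.Agent.HopfCov
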