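import Pool.Agent.HopfCov.SimplyConn

/-!
# Orbit spaces of homeomorphisms of the punctured space which halve the norm
-/

set_option autoImplicit false

open scoped ContDiff Topology Manifold
open Set Filter Metric

namespace Pool.Agent.HopfCov

instance instLocallyCompactV4 : LocallyCompactSpace V4 :=
  V4.isOpen.isOpenEmbedding_subtypeVal.locallyCompactSpace

instance instLocallyPathConnectedV4 : LocallyPathConnectedSpace V4 :=
  V4.isOpen.locallyPathConnectedSpace

theorem simplyConnectedV4 : SimplyConnectedSpace V4 := specSimplyConnected E4 (by simp)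

theorem norm_pos_V4 (x : V4) : 0 < ‖(x : E4)‖ := norm_pos_iff.2 x.2

/-- iterates of a homeomorphism which halves the norm -/
theorem norm_zpow_halving {τ : V4 ≃ₜ V4} (hτ : ∀ x : V4, ‖(τ x : E4)‖ = 2⁻¹ * ‖(x : E4)‖)
    (n : ℤ) (x : V4) : ‖((τ ^ n) x : E4)‖ = (2⁻¹ : ℝ) ^ n * ‖(x : E4)‖ := by
  induction n using Int.induction_on with
  | zero => simp
  | succ n ih =>
    have h1 : (τ ^ ((n : ℤ) + 1)) x = τ ((τ ^ (n : ℤ)) x) := by
      rw [add_comm, zpow_add, zpow_one]; rfl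
    rw [h1, hτ, ih, zpow_add₀ (by norm_num), zpow_one]
    ring
  | pred n ih =>
    have h1 : (τ ^ (-(n : ℤ))) x = τ ((τ ^ (-(n : ℤ) - 1)) x) := by
      have : (-(n : ℤ)) = 1 + (-(n : ℤ) - 1) := by ring
      conv_lhs => rw [this, zpow_add, zpow_one]
      rfl
    rw [h1, hτ] at ih
    have h2 : ‖((τ ^ (-(n : ℤ) - 1)) x : E4)‖ = 2 * ((2⁻¹ : ℝ) ^ (-(n : ℤ)) * ‖(x : E4)‖) := by
      rw [← ih]; ring
    rw [h2, zpow_sub₀ (by norm_num), zpow_one]
    ring

/-- every point has an iterate in the annulus `1 ≤ ‖x‖ ≤ 2` -/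
theorem exists_zpow_annulus {τ : V4 ≃ₜ V4} (hτ : ∀ x : V4, ‖(τ x : E4)‖ = 2⁻¹ * ‖(x : E4)‖)
    (x : V4) : ∃ n : ℤ, 1 ≤ ‖((τ ^ n) x : E4)‖ ∧ ‖((τ ^ n) x : E4)‖ ≤ 2 := by
  obtain ⟨n, h1, h2⟩ := exists_mem_Ico_zpow (norm_pos_V4 x) (by norm_num : (1 : ℝ) < 2)
  have h0 : (0 : ℝ) < 2 ^ n := by positivity
  refine ⟨n, ?_, ?_⟩
  · rw [norm_zpow_halving hτ, inv_zpow, ← div_eq_inv_mul, le_div_iff₀ h0, one_mul]
    exact h1
  · rw [norm_zpow_halving hτ, inv_zpow, ← div_eq_inv_mul, div_le_iff₀ h0]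
    rw [zpow_add₀ (by norm_num), zpow_one] at h2
    linarith

/-- the annulus is compact -/
theorem isCompact_annulus : IsCompact {x : V4 | 1 ≤ ‖(x : E4)‖ ∧ ‖(x : E4)‖ ≤ 2} := by
  rw [Subtype.isCompact_iff]
  have h1 : (Subtype.val '' {x : V4 | 1 ≤ ‖(x : E4)‖ ∧ ‖(x : E4)‖ ≤ 2}) =
      closedBall (0 : E4) 2 ∩ {x : E4 | 1 ≤ ‖x‖} := by
    ext x
    constructor
    · rintro ⟨y, ⟨hy1, hy2⟩, rfl⟩
      exact ⟨by simpa using hy2, hy1⟩
    · rintro ⟨h1, h2⟩
      have h3 : x ∈ V4 := by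
        intro h0
        have h2' : (1 : ℝ) ≤ ‖x‖ := h2
        rw [show x = 0 from h0, norm_zero] at h2'
        linarith
      exact ⟨⟨x, h3⟩, ⟨h2, by simpa using h1⟩, rfl⟩
  rw [h1]
  exact (isCompact_closedBall _ _).inter_right (isClosed_le continuous_const continuous_norm)

/-- A continuous surjection whose fibres are the orbits of a homeomorphism which halves the norm
is a covering map. -/
theorem isCoveringMap_halving {T : Type*} [TopologicalSpace T] [T2Space T] {τ : V4 ≃ₜ V4}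
    (hτ : ∀ x : V4, ‖(τ x : E4)‖ = 2⁻¹ * ‖(x : E4)‖) {p : V4 → T} (hc : Continuous p)
    (hs : Function.Surjective p) (hf : ∀ x y : V4, p x = p y ↔ ∃ n : ℤ, y = (τ ^ n) x) :
    IsCoveringMap p := by
  let _ : MulAction (Multiplicative ℤ) V4 :=
    { smul := fun n x => (τ ^ (Multiplicative.toAdd n)) x
      one_smul := fun x => by
        change (τ ^ (0 : ℤ)) x = x
        rw [zpow_zero]; rfl
      mul_smul := fun a b x => by
        change (τ ^ (Multiplicative.toAdd a + Multiplicative.toAdd b)) x =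
          (τ ^ (Multiplicative.toAdd a)) ((τ ^ (Multiplicative.toAdd b)) x)
        rw [zpow_add]; rfl }
  have hq : Topology.IsQuotientMap p := by
    have hK := isCompact_annulus
    have hKc : CompactSpace {x : V4 | 1 ≤ ‖(x : E4)‖ ∧ ‖(x : E4)‖ ≤ 2} :=
      isCompact_iff_compactSpace.1 hK
    have h1 : Topology.IsQuotientMap
        (p ∘ (Subtype.val : {x : V4 | 1 ≤ ‖(x : E4)‖ ∧ ‖(x : E4)‖ ≤ 2} → V4)) := by
      refine (hc.comp continuous_subtype_val).isClosedMap.isQuotientMap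
        (hc.comp continuous_subtype_val) ?_
      intro m
      obtain ⟨x, rfl⟩ := hs m
      obtain ⟨n, hn⟩ := exists_zpow_annulus hτ x
      exact ⟨⟨(τ ^ n) x, hn⟩, ((hf _ _).2 ⟨n, rfl⟩).symm⟩
    exact Topology.IsQuotientMap.of_comp continuous_subtype_val hc h1
  have hQ : IsQuotientCoveringMap p (Multiplicative ℤ) :=
    { toIsQuotientMap := hq
      continuous_const_smul := fun n => (τ ^ (Multiplicative.toAdd n)).continuous
      apply_eq_iff_mem_orbit := by
        intro x y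
        constructor
        · intro h
          obtain ⟨n, hn⟩ := (hf _ _).1 h.symm
          exact ⟨Multiplicative.ofAdd n, hn.symm⟩
        · rintro ⟨n, hn⟩
          exact ((hf _ _).2 ⟨Multiplicative.toAdd n, hn.symm⟩).symm
      disjoint := by
        intro x
        have hx := norm_pos_V4 x
        have hcn : Continuous fun y : V4 => ‖(y : E4)‖ := continuous_norm.comp
          continuous_subtype_val
        refine ⟨{y : V4 | 3 / 4 * ‖(x : E4)‖ < ‖(y : E4)‖ ∧ ‖(y : E4)‖ < 3 / 2 * ‖(x : E4)‖},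
          ?_, ?_⟩
        · refine ((isOpen_lt continuous_const hcn).inter
            (isOpen_lt hcn continuous_const)).mem_nhds ?_
          constructor
          · change 3 / 4 * ‖(x : E4)‖ < ‖(x : E4)‖
            linarith
          · change ‖(x : E4)‖ < 3 / 2 * ‖(x : E4)‖
            linarith
        · rintro n ⟨y, ⟨z, ⟨hz1, hz2⟩, rfl⟩, hy1, hy2⟩
          change 3 / 4 * ‖(x : E4)‖ < ‖((τ ^ (Multiplicative.toAdd n)) z : E4)‖ at hy1
          change ‖((τ ^ (Multiplicative.toAdd n)) z : E4)‖ < 3 / 2 * ‖(x : E4)‖ at hy2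
          rw [norm_zpow_halving hτ] at hy1 hy2
          set N : ℤ := Multiplicative.toAdd n with hN
          have hz := norm_pos_V4 z
          have h1 : (2⁻¹ : ℝ) ^ N < (2⁻¹ : ℝ) ^ (-1 : ℤ) := by
            rw [zpow_neg_one, inv_inv]
            by_contra hcon
            push Not at hcon
            nlinarith
          have h2 : (2⁻¹ : ℝ) ^ (1 : ℤ) < (2⁻¹ : ℝ) ^ N := by
            rw [zpow_one]
            by_contra hcon
            push Not at hcon
            nlinarith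
          rw [zpow_lt_zpow_iff_right_of_lt_one₀ (by norm_num) (by norm_num)] at h1 h2
          have h3 : N = 0 := by omega
          exact Multiplicative.toAdd.injective h3 }
  exact hQ.isCoveringMap

/-- If `M` is homeomorphic to the orbit space of `τ` then every covering `V4 → M` is the orbit
map of some homeomorphism. -/
theorem deck_of_covering {T : Type*} [TopologicalSpace T] {τ : V4 ≃ₜ V4} {p₀ : V4 → T}
    (hc₀ : IsCoveringMap p₀) (hs₀ : Function.Surjective p₀)
    (hf₀ : ∀ x y : V4, p₀ x = p₀ y ↔ ∃ n : ℤ, y = (τ ^ n) x)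
    {M : Type*} [TopologicalSpace M] (F : M ≃ₜ T) {p : V4 → M} (hp : IsCoveringMap p) :
    Function.Surjective p ∧ ∃ g : V4 ≃ₜ V4, ∀ x y : V4, p x = p y ↔ ∃ n : ℤ, y = (g ^ n) x := by
  have : SimplyConnectedSpace V4 := simplyConnectedV4
  obtain ⟨x₀⟩ : Nonempty V4 := inferInstance
  obtain ⟨y₀, hy₀⟩ := hs₀ (F (p x₀))
  obtain ⟨Ψ, ⟨hΨ0, hΨ⟩, -⟩ := hc₀.existsUnique_continuousMap_lifts
    (⟨fun x => F (p x), F.continuous.comp hp.continuous⟩ : C(V4, T)) x₀ y₀ hy₀
  obtain ⟨Φ, ⟨hΦ0, hΦ⟩, -⟩ := hp.existsUnique_continuousMap_lifts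
    (⟨fun x => F.symm (p₀ x), F.symm.continuous.comp hc₀.continuous⟩ : C(V4, M)) y₀ x₀
      (by
        change p x₀ = F.symm (p₀ y₀)
        rw [hy₀, F.symm_apply_apply])
  have hΨ' : ∀ x, p₀ (Ψ x) = F (p x) := fun x => congrFun hΨ x
  have hΦ' : ∀ x, p (Φ x) = F.symm (p₀ x) := fun x => congrFun hΦ x
  have h1 : (fun x => Φ (Ψ x)) = fun x => x :=
    hp.eq_of_comp_eq (Φ.continuous.comp Ψ.continuous) continuous_id
      (by
        funext x
        change p (Φ (Ψ x)) = p x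
        rw [hΦ', hΨ', F.symm_apply_apply]) x₀ (by
        rw [hΨ0, hΦ0])
  have h2 : (fun x => Ψ (Φ x)) = fun x => x :=
    hc₀.eq_of_comp_eq (Ψ.continuous.comp Φ.continuous) continuous_id
      (by
        funext x
        change p₀ (Ψ (Φ x)) = p₀ x
        rw [hΨ', hΦ', F.apply_symm_apply]) y₀ (by
        rw [hΦ0, hΨ0])
  let Θ : V4 ≃ₜ V4 :=
    { toFun := Ψ
      invFun := Φ
      left_inv := fun x => congrFun h1 x
      right_inv := fun x => congrFun h2 x
      continuous_toFun := Ψ.continuous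
      continuous_invFun := Φ.continuous }
  have hΘ : ∀ x, p₀ (Θ x) = F (p x) := hΨ'
  refine ⟨?_, Θ⁻¹ * τ * Θ, ?_⟩
  · intro m
    obtain ⟨z, hz⟩ := hs₀ (F m)
    refine ⟨Φ z, ?_⟩
    rw [hΦ', hz, F.symm_apply_apply]
  · intro x y
    have hpow : ∀ n : ℤ, (Θ⁻¹ * τ * Θ) ^ n = Θ⁻¹ * τ ^ n * Θ := by
      intro n
      have h3 := conj_zpow (i := n) (a := Θ⁻¹) (b := τ)
      rwa [inv_inv] at h3
    rw [← F.injective.eq_iff, ← hΘ, ← hΘ, hf₀]
    refine exists_congr fun n => ?_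
    rw [hpow]
    change Θ y = (τ ^ n) (Θ x) ↔ y = Θ.symm ((τ ^ n) (Θ x))
    rw [Homeomorph.eq_symm_apply]

end Pool.Agent.HopfCov
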