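import Pool.Agent.HopfCov.Spec

/-!
# Diffeomorphisms of orbit spaces lift to the universal covers
-/

set_option autoImplicit false

open scoped ContDiff Topology Manifold
open Set Filter Metric

namespace Pool.Agent.HopfCov

section Top

variable {V M : Type*} [TopologicalSpace V] [TopologicalSpace M] {g : V ≃ₜ V} {p : V → M}

/-- The group generated by `g` acts freely if the orbit space is compact and the space is not. -/
private theorem free_of_noncompact [T2Space V] [PreconnectedSpace V] [LocallyCompactSpace V]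
    [NoncompactSpace V] [CompactSpace M] (hl : IsLocalHomeomorph p)
    (hs : Function.Surjective p) (hf : ∀ x y : V, p x = p y ↔ ∃ n : ℤ, y = (g ^ n) x)
    (k : ℤ) (x : V) (hk : (g ^ k) x = x) : k = 0 := by
  by_contra hk0
  have hinv : ∀ (n : ℤ) (y : V), p ((g ^ n) y) = p y := fun n y => ((hf _ _).2 ⟨n, rfl⟩).symm
  have hS : {y : V | (g ^ k) y = y} = univ := by
    refine IsClopen.eq_univ ⟨isClosed_eq (g ^ k).continuous continuous_id, ?_⟩ ⟨x, hk⟩
    rw [isOpen_iff_mem_nhds]
    intro y hy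
    obtain ⟨U, hU, hyU, hinj⟩ := hl.isLocallyInjective y
    have h1 : U ∈ 𝓝 y := hU.mem_nhds hyU
    have h2 : (g ^ k) ⁻¹' U ∈ 𝓝 y := by
      refine (g ^ k).continuous.continuousAt.preimage_mem_nhds ?_
      have hy' : (g ^ k) y = y := hy
      rw [hy']
      exact h1
    filter_upwards [h1, h2] with z hz1 hz2
    exact hinj hz2 hz1 (hinv k z)
  have hS' : ∀ y : V, (g ^ k) y = y := fun y => by
    have : y ∈ {y : V | (g ^ k) y = y} := by rw [hS]; trivial
    exact this
  have hgk : g ^ k = 1 := Homeomorph.ext hS'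
  choose K hK1 hK2 using fun y : V => exists_compact_mem_nhds y
  obtain ⟨t, ht⟩ := CompactSpace.elim_nhds_subcover
    (fun m : M => p '' (K (Function.surjInv hs m))) (fun m => by
      have := hl.isOpenMap.image_mem_nhds (hK2 (Function.surjInv hs m))
      rwa [Function.surjInv_eq hs m] at this)
  refine noncompact_univ V ?_
  have hcov : (univ : Set V) = ⋃ m ∈ t, ⋃ j ∈ Finset.range k.natAbs,
      (g ^ (j : ℤ)) '' (K (Function.surjInv hs m)) := by
    refine (eq_univ_of_forall fun y => ?_).symm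
    have hy : p y ∈ ⋃ m ∈ t, p '' (K (Function.surjInv hs m)) := by rw [ht]; trivial
    obtain ⟨m, hm, z, hz, hzy⟩ := mem_iUnion₂.1 hy
    obtain ⟨n, hn⟩ := (hf _ _).1 hzy
    refine mem_iUnion₂.2 ⟨m, hm, mem_iUnion₂.2 ⟨(n % k).toNat, ?_, z, hz, ?_⟩⟩
    · rw [Finset.mem_range]
      have h1 := Int.emod_nonneg n hk0
      have h2 := Int.emod_lt_abs n hk0
      rw [Int.abs_eq_natAbs] at h2
      omega
    · rw [Int.toNat_of_nonneg (Int.emod_nonneg n hk0), hn]
      have h3 : g ^ n = g ^ (n % k) := by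
        conv_lhs => rw [← Int.emod_add_mul_ediv n k]
        rw [zpow_add, zpow_mul, hgk, one_zpow, mul_one]
      rw [h3]
  rw [hcov]
  exact t.isCompact_biUnion fun m _ => (Finset.range _).isCompact_biUnion fun j _ =>
    (hK1 _).image (g ^ (j : ℤ)).continuous

private theorem isCoveringMap_of_free (hl : IsLocalHomeomorph p)
    (hs : Function.Surjective p) (hf : ∀ x y : V, p x = p y ↔ ∃ n : ℤ, y = (g ^ n) x)
    (hfree : ∀ (k : ℤ) (x : V), (g ^ k) x = x → k = 0) : IsCoveringMap p := by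
  let _ : MulAction (Multiplicative ℤ) V :=
    { smul := fun n x => (g ^ (Multiplicative.toAdd n)) x
      one_smul := fun x => by
        change (g ^ (0 : ℤ)) x = x
        rw [zpow_zero]; rfl
      mul_smul := fun a b x => by
        change (g ^ (Multiplicative.toAdd a + Multiplicative.toAdd b)) x =
          (g ^ (Multiplicative.toAdd a)) ((g ^ (Multiplicative.toAdd b)) x)
        rw [zpow_add]; rfl }
  have hsm : ∀ (n : Multiplicative ℤ) (x : V), n • x = (g ^ (Multiplicative.toAdd n)) x :=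
    fun _ _ => rfl
  have hQ : IsQuotientCoveringMap p (Multiplicative ℤ) :=
    { toIsQuotientMap := hl.isOpenMap.isQuotientMap hl.continuous hs
      continuous_const_smul := fun n => (g ^ (Multiplicative.toAdd n)).continuous
      apply_eq_iff_mem_orbit := by
        intro x y
        constructor
        · intro h
          obtain ⟨n, hn⟩ := (hf _ _).1 h.symm
          exact ⟨Multiplicative.ofAdd n, hn.symm⟩
        · rintro ⟨n, hn⟩
          exact ((hf _ _).2 ⟨Multiplicative.toAdd n, hn.symm⟩).symm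
      disjoint := by
        intro x
        obtain ⟨U, hU, hxU, hinj⟩ := hl.isLocallyInjective x
        refine ⟨U, hU.mem_nhds hxU, ?_⟩
        rintro n ⟨y, ⟨z, hz, rfl⟩, hy⟩
        have h1 : (g ^ (Multiplicative.toAdd n)) z = z :=
          hinj hy hz ((hf _ _).2 ⟨Multiplicative.toAdd n, rfl⟩).symm
        have h2 := hfree _ _ h1
        exact Multiplicative.toAdd.injective h2 }
  exact hQ.isCoveringMap

end Top

private theorem isLocalDiffeomorphAt_congr {f f' : V4 → V4} {x : V4}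
    (h : IsLocalDiffeomorphAt (𝓡 4) (𝓡 4) ∞ f x) (hff : f' =ᶠ[𝓝 x] f) :
    IsLocalDiffeomorphAt (𝓡 4) (𝓡 4) ∞ f' x := by
  obtain ⟨Φ, hx, hΦ⟩ := h
  obtain ⟨U, hU, hUo, hxU⟩ := _root_.eventually_nhds_iff.1 hff
  refine ⟨{ toPartialEquiv := (Φ.toOpenPartialHomeomorph.restrOpen U hUo).toPartialEquiv
            open_source := (Φ.toOpenPartialHomeomorph.restrOpen U hUo).open_source
            open_target := (Φ.toOpenPartialHomeomorph.restrOpen U hUo).open_target
            contMDiffOn_toFun := Φ.contMDiffOn_toFun.mono ?_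
            contMDiffOn_invFun := Φ.contMDiffOn_invFun.mono ?_ }, ?_, ?_⟩
  · intro y hy; exact hy.1
  · intro y hy; exact hy.1
  · exact ⟨hx, hxU⟩
  · intro y hy
    exact (hU y hy.2).trans (hΦ hy.1)

/-- The lifting theorem. -/
theorem lift_main (hsc : SpecSimplyConnected) : SpecLift := by
  intro g g' M M' _ _ _ _ _ _ _ _ _ _ p p' hp hp' F
  -- the punctured space
  have : LocallyCompactSpace V4 := V4.isOpen.isOpenEmbedding_subtypeVal.locallyCompactSpace
  have : LocallyPathConnectedSpace V4 := V4.isOpen.locallyPathConnectedSpace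
  have : SimplyConnectedSpace V4 := hsc E4 (by simp)
  have : NoncompactSpace V4 := by
    refine ⟨fun hcpt => ?_⟩
    have h1 : IsCompact (Subtype.val '' (univ : Set V4)) := hcpt.image continuous_subtype_val
    rw [image_univ, Subtype.range_coe] at h1
    have h2 : IsClopen (V4 : Set E4) := ⟨h1.isClosed, V4.isOpen⟩
    obtain ⟨x⟩ : Nonempty V4 := inferInstance
    have h3 : (V4 : Set E4) = univ := h2.eq_univ ⟨x, x.2⟩
    have h4 : (0 : E4) ∈ (V4 : Set E4) := by rw [h3]; trivial
    exact h4 rfl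
  have hl : IsLocalHomeomorph p := hp.loc.isLocalHomeomorph
  have hl' : IsLocalHomeomorph p' := hp'.loc.isLocalHomeomorph
  have hfree := free_of_noncompact hl hp.surj hp.fib
  have hfree' := free_of_noncompact hl' hp'.surj hp'.fib
  have hc := isCoveringMap_of_free hl hp.surj hp.fib hfree
  have hc' := isCoveringMap_of_free hl' hp'.surj hp'.fib hfree'
  obtain ⟨x₀⟩ : Nonempty V4 := inferInstance
  obtain ⟨y₀, hy₀⟩ := hp'.surj (F (p x₀))
  obtain ⟨Ψ, ⟨hΨ0, hΨ⟩, -⟩ := hc'.existsUnique_continuousMap_lifts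
    (⟨fun x => F (p x), F.continuous.comp hl.continuous⟩ : C(V4, M')) x₀ y₀ hy₀
  obtain ⟨Φ, ⟨hΦ0, hΦ⟩, -⟩ := hc.existsUnique_continuousMap_lifts
    (⟨fun x => F.symm (p' x), F.symm.continuous.comp hl'.continuous⟩ : C(V4, M)) y₀ x₀
      (by
        change p x₀ = F.symm (p' y₀)
        rw [hy₀, F.symm_apply_apply])
  have hΨ' : ∀ x, p' (Ψ x) = F (p x) := fun x => congrFun hΨ x
  have hΦ' : ∀ x, p (Φ x) = F.symm (p' x) := fun x => congrFun hΦ x
  have h1 : (fun x => Φ (Ψ x)) = fun x => x :=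
    hc.eq_of_comp_eq (Φ.continuous.comp Ψ.continuous) continuous_id
      (by
        funext x
        change p (Φ (Ψ x)) = p x
        rw [hΦ', hΨ', F.symm_apply_apply]) x₀ (by
        rw [hΨ0, hΦ0])
  have h2 : (fun x => Ψ (Φ x)) = fun x => x :=
    hc'.eq_of_comp_eq (Ψ.continuous.comp Φ.continuous) continuous_id
      (by
        funext x
        change p' (Ψ (Φ x)) = p' x
        rw [hΨ', hΦ', F.apply_symm_apply]) y₀ (by
        rw [hΦ0, hΨ0])
  let Ψh : V4 ≃ₜ V4 :=
    { toFun := Ψ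
      invFun := Φ
      left_inv := fun x => congrFun h1 x
      right_inv := fun x => congrFun h2 x
      continuous_toFun := Ψ.continuous
      continuous_invFun := Φ.continuous }
  have hΨh : ∀ x, Ψh x = Ψ x := fun _ => rfl
  have hΦh : ∀ x, Ψh⁻¹ x = Φ x := fun _ => rfl
  -- equivariance
  have key : ∃ n : ℤ, Ψh * g = g' ^ n * Ψh := by
    obtain ⟨n, hn⟩ := (hp'.fib (Ψ x₀) (Ψ (g x₀))).1 (by
      rw [hΨ', hΨ']
      congr 1
      exact (hp.fib _ _).2 ⟨1, by rw [zpow_one]⟩)
    refine ⟨n, Homeomorph.ext fun x => ?_⟩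
    have h3 : (fun x => Ψ (g x)) = fun x => (g' ^ n) (Ψ x) :=
      hc'.eq_of_comp_eq (Ψ.continuous.comp g.continuous) ((g' ^ n).continuous.comp Ψ.continuous)
        (by
          funext x
          change p' (Ψ (g x)) = p' ((g' ^ n) (Ψ x))
          rw [hΨ', ← (hp'.fib (Ψ x) _).2 ⟨n, rfl⟩, hΨ']
          congr 1
          exact ((hp.fib _ _).2 ⟨1, by rw [zpow_one]⟩).symm) x₀ hn
    exact congrFun h3 x
  have key' : ∃ m : ℤ, Ψh⁻¹ * g' = g ^ m * Ψh⁻¹ := by
    obtain ⟨m, hm⟩ := (hp.fib (Φ y₀) (Φ (g' y₀))).1 (by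
      rw [hΦ', hΦ']
      congr 1
      exact (hp'.fib _ _).2 ⟨1, by rw [zpow_one]⟩)
    refine ⟨m, Homeomorph.ext fun x => ?_⟩
    have h3 : (fun x => Φ (g' x)) = fun x => (g ^ m) (Φ x) :=
      hc.eq_of_comp_eq (Φ.continuous.comp g'.continuous) ((g ^ m).continuous.comp Φ.continuous)
        (by
          funext x
          change p (Φ (g' x)) = p ((g ^ m) (Φ x))
          rw [hΦ', ← (hp.fib (Φ x) _).2 ⟨m, rfl⟩, hΦ']
          congr 1
          exact ((hp'.fib _ _).2 ⟨1, by rw [zpow_one]⟩).symm) y₀ hm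
    exact congrFun h3 x
  obtain ⟨n, hn⟩ := key
  obtain ⟨m, hm⟩ := key'
  have hn' : Ψh * g * Ψh⁻¹ = g' ^ n := by rw [hn]; group
  have hm' : Ψh⁻¹ * g' * Ψh = g ^ m := by rw [hm]; group
  have hnm : n * m = 1 := by
    have h4 : g' = g' ^ (n * m) := by
      calc g' = Ψh * (Ψh⁻¹ * g' * Ψh) * Ψh⁻¹ := by group
        _ = Ψh * g ^ m * Ψh⁻¹ := by rw [hm']
        _ = (Ψh * g * Ψh⁻¹) ^ m := by rw [conj_zpow]
        _ = (g' ^ n) ^ m := by rw [hn']
        _ = g' ^ (n * m) := by rw [zpow_mul]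
    have h5 : g' ^ (n * m - 1) = 1 := by
      rw [zpow_sub, ← h4, zpow_one]; group
    have h6 := hfree' (n * m - 1) x₀ (by rw [h5]; rfl)
    omega
  refine ⟨Ψh, ?_, hΨ', ?_⟩
  · intro x
    have hq := hp'.loc (Ψ x)
    have hFp : IsLocalDiffeomorphAt (𝓡 4) (𝓡 4) ∞ (fun y => F (p y)) x :=
      (hp.loc x).comp (𝓡 4) M' (F.isLocalDiffeomorph (p x))
    have hq2 := hq.localInverse_isLocalDiffeomorphAt
    have h7 : IsLocalDiffeomorphAt (𝓡 4) (𝓡 4) ∞ (fun y => hq.localInverse (F (p y))) x := by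
      refine hFp.comp (𝓡 4) V4 (g := hq.localInverse) ?_
      rw [← hΨ' x]
      exact hq2
    refine isLocalDiffeomorphAt_congr h7 ?_
    have h8 := hq.localInverse_eventuallyEq_left
    have h9 : ∀ᶠ y in 𝓝 x, (hq.localInverse ∘ p') (Ψ y) = id (Ψ y) :=
      Ψ.continuous.continuousAt.eventually h8
    filter_upwards [h9] with y hy
    rw [← hΨ' y]
    exact hy.symm
  · rcases Int.mul_eq_one_iff_eq_one_or_neg_one.1 hnm with h | h
    · left; rw [hn', h.1, zpow_one]
    · right; rw [hn', h.1, zpow_neg, zpow_one]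

end Pool.Agent.HopfCov
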