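import Pool.Agent.HopfCov.Basic

/-!
# Statements of the second round of packages of the library `HopfCov` (owner helper45)
-/

set_option autoImplicit false

open scoped ContDiff Topology Manifold
open Set Filter Metric

namespace Pool.Agent.HopfCov

/-- HC7a: the generator of the deck group is a local diffeomorphism -/
def SpecOrbitLoc : Prop :=
  ∀ (g : V4 ≃ₜ V4) (M : Type) [TopologicalSpace M] [ChartedSpace E4 M] [IsManifold (𝓡 4) ∞ M]
    (p : V4 → M), OrbitMap g p → IsLocalDiffeomorph (𝓡 4) (𝓡 4) ∞ g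

/-- HC7b: a homeomorphism of `E4` which extends a diffeomorphism of the punctured space
is a punctured diffeomorphism with constant sign -/
def SpecPD : Prop :=
  ∀ (Ψ : V4 ≃ₜ V4), IsLocalDiffeomorph (𝓡 4) (𝓡 4) ∞ Ψ → ∀ H : E4 ≃ₜ E4, H 0 = 0 →
    (∀ x : V4, H x = Ψ x) → PD 1 H ∨ PD (-1) H

/-- HC7c: a homeomorphism of `E4` fixing the origin restricts to the punctured space, and
the restriction is a local diffeomorphism where the jacobian condition holds near the point -/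
def SpecRestr : Prop :=
  ∀ H : E4 ≃ₜ E4, H 0 = 0 → ∃ Ψ : V4 ≃ₜ V4, (∀ x : V4, (Ψ x : E4) = H x) ∧
    (∀ x : V4, ((Ψ⁻¹ : V4 ≃ₜ V4) x : E4) = (H⁻¹ : E4 ≃ₜ E4) x) ∧
    ∀ x : V4, (∀ᶠ y in 𝓝 (x : E4), LD 1 H y) → IsLocalDiffeomorphAt (𝓡 4) (𝓡 4) ∞ Ψ x

/-- HC8 (helper29): a diffeomorphism `ψ` of the punctured space (with inverse `φ`, both given as
functions on `E`) which exchanges the two ends and conjugates `h⁻¹` to `k`: the classes of `h` and
`k` agree. -/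
def SpecEndSwap : Prop :=
  ∀ (E : Type) [NormedAddCommGroup E] [InnerProductSpace ℝ E] [FiniteDimensional ℝ E]
    (_ : 1 < Module.finrank ℝ E) (h k : E ≃ₜ E), PD 1 h → PD 1 k → ∀ ψ φ : E → E,
    (∀ x, x ≠ 0 → ψ x ≠ 0 ∧ φ (ψ x) = x ∧ LD 1 ψ x) →
    (∀ x, x ≠ 0 → φ x ≠ 0 ∧ ψ (φ x) = x ∧ LD 1 φ x) →
    Tendsto ψ (𝓝[≠] 0) (cocompact E) → Tendsto φ (𝓝[≠] 0) (cocompact E) →
    Tendsto ψ (cocompact E) (𝓝 0) → Tendsto φ (cocompact E) (𝓝 0) →
    (∀ x, x ≠ 0 → k (ψ x) = ψ ((h⁻¹ : E ≃ₜ E) x)) → Ext (k⁻¹ * h)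

end Pool.Agent.HopfCov
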