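import Pool.Agent.HopfCov.Spec

/-!
# Exchanging two points by translations, and radial contractions
-/

set_option autoImplicit false
set_option linter.unusedSectionVars false

open scoped ContDiff Topology Manifold RealInnerProductSpace
open Set Filter Metric

namespace Pool.Agent.HopfCov

section Det

variable {E : Type*} [NormedAddCommGroup E] [NormedSpace ℝ E] [FiniteDimensional ℝ E]

/-- a smooth map with invertible derivative everywhere, which preserves the orientation at one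
point, preserves it everywhere -/
private theorem swap_LD_of_det {h : E → E} (h1 : ContDiff ℝ ∞ h)
    (h2 : ∀ x, (fderiv ℝ h x).det ≠ 0) {x₀ : E} (h3 : 0 < (fderiv ℝ h x₀).det) (x : E) :
    LD 1 h x := by
  refine ⟨h1.contDiffAt, ?_⟩
  rw [one_mul]
  by_contra hcon
  have hcont : Continuous fun y => (fderiv ℝ h y).det :=
    ContinuousLinearMap.continuous_det.comp (h1.continuous_fderiv (by simp))
  obtain ⟨y, hy⟩ := mem_range_of_exists_le_of_exists_ge hcont ⟨x, not_lt.1 hcon⟩ ⟨x₀, h3.le⟩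
  exact h2 y hy

/-- a diffeomorphism which is the identity near one point preserves the orientation -/
private theorem swap_LD_of_inv {h g : E → E} (h1 : ContDiff ℝ ∞ h) (g1 : ContDiff ℝ ∞ g)
    (hgh : ∀ x, g (h x) = x) {x₀ : E} (h3 : ∀ᶠ x in 𝓝 x₀, h x = x) (x : E) : LD 1 h x := by
  refine swap_LD_of_det (x₀ := x₀) h1 (fun y => ?_) ?_ x
  · have hc : HasFDerivAt (fun z => g (h z)) ((fderiv ℝ g (h y)).comp (fderiv ℝ h y)) y :=
      ((g1.differentiable (by simp)).differentiableAt.hasFDerivAt).comp y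
        ((h1.differentiable (by simp)).differentiableAt.hasFDerivAt)
    have hid : (fun z => g (h z)) = fun z => z := funext hgh
    have hc' := hc.fderiv
    rw [hid, fderiv_fun_id] at hc'
    intro h0
    have h4 := congrArg ContinuousLinearMap.det hc'
    rw [det_comp_clm, h0, mul_zero] at h4
    simp [ContinuousLinearMap.det] at h4
  · have h4 : fderiv ℝ h x₀ = fderiv ℝ (fun z => z) x₀ := Filter.EventuallyEq.fderiv_eq h3
    rw [h4, fderiv_fun_id]
    simp [ContinuousLinearMap.det]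

end Det

variable {E : Type} [NormedAddCommGroup E] [InnerProductSpace ℝ E] [FiniteDimensional ℝ E]

/-- rotation by the angle `t` in the plane of `u`, `v` -/
private noncomputable def swapRot (u v : E) (t : ℝ) (y : E) : E :=
  y + ((Real.cos t - 1) * ⟪u, y⟫ - Real.sin t * ⟪v, y⟫) • u +
    ((Real.cos t - 1) * ⟪v, y⟫ + Real.sin t * ⟪u, y⟫) • v

private theorem swapRot_zero (u v y : E) : swapRot u v 0 y = y := by
  simp [swapRot]

section Rot

variable {u v : E} (hu : ‖u‖ = 1) (hv : ‖v‖ = 1) (huv : ⟪u, v⟫ = 0)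

include hu hv huv

private theorem inner_u_swapRot (t : ℝ) (y : E) :
    ⟪u, swapRot u v t y⟫ = Real.cos t * ⟪u, y⟫ - Real.sin t * ⟪v, y⟫ := by
  unfold swapRot
  rw [inner_add_right, inner_add_right, inner_smul_right, inner_smul_right,
    real_inner_self_eq_norm_sq, hu, huv]
  ring

private theorem inner_v_swapRot (t : ℝ) (y : E) :
    ⟪v, swapRot u v t y⟫ = Real.cos t * ⟪v, y⟫ + Real.sin t * ⟪u, y⟫ := by
  unfold swapRot
  rw [inner_add_right, inner_add_right, inner_smul_right, inner_smul_right,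
    real_inner_self_eq_norm_sq, hv, real_inner_comm u v, huv]
  ring

private theorem swapRot_swapRot (s t : ℝ) (y : E) :
    swapRot u v s (swapRot u v t y) = swapRot u v (s + t) y := by
  conv_lhs => rw [swapRot]
  rw [inner_u_swapRot hu hv huv, inner_v_swapRot hu hv huv]
  unfold swapRot
  rw [Real.cos_add, Real.sin_add]
  module

private theorem norm_swapRot (t : ℝ) (y : E) : ‖swapRot u v t y‖ ^ 2 = ‖y‖ ^ 2 := by
  have h1 : ⟪swapRot u v t y, swapRot u v t y⟫ = ⟪y, y⟫ := by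
    conv_lhs => rw [swapRot, inner_add_left, inner_add_left, inner_smul_left, inner_smul_left]
    rw [← swapRot, inner_u_swapRot hu hv huv, inner_v_swapRot hu hv huv]
    have h2 : ⟪y, swapRot u v t y⟫ = ⟪y, y⟫ +
        ((Real.cos t - 1) * ⟪u, y⟫ - Real.sin t * ⟪v, y⟫) * ⟪u, y⟫ +
        ((Real.cos t - 1) * ⟪v, y⟫ + Real.sin t * ⟪u, y⟫) * ⟪v, y⟫ := by
      rw [swapRot, inner_add_right, inner_add_right, inner_smul_right, inner_smul_right,
        real_inner_comm u y, real_inner_comm v y]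
    rw [h2]
    simp only [conj_trivial]
    have h3 := Real.sin_sq_add_cos_sq t
    linear_combination (⟪u, y⟫ ^ 2 + ⟪v, y⟫ ^ 2) * h3
  rwa [real_inner_self_eq_norm_sq, real_inner_self_eq_norm_sq] at h1

end Rot

private theorem swap_exists_orthogonal (h : 1 < Module.finrank ℝ E) (u : E) :
    ∃ v : E, ‖v‖ = 1 ∧ ⟪u, v⟫ = 0 := by
  have h1 := Submodule.finrank_add_finrank_orthogonal (ℝ ∙ u)
  have h2 : Module.finrank ℝ (ℝ ∙ u) ≤ 1 := by
    have := finrank_span_le_card (R := ℝ) ({u} : Set E)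
    simpa using this
  have h3 : (ℝ ∙ u)ᗮ ≠ ⊥ := by
    intro h4
    rw [h4, finrank_bot] at h1
    omega
  obtain ⟨w, hw, hw0⟩ := Submodule.exists_mem_ne_zero_of_ne_bot h3
  refine ⟨‖w‖⁻¹ • w, ?_, ?_⟩
  · rw [norm_smul, norm_inv, norm_norm, inv_mul_cancel₀ (norm_ne_zero_iff.2 hw0)]
  · rw [inner_smul_right, Submodule.mem_orthogonal_singleton_iff_inner_right.1 hw, mul_zero]

/-- a smooth function which is `c` for `r ≤ A` and `0` for `r ≥ B` -/
private theorem swap_cutoff (c : ℝ) {A B : ℝ} (hAB : A < B) : ∃ θ : ℝ → ℝ, ContDiff ℝ ∞ θ ∧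
    (∀ r ≤ A, θ r = c) ∧ ∀ r, B ≤ r → θ r = 0 := by
  refine ⟨fun r => c * (1 - Real.smoothTransition ((r - A) / (B - A))), ?_, fun r hr => ?_,
    fun r hr => ?_⟩
  · exact contDiff_const.mul (contDiff_const.sub (Real.smoothTransition.contDiff.comp
      ((contDiff_id.sub contDiff_const).div_const _)))
  · have : (r - A) / (B - A) ≤ 0 := div_nonpos_of_nonpos_of_nonneg (by linarith) (by linarith)
    simp [Real.smoothTransition.zero_of_nonpos this]
  · have : 1 ≤ (r - A) / (B - A) := by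
      rw [le_div_iff₀ (by linarith)]
      linarith
    simp [Real.smoothTransition.one_of_one_le this]

private theorem swap_twist_contDiff (u v m : E) {θ : ℝ → ℝ} (hθ : ContDiff ℝ ∞ θ) :
    ContDiff ℝ ∞ fun x : E => m + swapRot u v (θ (‖x - m‖ ^ 2)) (x - m) := by
  have h1 : ContDiff ℝ ∞ fun x : E => x - m := contDiff_id.sub contDiff_const
  have h2 : ContDiff ℝ ∞ fun x : E => θ (‖x - m‖ ^ 2) := hθ.comp (h1.norm_sq ℝ)
  have h3 : ContDiff ℝ ∞ fun x : E => Real.cos (θ (‖x - m‖ ^ 2)) := Real.contDiff_cos.comp h2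
  have h4 : ContDiff ℝ ∞ fun x : E => Real.sin (θ (‖x - m‖ ^ 2)) := Real.contDiff_sin.comp h2
  have h5 : ∀ w : E, ContDiff ℝ ∞ fun x : E => ⟪w, x - m⟫ := fun w => contDiff_const.inner ℝ h1
  unfold swapRot
  exact contDiff_const.add ((h1.add ((((h3.sub contDiff_const).mul (h5 u)).sub
    (h4.mul (h5 v))).smul contDiff_const)).add ((((h3.sub contDiff_const).mul (h5 v)).add
    (h4.mul (h5 u))).smul contDiff_const))

/-- a twist around the point `m` -/
private theorem swap_exists_twist {u v : E} (hu : ‖u‖ = 1) (hv : ‖v‖ = 1) (huv : ⟪u, v⟫ = 0)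
    (m : E) {A B : ℝ} (hAB : A < B) (hB : 0 < B) : ∃ T : E ≃ₜ E, (∀ x, LD 1 T x) ∧
      (∀ x, ‖x - m‖ ^ 2 ≤ A → T x = m + swapRot u v Real.pi (x - m)) ∧
      ∀ x, B ≤ ‖x - m‖ ^ 2 → T x = x := by
  obtain ⟨θ, hθ, hθA, hθB⟩ := swap_cutoff Real.pi hAB
  have hT := swap_twist_contDiff u v m hθ
  have hT' := swap_twist_contDiff u v m hθ.neg
  have key : ∀ (s : ℝ → ℝ) (x : E),
      m + swapRot u v (-s (‖m + swapRot u v (s (‖x - m‖ ^ 2)) (x - m) - m‖ ^ 2))
        (m + swapRot u v (s (‖x - m‖ ^ 2)) (x - m) - m) = x := by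
    intro s x
    rw [add_sub_cancel_left, norm_swapRot hu hv huv, swapRot_swapRot hu hv huv,
      neg_add_cancel, swapRot_zero]
    exact add_sub_cancel m x
  have hTT' : ∀ x, m + swapRot u v (-θ (‖m + swapRot u v (θ (‖x - m‖ ^ 2)) (x - m) - m‖ ^ 2))
        (m + swapRot u v (θ (‖x - m‖ ^ 2)) (x - m) - m) = x := key θ
  have hT'T : ∀ x, m + swapRot u v (θ (‖m + swapRot u v (-θ (‖x - m‖ ^ 2)) (x - m) - m‖ ^ 2))
        (m + swapRot u v (-θ (‖x - m‖ ^ 2)) (x - m) - m) = x := by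
    intro x
    have h := key (fun r => -θ r) x
    simp only [neg_neg] at h
    exact h
  have hfar : ∀ x, B ≤ ‖x - m‖ ^ 2 → m + swapRot u v (θ (‖x - m‖ ^ 2)) (x - m) = x := by
    intro x hx
    rw [hθB _ hx, swapRot_zero]
    exact add_sub_cancel m x
  refine ⟨⟨⟨fun x => m + swapRot u v (θ (‖x - m‖ ^ 2)) (x - m),
    fun x => m + swapRot u v (-θ (‖x - m‖ ^ 2)) (x - m), hTT', hT'T⟩,
    hT.continuous, hT'.continuous⟩, ?_, ?_, hfar⟩
  · have h1 : ∀ᶠ x in 𝓝 (m + (B + 1) • u), B < ‖x - m‖ ^ 2 := by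
      have hc : Continuous fun x : E => ‖x - m‖ ^ 2 := by fun_prop
      apply (hc.tendsto _).eventually_const_lt
      rw [add_sub_cancel_left, norm_smul, hu, mul_one, Real.norm_eq_abs,
        abs_of_pos (by linarith)]
      nlinarith
    exact swap_LD_of_inv hT hT' hTT' (h1.mono fun x hx => hfar x hx.le)
  · intro x hx
    change m + swapRot u v (θ (‖x - m‖ ^ 2)) (x - m) = _
    rw [hθA _ hx]

/-- `T` is `x ↦ p + R x` near `0` and `x ↦ R (x - p)` near `p`, with `R` an involution; correct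
it by germs of diffeomorphisms -/
private theorem swap_correct (hg : SpecGermFix) (p : E) (hp : p ≠ 0) (T : E ≃ₜ E)
    (hTLD : ∀ x, LD 1 T x) (R : E → E) (hR0 : R 0 = 0) (hRR : ∀ y, R (R y) = y)
    (hT0 : ∀ᶠ x in 𝓝 (0 : E), T x = p + R x) (hTp : ∀ᶠ x in 𝓝 p, T x = R (x - p))
    (hcs : ∀ x, 2 * ‖p‖ < ‖x‖ → T x = x) :
    ∃ K : E ≃ₜ E, (∀ x, LD 1 K x) ∧ (∀ᶠ x in 𝓝 (0 : E), K x = x + p) ∧
      (∀ᶠ x in 𝓝 p, K x = x - p) ∧ CS K := by
  have hppos : 0 < ‖p‖ := norm_pos_iff.2 hp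
  have hφ₀ : ∀ᶠ x in 𝓝 (0 : E), LD 1 (fun z => T z - p) x := by
    refine Eventually.of_forall fun x => ?_
    have := (LD_sub_const p (T x)).comp (hTLD x)
    rwa [one_mul] at this
  have hφ₀R : ∀ᶠ z in 𝓝 (0 : E), T z - p = R z := by
    filter_upwards [hT0] with z hz
    rw [hz, add_sub_cancel_left]
  have hφ₀0 : T 0 - p = 0 := by
    rw [hφ₀R.self_of_nhds, hR0]
  have hφ₁ : ∀ᶠ x in 𝓝 p, LD 1 (fun z => T z + p) x := by
    refine Eventually.of_forall fun x => ?_
    have := (LD_add_const p (T x)).comp (hTLD x)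
    rwa [one_mul] at this
  have hφ₁R : ∀ᶠ z in 𝓝 p, T z + p = p + R (z - p) := by
    filter_upwards [hTp] with z hz
    rw [hz, add_comm]
  have hφ₁p : T p + p = p := by
    rw [hφ₁R.self_of_nhds, sub_self, hR0, add_zero]
  have hr : 0 < ‖p‖ / 3 := by linarith
  obtain ⟨H₀, a1, a2, a3⟩ := hg E _ 0 hφ₀ hφ₀0 (ball 0 (‖p‖ / 3)) (ball_mem_nhds _ hr)
  obtain ⟨H₁, b1, b2, b3⟩ := hg E _ p hφ₁ hφ₁p (ball p (‖p‖ / 3)) (ball_mem_nhds _ hr)
  have hdisj : ∀ x, x ∈ ball (0 : E) (‖p‖ / 3) → x ∉ ball p (‖p‖ / 3) := by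
    intro x hx hx'
    rw [mem_ball, dist_zero_right] at hx
    rw [mem_ball, dist_eq_norm] at hx'
    have h1 : ‖p‖ ≤ ‖x‖ + ‖x - p‖ := by
      calc ‖p‖ = ‖x - (x - p)‖ := by rw [sub_sub_cancel]
        _ ≤ ‖x‖ + ‖x - p‖ := norm_sub_le _ _
    linarith
  have hH₀p : ∀ᶠ z in 𝓝 p, H₀ z = z := by
    filter_upwards [ball_mem_nhds p hr] with z hz
    exact a3 z fun h => hdisj z h hz
  have hH₁0 : ∀ᶠ z in 𝓝 (0 : E), H₁ z = z := by
    filter_upwards [ball_mem_nhds (0 : E) hr] with z hz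
    exact b3 z (hdisj z hz)
  refine ⟨(T.trans H₁).trans H₀, fun x => ?_, ?_, ?_, ?_⟩
  · have h1 : LD 1 (H₁ ∘ T) x := by
      have := (b1 (T x)).comp (hTLD x)
      rwa [one_mul] at this
    have h2 := LD.comp (g := H₀) (f := H₁ ∘ T) (a1 _) h1
    rw [one_mul] at h2
    exact h2
  · have h1 : Tendsto T (𝓝 0) (𝓝 p) := by
      have h2 : T 0 = p := by rw [hT0.self_of_nhds, hR0, add_zero]
      have h3 := T.continuous.tendsto 0
      rwa [h2] at h3
    have h4 : Tendsto (fun x : E => x + p) (𝓝 0) (𝓝 p) := by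
      have : Tendsto (fun x : E => x + p) (𝓝 0) (𝓝 (0 + p)) :=
        (continuous_id.add continuous_const).tendsto 0
      rwa [zero_add] at this
    filter_upwards [h1.eventually b2, h1.eventually hφ₁R, hT0, h4.eventually hH₀p]
      with x h5 h6 h7 h8
    change H₀ (H₁ (T x)) = x + p
    have h9 : H₁ (T x) = x + p := by
      rw [h5, h6, h7, add_sub_cancel_left, hRR, add_comm]
    rw [h9, h8]
  · have h1 : Tendsto T (𝓝 p) (𝓝 0) := by
      have h2 : T p = 0 := by rw [hTp.self_of_nhds, sub_self, hR0]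
      have h3 := T.continuous.tendsto p
      rwa [h2] at h3
    filter_upwards [h1.eventually a2, h1.eventually hφ₀R, hTp, h1.eventually hH₁0]
      with x h5 h6 h7 h8
    change H₀ (H₁ (T x)) = x - p
    rw [h8, h5, h6, h7, hRR]
  · have h1 : (closedBall (0 : E) (2 * ‖p‖))ᶜ ∈ cocompact E :=
      (isCompact_closedBall _ _).compl_mem_cocompact
    filter_upwards [h1] with x hx
    have h2 : 2 * ‖p‖ < ‖x‖ := by
      rw [mem_compl_iff, mem_closedBall, dist_zero_right, not_le] at hx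
      exact hx
    have h6 : x ∉ ball p (‖p‖ / 3) := by
      intro h
      rw [mem_ball, dist_eq_norm] at h
      have h4 : ‖x‖ ≤ ‖x - p‖ + ‖p‖ := by
        calc ‖x‖ = ‖(x - p) + p‖ := by rw [sub_add_cancel]
          _ ≤ _ := norm_add_le _ _
      linarith
    have h7 : x ∉ ball (0 : E) (‖p‖ / 3) := by
      intro h
      rw [mem_ball, dist_zero_right] at h
      linarith
    change H₀ (H₁ (T x)) = x
    rw [hcs x h2, b3 x h6, a3 x h7]

private theorem swapRot_pi_add (u v y z : E) : swapRot u v Real.pi (y + z) =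
    swapRot u v Real.pi y + swapRot u v Real.pi z := by
  unfold swapRot
  rw [Real.cos_pi, Real.sin_pi, inner_add_right, inner_add_right]
  module

private theorem swapRot_pi_neg (u v y : E) : swapRot u v Real.pi (-y) =
    -swapRot u v Real.pi y := by
  unfold swapRot
  rw [inner_neg_right, inner_neg_right]
  module

/-- P4b: a compactly supported diffeomorphism exchanging two points by translations -/
theorem spec_swap (hg : SpecGermFix) : SpecSwap := by
  intro E _ _ _ hdim p hp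
  obtain ⟨v, hv, huv⟩ := swap_exists_orthogonal hdim (‖p‖⁻¹ • p)
  have hp0 : ‖p‖ ≠ 0 := norm_ne_zero_iff.2 hp
  have hppos : 0 < ‖p‖ := norm_pos_iff.2 hp
  have hu : ‖(‖p‖⁻¹ • p)‖ = 1 := by
    rw [norm_smul, norm_inv, norm_norm, inv_mul_cancel₀ hp0]
  obtain ⟨m, hm⟩ : ∃ m : E, m = (2⁻¹ : ℝ) • p := ⟨_, rfl⟩
  have hmu : m = (‖p‖ / 2) • (‖p‖⁻¹ • p) := by
    rw [hm, smul_smul]
    congr 1
    field_simp
  obtain ⟨u, hudef⟩ : ∃ u : E, u = ‖p‖⁻¹ • p := ⟨_, rfl⟩
  rw [← hudef] at hu huv hmu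
  have hsq : 0 < ‖p‖ ^ 2 := pow_pos hppos 2
  obtain ⟨T, hTLD, hnear, hfar⟩ := swap_exists_twist hu hv huv m
    (A := ‖p‖ ^ 2 / 2) (B := ‖p‖ ^ 2) (by linarith) hsq
  have hmnorm : ‖m‖ = ‖p‖ / 2 := by
    rw [hm, norm_smul, Real.norm_eq_abs, abs_of_pos (by norm_num)]
    ring
  have hRm : swapRot u v Real.pi m = -m := by
    unfold swapRot
    rw [hmu, inner_smul_right, inner_smul_right, real_inner_self_eq_norm_sq, hu,
      real_inner_comm u v, huv, Real.cos_pi, Real.sin_pi]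
    module
  have hRR : ∀ y : E, swapRot u v Real.pi (swapRot u v Real.pi y) = y := by
    intro y
    rw [swapRot_swapRot hu hv huv]
    unfold swapRot
    have h1 : Real.pi + Real.pi = 2 * Real.pi := by ring
    rw [h1, Real.cos_two_pi, Real.sin_two_pi]
    simp
  have hmm : m + m = p := by
    rw [hm, ← add_smul]
    norm_num
  have hR0 : swapRot u v Real.pi (0 : E) = 0 := by
    unfold swapRot
    simp
  refine swap_correct hg p hp T hTLD (swapRot u v Real.pi) hR0 hRR ?_ ?_ ?_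
  · have h1 : ∀ᶠ x in 𝓝 (0 : E), ‖x - m‖ ^ 2 < ‖p‖ ^ 2 / 2 := by
      have hc : Continuous fun x : E => ‖x - m‖ ^ 2 := by fun_prop
      apply (hc.tendsto _).eventually_lt_const
      rw [zero_sub, norm_neg, hmnorm]
      nlinarith
    filter_upwards [h1] with x hx
    rw [hnear x hx.le, sub_eq_add_neg, swapRot_pi_add, swapRot_pi_neg, hRm, _root_.neg_neg,
      add_comm _ m, ← add_assoc, hmm]
  · have h1 : ∀ᶠ x in 𝓝 p, ‖x - m‖ ^ 2 < ‖p‖ ^ 2 / 2 := by
      have hc : Continuous fun x : E => ‖x - m‖ ^ 2 := by fun_prop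
      apply (hc.tendsto _).eventually_lt_const
      have h2 : p - m = m := by rw [← hmm, add_sub_cancel_right]
      rw [h2, hmnorm]
      nlinarith
    filter_upwards [h1] with x hx
    have h2 : x - m = (x - p) + m := by
      rw [← hmm]
      abel
    rw [hnear x hx.le, h2, swapRot_pi_add, hRm]
    abel
  · intro x hx
    apply hfar
    apply pow_le_pow_left₀ hppos.le
    have h4 : ‖x‖ ≤ ‖x - m‖ + ‖m‖ := by
      calc ‖x‖ = ‖(x - m) + m‖ := by rw [sub_add_cancel]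
        _ ≤ _ := norm_add_le _ _
    linarith

/-! ### Radial contractions -/

/-- an increasing smooth function which is `ε` for `r ≤ A` and `1` for `r ≥ B` -/
private theorem radial_cutoff {ε A B : ℝ} (hε : ε ≤ 1) (hAB : A < B) : ∃ l : ℝ → ℝ,
    ContDiff ℝ ∞ l ∧ Monotone l ∧ (∀ r, ε ≤ l r) ∧ (∀ r ≤ A, l r = ε) ∧ ∀ r, B ≤ r → l r = 1 := by
  refine ⟨fun r => ε + (1 - ε) * Real.smoothTransition ((r - A) / (B - A)), ?_, ?_, fun r => ?_,
    fun r hr => ?_, fun r hr => ?_⟩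
  · exact contDiff_const.add (contDiff_const.mul (Real.smoothTransition.contDiff.comp
      ((contDiff_id.sub contDiff_const).div_const _)))
  · intro r s hrs
    have h1 : (r - A) / (B - A) ≤ (s - A) / (B - A) :=
      div_le_div_of_nonneg_right (by linarith) (by linarith)
    have h2 := mul_le_mul_of_nonneg_left (Real.smoothTransition.monotone h1)
      (by linarith : 0 ≤ 1 - ε)
    simpa using h2
  · have h1 := mul_nonneg (by linarith : 0 ≤ 1 - ε)
      (Real.smoothTransition.nonneg ((r - A) / (B - A)))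
    linarith
  · have : (r - A) / (B - A) ≤ 0 := div_nonpos_of_nonpos_of_nonneg (by linarith) (by linarith)
    simp [Real.smoothTransition.zero_of_nonpos this]
  · have : 1 ≤ (r - A) / (B - A) := by
      rw [le_div_iff₀ (by linarith)]
      linarith
    simp [Real.smoothTransition.one_of_one_le this]

private theorem radial_hasFDerivAt {l : ℝ → ℝ} (hl : ContDiff ℝ ∞ l) (x : E) :
    HasFDerivAt (fun y : E => l (‖y‖ ^ 2) • y)
      (l (‖x‖ ^ 2) • ContinuousLinearMap.id ℝ E +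
        ((deriv l (‖x‖ ^ 2)) • ((2 : ℝ) • innerSL ℝ x)).smulRight x) x := by
  have h1 : HasFDerivAt (fun y : E => ‖y‖ ^ 2) ((2 : ℝ) • innerSL ℝ x) x := by
    have := (hasStrictFDerivAt_norm_sq x).hasFDerivAt
    convert this using 1
    ext y
    simp [two_smul]
  have h2 : HasDerivAt l (deriv l (‖x‖ ^ 2)) (‖x‖ ^ 2) :=
    (hl.differentiable (by simp)).differentiableAt.hasDerivAt
  have h3 := h2.comp_hasFDerivAt x h1
  exact h3.smul (hasFDerivAt_id x)

private theorem radial_det {l : ℝ → ℝ} (hl : ContDiff ℝ ∞ l) (hmono : Monotone l) {ε : ℝ}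
    (hε : 0 < ε) (hle : ∀ r, ε ≤ l r) (x : E) :
    (fderiv ℝ (fun y : E => l (‖y‖ ^ 2) • y) x).det ≠ 0 := by
  rw [(radial_hasFDerivAt hl x).fderiv]
  intro h0
  have h1 := LinearMap.bot_lt_ker_of_det_eq_zero h0
  obtain ⟨w, hw, hw0⟩ := Submodule.exists_mem_ne_zero_of_ne_bot h1.ne'
  have h2 : l (‖x‖ ^ 2) • w + (deriv l (‖x‖ ^ 2) * (2 * ⟪x, w⟫)) • x = 0 := by
    have h3 := LinearMap.mem_ker.1 hw
    simpa using h3
  have h3 : ⟪l (‖x‖ ^ 2) • w + (deriv l (‖x‖ ^ 2) * (2 * ⟪x, w⟫)) • x, w⟫ = 0 := by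
    rw [h2, inner_zero_left]
  rw [inner_add_left, inner_smul_left, inner_smul_left, real_inner_self_eq_norm_sq] at h3
  simp only [conj_trivial] at h3
  have h4 : 0 ≤ deriv l (‖x‖ ^ 2) := hmono.deriv_nonneg
  have h5 : 0 < l (‖x‖ ^ 2) * ‖w‖ ^ 2 :=
    mul_pos (hε.trans_le (hle _)) (pow_pos (norm_pos_iff.2 hw0) 2)
  have h6 : 0 ≤ deriv l (‖x‖ ^ 2) * (2 * ⟪x, w⟫) * ⟪x, w⟫ := by
    have h7 : deriv l (‖x‖ ^ 2) * (2 * ⟪x, w⟫) * ⟪x, w⟫ =
        deriv l (‖x‖ ^ 2) * (2 * ⟪x, w⟫ ^ 2) := by ring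
    rw [h7]
    exact mul_nonneg h4 (mul_nonneg two_pos.le (sq_nonneg _))
  linarith

/-- P4c: radial contractions -/
theorem spec_radial : SpecRadial := by
  intro E _ _ _ ε a b hε hε1 ha hab
  obtain ⟨l, hl, hmono, hle, hlA, hlB⟩ := radial_cutoff hε1
    (pow_lt_pow_left₀ hab ha.le two_ne_zero)
  have hlpos : ∀ r, 0 < l r := fun r => hε.trans_le (hle r)
  have hs : ContDiff ℝ ∞ fun y : E => l (‖y‖ ^ 2) • y :=
    (hl.comp (contDiff_norm_sq ℝ)).smul contDiff_id
  have hdet := radial_det (E := E) hl hmono hε hle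
  have hnorm : ∀ y : E, ‖l (‖y‖ ^ 2) • y‖ = l (‖y‖ ^ 2) * ‖y‖ := fun y => by
    rw [norm_smul, Real.norm_eq_abs, abs_of_pos (hlpos _)]
  have hstrict : ∀ r s : ℝ, 0 ≤ r → r < s → l (r ^ 2) * r < l (s ^ 2) * s := by
    intro r s hr hrs
    have h1 : l (r ^ 2) ≤ l (s ^ 2) := hmono (pow_le_pow_left₀ hr hrs.le 2)
    calc l (r ^ 2) * r ≤ l (s ^ 2) * r := mul_le_mul_of_nonneg_right h1 hr
      _ < l (s ^ 2) * s := mul_lt_mul_of_pos_left hrs (hlpos _)
  have hinj : Function.Injective fun y : E => l (‖y‖ ^ 2) • y := by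
    intro y z hyz
    have h1 : l (‖y‖ ^ 2) • y = l (‖z‖ ^ 2) • z := hyz
    have h2 : ‖y‖ = ‖z‖ := by
      have h3 : l (‖y‖ ^ 2) * ‖y‖ = l (‖z‖ ^ 2) * ‖z‖ := by
        rw [← hnorm y, ← hnorm z, h1]
      rcases lt_trichotomy ‖y‖ ‖z‖ with h4 | h4 | h4
      · exact absurd h3 (hstrict _ _ (norm_nonneg y) h4).ne
      · exact h4
      · exact absurd h3 (hstrict _ _ (norm_nonneg z) h4).ne'
    rw [h2] at h1
    exact smul_right_injective E (hlpos _).ne' h1
  have hsurj : Function.Surjective fun y : E => l (‖y‖ ^ 2) • y := by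
    intro z
    by_cases hz : z = 0
    · exact ⟨0, by simp [hz]⟩
    have hz0 : 0 < ‖z‖ := norm_pos_iff.2 hz
    have hcont : Continuous fun r : ℝ => l (r ^ 2) * r := by
      have := hl.continuous
      fun_prop
    have hR : l ((max b ‖z‖) ^ 2) * max b ‖z‖ = max b ‖z‖ := by
      rw [hlB _ (pow_le_pow_left₀ (ha.le.trans hab.le) (le_max_left _ _) 2), one_mul]
    obtain ⟨r, hr, hr2⟩ := intermediate_value_Icc (α := ℝ) (f := fun r : ℝ => l (r ^ 2) * r)
      (le_max_of_le_right hz0.le : (0 : ℝ) ≤ max b ‖z‖) hcont.continuousOn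
      (show ‖z‖ ∈ Icc (l ((0 : ℝ) ^ 2) * 0) (l ((max b ‖z‖) ^ 2) * max b ‖z‖) by
        rw [hR, mul_zero]
        exact ⟨hz0.le, le_max_right _ _⟩)
    refine ⟨(r / ‖z‖) • z, ?_⟩
    have h1 : ‖(r / ‖z‖) • z‖ = r := by
      rw [norm_smul, Real.norm_eq_abs, abs_of_nonneg (div_nonneg hr.1 hz0.le),
        div_mul_cancel₀ _ hz0.ne']
    change l (‖(r / ‖z‖) • z‖ ^ 2) • ((r / ‖z‖) • z) = z
    rw [h1, smul_smul, ← mul_div_assoc]
    change ((fun r : ℝ => l (r ^ 2) * r) r / ‖z‖) • z = z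
    rw [hr2, div_self hz0.ne', one_smul]
  have hopen : IsOpenMap fun y : E => l (‖y‖ ^ 2) • y := by
    have hcomplete : CompleteSpace E := FiniteDimensional.complete ℝ E
    refine isOpenMap_of_hasStrictFDerivAt_equiv (𝕜 := ℝ)
      (f' := fun x => (fderiv ℝ (fun y : E => l (‖y‖ ^ 2) • y)
        x).toContinuousLinearEquivOfDetNeZero (hdet x)) fun x => ?_
    rw [ContinuousLinearMap.coe_toContinuousLinearEquivOfDetNeZero]
    exact hs.contDiffAt.hasStrictFDerivAt (by simp)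
  have hpos : 0 < (fderiv ℝ (fun y : E => l (‖y‖ ^ 2) • y) 0).det := by
    rw [(radial_hasFDerivAt hl (0 : E)).fderiv]
    have h1 : l (‖(0 : E)‖ ^ 2) • ContinuousLinearMap.id ℝ E +
        ((deriv l (‖(0 : E)‖ ^ 2)) • ((2 : ℝ) • innerSL ℝ (0 : E))).smulRight (0 : E) =
        l (‖(0 : E)‖ ^ 2) • ContinuousLinearMap.id ℝ E := by
      ext y
      simp
    rw [h1]
    have h2 : (l (‖(0 : E)‖ ^ 2) • ContinuousLinearMap.id ℝ E).det =
        l (‖(0 : E)‖ ^ 2) ^ Module.finrank ℝ E := by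
      simp [ContinuousLinearMap.det]
    rw [h2]
    exact pow_pos (hlpos _) _
  refine ⟨(Equiv.ofBijective _ ⟨hinj, hsurj⟩).toHomeomorphOfContinuousOpen hs.continuous hopen,
    swap_LD_of_det hs hdet hpos, ?_, ?_⟩
  · intro x hx
    change l (‖x‖ ^ 2) • x = ε • x
    rw [hlA _ (pow_le_pow_left₀ (norm_nonneg x) hx 2)]
  · intro x hx
    change l (‖x‖ ^ 2) • x = x
    rw [hlB _ (pow_le_pow_left₀ (ha.le.trans hab.le) hx 2), one_smul]

end Pool.Agent.HopfCov
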