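import Pool.Agent.HopfCov.Core
import Pool.Agent.HopfCov.Spec2
import Pool.Agent.HopfCov.Ends
import Pool.Agent.HopfCov.Contract
import Pool.Agent.HopfCov.SimplyConn
import Pool.Agent.HopfCov.Lift
import Pool.Agent.HopfCov.Descend
import Pool.Agent.HopfCov.Model
import Pool.Agent.HopfCov.Germ
import Pool.Agent.HopfCov.Swap

/-!
# From orbit spaces to punctured diffeomorphisms
-/

set_option autoImplicit false
set_option linter.unusedSectionVars false

open scoped ContDiff Topology Manifold
open Set Filter Metric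

namespace Pool.Agent.HopfCov

theorem hdim4 : 1 < Module.finrank ℝ E4 := by
  rw [finrank_euclideanSpace_fin]; norm_num

theorem hdim4' : 2 < Module.finrank ℝ E4 := by
  rw [finrank_euclideanSpace_fin]; norm_num

theorem hGerm : SpecGermFix := specGermFix
theorem hSwap : SpecSwap := spec_swap specGermFix
theorem hRad : SpecRadial := spec_radial
theorem hLift : SpecLift := lift_main specSimplyConnected
theorem hContract : SpecContract := specContract specEnds

/-- the orbit space of a free action gives a contraction of `ℝ⁴` -/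
theorem exists_contraction (hT1 : SpecOrbitLoc) (hT2 : SpecPD) {g : V4 ≃ₜ V4} {M : Type}
    [TopologicalSpace M] [ChartedSpace E4 M] [IsManifold (𝓡 4) ∞ M] [T2Space M] [CompactSpace M]
    {p : V4 → M} (hp : OrbitMap g p) :
    ∃ G : E4 ≃ₜ E4, (∀ x : V4, G x = g x) ∧ (PD 1 G ∨ PD (-1) G) ∧ (Contr G ∨ Contr G⁻¹) := by
  obtain ⟨G, h0, h1, h2⟩ := hContract E4 hdim4 M g p hp.loc.isLocalHomeomorph hp.surj hp.fib
  exact ⟨G, h1, hT2 g (hT1 g M p hp) G h0 h1, h2⟩

end Pool.Agent.HopfCov
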