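import Pool.Agent.HopfCov.Spec4

/-!
# Orbit spaces: the generator, conjugation, descent
-/

set_option autoImplicit false
set_option linter.unusedSectionVars false

open scoped ContDiff Topology Manifold
open Set Filter Metric

namespace Pool.Agent.HopfCov

section

variable {M : Type} [TopologicalSpace M] [ChartedSpace E4 M] [IsManifold (𝓡 4) ∞ M]

/-- the generator of the deck group can be chosen to be a contraction -/
theorem exists_gen [T2Space M] [CompactSpace M] {g₀ : V4 ≃ₜ V4} {p : V4 → M}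
    (hp : OrbitMap g₀ p) :
    ∃ (g : V4 ≃ₜ V4) (G : E4 ≃ₜ E4), OrbitMap g p ∧ Extends G g ∧ (PD 1 G ∨ PD (-1) G) ∧
      Contr G := by
  obtain ⟨G, h1, h2, h3⟩ := exists_contraction orbitLoc pd hp
  rcases h3 with h3 | h3
  · exact ⟨g₀, G, hp, h1, h2, h3⟩
  · refine ⟨g₀⁻¹, G⁻¹, hp.inv, Extends.inv h1, ?_, h3⟩
    rcases h2 with h2 | h2
    · exact Or.inl h2.inv
    · exact Or.inr h2.inv

/-- change of the orbit map by an equivariant diffeomorphism -/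
theorem OrbitMap.conj {g h Φ : V4 ≃ₜ V4} {p : V4 → M} (hp : OrbitMap g p)
    (hΦ : IsLocalDiffeomorph (𝓡 4) (𝓡 4) ∞ Φ) (hc : Φ * h = g * Φ) :
    OrbitMap h (fun x => p (Φ x)) := by
  refine ⟨fun y => ?_, fun x => ?_, fun x y => ?_⟩
  · obtain ⟨x, hx⟩ := hp.surj y
    exact ⟨Φ.symm x, by simp [hx]⟩
  · exact (hΦ x).comp (K := 𝓡 4) (hg := hp.loc (Φ x))
  · have h1 : SemiconjBy Φ h g := hc
    have h2 : ∀ n : ℤ, Φ ((h ^ n) x) = (g ^ n) (Φ x) := fun n =>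
      DFunLike.congr_fun (h1.zpow_right n).eq x
    rw [hp.fib]
    constructor
    · rintro ⟨n, hn⟩
      refine ⟨n, Φ.injective ?_⟩
      rw [hn, h2]
    · rintro ⟨n, hn⟩
      exact ⟨n, by rw [hn, h2]⟩

end

/-! ### linear isometries -/

/-- a linear isometry as a homeomorphism -/
noncomputable def linH (L : E4 ≃ₗᵢ[ℝ] E4) : E4 ≃ₜ E4 := L.toHomeomorph

theorem linH_apply (L : E4 ≃ₗᵢ[ℝ] E4) (x : E4) : linH L x = L x := rfl

theorem PD_linH {L : E4 ≃ₗᵢ[ℝ] E4} {s : ℝ}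
    (hL : 0 < s * (L.toContinuousLinearEquiv : E4 →L[ℝ] E4).det) : PD s (linH L) := by
  refine ⟨L.map_zero, fun x _ => ?_⟩
  have h1 : (linH L : E4 → E4) = (L.toContinuousLinearEquiv : E4 →L[ℝ] E4) := rfl
  rw [h1]
  exact LD_clm _ hL x

theorem linH_tau (L : E4 ≃ₗᵢ[ℝ] E4) : linH L * tau = tau * linH L := by
  ext1 x
  show L ((2⁻¹ : ℝ) • x) = (2⁻¹ : ℝ) • L x
  exact L.map_smul _ _

/-- a linear isometry which reverses the orientation -/
theorem exists_reflection : ∃ L : E4 ≃ₗᵢ[ℝ] E4,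
    0 < (-1 : ℝ) * (L.toContinuousLinearEquiv : E4 →L[ℝ] E4).det := by
  obtain ⟨v, hv⟩ := exists_ne (0 : E4)
  refine ⟨(ℝ ∙ v)ᗮ.reflection, ?_⟩
  have h1 : (((ℝ ∙ v)ᗮ.reflection.toContinuousLinearEquiv : E4 →L[ℝ] E4)).det = -1 := by
    have h2 := (ℝ ∙ v)ᗮ.det_reflection
    rw [Submodule.orthogonal_orthogonal, finrank_span_singleton hv, pow_one] at h2
    exact h2
  rw [h1]
  norm_num

/-- the sign of a punctured diffeomorphism which commutes with `tau` up to conjugation can be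
changed to `1` -/
theorem fix_sign {t : ℝ} (ht : t * t = 1) {G Φ : E4 ≃ₜ E4} (hΦ : PD t Φ)
    (h : Φ * tau = G * Φ) : ∃ Φ' : E4 ≃ₜ E4, PD 1 Φ' ∧ Φ' * tau = G * Φ' := by
  have ht' : t = 1 ∨ t = -1 := mul_self_eq_one_iff.1 ht
  rcases ht' with rfl | rfl
  · exact ⟨Φ, hΦ, h⟩
  · obtain ⟨L, hL⟩ := exists_reflection
    refine ⟨Φ * linH L, ?_, ?_⟩
    · have := hΦ.mul (PD_linH hL)
      rwa [show (-1 : ℝ) * -1 = 1 by norm_num] at this
    · rw [mul_assoc, linH_tau, ← mul_assoc, h, mul_assoc]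

section

variable {M : Type} [TopologicalSpace M] [ChartedSpace E4 M] [IsManifold (𝓡 4) ∞ M]

/-- restriction of a punctured diffeomorphism to the punctured space -/
theorem exists_restr_LD {K : E4 ≃ₜ E4} (h0 : K 0 = 0) :
    ∃ k : V4 ≃ₜ V4, Extends K k ∧
      ∀ x : V4, (∀ᶠ y in 𝓝 (x : E4), LD 1 K y) → IsLocalDiffeomorphAt (𝓡 4) (𝓡 4) ∞ k x := by
  obtain ⟨Ψ, h1, -, h3⟩ := restr K h0
  exact ⟨Ψ, fun x => (h1 x).symm, h3⟩

theorem V4_eventually_ne (x : V4) : ∀ᶠ y in 𝓝 (x : E4), y ≠ 0 := isOpen_ne.mem_nhds x.2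

theorem exists_restr_PD {K : E4 ≃ₜ E4} (hK : PD 1 K) :
    ∃ k : V4 ≃ₜ V4, Extends K k ∧ IsLocalDiffeomorph (𝓡 4) (𝓡 4) ∞ k := by
  obtain ⟨k, h1, h2⟩ := exists_restr_LD hK.1
  exact ⟨k, h1, fun x => h2 x ((V4_eventually_ne x).mono fun y hy => hK.2 y hy)⟩

/-- the restriction of `tau` -/
theorem exists_tau : ∃ τ : V4 ≃ₜ V4, Extends tau τ ∧
    ∀ x : V4, (τ x : E4) = (2⁻¹ : ℝ) • (x : E4) := by
  obtain ⟨τ, h1, -⟩ := exists_restr_PD PD_tau
  exact ⟨τ, h1, fun x => (h1 x).symm⟩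

/-- an orbit space whose generator is conjugate to `tau` is `S¹ × S³` -/
theorem std_of_conj {g : V4 ≃ₜ V4} {p : V4 → M} (hp : OrbitMap g p) {G Φ : E4 ≃ₜ E4}
    (hG : Extends G g) {t : ℝ} (ht : t * t = 1) (hΦ : PD t Φ) (h : Φ * tau = G * Φ) :
    Nonempty (Diffeomorph (𝓡 4) ((𝓡 1).prod (𝓡 3)) M (Circle × sphere (0 : E4) 1) ∞) := by
  obtain ⟨Φ', h1, h2⟩ := fix_sign ht hΦ h
  obtain ⟨φ, h3, h4⟩ := exists_restr_PD h1
  obtain ⟨τ, h5, h6⟩ := exists_tau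
  have h7 : φ * τ = g * φ := by
    have e1 : Extends (Φ' * tau) (φ * τ) := h3.mul h5
    have e2 : Extends (G * Φ') (g * φ) := hG.mul h3
    rw [h2] at e1
    exact e1.eq_of e2
  exact model τ h6 M _ (hp.conj h4 h7)

/-- an orbit space whose generator is a trapping contraction of trivial class is `S¹ × S³` -/
theorem std_of_ext {g : V4 ≃ₜ V4} {p : V4 → M} (hp : OrbitMap g p) {G : E4 ≃ₜ E4}
    (hG : Extends G g) (h1 : PD 1 G) (h2 : Contr G) (h3 : Trap G) (h4 : Ext G) :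
    Nonempty (Diffeomorph (𝓡 4) ((𝓡 1).prod (𝓡 3)) M (Circle × sphere (0 : E4) 1) ∞) := by
  obtain ⟨Φ, f1, f2⟩ := core_std hGerm hSwap hRad hdim4 h1 h3 h2 h4
  exact std_of_conj hp hG (one_mul 1) f1 f2

end

/-! ### descent to an arbitrary target -/

theorem descend_gen {g g' : V4 ≃ₜ V4} {M M' : Type}
    [TopologicalSpace M] [ChartedSpace E4 M] [IsManifold (𝓡 4) ∞ M]
    {E' H' : Type} [NormedAddCommGroup E'] [NormedSpace ℝ E'] [TopologicalSpace H']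
    {I' : ModelWithCorners ℝ E' H'}
    [TopologicalSpace M'] [ChartedSpace H' M'] [IsManifold I' ∞ M']
    {p : V4 → M} {p' : V4 → M'}
    (hp : OrbitMap g p) (hs : Function.Surjective p') (hl : IsLocalDiffeomorph (𝓡 4) I' ∞ p')
    (hf : ∀ x y, p' x = p' y ↔ ∃ n : ℤ, y = (g' ^ n) x) (Φ : V4 ≃ₜ V4) (hΦ : Φ * g = g' * Φ) :
    ∃ F : M ≃ₜ M', (∀ x, F (p x) = p' (Φ x)) ∧
      ∀ x, IsLocalDiffeomorphAt (𝓡 4) (𝓡 4) ∞ Φ x → IsLocalDiffeomorphAt (𝓡 4) I' ∞ F (p x) := by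
  -- the maps are quotient maps
  have hqp : Topology.IsQuotientMap p := hp.loc.isOpenMap.isQuotientMap hp.loc.contMDiff.continuous hp.surj
  have hqp' : Topology.IsQuotientMap p' :=
    hl.isOpenMap.isQuotientMap hl.contMDiff.continuous hs
  have hΦ' : Φ⁻¹ * g' = g * Φ⁻¹ := by
    rw [inv_mul_eq_iff_eq_mul, ← mul_assoc, hΦ, mul_assoc, mul_inv_cancel, mul_one]
  have key : ∀ (h h' Θ : V4 ≃ₜ V4), Θ * h = h' * Θ → ∀ (n : ℤ) (x : V4),
      Θ ((h ^ n) x) = (h' ^ n) (Θ x) := by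
    intro h h' Θ hc n x
    have h1 : SemiconjBy Θ h h' := hc
    have h2 := (h1.zpow_right n).eq
    exact DFunLike.congr_fun h2 x
  have w1 : ∀ x y, p x = p y → p' (Φ x) = p' (Φ y) := by
    intro x y hxy
    obtain ⟨n, hn⟩ := (hp.fib x y).1 hxy
    rw [hf]
    exact ⟨n, by rw [hn, key g g' Φ hΦ]⟩
  have w2 : ∀ x y, p' x = p' y → p (Φ⁻¹ x) = p (Φ⁻¹ y) := by
    intro x y hxy
    obtain ⟨n, hn⟩ := (hf x y).1 hxy
    rw [hp.fib]
    exact ⟨n, by rw [hn, key g' g Φ⁻¹ hΦ']⟩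
  set f : M → M' := fun m => p' (Φ (Function.surjInv hp.surj m)) with hf
  set f' : M' → M := fun m => p (Φ⁻¹ (Function.surjInv hs m)) with hf'
  have e1 : ∀ x, f (p x) = p' (Φ x) := fun x => w1 _ _ (Function.surjInv_eq hp.surj _)
  have e2 : ∀ x, f' (p' x) = p (Φ⁻¹ x) := fun x => w2 _ _ (Function.surjInv_eq hs _)
  have c1 : Continuous f := by
    rw [hqp.continuous_iff]
    have h1 : f ∘ p = p' ∘ Φ := funext e1
    rw [h1]
    exact hl.contMDiff.continuous.comp Φ.continuous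
  have c2 : Continuous f' := by
    rw [hqp'.continuous_iff]
    have h1 : f' ∘ p' = p ∘ (Φ⁻¹ : V4 ≃ₜ V4) := funext e2
    rw [h1]
    exact hp.loc.contMDiff.continuous.comp (Φ⁻¹ : V4 ≃ₜ V4).continuous
  refine ⟨⟨⟨f, f', ?_, ?_⟩, c1, c2⟩, e1, ?_⟩
  · intro m
    obtain ⟨x, rfl⟩ := hp.surj m
    rw [e1, e2]
    congr 1
    exact Φ.symm_apply_apply x
  · intro m
    obtain ⟨x, rfl⟩ := hs m
    rw [e2, e1]
    congr 1
    exact Φ.apply_symm_apply x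
  · intro x hx
    have h2 : IsLocalDiffeomorphAt (𝓡 4) I' ∞ (p' ∘ Φ) x := hx.comp (K := I') (hg := hl (Φ x))
    obtain ⟨Ψ, hxΨ, hΨ⟩ := h2
    have hl := hp.loc x
    refine ⟨hl.localInverse.trans Ψ, ?_, ?_⟩
    · refine ⟨hl.localInverse_mem_source, ?_⟩
      have h3 : hl.localInverse (p x) = x :=
        hl.localInverse_left_inv hl.localInverse_mem_target
      change hl.localInverse (p x) ∈ Ψ.source
      rw [h3]
      exact hxΨ
    · rintro y ⟨hy1, hy2⟩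
      have h3 : p (hl.localInverse y) = y := hl.localInverse_right_inv hy1
      change f y = Ψ (hl.localInverse y)
      have h4 : (p' ∘ Φ) (hl.localInverse y) = Ψ (hl.localInverse y) := hΨ hy2
      rw [← h4]
      conv_lhs => rw [← h3]
      exact e1 _

end Pool.Agent.HopfCov
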