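import Pool.Agent.HopfCov.Core

/-!
# Radial diffeomorphisms of the punctured space
-/

set_option autoImplicit false
set_option linter.unusedSectionVars false

open scoped ContDiff Topology
open Set Filter Metric MeasureTheory

namespace Pool.Agent.HopfCov

/-! ### smooth minorants of monotone functions -/

/-- below a monotone function there is a smooth function with positive derivative -/
theorem exists_smooth_below {L : ℝ → ℝ} (hmono : Monotone L) (htop : Tendsto L atTop atTop)
    (hbot : Tendsto L atBot atBot) : ∃ A : ℝ → ℝ, ContDiff ℝ ∞ A ∧ (∀ u, 0 < deriv A u) ∧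
      (∀ u, A u ≤ L u) ∧ Tendsto A atTop atTop ∧ Tendsto A atBot atBot := by
  let φ : ContDiffBump (1 / 2 : ℝ) := ⟨1 / 4, 1 / 2, by norm_num, by norm_num⟩
  set f : ℝ → ℝ := φ.normed volume with hf
  have hloc : LocallyIntegrable L volume := hmono.locallyIntegrable
  have hf0 : ∀ t, 0 ≤ f t := φ.nonneg_normed
  have hfs : ∀ t, f t ≠ 0 → 0 ≤ t ∧ t ≤ 1 := by
    intro t ht
    have h1 : t ∈ Function.support f := ht
    rw [hf, φ.support_normed_eq, mem_ball, Real.dist_eq] at h1
    have h2 : φ.rOut = 1 / 2 := rfl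
    rw [h2, abs_lt] at h1
    constructor <;> linarith [h1.1, h1.2]
  have hf1 : ∫ t, f t = 1 := φ.integral_normed
  have hfi : Integrable f := φ.integrable_normed
  set S : ℝ → ℝ := convolution f L (ContinuousLinearMap.lsmul ℝ ℝ) volume with hS
  have hSu : ∀ u, S u = ∫ t, f t * L (u - t) := fun u => rfl
  have hint : ∀ u, Integrable fun t => f t * L (u - t) := fun u =>
    (φ.hasCompactSupport_normed.convolutionExists_left (ContinuousLinearMap.lsmul ℝ ℝ)
      φ.continuous_normed hloc u).integrable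
  have hSc : ContDiff ℝ ∞ S := φ.hasCompactSupport_normed.contDiff_convolution_left _
    φ.contDiff_normed hloc
  have hSup : ∀ u, S u ≤ L u := by
    intro u
    rw [hSu]
    calc ∫ t, f t * L (u - t) ≤ ∫ t, f t * L u := by
          refine integral_mono (hint u) (hfi.mul_const _) fun t => ?_
          by_cases ht : f t = 0
          · simp [ht]
          · exact mul_le_mul_of_nonneg_left (hmono (by linarith [(hfs t ht).1])) (hf0 t)
      _ = L u := by rw [integral_mul_const, hf1, one_mul]
  have hSlow : ∀ u, L (u - 1) ≤ S u := by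
    intro u
    rw [hSu]
    calc L (u - 1) = ∫ t, f t * L (u - 1) := by rw [integral_mul_const, hf1, one_mul]
      _ ≤ ∫ t, f t * L (u - t) := by
          refine integral_mono (hfi.mul_const _) (hint u) fun t => ?_
          by_cases ht : f t = 0
          · simp [ht]
          · exact mul_le_mul_of_nonneg_left (hmono (by linarith [(hfs t ht).2])) (hf0 t)
  have hSmono : Monotone S := by
    intro u v huv
    rw [hSu, hSu]
    refine integral_mono (hint u) (hint v) fun t => ?_
    exact mul_le_mul_of_nonneg_left (hmono (by linarith)) (hf0 t)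
  refine ⟨fun u => S u + (Real.arctan u - Real.pi / 2), ?_, ?_, ?_, ?_, ?_⟩
  · exact hSc.add (Real.contDiff_arctan.sub contDiff_const)
  · intro u
    have h1 : HasDerivAt S (deriv S u) u :=
      ((hSc.differentiable (by simp)).differentiableAt).hasDerivAt
    have h2 := h1.add ((Real.hasDerivAt_arctan u).sub_const (Real.pi / 2))
    have h3 : HasDerivAt (fun u => S u + (Real.arctan u - Real.pi / 2))
      (deriv S u + 1 / (1 + u ^ 2)) u := h2
    rw [h3.deriv]
    have h4 : 0 ≤ deriv S u := hSmono.deriv_nonneg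
    positivity
  · intro u
    have := Real.arctan_lt_pi_div_two u
    linarith [hSup u]
  · have h1 : Tendsto (fun u : ℝ => u + -1) atTop atTop := tendsto_atTop_add_const_right _ _ tendsto_id
    have h2 : Tendsto (fun u => L (u + -1) + -Real.pi) atTop atTop :=
      tendsto_atTop_add_const_right _ _ (htop.comp h1)
    refine tendsto_atTop_mono (fun u => ?_) h2
    have h3 := Real.neg_pi_div_two_lt_arctan u
    have h4 := hSlow u
    rw [sub_eq_add_neg] at h4
    linarith
  · refine tendsto_atBot_mono (fun u => ?_) hbot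
    have := Real.arctan_lt_pi_div_two u
    linarith [hSup u]

/-- a smooth function with positive derivative can be made linear near `-∞` -/
theorem exists_linear_end {A : ℝ → ℝ} (hA : ContDiff ℝ ∞ A) (hA' : ∀ u, 0 < deriv A u)
    (htop : Tendsto A atTop atTop) :
    ∃ (B : ℝ → ℝ) (c : ℝ), ContDiff ℝ ∞ B ∧ (∀ u, 0 < deriv B u) ∧ (∀ u, 1 ≤ u → B u = A u) ∧
      (∀ u, u ≤ -1 → B u = u + c) ∧ Tendsto B atTop atTop ∧ Tendsto B atBot atBot := by
  have hmono : StrictMono A := strictMono_of_deriv_pos hA'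
  set c : ℝ := A (-1) - 1 with hc
  set χ : ℝ → ℝ := fun u => Real.smoothTransition ((u + 1) / 2) with hχ
  have hχc : ContDiff ℝ ∞ χ := Real.smoothTransition.contDiff.comp
    ((contDiff_id.add contDiff_const).div_const _)
  have hχmono : Monotone χ := by
    intro u v huv
    exact Real.smoothTransition.monotone (by linarith)
  have hχ0 : ∀ u, 0 ≤ χ u := fun u => Real.smoothTransition.nonneg _
  have hχ1 : ∀ u, χ u ≤ 1 := fun u => Real.smoothTransition.le_one _
  have hχl : ∀ u, u ≤ -1 → χ u = 0 := fun u hu =>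
    Real.smoothTransition.zero_of_nonpos (by linarith)
  have hχr : ∀ u, 1 ≤ u → χ u = 1 := fun u hu =>
    Real.smoothTransition.one_of_one_le (by linarith)
  refine ⟨fun u => (u + c) + χ u * (A u - (u + c)), c, ?_, ?_, ?_, ?_, ?_, ?_⟩
  · exact (contDiff_id.add contDiff_const).add
      (hχc.mul (hA.sub (contDiff_id.add contDiff_const)))
  · intro u
    have h1 : HasDerivAt χ (deriv χ u) u :=
      ((hχc.differentiable (by simp)).differentiableAt).hasDerivAt
    have h2 : HasDerivAt A (deriv A u) u :=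
      ((hA.differentiable (by simp)).differentiableAt).hasDerivAt
    have h3 : HasDerivAt (fun u : ℝ => u + c) 1 u := (hasDerivAt_id u).add_const c
    have h4 := h3.add (h1.mul (h2.sub h3))
    have h5 : HasDerivAt (fun u => (u + c) + χ u * (A u - (u + c)))
      (1 + (deriv χ u * (A u - (u + c)) + χ u * (deriv A u - 1))) u := h4
    rw [h5.deriv]
    have h6 : 0 ≤ deriv χ u := hχmono.deriv_nonneg
    have h7 : 0 ≤ deriv χ u * (A u - (u + c)) := by
      rcases lt_or_ge u (-1) with hu | hu
      · have : deriv χ u = 0 := by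
          have hev : χ =ᶠ[𝓝 u] fun _ => (0 : ℝ) := by
            filter_upwards [Iio_mem_nhds hu] with v hv
            exact hχl v (le_of_lt hv)
          rw [hev.deriv_eq, deriv_const]
        rw [this, zero_mul]
      · rcases lt_or_ge 1 u with hu' | hu'
        · have : deriv χ u = 0 := by
            have hev : χ =ᶠ[𝓝 u] fun _ => (1 : ℝ) := by
              filter_upwards [Ioi_mem_nhds hu'] with v hv
              exact hχr v (le_of_lt hv)
            rw [hev.deriv_eq, deriv_const]
          rw [this, zero_mul]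
        · refine mul_nonneg h6 ?_
          have h8 : A (-1) ≤ A u := hmono.monotone hu
          rw [hc]
          linarith
    have h9 := hA' u
    have h10 : 1 + (deriv χ u * (A u - (u + c)) + χ u * (deriv A u - 1)) =
        (1 - χ u) + χ u * deriv A u + deriv χ u * (A u - (u + c)) := by ring
    rw [h10]
    rcases (hχ0 u).eq_or_lt with h11 | h11
    · rw [← h11]
      linarith
    · have h12 := mul_pos h11 h9
      have h13 := hχ1 u
      linarith
  · intro u hu
    show (u + c) + χ u * (A u - (u + c)) = A u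
    rw [hχr u hu]
    ring
  · intro u hu
    show (u + c) + χ u * (A u - (u + c)) = u + c
    rw [hχl u hu]
    ring
  · refine htop.congr' ?_
    filter_upwards [eventually_ge_atTop (1 : ℝ)] with u hu
    show A u = (u + c) + χ u * (A u - (u + c))
    rw [hχr u hu]
    ring
  · have h1 : Tendsto (fun u : ℝ => u + c) atBot atBot := tendsto_atBot_add_const_right _ _ tendsto_id
    refine h1.congr' ?_
    filter_upwards [eventually_le_atBot (-1 : ℝ)] with u hu
    show u + c = (u + c) + χ u * (A u - (u + c))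
    rw [hχl u hu]
    ring

/-- a smooth function with positive derivative, onto the real line, as an order isomorphism -/
theorem exists_orderIso {A : ℝ → ℝ} (hA : ContDiff ℝ ∞ A) (hA' : ∀ u, 0 < deriv A u)
    (htop : Tendsto A atTop atTop) (hbot : Tendsto A atBot atBot) :
    ∃ e : ℝ ≃o ℝ, ∀ u, e u = A u := by
  have hmono : StrictMono A := strictMono_of_deriv_pos hA'
  have hsurj : Function.Surjective A := hA.continuous.surjective htop hbot
  exact ⟨hmono.orderIsoOfSurjective A hsurj, fun u => rfl⟩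

/-! ### radial homeomorphisms -/

variable {E : Type} [NormedAddCommGroup E] [InnerProductSpace ℝ E] [FiniteDimensional ℝ E]

open Classical in
/-- the radial map with `log ‖x‖ ↦ A (log ‖x‖)` -/
noncomputable def radFun (A : ℝ → ℝ) (x : E) : E :=
  if x = 0 then 0 else Real.exp (A (Real.log ‖x‖) - Real.log ‖x‖) • x

theorem radFun_zero (A : ℝ → ℝ) : radFun A (0 : E) = 0 := if_pos rfl

theorem radFun_ne (A : ℝ → ℝ) {x : E} (hx : x ≠ 0) :
    radFun A x = Real.exp (A (Real.log ‖x‖) - Real.log ‖x‖) • x := if_neg hx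

theorem norm_radFun (A : ℝ → ℝ) {x : E} (hx : x ≠ 0) :
    ‖radFun A x‖ = Real.exp (A (Real.log ‖x‖)) := by
  have h : 0 < ‖x‖ := norm_pos_iff.2 hx
  rw [radFun_ne A hx, norm_smul, Real.norm_eq_abs, abs_of_pos (Real.exp_pos _), Real.exp_sub,
    Real.exp_log h, div_mul_cancel₀ _ h.ne']

theorem radFun_ne_zero (A : ℝ → ℝ) {x : E} (hx : x ≠ 0) : radFun A x ≠ 0 := by
  rw [← norm_pos_iff, norm_radFun A hx]
  exact Real.exp_pos _

theorem radFun_comp {A B : ℝ → ℝ} (h : ∀ u, B (A u) = u) (x : E) :
    radFun B (radFun A x) = x := by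
  by_cases hx : x = 0
  · rw [hx, radFun_zero, radFun_zero]
  · have h0 : 0 < ‖x‖ := norm_pos_iff.2 hx
    rw [radFun_ne B (radFun_ne_zero A hx), norm_radFun A hx, Real.log_exp, h,
      radFun_ne A hx, smul_smul, ← Real.exp_add]
    have : Real.log ‖x‖ - A (Real.log ‖x‖) + (A (Real.log ‖x‖) - Real.log ‖x‖) = 0 := by ring
    rw [this, Real.exp_zero, one_smul]

theorem radFun_continuous {A : ℝ → ℝ} (hA : Continuous A) (hbot : Tendsto A atBot atBot) :
    Continuous (radFun A : E → E) := by
  rw [continuous_iff_continuousAt]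
  intro x
  by_cases hx : x = 0
  · subst hx
    rw [continuousAt_iff_punctured_nhds, radFun_zero, tendsto_zero_iff_norm_tendsto_zero]
    have h1 : Tendsto (fun x : E => Real.exp (A (Real.log ‖x‖))) (𝓝[≠] 0) (𝓝 0) := by
      refine Real.tendsto_exp_atBot.comp (hbot.comp ?_)
      exact Real.tendsto_log_nhdsGT_zero.comp tendsto_norm_nhdsNE_zero
    refine h1.congr' ?_
    filter_upwards [self_mem_nhdsWithin] with y hy
    exact (norm_radFun A hy).symm
  · have h0 : ‖x‖ ≠ 0 := norm_ne_zero_iff.2 hx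
    have h1 : ContinuousAt (fun y : E => Real.log ‖y‖) x :=
      continuous_norm.continuousAt.log h0
    have h2 : ContinuousAt (fun y : E => Real.exp (A (Real.log ‖y‖) - Real.log ‖y‖) • y) x :=
      ((Real.continuous_exp.continuousAt.comp ((hA.continuousAt.comp h1).sub h1))).smul
        continuousAt_id
    refine h2.congr ?_
    filter_upwards [isOpen_ne.mem_nhds hx] with y hy
    exact (radFun_ne A hy).symm

/-- the radial homeomorphism -/
noncomputable def rad (e : ℝ ≃o ℝ) : E ≃ₜ E where
  toFun := radFun e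
  invFun := radFun e.symm
  left_inv := radFun_comp e.symm_apply_apply
  right_inv := radFun_comp e.apply_symm_apply
  continuous_toFun := radFun_continuous e.continuous e.tendsto_atBot
  continuous_invFun := radFun_continuous e.symm.continuous e.symm.tendsto_atBot

theorem rad_apply (e : ℝ ≃o ℝ) (x : E) : (rad e : E ≃ₜ E) x = radFun e x := rfl

theorem LD_radFun {A : ℝ → ℝ} (hA : ContDiff ℝ ∞ A) (hA' : ∀ u, 0 < deriv A u) {x : E}
    (hx : x ≠ 0) : LD 1 (radFun A : E → E) x := by
  have h0 : ‖x‖ ≠ 0 := norm_ne_zero_iff.2 hx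
  have hpos : 0 < ‖x‖ := norm_pos_iff.2 hx
  set c : E → ℝ := fun y => Real.exp (A (Real.log ‖y‖) - Real.log ‖y‖) with hc
  have hev : (fun y : E => c y • y) =ᶠ[𝓝 x] radFun A := by
    filter_upwards [isOpen_ne.mem_nhds hx] with y hy
    exact (radFun_ne A hy).symm
  have hlog : ContDiffAt ℝ ∞ (fun y : E => Real.log ‖y‖) x := (contDiffAt_norm ℝ hx).log h0
  have hcs : ContDiffAt ℝ ∞ c x := ((hA.contDiffAt.comp x hlog).sub hlog).exp
  refine LD.congr ⟨hcs.smul contDiffAt_id, ?_⟩ hev
  -- the derivative of `log ‖y‖`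
  have hsq : HasFDerivAt (fun y : E => ‖y‖ ^ 2) ((2 : ℝ) • innerSL ℝ x) x := by
    have := (hasStrictFDerivAt_norm_sq x).hasFDerivAt
    convert this using 1
    ext y
    simp [two_smul]
  have hl1 : HasFDerivAt (fun y : E => Real.log (‖y‖ ^ 2))
      ((‖x‖ ^ 2)⁻¹ • ((2 : ℝ) • innerSL ℝ x)) x := hsq.log (pow_ne_zero 2 h0)
  have hl2 : HasFDerivAt (fun y : E => Real.log ‖y‖) ((‖x‖ ^ 2)⁻¹ • innerSL ℝ x) x := by
    have h1 := hl1.const_mul (2⁻¹ : ℝ)
    have h2 : (fun y : E => (2⁻¹ : ℝ) * Real.log (‖y‖ ^ 2)) = fun y : E => Real.log ‖y‖ := by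
      funext y
      rw [Real.log_pow]
      push_cast
      ring
    rw [h2] at h1
    have h3 : (‖x‖ ^ 2)⁻¹ • innerSL ℝ x =
        (2⁻¹ : ℝ) • ((‖x‖ ^ 2)⁻¹ • ((2 : ℝ) • innerSL ℝ x)) := by
      rw [smul_smul, smul_smul]
      congr 1
      ring
    rw [h3]
    exact h1
  have hA1 : HasDerivAt A (deriv A (Real.log ‖x‖)) (Real.log ‖x‖) :=
    ((hA.differentiable (by simp)).differentiableAt).hasDerivAt
  set a : ℝ := deriv A (Real.log ‖x‖) with ha
  have hc1 : HasFDerivAt c (c x • (a • ((‖x‖ ^ 2)⁻¹ • innerSL ℝ x) -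
      (‖x‖ ^ 2)⁻¹ • innerSL ℝ x)) x := by
    have h1 := (hA1.comp_hasFDerivAt x hl2).sub hl2
    exact h1.exp
  have hd := hc1.smul (hasFDerivAt_id x)
  have hd' : fderiv ℝ (fun y : E => c y • y) x = c x • ContinuousLinearMap.id ℝ E +
      (c x • (a • ((‖x‖ ^ 2)⁻¹ • innerSL ℝ x) - (‖x‖ ^ 2)⁻¹ • innerSL ℝ x)).smulRight x :=
    hd.fderiv
  show 0 < 1 * (fderiv ℝ (fun y : E => c y • y) x).det
  rw [hd', one_mul]
  set φ : E →L[ℝ] ℝ := a • ((‖x‖ ^ 2)⁻¹ • innerSL ℝ x) - (‖x‖ ^ 2)⁻¹ • innerSL ℝ x with hφ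
  have hfac : c x • ContinuousLinearMap.id ℝ E + (c x • φ).smulRight x =
      (c x • ContinuousLinearMap.id ℝ E).comp
        (ContinuousLinearMap.id ℝ E + φ.smulRight x) := by
    ext y
    simp [smul_smul]
  rw [hfac, det_comp_clm]
  have hd1 : (c x • ContinuousLinearMap.id ℝ E).det = c x ^ Module.finrank ℝ E := by
    simp [ContinuousLinearMap.det]
  have hd2 : (ContinuousLinearMap.id ℝ E + φ.smulRight x).det = a := by
    have h1 : ((ContinuousLinearMap.id ℝ E + φ.smulRight x : E →L[ℝ] E) : E →ₗ[ℝ] E) =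
        LinearMap.transvection (φ : E →ₗ[ℝ] ℝ) x := by
      ext y
      simp [LinearMap.transvection]
    rw [ContinuousLinearMap.det, h1, LinearMap.transvection.det]
    have h2 : (φ : E →ₗ[ℝ] ℝ) x = a - 1 := by
      show φ x = a - 1
      rw [hφ]
      simp only [sub_apply, smul_apply, innerSL_apply_apply,
        real_inner_self_eq_norm_sq, smul_eq_mul]
      field_simp
    rw [h2]
    ring
  rw [hd1, hd2]
  exact mul_pos (pow_pos (Real.exp_pos _) _) (hA' _)

theorem PD_rad {e : ℝ ≃o ℝ} {A : ℝ → ℝ} (he : ∀ u, e u = A u) (hA : ContDiff ℝ ∞ A)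
    (hA' : ∀ u, 0 < deriv A u) : PD 1 (rad e : E ≃ₜ E) := by
  refine ⟨radFun_zero _, fun x hx => ?_⟩
  have h1 : ((rad e : E ≃ₜ E) : E → E) = radFun A := by
    have : (e : ℝ → ℝ) = A := funext he
    funext y
    rw [rad_apply, this]
  rw [h1]
  exact LD_radFun hA hA' hx

/-- radial diffeomorphisms of the punctured space have trivial class -/
theorem Ext_rad {e : ℝ ≃o ℝ} {A : ℝ → ℝ} (he : ∀ u, e u = A u) (hA : ContDiff ℝ ∞ A)
    (hA' : ∀ u, 0 < deriv A u) (htop : Tendsto A atTop atTop) : Ext (rad e : E ≃ₜ E) := by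
  obtain ⟨B, c, b1, b2, b3, b4, b5, b6⟩ := exists_linear_end hA hA' htop
  obtain ⟨e', he'⟩ := exists_orderIso b1 b2 b5 b6
  refine ⟨rad e', fun x => ?_, ?_⟩
  · by_cases hx : x = 0
    · subst hx
      have hlin : LD 1 (fun y : E => Real.exp c • y) 0 := by
        refine ⟨contDiffAt_const.smul contDiffAt_id, ?_⟩
        have h1 : fderiv ℝ (fun y : E => Real.exp c • y) 0 =
            Real.exp c • ContinuousLinearMap.id ℝ E :=
          ((hasFDerivAt_id (𝕜 := ℝ) (0 : E)).const_smul (Real.exp c)).fderiv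
        rw [h1, one_mul]
        have h2 : (Real.exp c • ContinuousLinearMap.id ℝ E).det =
            Real.exp c ^ Module.finrank ℝ E := by
          simp [ContinuousLinearMap.det]
        rw [h2]
        exact pow_pos (Real.exp_pos _) _
      refine hlin.congr ?_
      filter_upwards [ball_mem_nhds (0 : E) (Real.exp_pos (-1))] with y hy
      rw [rad_apply]
      by_cases hy0 : y = 0
      · rw [hy0, radFun_zero, smul_zero]
      · have h3 : Real.log ‖y‖ ≤ -1 := by
          rw [mem_ball_zero_iff] at hy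
          rw [Real.log_le_iff_le_exp (norm_pos_iff.2 hy0)]
          exact hy.le
        rw [radFun_ne _ hy0, he', b4 _ h3]
        congr 2
        ring
    · exact (PD_rad he' b1 b2).2 x hx
  · have h1 : ∀ᶠ x : E in cocompact E, Real.exp 1 ≤ ‖x‖ :=
      tendsto_norm_cocompact_atTop.eventually (eventually_ge_atTop _)
    filter_upwards [h1] with x hx
    have hpos : 0 < ‖x‖ := (Real.exp_pos 1).trans_le hx
    have hx0 : x ≠ 0 := norm_pos_iff.1 hpos
    have h2 : 1 ≤ Real.log ‖x‖ := by
      rw [Real.le_log_iff_exp_le hpos]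
      exact hx
    rw [rad_apply, rad_apply, radFun_ne _ hx0, radFun_ne _ hx0, he', b3 _ h2, he]

end Pool.Agent.HopfCov
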