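import Pool.Agent.HopfCov.Orbit
import Pool.Agent.HopfCov.Cover

/-!
# Diffeomorphisms between orbit spaces and classes of contractions
-/

set_option autoImplicit false
set_option linter.unusedSectionVars false

open scoped ContDiff Topology Manifold
open Set Filter Metric

namespace Pool.Agent.HopfCov

/-- `F : X → Y` preserves the orientations for which the maps `p` and `p'` from the punctured
space are orientation preserving: whenever `F (p x) = p' x'`, the differentials of `F ∘ p` at `x`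
and of `p'` at `x'`, which are isomorphisms of `ℝ⁴` onto the same tangent space, differ by
an automorphism of positive determinant. -/
def OrPres {X Y : Type} [TopologicalSpace X] [ChartedSpace E4 X] [TopologicalSpace Y]
    [ChartedSpace E4 Y] (p : V4 → X) (p' : V4 → Y) (F : X → Y) : Prop :=
  ∀ x x' : V4, F (p x) = p' x' →
    0 < (mfderiv (𝓡 4) (𝓡 4) (fun y => F (p y)) x : E4 →L[ℝ] E4).det *
      (mfderiv (𝓡 4) (𝓡 4) p' x' : E4 →L[ℝ] E4).det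

theorem det_chain {X : Type} [TopologicalSpace X] [ChartedSpace E4 X]
    {A B : V4 → X} {Ψ : V4 → V4} {y : V4} (hA : MDifferentiableAt (𝓡 4) (𝓡 4) A (Ψ y))
    (hΨ : MDifferentiableAt (𝓡 4) (𝓡 4) Ψ y) (h : ∀ x, A (Ψ x) = B x) :
    (mfderiv (𝓡 4) (𝓡 4) B y : E4 →L[ℝ] E4).det =
      (mfderiv (𝓡 4) (𝓡 4) A (Ψ y) : E4 →L[ℝ] E4).det *
        (mfderiv (𝓡 4) (𝓡 4) Ψ y : E4 →L[ℝ] E4).det := by
  obtain rfl : A ∘ Ψ = B := funext h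
  rw [mfderiv_comp y hA hΨ]
  exact det_comp_clm (E := E4) _ _

theorem aux_sign {α β : ℝ} (h1 : 0 < α * β * α) (h2 : 0 < -1 * β) : False := by
  have h3 : 0 ≤ α * α := mul_self_nonneg α
  nlinarith

/-- the sign of a lift -/
theorem sign_of_pos (hT1 : SpecMfderiv) (hT2 : SpecSign) {X : Type} [TopologicalSpace X]
    [ChartedSpace E4 X] {Ψ : V4 ≃ₜ V4} (hΨ : IsLocalDiffeomorph (𝓡 4) (𝓡 4) ∞ Ψ)
    {A B : V4 → X} {y : V4} (hA : MDifferentiableAt (𝓡 4) (𝓡 4) A (Ψ y))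
    (h : ∀ x, A (Ψ x) = B x)
    (hpos : 0 < (mfderiv (𝓡 4) (𝓡 4) B y : E4 →L[ℝ] E4).det *
      (mfderiv (𝓡 4) (𝓡 4) A (Ψ y) : E4 →L[ℝ] E4).det) :
    ∀ x : E4, x ≠ 0 → LD 1 (ext0 Ψ) x := by
  rcases hT2 Ψ hΨ with h1 | h1
  · exact h1
  · exfalso
    have h2 := (h1 (y : E4) y.2).2
    rw [← hT1 Ψ y (hΨ y).contMDiffAt] at h2
    rw [det_chain hA ((hΨ y).contMDiffAt.mdifferentiableAt (by simp)) h] at hpos
    exact aux_sign hpos h2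

theorem LD_of_ext0 {s : ℝ} {Ψ : V4 ≃ₜ V4} (h : ∀ x : E4, x ≠ 0 → LD s (ext0 Ψ) x)
    {H : E4 ≃ₜ E4} (hH : Extends H Ψ) : PD s H := by
  refine ⟨hH.zero, fun x hx => (h x hx).congr ?_⟩
  filter_upwards [isOpen_ne.mem_nhds hx] with y hy
  have hy' : y ≠ 0 := hy
  show ext0 Ψ y = H y
  rw [ext0, dif_pos hy']
  exact (hH ⟨y, hy'⟩).symm

theorem Extends.conj {G H K : E4 ≃ₜ E4} {g Ψ k : V4 ≃ₜ V4} (hG : Extends G g)
    (hH : Extends H Ψ) (hK : Extends K k) (h : Ψ * g * Ψ⁻¹ = k) : H * G * H⁻¹ = K := by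
  have h1 := (hH.mul hG).mul hH.inv
  rw [h] at h1
  exact h1.unique hK

/-- an oriented diffeomorphism of orbit spaces: the classes of the generators agree -/
theorem pair_oriented (hT3 : SpecLiftSwap) (hT6 : SpecSwapContr)
    {g k : V4 ≃ₜ V4} {G K : E4 ≃ₜ E4} (hG : Extends G g) (hK : Extends K k)
    (h1 : PD 1 G) (h2 : PD 1 K) (c1 : Contr G) (c2 : Contr K) {Ψ : V4 ≃ₜ V4}
    (hΨ : IsLocalDiffeomorph (𝓡 4) (𝓡 4) ∞ Ψ) (hs : ∀ x : E4, x ≠ 0 → LD 1 (ext0 Ψ) x)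
    (hc : Ψ * g * Ψ⁻¹ = k ∨ Ψ * g * Ψ⁻¹ = k⁻¹) : Ext (K * G⁻¹) := by
  by_cases hE : ∃ H : E4 ≃ₜ E4, Extends H Ψ
  · obtain ⟨H, hH⟩ := hE
    have hPD : PD 1 H := LD_of_ext0 hs hH
    rcases hc with hc | hc
    · have e1 := hG.conj hH hK hc
      have e2 := comm_ext hGerm hSwap hdim4 hPD.inv h1.inv
      have e3 : H⁻¹⁻¹ * G⁻¹⁻¹ * H⁻¹ * G⁻¹ = K * G⁻¹ := by
        rw [inv_inv, inv_inv, e1]
      rwa [e3] at e2
    · exfalso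
      have e1 := hG.conj hH hK.inv hc
      have e2 := c1.conj hH.zero
      rw [e1] at e2
      exact c2.not_inv e2
  · rcases hc with hc | hc
    · exact (hT6 Ψ g k G K hE hG hK c1 c2 hc).elim
    · exact hT3 Ψ g k G K hΨ hs hE hG hK h1 h2 hc

theorem conj_sq_group {Γ : Type*} [Group Γ] {g Ψ : Γ} {a b : ℤ} (h : Ψ * g ^ a * Ψ⁻¹ = g ^ b) :
    (Ψ * Ψ) * g ^ (a * a) * (Ψ * Ψ)⁻¹ = g ^ (b * b) := by
  have h1 : Ψ * g ^ (a * a) * Ψ⁻¹ = g ^ (a * b) := by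
    have : (Ψ * g ^ a * Ψ⁻¹) ^ a = Ψ * (g ^ a) ^ a * Ψ⁻¹ := conj_zpow
    rw [h, ← zpow_mul, ← zpow_mul] at this
    rw [← this, mul_comm]
  have h2 : Ψ * g ^ (a * b) * Ψ⁻¹ = g ^ (b * b) := by
    have : (Ψ * g ^ a * Ψ⁻¹) ^ b = Ψ * (g ^ a) ^ b * Ψ⁻¹ := conj_zpow
    rw [h, ← zpow_mul, ← zpow_mul] at this
    rw [← this]
  calc (Ψ * Ψ) * g ^ (a * a) * (Ψ * Ψ)⁻¹ = Ψ * (Ψ * g ^ (a * a) * Ψ⁻¹) * Ψ⁻¹ := by group
    _ = _ := by rw [h1, h2]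

theorem ext0_mul (Ψ Ψ' : V4 ≃ₜ V4) {x : E4} (hx : x ≠ 0) :
    ext0 (Ψ * Ψ' : V4 ≃ₜ V4) x = ext0 Ψ (ext0 Ψ' x) := by
  have h1 : ext0 Ψ' x = (Ψ' ⟨x, hx⟩ : E4) := dif_pos hx
  have h2 : ext0 Ψ (ext0 Ψ' x) = (Ψ (Ψ' ⟨x, hx⟩) : E4) := by
    rw [h1]
    exact dif_pos (Ψ' ⟨x, hx⟩).2
  rw [h2, ext0, dif_pos hx]
  rfl

theorem ext0_ne_h (Ψ : V4 ≃ₜ V4) {x : E4} (hx : x ≠ 0) : ext0 Ψ x ≠ 0 := by
  have h1 : ext0 Ψ x = (Ψ ⟨x, hx⟩ : E4) := dif_pos hx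
  rw [h1]
  exact (Ψ ⟨x, hx⟩).2

/-- the square of a diffeomorphism of the punctured space extends, and is orientation
preserving -/
theorem square_PD (hT2 : SpecSign) (hT5 : SpecSwapMul) {Ψ : V4 ≃ₜ V4}
    (hΨ : IsLocalDiffeomorph (𝓡 4) (𝓡 4) ∞ Ψ) :
    ∃ H : E4 ≃ₜ E4, Extends H (Ψ * Ψ) ∧ PD 1 H := by
  have hE : ∃ H : E4 ≃ₜ E4, Extends H (Ψ * Ψ) := by
    by_cases hE : ∃ H : E4 ≃ₜ E4, Extends H Ψ
    · obtain ⟨H, hH⟩ := hE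
      exact ⟨H * H, hH.mul hH⟩
    · exact hT5 Ψ Ψ hE hE
  obtain ⟨H, hH⟩ := hE
  refine ⟨H, hH, LD_of_ext0 (fun x hx => ?_) hH⟩
  have h1 : ∃ s : ℝ, s * s = 1 ∧ ∀ x : E4, x ≠ 0 → LD s (ext0 Ψ) x := by
    rcases hT2 Ψ hΨ with h | h
    · exact ⟨1, by norm_num, h⟩
    · exact ⟨-1, by norm_num, h⟩
  obtain ⟨s, hs, h2⟩ := h1
  have h3 : LD (s * s) (ext0 Ψ ∘ ext0 Ψ) x := (h2 _ (ext0_ne_h Ψ hx)).comp (h2 x hx)
  rw [hs] at h3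
  refine h3.congr ?_
  filter_upwards [isOpen_ne.mem_nhds hx] with y hy
  exact (ext0_mul Ψ Ψ hy).symm

/-- a diffeomorphism of orbit spaces of powers -/
theorem pair_square (hT2 : SpecSign) (hT5 : SpecSwapMul) {g : V4 ≃ₜ V4} {G : E4 ≃ₜ E4}
    (hG : Extends G g) {a b : ℕ} {Ψ : V4 ≃ₜ V4} (hΨ : IsLocalDiffeomorph (𝓡 4) (𝓡 4) ∞ Ψ)
    (hc : Ψ * g ^ a * Ψ⁻¹ = g ^ b ∨ Ψ * g ^ a * Ψ⁻¹ = (g ^ b)⁻¹) :
    ∃ H : E4 ≃ₜ E4, PD 1 H ∧ H * G ^ (a * a) * H⁻¹ = G ^ (b * b) := by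
  obtain ⟨H, hH, hPD⟩ := square_PD hT2 hT5 hΨ
  refine ⟨H, hPD, (hG.pow _).conj hH (hG.pow _) ?_⟩
  have hc' : ∃ c : ℤ, c * c = (b : ℤ) * b ∧ Ψ * g ^ (a : ℤ) * Ψ⁻¹ = g ^ c := by
    rcases hc with hc | hc
    · exact ⟨b, rfl, by rw [zpow_natCast, zpow_natCast]; exact hc⟩
    · exact ⟨-b, by ring, by rw [zpow_neg, zpow_natCast, zpow_natCast]; exact hc⟩
  obtain ⟨c, hcc, hc'⟩ := hc'
  have h1 := conj_sq_group hc'
  rw [hcc] at h1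
  have h2 : ((a : ℤ) * a) = ((a * a : ℕ) : ℤ) := by push_cast; ring
  have h3 : ((b : ℤ) * b) = ((b * b : ℕ) : ℤ) := by push_cast; ring
  rw [h2, h3, zpow_natCast, zpow_natCast] at h1
  exact h1

theorem ext_of_conj_nat {G H : E4 ≃ₜ E4} (hG : PD 1 G) (hH : PD 1 H) {a b : ℕ}
    (h : H * G ^ a * H⁻¹ = G ^ b) : Ext (G ^ ((b : ℤ) - a)) := by
  refine ext_of_conj hGerm hSwap hdim4 hG hH (a := a) (b := b) ?_
  rw [zpow_natCast, zpow_natCast]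
  exact h

section

variable {M : Type} [TopologicalSpace M] [ChartedSpace E4 M] [IsManifold (𝓡 4) ∞ M]

/-- if the orbit space is `S¹ × S³` then the class of the generator is trivial -/
theorem ext_of_std (hT5 : SpecSwapMul) (hT6 : SpecSwapContr) (hT7 : SpecInversion)
    (hT8 : SpecModelOrbit) [T2Space M] [CompactSpace M] {g : V4 ≃ₜ V4} {G : E4 ≃ₜ E4}
    {p : V4 → M} (hp : OrbitMap g p) (hG : Extends G g) (c1 : Contr G)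
    (hM : Nonempty (Diffeomorph (𝓡 4) ((𝓡 1).prod (𝓡 3)) M (Circle × sphere (0 : E4) 1) ∞)) :
    Ext G := by
  obtain ⟨τ, h5, h6⟩ := exists_tau
  obtain ⟨p₀, hp₀⟩ := hT8 τ h6 M hM
  obtain ⟨Ψ, hΨ, -, hc⟩ := hLift g τ M M p p₀ hp hp₀ (Diffeomorph.refl (𝓡 4) M ∞)
  have key : ∀ Θ : V4 ≃ₜ V4, IsLocalDiffeomorph (𝓡 4) (𝓡 4) ∞ Θ → (∃ H : E4 ≃ₜ E4, Extends H Θ) →
      Θ * g * Θ⁻¹ = τ → Ext G := by
    rintro Θ hΘ ⟨H, hH⟩ hc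
    have e1 := hG.conj hH h5 hc
    have e2 : ∃ s : ℝ, s * s = 1 ∧ PD s H := by
      rcases pd Θ hΘ H hH.zero hH with h | h
      · exact ⟨1, by norm_num, h⟩
      · exact ⟨-1, by norm_num, h⟩
    obtain ⟨s, hs, hPD⟩ := e2
    have e3 := Ext.conj hGerm hSwap hdim4 hs (Ext_tau (E := E4)) hPD.inv
    have e4 : H⁻¹ * tau * H⁻¹⁻¹ = G := by rw [← e1]; group
    rwa [e4] at e3
  by_cases hE : ∃ H : E4 ≃ₜ E4, Extends H Ψ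
  · rcases hc with hc | hc
    · exact key Ψ hΨ hE hc
    · exfalso
      obtain ⟨H, hH⟩ := hE
      have e1 := hG.conj hH h5.inv hc
      have e2 := c1.conj hH.zero
      rw [e1] at e2
      exact (Contr_tauL (LinearIsometryEquiv.refl ℝ E4)).not_inv e2
  · rcases hc with hc | hc
    · exact (hT6 Ψ g τ G tau hE hG h5 c1 (Contr_tauL _) hc).elim
    · obtain ⟨J, j1, j2, j3⟩ := hT7
      refine key (J * Ψ) (fun x => (hΨ x).comp (K := 𝓡 4) (hg := j1 (Ψ x))) (hT5 J Ψ j2 hE) ?_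
      calc J * Ψ * g * (J * Ψ)⁻¹ = J * (Ψ * g * Ψ⁻¹) * J⁻¹ := by group
        _ = (J * τ * J⁻¹)⁻¹ := by rw [hc]; group
        _ = τ := by rw [j3 τ h6, inv_inv]

/-- a self-covering lifts to the universal covering -/
theorem selfcover_data [T2Space M] [CompactSpace M] [ConnectedSpace M] {g : V4 ≃ₜ V4}
    {p : V4 → M} (hp : OrbitMap g p) {q : M → M} (hq : IsCoveringMap q)
    (hq' : IsLocalDiffeomorph (𝓡 4) (𝓡 4) ∞ q) {a : ℕ} (ha : 0 < a)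
    (hf : ∀ y, (q ⁻¹' {y}).ncard = a) :
    ∃ Ψ : V4 ≃ₜ V4, IsLocalDiffeomorph (𝓡 4) (𝓡 4) ∞ Ψ ∧ (∀ x, q (p (Ψ x)) = p x) ∧
      (Ψ * g ^ a * Ψ⁻¹ = g ∨ Ψ * g ^ a * Ψ⁻¹ = g⁻¹) := by
  obtain ⟨p', h1, h2⟩ := specCover g M p hp M q hq hq' a ha hf
  obtain ⟨Ψ, hΨ, h3, h4⟩ := hLift (g ^ a) g M M p' p h1 hp (Diffeomorph.refl (𝓡 4) M ∞)
  refine ⟨Ψ, hΨ, fun x => ?_, h4⟩
  rw [h3, ← h2]
  rfl

end

end Pool.Agent.HopfCov
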