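import Pool.Agent.HopfCov.Twist3

/-!
# Self-covering structures on `S¹ × S³` and on the twisted product
-/

set_option autoImplicit false
set_option linter.unusedSectionVars false

open scoped ContDiff Topology Manifold
open Set Filter Metric

namespace Pool.Agent.HopfCov.Smooth

theorem diffeomorphic_of_homeo {M N : Mfd4} (F : M.carrier ≃ₜ N.carrier)
    (hF : IsLocalDiffeomorph (𝓡 4) (𝓡 4) ∞ F) : Diffeomorphic M N :=
  ⟨F, F.bijective, hF⟩

theorem Diffeomorphic.symm {M N : Mfd4} (h : Diffeomorphic M N) : Diffeomorphic N M := by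
  obtain ⟨f, hf⟩ := h
  exact ⟨(toDiffeo hf).symm, (toDiffeo hf).symm.bijective, (toDiffeo hf).symm.isLocalDiffeomorph⟩

theorem IsTwisted.data_TT {T : Mfd4} (hT : IsTwisted T) :
    ∃ (ρ : V4 ≃ₜ V4) (pT : V4 → T.carrier), Extends TT ρ ∧ OrbitMap ρ pT := by
  obtain ⟨-, pT, h2, h3, h4⟩ := hT
  obtain ⟨ρ, hρ⟩ := exists_half
  refine ⟨ρ, pT, fun x => ?_, h2, h3, fun x y => ?_⟩
  · rw [hρ, ← half_apply]
    rfl
  · exact (h4 x y).trans (sameOrbit_iff hρ x y)

theorem isTwisted_of_CJ {N : Mfd4} {g : V4 ≃ₜ V4} {G : E4 ≃ₜ E4} (hG : Extends G g)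
    (h : CJ TT G) {p : V4 → N.carrier} (hp : OrbitMap g p) (hT2 : T2Space N) : IsTwisted N := by
  obtain ⟨Φ, f1, f2⟩ := h
  obtain ⟨φ, f3, f4⟩ := exists_restr_PD f1
  obtain ⟨ρ, hρ⟩ := exists_half
  have hρ' : Extends TT ρ := fun x => by
    rw [hρ, ← half_apply]
    rfl
  have f5 : φ * ρ = g * φ := by
    have d1 : Extends (Φ * TT) (φ * ρ) := f3.mul hρ'
    have d2 : Extends (G * Φ) (g * φ) := hG.mul f3
    rw [f2] at d1
    exact d1.eq_of d2
  have f6 := hp.conj f4 f5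
  exact ⟨hT2, fun x => p (φ x), f6.surj, f6.loc, fun x y =>
    (f6.fib x y).trans (sameOrbit_iff hρ x y).symm⟩

theorem selfcov (M : Mfd4) (hM : HomeoS1S3 M ∨ HomeoTwisted M) (p : Punctured → M)
    (hp : IsCoveringMap p) (hp' : LocalDiffeo p) (a₀ : ℕ) (q₀ : M → M) (ha₀ : 2 ≤ a₀)
    (hq₀ : Cover a₀ q₀) :
    ∃ d m₀ : ℕ, 0 < d ∧
      (∀ (a : ℕ) (q : M → M), 0 < a → Cover a q →
        d ∣ a ^ 2 - 1 ∧ (Preserves p q ∨ ¬ OrientedBy p → d ∣ a - 1)) ∧
      (∀ (m : ℕ) (N : Mfd4) (q : N → M), m₀ ≤ m → Closed N → Cover m q →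
        (d ∣ m - 1 → OrientedBy p ∨ Odd m → Diffeomorphic N M) ∧
        (2 * d ∣ m ∨ OrientedBy p ∧ d ∣ m → DiffeoS1S3 N)) ∧
      (d = 1 → Standard p M) := by
  obtain ⟨h1, h2, g₀, h3⟩ := hM.elim (fun h => orbit_of_homeo h hp hp')
    (fun h => orbit_of_twisted h hp hp')
  have hconn := h3.connected
  obtain ⟨g, G, hpg, hG, hPD, hco⟩ := exists_gen h3
  rcases hPD with hPD | hPD
  · have hor : OrientedBy p := oriented_of_PD (M := M.carrier) specMfderiv hpg hG hPD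
    obtain ⟨d, m₀, e1, e2, e3, e4⟩ := selfcov_pos hpg hG hPD hco ha₀ hq₀.old
    refine ⟨d, max m₀ 1, e1, fun a q ha hq => ?_, fun m N q hm hN hq => ?_,
      fun hd => Or.inl ⟨hor, e4 hd⟩⟩
    · obtain ⟨f1, f2⟩ := e2 a q ha hq.old
      exact ⟨f1, fun h => h.elim f2 fun h => absurd hor h⟩
    · have c1 := hN.compact
      have c2 := hN.hausdorff
      have c3 := hN.connected
      have hm1 : m₀ ≤ m := (le_max_left _ _).trans hm
      have hm2 : 0 < m := (le_max_right _ _).trans hm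
      obtain ⟨p', i1, -⟩ := cover_data hpg hm2 hq.old
      obtain ⟨i2, i3⟩ := e3 m hm1
      refine ⟨fun hd _ => ?_, fun hd => ?_⟩
      · obtain ⟨F, hF⟩ := diffeo_of_CJ (hG.pow m) hG (i2 hd) i1 hpg
        exact diffeomorphic_of_homeo F hF
      · have hd' : d ∣ m := by
          rcases hd with hd | hd
          · exact (Dvd.intro_left 2 rfl).trans hd
          · exact hd.2
        obtain ⟨i4, i5⟩ := i3 hd'
        exact std_of_ext i1 (hG.pow m) (hPD.pow m) (hco.pow hm2) i5 i4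
  · have hor : ¬ OrientedBy p := fun h =>
      PD_ne (PD_of_oriented (M := M.carrier) specMfderiv specSign hpg hG h) hPD
    obtain ⟨d, m₀, e1, e2, e3, e4⟩ := selfcov_neg hpg hG hPD hco ha₀ hq₀.old
    refine ⟨d, max m₀ 1, e1, fun a q ha hq => ?_, fun m N q hm hN hq => ?_,
      fun hd => Or.inr ⟨hor, isTwisted_of_CJ hG (e4 hd) hpg h1⟩⟩
    · have f1 := e2 a q ha hq.old
      refine ⟨?_, fun _ => f1⟩
      have f2 : a ^ 2 - 1 = (a - 1) * (a + 1) := by
        obtain ⟨k, rfl⟩ : ∃ k, a = k + 1 := ⟨a - 1, by omega⟩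
        rw [Nat.add_sub_cancel, Nat.sub_eq_iff_eq_add (Nat.one_le_pow _ _ (by omega))]
        ring
      rw [f2]
      exact f1.mul_right _
    · have c1 := hN.compact
      have c2 := hN.hausdorff
      have c3 := hN.connected
      have hm1 : m₀ ≤ m := (le_max_left _ _).trans hm
      have hm2 : 0 < m := (le_max_right _ _).trans hm
      obtain ⟨p', i1, -⟩ := cover_data hpg hm2 hq.old
      obtain ⟨i2, i3⟩ := e3 m hm1
      refine ⟨fun hd ho => ?_, fun hd => ?_⟩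
      · obtain ⟨F, hF⟩ := diffeo_of_CJ (hG.pow m) hG (i2 hd (ho.resolve_left hor)) i1 hpg
        exact diffeomorphic_of_homeo F hF
      · have hd' : 2 * d ∣ m := hd.resolve_right fun h => hor h.1
        obtain ⟨i4, i5⟩ := i3 hd'
        have hev : Even m := even_iff_two_dvd.2 ((Dvd.intro _ rfl).trans hd')
        exact std_of_ext i1 (hG.pow m) (hPD.pow_even hev) (hco.pow hm2) i5 i4

end Pool.Agent.HopfCov.Smooth
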