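import Pool.Agent.HopfCov.Defs

/-!
# Statements of the packages of the library `HopfCov` (owner helper45)

Every package is one file `Pool/Agent/HopfCov/<Name>.lean` proving the corresponding statement.
-/

set_option autoImplicit false

open scoped ContDiff Topology Manifold
open Set Filter Metric

namespace Pool.Agent.HopfCov

/-- P1: a real vector space of dimension at least three minus the origin is simply connected -/
def SpecSimplyConnected : Prop :=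
  ∀ (E : Type) [NormedAddCommGroup E] [NormedSpace ℝ E] [FiniteDimensional ℝ E],
    2 < Module.finrank ℝ E → SimplyConnectedSpace {x : E // x ≠ 0}

/-- P4a: germs of orientation preserving diffeomorphisms with a fixed point are germs of
diffeomorphisms of `E` supported near the point -/
def SpecGermFix : Prop :=
  ∀ (E : Type) [NormedAddCommGroup E] [InnerProductSpace ℝ E] [FiniteDimensional ℝ E]
    (φ : E → E) (a : E), (∀ᶠ x in 𝓝 a, LD 1 φ x) → φ a = a → ∀ O ∈ 𝓝 a,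
    ∃ H : E ≃ₜ E, (∀ x, LD 1 H x) ∧ (∀ᶠ x in 𝓝 a, H x = φ x) ∧ ∀ x, x ∉ O → H x = x

/-- P4b: a compactly supported diffeomorphism exchanging two points by translations -/
def SpecSwap : Prop :=
  ∀ (E : Type) [NormedAddCommGroup E] [InnerProductSpace ℝ E] [FiniteDimensional ℝ E]
    (_ : 1 < Module.finrank ℝ E) (p : E), p ≠ 0 →
    ∃ K : E ≃ₜ E, (∀ x, LD 1 K x) ∧ (∀ᶠ x in 𝓝 (0 : E), K x = x + p) ∧
      (∀ᶠ x in 𝓝 p, K x = x - p) ∧ CS K

/-- P4c: radial contractions -/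
def SpecRadial : Prop :=
  ∀ (E : Type) [NormedAddCommGroup E] [InnerProductSpace ℝ E] [FiniteDimensional ℝ E]
    (ε a b : ℝ), 0 < ε → ε ≤ 1 → 0 < a → a < b →
    ∃ s : E ≃ₜ E, (∀ x, LD 1 s x) ∧ (∀ x, ‖x‖ ≤ a → s x = ε • x) ∧ ∀ x, b ≤ ‖x‖ → s x = x

/-- P2a: a homeomorphism of the punctured space extends to a homeomorphism of `E` fixing the
origin, or exchanges the two ends -/
def SpecEnds : Prop :=
  ∀ (E : Type) [NormedAddCommGroup E] [NormedSpace ℝ E] [FiniteDimensional ℝ E],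
    1 < Module.finrank ℝ E → ∀ h : {x : E // x ≠ 0} ≃ₜ {x : E // x ≠ 0},
    (∃ H : E ≃ₜ E, H 0 = 0 ∧ ∀ x : {x : E // x ≠ 0}, H x = h x) ∨
    (∀ R : ℝ, ∀ᶠ x : {x : E // x ≠ 0} in comap Subtype.val (𝓝 (0 : E)), R ≤ ‖(h x : E)‖) ∧
    (∀ ε : ℝ, 0 < ε → ∀ᶠ x : {x : E // x ≠ 0} in comap Subtype.val (cocompact E),
      ‖(h x : E)‖ ≤ ε)

/-- P2b: the generator of a free action of the integers with compact Hausdorff orbit space
preserves the ends, and it or its inverse contracts -/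
def SpecContract : Prop :=
  ∀ (E : Type) [NormedAddCommGroup E] [NormedSpace ℝ E] [FiniteDimensional ℝ E],
    1 < Module.finrank ℝ E → ∀ (M : Type) [TopologicalSpace M] [T2Space M] [CompactSpace M]
    (g : {x : E // x ≠ 0} ≃ₜ {x : E // x ≠ 0}) (p : {x : E // x ≠ 0} → M),
    IsLocalHomeomorph p → Function.Surjective p →
    (∀ x y, p x = p y ↔ ∃ n : ℤ, y = (g ^ n) x) →
    ∃ G : E ≃ₜ E, G 0 = 0 ∧ (∀ x : {x : E // x ≠ 0}, G x = g x) ∧
      ((∀ R ε : ℝ, 0 < ε → ∃ n₀ : ℕ, ∀ n ≥ n₀, ∀ x : E, ‖x‖ ≤ R → ‖(G ^ n) x‖ < ε) ∨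
       (∀ R ε : ℝ, 0 < ε → ∃ n₀ : ℕ, ∀ n ≥ n₀, ∀ x : E, ‖x‖ ≤ R → ‖((G⁻¹) ^ n) x‖ < ε))

/-- the standard four-dimensional Euclidean space -/
abbrev E4 : Type := EuclideanSpace ℝ (Fin 4)

/-- `ℝ⁴` minus the origin as an open subset (hence a smooth manifold) -/
def V4 : TopologicalSpace.Opens E4 := ⟨{0}ᶜ, isOpen_compl_singleton⟩

/-- `p : ℝ⁴ ∖ 0 → M` is the smooth covering whose fibres are the orbits of the group generated
by `g`; that is, `M` is the orbit space of `g`. -/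
structure OrbitMap (g : V4 ≃ₜ V4) {M : Type} [TopologicalSpace M] [ChartedSpace E4 M]
    (p : V4 → M) : Prop where
  surj : Function.Surjective p
  loc : IsLocalDiffeomorph (𝓡 4) (𝓡 4) ∞ p
  fib : ∀ x y : V4, p x = p y ↔ ∃ n : ℤ, y = (g ^ n) x

/-- P3: the orbit space of `x ↦ x / 2` is `S¹ × S³` -/
def SpecModel : Prop :=
  ∀ τ : V4 ≃ₜ V4, (∀ x : V4, (τ x : E4) = (2⁻¹ : ℝ) • (x : E4)) →
    ∀ (M : Type) [TopologicalSpace M] [ChartedSpace E4 M] [IsManifold (𝓡 4) ∞ M] (p : V4 → M),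
    OrbitMap τ p → Nonempty (Diffeomorph (𝓡 4) ((𝓡 1).prod (𝓡 3)) M
      (Circle × sphere (0 : E4) 1) ∞)

/-- P5: diffeomorphisms of orbit spaces lift -/
def SpecLift : Prop :=
  ∀ (g g' : V4 ≃ₜ V4) (M M' : Type)
    [TopologicalSpace M] [ChartedSpace E4 M] [IsManifold (𝓡 4) ∞ M] [T2Space M] [CompactSpace M]
    [TopologicalSpace M'] [ChartedSpace E4 M'] [IsManifold (𝓡 4) ∞ M'] [T2Space M']
    [CompactSpace M'] (p : V4 → M) (p' : V4 → M'),
    OrbitMap g p → OrbitMap g' p' → ∀ F : Diffeomorph (𝓡 4) (𝓡 4) M M' ∞,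
    ∃ Ψ : V4 ≃ₜ V4, IsLocalDiffeomorph (𝓡 4) (𝓡 4) ∞ Ψ ∧ (∀ x, p' (Ψ x) = F (p x)) ∧
      (Ψ * g * Ψ⁻¹ = g' ∨ Ψ * g * Ψ⁻¹ = g'⁻¹)

/-- P6: an equivariant homeomorphism which is a local diffeomorphism off the orbit of at most
one point induces a homeomorphism of the orbit spaces which is a diffeomorphism off one point -/
def SpecDescend : Prop :=
  ∀ (g g' : V4 ≃ₜ V4) (M M' : Type)
    [TopologicalSpace M] [ChartedSpace E4 M] [IsManifold (𝓡 4) ∞ M]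
    [TopologicalSpace M'] [ChartedSpace E4 M'] [IsManifold (𝓡 4) ∞ M']
    (p : V4 → M) (p' : V4 → M'),
    OrbitMap g p → OrbitMap g' p' → ∀ Φ : V4 ≃ₜ V4, Φ * g = g' * Φ →
    ∃ F : M ≃ₜ M', (∀ x, F (p x) = p' (Φ x)) ∧
      ∀ x, IsLocalDiffeomorphAt (𝓡 4) (𝓡 4) ∞ Φ x → IsLocalDiffeomorphAt (𝓡 4) (𝓡 4) ∞ F (p x)

end Pool.Agent.HopfCov
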