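import Pool.Agent.HopfCov.Assemble

/-!
# Statements of the fourth round of packages of the library `HopfCov` (owner helper45)
-/

set_option autoImplicit false

open scoped ContDiff Topology Manifold
open Set Filter Metric

namespace Pool.Agent.HopfCov

open Classical in
/-- a map of the punctured space, extended by `0 ↦ 0` -/
noncomputable def ext0 (f : V4 → V4) (x : E4) : E4 := if h : x ≠ 0 then (f ⟨x, h⟩ : E4) else 0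

/-- T1: the derivative of a map of the punctured space -/
def SpecMfderiv : Prop :=
  ∀ (f : V4 → V4) (x : V4), ContMDiffAt (𝓡 4) (𝓡 4) ∞ f x →
    (mfderiv (𝓡 4) (𝓡 4) f x : E4 →L[ℝ] E4) = fderiv ℝ (ext0 f) (x : E4)

/-- T2: the sign of the Jacobian determinant is constant -/
def SpecSign : Prop :=
  ∀ Ψ : V4 ≃ₜ V4, IsLocalDiffeomorph (𝓡 4) (𝓡 4) ∞ Ψ →
    (∀ x : E4, x ≠ 0 → LD 1 (ext0 Ψ) x) ∨ (∀ x : E4, x ≠ 0 → LD (-1) (ext0 Ψ) x)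

/-- T3: conjugation by an orientation preserving diffeomorphism which exchanges the ends -/
def SpecLiftSwap : Prop :=
  ∀ (Ψ g k : V4 ≃ₜ V4) (G K : E4 ≃ₜ E4), IsLocalDiffeomorph (𝓡 4) (𝓡 4) ∞ Ψ →
    (∀ x : E4, x ≠ 0 → LD 1 (ext0 Ψ) x) → (¬ ∃ H : E4 ≃ₜ E4, Extends H Ψ) →
    Extends G g → Extends K k → PD 1 G → PD 1 K → Ψ * g * Ψ⁻¹ = k⁻¹ → Ext (K * G⁻¹)

/-- T5: two homeomorphisms which exchange the ends have a product which preserves them -/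
def SpecSwapMul : Prop :=
  ∀ Ψ Ψ' : V4 ≃ₜ V4, (¬ ∃ H : E4 ≃ₜ E4, Extends H Ψ) → (¬ ∃ H : E4 ≃ₜ E4, Extends H Ψ') →
    ∃ H : E4 ≃ₜ E4, Extends H (Ψ * Ψ')

/-- T6: a homeomorphism which exchanges the ends does not conjugate a contraction to a
contraction -/
def SpecSwapContr : Prop :=
  ∀ (Ψ g k : V4 ≃ₜ V4) (G K : E4 ≃ₜ E4), (¬ ∃ H : E4 ≃ₜ E4, Extends H Ψ) →
    Extends G g → Extends K k → Contr G → Contr K → Ψ * g * Ψ⁻¹ = k → False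

/-- T7: the inversion `x ↦ x / ‖x‖²` -/
def SpecInversion : Prop :=
  ∃ J : V4 ≃ₜ V4, IsLocalDiffeomorph (𝓡 4) (𝓡 4) ∞ J ∧ (¬ ∃ H : E4 ≃ₜ E4, Extends H J) ∧
    ∀ τ : V4 ≃ₜ V4, (∀ x : V4, (τ x : E4) = (2⁻¹ : ℝ) • (x : E4)) → J * τ * J⁻¹ = τ⁻¹

/-- T8a: the projection of the punctured space onto `S¹ × S³` -/
def SpecModelMap : Prop :=
  ∀ τ : V4 ≃ₜ V4, (∀ x : V4, (τ x : E4) = (2⁻¹ : ℝ) • (x : E4)) →
    ∃ q₀ : V4 → Circle × sphere (0 : E4) 1, Function.Surjective q₀ ∧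
      IsLocalDiffeomorph (𝓡 4) ((𝓡 1).prod (𝓡 3)) ∞ q₀ ∧
      ∀ x y, q₀ x = q₀ y ↔ ∃ n : ℤ, y = (τ ^ n) x

/-- T8: `S¹ × S³` is an orbit space of `x ↦ x / 2` -/
def SpecModelOrbit : Prop :=
  ∀ τ : V4 ≃ₜ V4, (∀ x : V4, (τ x : E4) = (2⁻¹ : ℝ) • (x : E4)) →
    ∀ (M : Type) [TopologicalSpace M] [ChartedSpace E4 M] [IsManifold (𝓡 4) ∞ M],
    Nonempty (Diffeomorph (𝓡 4) ((𝓡 1).prod (𝓡 3)) M (Circle × sphere (0 : E4) 1) ∞) →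
    ∃ p : V4 → M, OrbitMap τ p

end Pool.Agent.HopfCov
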