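import Pool.Agent.HopfCov.Spec3

/-!
# The definitions used in the statements of the hand-ins for `MP_6db3ee_gt`
-/

set_option autoImplicit false

open scoped ContDiff Topology Manifold
open Set Filter Metric

namespace Pool.Agent.HopfCov.Smooth

/-- a smooth manifold of dimension four without boundary (not assumed compact) -/
structure Mfd4 where
  carrier : Type
  top : TopologicalSpace carrier
  chart : ChartedSpace (EuclideanSpace ℝ (Fin 4)) carrier
  smooth : IsManifold (𝓡 4) ∞ carrier

instance : CoeSort Mfd4 Type := ⟨Mfd4.carrier⟩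

attribute [instance] Mfd4.top Mfd4.chart Mfd4.smooth

/-- `f` is a local diffeomorphism at every point -/
def LocalDiffeo {M N : Mfd4} (f : M → N) : Prop := IsLocalDiffeomorph (𝓡 4) (𝓡 4) ∞ f

/-- `f` is a diffeomorphism, that is, a bijective local diffeomorphism -/
def IsDiffeo {M N : Mfd4} (f : M → N) : Prop := Function.Bijective f ∧ LocalDiffeo f

/-- there is a diffeomorphism `M → N` -/
def Diffeomorphic (M N : Mfd4) : Prop := ∃ f : M → N, IsDiffeo f

/-- the differential of `f` at `x`, as an endomorphism of `ℝ⁴` (tangent spaces are identified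
with `ℝ⁴` by the preferred charts) -/
noncomputable def dif {M N : Mfd4} (f : M → N) (x : M) : E4 →L[ℝ] E4 :=
  mfderiv (𝓡 4) (𝓡 4) f x

/-- its determinant -/
noncomputable def jac {M N : Mfd4} (f : M → N) (x : M) : ℝ := (dif f x).det

/-- the smooth structure of the open subset `ℝ⁴ ∖ 0` of `ℝ⁴` -/
noncomputable def chartV : ChartedSpace E4 V4 := inferInstance

theorem smoothV : @IsManifold ℝ _ E4 _ _ E4 _ (𝓡 4) ∞ V4 _ chartV :=
  inferInstanceAs (IsManifold (𝓡 4) ∞ V4)

/-- `ℝ⁴ ∖ 0` as an open submanifold of `ℝ⁴` -/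
noncomputable def Punctured : Mfd4 := ⟨V4, inferInstance, chartV, smoothV⟩

/-- `M` is a closed connected manifold -/
structure Closed (M : Mfd4) : Prop where
  compact : CompactSpace M
  hausdorff : T2Space M
  connected : ConnectedSpace M

/-- `q : N → M` is a smooth covering with `m` sheets -/
structure Cover {N M : Mfd4} (m : ℕ) (q : N → M) : Prop where
  cov : IsCoveringMap q
  loc : LocalDiffeo q
  sheets : ∀ y, (q ⁻¹' {y}).ncard = m

/-- The map `p` induces an orientation of `M`: points of a fibre of `p` have differentials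
which differ by an automorphism of positive determinant. -/
def OrientedBy {M : Mfd4} (p : Punctured → M) : Prop :=
  ∀ x x' : Punctured, p x = p x' → 0 < jac p x * jac p x'

/-- The map `q : M → M` preserves the orientation induced by `p`: if `q (p x) = p x'` then the
differentials of `q ∘ p` at `x` and of `p` at `x'`, isomorphisms of `ℝ⁴` onto the same tangent
space, differ by an automorphism of positive determinant. -/
def Preserves {M : Mfd4} (p : Punctured → M) (q : M → M) : Prop :=
  ∀ x x' : Punctured, q (p x) = p x' → 0 < jac (fun y => q (p y)) x * jac p x'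

/-- The map `F : N → N'` preserves the orientations which are lifted along the coverings
`q : N → M` and `q' : N' → M` from the orientation of `M` induced by `p`: at every `n : N`
the differentials of `q` at `n` and of `q' ∘ F` at `n`, composed with the orientation of `M`, have
the same sign. -/
def PreservesOver {M N N' : Mfd4} (p : Punctured → M) (q : N → M) (q' : N' → M)
    (F : N → N') : Prop :=
  ∀ (n : N) (x x' : Punctured), p x = q n → p x' = q' (F n) →
    0 < (jac p x * jac q n) * (jac p x' * jac (fun y => q' (F y)) n)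

/-- the standard smooth structure of the unit sphere of `ℝ⁴` -/
noncomputable def chartS3 : ChartedSpace (EuclideanSpace ℝ (Fin 3)) (sphere (0 : E4) 1) :=
  inferInstance

/-- the unit sphere of `ℝ⁴` -/
def S3 : Type := sphere (0 : E4) 1

instance : TopologicalSpace S3 := instTopologicalSpaceSubtype

noncomputable instance : ChartedSpace (EuclideanSpace ℝ (Fin 3)) S3 := chartS3

/-- the model of the smooth manifold `S¹ × S³` -/
noncomputable def model13 : ModelWithCorners ℝ (EuclideanSpace ℝ (Fin 1) × EuclideanSpace ℝ (Fin 3))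
    (ModelProd (EuclideanSpace ℝ (Fin 1)) (EuclideanSpace ℝ (Fin 3))) := (𝓡 1).prod (𝓡 3)

/-- `M` is homeomorphic to `S¹ × S³` -/
def HomeoS1S3 (M : Mfd4) : Prop := Nonempty (M ≃ₜ Circle × S3)

/-- `M` is diffeomorphic to `S¹ × S³` -/
def DiffeoS1S3 (M : Mfd4) : Prop := Nonempty (Diffeomorph (𝓡 4) model13 M (Circle × S3) ∞)

/-- `M` is homeomorphic to `S¹ × S³` by a homeomorphism which is a local diffeomorphism at all
points but one -/
def OffPoint (M : Mfd4) : Prop :=
  ∃ F : M ≃ₜ Circle × S3, ∃ x₀ : M, ∀ x, x ≠ x₀ → IsLocalDiffeomorphAt (𝓡 4) model13 ∞ F x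

/-- `M` is homeomorphic to the twisted product -/
def HomeoTwisted (M : Mfd4) : Prop := Nonempty (M ≃ₜ Twisted)

/-- the orientation reversing contraction `(z₀, z₁, z₂, z₃) ↦ (- z₀, z₁, z₂, z₃) / 2` -/
noncomputable def halfReflection (z : E4) : E4 :=
  WithLp.toLp 2 ![-(z 0 / 2), z 1 / 2, z 2 / 2, z 3 / 2]

/-- `x` and `y` lie in one orbit of the group generated by `halfReflection` -/
def SameOrbit (x y : E4) : Prop :=
  ∃ n : ℕ, y = halfReflection^[n] x ∨ x = halfReflection^[n] y

/-- `T` is the standard twisted product, the orbit space of `ℝ⁴ ∖ 0` under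
`(z₀, z₁, z₂, z₃) ↦ (- z₀, z₁, z₂, z₃) / 2` -/
def IsTwisted (T : Mfd4) : Prop :=
  T2Space T ∧ ∃ p : Punctured → T, Function.Surjective p ∧ LocalDiffeo p ∧
    ∀ x y : V4, p x = p y ↔ SameOrbit x y

/-- `N` is standard, that is, diffeomorphic to `S¹ × S³` if `p` induces an orientation of `M`, and to
the twisted product otherwise -/
def Standard {M : Mfd4} (p : Punctured → M) (N : Mfd4) : Prop :=
  (OrientedBy p ∧ DiffeoS1S3 N) ∨ (¬ OrientedBy p ∧ IsTwisted N)

/-- `M` is homeomorphic to the manifold `T` by a homeomorphism which is a local diffeomorphism at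
all points but one -/
def OffPointTo (M T : Mfd4) : Prop :=
  ∃ F : M ≃ₜ T, ∃ x₀ : M, ∀ x, x ≠ x₀ → IsLocalDiffeomorphAt (𝓡 4) (𝓡 4) ∞ F x

end Pool.Agent.HopfCov.Smooth
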