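import Pool.Agent.HopfCov.Statement

/-!
# The definitions used in the statement of the classification
-/

set_option autoImplicit false

open scoped ContDiff Topology Manifold
open Set Filter Metric

namespace Pool.Agent.HopfCov.Smooth

/-- the homeomorphisms of `ℝ⁴` -/
def Homeo4 : Type := E4 ≃ₜ E4

/-- the map given by a homeomorphism -/
def Homeo4.fn (h : Homeo4) : E4 → E4 := (show E4 ≃ₜ E4 from h).toFun

/-- the composition of homeomorphisms -/
def Homeo4.comp (h k : Homeo4) : Homeo4 := Homeomorph.trans k h

/-- the inverse homeomorphism -/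
def Homeo4.inv (h : Homeo4) : Homeo4 := Homeomorph.symm h

/-- the Euclidean norm of `ℝ⁴` -/
noncomputable def nrm (x : E4) : ℝ := ‖x‖

/-- `f` is smooth at `x` with positive Jacobian determinant -/
def RegularAt (f : E4 → E4) (x : E4) : Prop :=
  ContDiffAt ℝ ∞ f x ∧ 0 < (fderiv ℝ f x).det

/-- `h` fixes the origin and restricts to an orientation preserving diffeomorphism of
`ℝ⁴ ∖ 0` -/
def PuncturedDiffeo (h : Homeo4) : Prop := h.fn 0 = 0 ∧ ∀ x, x ≠ 0 → RegularAt h.fn x

/-- `h` agrees near infinity with an orientation preserving diffeomorphism of `ℝ⁴` -/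
def Extendable (h : Homeo4) : Prop :=
  ∃ Θ : Homeo4, (∀ x, RegularAt Θ.fn x) ∧ ∃ R : ℝ, ∀ x, R ≤ nrm x → Θ.fn x = h.fn x

/-- the inclusion of `ℝ⁴ ∖ 0` in `ℝ⁴` -/
def val (x : Punctured) : E4 := Subtype.val x

/-- `x` and `y` lie in one orbit of the group generated by `G` -/
def OneOrbit (G : Homeo4) (x y : E4) : Prop := ∃ n : ℕ, y = G.fn^[n] x ∨ x = G.fn^[n] y

/-- `p : ℝ⁴ ∖ 0 → M` is the smooth covering of the closed manifold `M` whose fibres are the orbits
of the group generated by `G`, and `G` maps the closed unit ball into the open unit ball -/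
structure IsOrbitSpace (M : Mfd4) (p : Punctured → M) (G : Homeo4) : Prop where
  closed : Closed M
  surj : Function.Surjective p
  loc : LocalDiffeo p
  fib : ∀ x y : Punctured, p x = p y ↔ OneOrbit G (val x) (val y)
  diffeo : PuncturedDiffeo G
  trap : ∀ x, nrm x ≤ 1 → nrm (G.fn x) < 1

/-- The map `F : M → M'` preserves the orientations induced by `p` and `p'`: if `F (p x) = p' x'`
then the differentials of `F ∘ p` at `x` and of `p'` at `x'`, isomorphisms of `ℝ⁴` onto the same
tangent space, differ by an automorphism of positive determinant. -/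
def PreservesTo {M M' : Mfd4} (p : Punctured → M) (p' : Punctured → M') (F : M → M') : Prop :=
  ∀ x x' : Punctured, F (p x) = p' x' → 0 < jac (fun y => F (p y)) x * jac p' x'

/-- `M` is homeomorphic to `S¹ × S³`, and `p : ℝ⁴ ∖ 0 → M` is a smooth covering which induces
an orientation of `M` and embeds the unit sphere -/
structure EmbedsSphere (M : Mfd4) (p : Punctured → M) : Prop where
  homeo : HomeoS1S3 M
  cov : IsCoveringMap p
  loc : LocalDiffeo p
  oriented : OrientedBy p
  inj : InjOn p {x | nrm (val x) = 1}

end Pool.Agent.HopfCov.Smooth
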