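import Pool.Agent.HopfCov.ClassGroup
import Pool.Agent.HopfCov.Bridge

/-!
# Orientation reversing contractions: classes in the coinvariants of the class group
-/

set_option autoImplicit false
set_option linter.unusedSectionVars false

open scoped ContDiff Topology Manifold
open Set Filter Metric

namespace Pool.Agent.HopfCov

theorem PD.powN {s : ℝ} {g : E4 ≃ₜ E4} (hg : PD s g) (n : ℕ) : PD (s ^ n) (g ^ n) := by
  induction n with
  | zero => simpa using PD_one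
  | succ n ih => rw [pow_succ, pow_succ]; exact ih.mul hg

theorem PD.pow_odd {g : E4 ≃ₜ E4} (hg : PD (-1) g) {n : ℕ} (hn : Odd n) : PD (-1) (g ^ n) := by
  have := hg.powN n
  rwa [hn.neg_one_pow] at this

theorem PD.pow_even {g : E4 ≃ₜ E4} (hg : PD (-1) g) {n : ℕ} (hn : Even n) : PD 1 (g ^ n) := by
  have := hg.powN n
  rwa [hn.neg_one_pow] at this

theorem PD.mul_neg {a b : E4 ≃ₜ E4} (ha : PD (-1) a) (hb : PD (-1) b) : PD 1 (a * b) := by
  have := ha.mul hb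
  rwa [show (-1 : ℝ) * -1 = 1 by norm_num] at this

theorem PD.mul_pos_neg {a b : E4 ≃ₜ E4} (ha : PD 1 a) (hb : PD (-1) b) : PD (-1) (a * b) := by
  have := ha.mul hb
  rwa [one_mul] at this

/-- the reference: the linear contraction with a reflection -/
noncomputable def TT : E4 ≃ₜ E4 := tauL Smooth.refl0

theorem det_refl0_pos : 0 < (-1 : ℝ) * (Smooth.refl0.toContinuousLinearEquiv : E4 →L[ℝ] E4).det := by
  have := Smooth.det_refl0
  linarith

theorem LD_TT (x : E4) : LD (-1) TT x := LD_tauL _ det_refl0_pos x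

theorem PD_TT : PD (-1) TT := PD_tauL _ det_refl0_pos

theorem Ext_TT_sq : Ext (TT * TT) := by
  refine Ext_of_LD fun x => ?_
  have := (LD_TT (TT x)).mul (LD_TT x)
  rwa [show (-1 : ℝ) * -1 = 1 by norm_num] at this

theorem Ext_pow {h : E4 ≃ₜ E4} (hh : Ext h) (n : ℕ) : Ext (h ^ n) := by
  induction n with
  | zero => exact Ext_one
  | succ n ih => rw [pow_succ]; exact ih.mul hh

theorem Ext_TT_even {n : ℕ} (hn : Even n) : Ext (TT ^ n) := by
  obtain ⟨k, rfl⟩ := hn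
  have : TT ^ (k + k) = (TT * TT) ^ k := by rw [← two_mul, pow_mul, pow_two]
  rw [this]
  exact Ext_pow Ext_TT_sq k

/-- the automorphism of the class group -/
noncomputable def R : AA →* AA := rr TT PD_TT

theorem R_R (x : AA) : R (R x) = x := rr_rr _ x

/-- every orientation reversing punctured diffeomorphism acts in the same way -/
theorem conj_eq_R {K : E4 ≃ₜ E4} (hK : PD (-1) K) {u : E4 ≃ₜ E4} (hu : PD 1 u)
    (h : PD 1 (K * u * K⁻¹)) : cls (K * u * K⁻¹) h = R (cls u hu) := by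
  have h1 : PD 1 (K * TT⁻¹) := hK.mul_neg PD_TT.inv
  have h2 : PD 1 (TT * u * TT⁻¹) := PD_conj (s := -1) (by norm_num) PD_TT hu
  have h3 : K * u * K⁻¹ = (K * TT⁻¹) * (TT * u * TT⁻¹) * (K * TT⁻¹)⁻¹ := by group
  rw [cls_congr h h3 ((h1.mul_one' h2).mul_one' h1.inv), cls_mul (h1.mul_one' h2) h1.inv,
    cls_mul h1 h2, cls_inv h1 h1.inv, R, rr_cls PD_TT hu h2, mul_comm (cls (K * TT⁻¹) h1),
    mul_assoc, mul_inv_cancel, mul_one]

/-- `x ↦ x / R x` -/
noncomputable def phi : AA →* AA where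
  toFun x := x * (R x)⁻¹
  map_one' := by simp
  map_mul' x y := by
    rw [map_mul, mul_inv]
    exact mul_mul_mul_comm _ _ _ _

/-- the group of coinvariants -/
abbrev AB : Type := AA ⧸ phi.range

noncomputable def pr : AA →* AB := QuotientGroup.mk' phi.range

theorem pr_eq_one {x : AA} : pr x = 1 ↔ ∃ y, y * (R y)⁻¹ = x := by
  rw [pr, QuotientGroup.mk'_apply, QuotientGroup.eq_one_iff]
  exact Iff.rfl

theorem pr_R (x : AA) : pr (R x) = pr x := by
  have h : pr (x * (R x)⁻¹) = 1 := pr_eq_one.2 ⟨x, rfl⟩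
  rw [map_mul, map_inv, mul_inv_eq_one] at h
  exact h.symm

/-- the class of an orientation reversing punctured diffeomorphism -/
noncomputable def chi (K : E4 ≃ₜ E4) (hK : PD (-1) K) : AB :=
  pr (cls (K * TT⁻¹) (hK.mul_neg PD_TT.inv))

theorem chi_congr {K K' : E4 ≃ₜ E4} (h : K = K') (hK : PD (-1) K) (hK' : PD (-1) K') :
    chi K hK = chi K' hK' := by subst h; rfl

theorem chi_mul {u K : E4 ≃ₜ E4} (hu : PD 1 u) (hK : PD (-1) K) (h : PD (-1) (u * K)) :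
    chi (u * K) h = pr (cls u hu) * chi K hK := by
  have h1 : PD 1 (K * TT⁻¹) := hK.mul_neg PD_TT.inv
  rw [chi, chi, ← map_mul, ← cls_mul hu h1]
  congr 1

theorem chi_conj_pos {H K : E4 ≃ₜ E4} (hH : PD 1 H) (hK : PD (-1) K)
    (h : PD (-1) (H * K * H⁻¹)) : chi (H * K * H⁻¹) h = chi K hK := by
  have h1 : PD 1 (K * H⁻¹ * K⁻¹) := PD_conj (s := -1) (by norm_num) hK hH.inv
  have h2 : H * K * H⁻¹ = (H * (K * H⁻¹ * K⁻¹)) * K := by group
  rw [chi_congr h2 h ((hH.mul_one' h1).mul_pos_neg hK), chi_mul (hH.mul_one' h1) hK,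
    cls_mul hH h1, map_mul, conj_eq_R hK hH.inv h1, pr_R, ← map_mul, cls_inv hH hH.inv,
    mul_inv_cancel, map_one, one_mul]

/-- the class is invariant under conjugation -/
theorem chi_conj {s : ℝ} (hs : s = 1 ∨ s = -1) {H K : E4 ≃ₜ E4} (hH : PD s H) (hK : PD (-1) K)
    (h : PD (-1) (H * K * H⁻¹)) : chi (H * K * H⁻¹) h = chi K hK := by
  rcases hs with rfl | rfl
  · exact chi_conj_pos hH hK h
  · have h1 : PD 1 (H * K⁻¹) := hH.mul_neg hK.inv
    have h2 : H * K * H⁻¹ = (H * K⁻¹) * K * (H * K⁻¹)⁻¹ := by group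
    rw [chi_congr h2 h (by rw [← h2]; exact h)]
    exact chi_conj_pos h1 hK _

/-- elements with the same class can be made equal at infinity by a conjugation -/
theorem exists_conj_of_chi {K K' : E4 ≃ₜ E4} (hK : PD (-1) K) (hK' : PD (-1) K')
    (h : chi K' hK' = chi K hK) : ∃ w : E4 ≃ₜ E4, PD 1 w ∧ Ext (K' * (w * K * w⁻¹)⁻¹) := by
  have h1 : PD 1 (K' * K⁻¹) := hK'.mul_neg hK.inv
  have h2 : pr (cls (K' * K⁻¹) h1) = 1 := by
    have h3 : chi ((K' * K⁻¹) * K) (h1.mul_pos_neg hK) = chi K' hK' :=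
      chi_congr (by group) _ _
    rw [chi_mul h1 hK, h] at h3
    exact mul_eq_right.1 h3
  obtain ⟨y, hy⟩ := pr_eq_one.1 h2
  obtain ⟨w, hw, rfl⟩ := cls_surj y
  refine ⟨w, hw, ?_⟩
  have h4 : PD 1 (K * w * K⁻¹) := PD_conj (s := -1) (by norm_num) hK hw
  have h5 : K' * (w * K * w⁻¹)⁻¹ = (K' * K⁻¹) * ((K * w * K⁻¹) * w⁻¹) := by group
  rw [h5, ← cls_eq_one (h1.mul_one' (h4.mul_one' hw.inv)), cls_mul' h1 (h4.mul_one' hw.inv),
    cls_mul' h4 hw.inv, conj_eq_R hK hw h4, ← hy, cls_inv hw hw.inv]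
  group

theorem cls_sq {G : E4 ≃ₜ E4} (hG : PD (-1) G) (h : PD 1 (G ^ 2)) :
    cls (G ^ 2) h = cls (G * TT⁻¹) (hG.mul_neg PD_TT.inv) *
      R (cls (G * TT⁻¹) (hG.mul_neg PD_TT.inv)) := by
  have h1 := hG.mul_neg PD_TT.inv
  have h2 : PD 1 (TT * (G * TT⁻¹) * TT⁻¹) := PD_conj (s := -1) (by norm_num) PD_TT h1
  have h3 : PD 1 (TT * TT) := PD_TT.mul_neg PD_TT
  have h4 : G ^ 2 = (G * TT⁻¹) * (TT * (G * TT⁻¹) * TT⁻¹) * (TT * TT) := by
    rw [pow_two]
    group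
  rw [cls_congr h h4 ((h1.mul_one' h2).mul_one' h3), cls_mul' (h1.mul_one' h2) h3,
    cls_mul' h1 h2, conj_eq_R PD_TT h1 h2, (cls_eq_one h3).2 Ext_TT_sq, mul_one]

theorem pr_cls_sq {G : E4 ≃ₜ E4} (hG : PD (-1) G) (h : PD 1 (G ^ 2)) :
    pr (cls (G ^ 2) h) = chi G hG ^ 2 := by
  rw [cls_sq hG h, map_mul, pr_R, pow_two]
  rfl

theorem cls_pow {u : E4 ≃ₜ E4} (hu : PD 1 u) (n : ℕ) (h : PD 1 (u ^ n)) :
    cls (u ^ n) h = cls u hu ^ n := by
  induction n with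
  | zero =>
    rw [pow_zero (cls u hu)]
    exact (cls_eq_one h).2 Ext_one
  | succ n ih =>
    rw [cls_congr h (pow_succ u n) ((hu.pow n).mul_one' hu), cls_mul (hu.pow n) hu, ih, pow_succ]

theorem pr_cls_even {G : E4 ≃ₜ E4} (hG : PD (-1) G) {n : ℕ} (hn : Even n) (h : PD 1 (G ^ n)) :
    pr (cls (G ^ n) h) = chi G hG ^ n := by
  obtain ⟨k, rfl⟩ := hn
  have h2 : PD 1 (G ^ 2) := hG.pow_even even_two
  have e : G ^ (k + k) = (G ^ 2) ^ k := by rw [← two_mul, pow_mul]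
  rw [cls_congr h e (h2.pow k), cls_pow h2, map_pow, pr_cls_sq hG h2, ← pow_mul, two_mul]

theorem chi_pow {G : E4 ≃ₜ E4} (hG : PD (-1) G) {n : ℕ} (hn : Odd n) (h : PD (-1) (G ^ n)) :
    chi (G ^ n) h = chi G hG ^ n := by
  obtain ⟨k, rfl⟩ := hn
  have hev : Even (2 * k) := even_two_mul k
  rw [chi_congr (pow_succ G (2 * k)) h ((hG.pow_even hev).mul_pos_neg hG),
    chi_mul (hG.pow_even hev) hG, pr_cls_even hG hev, pow_succ]

/-- if a power of the class is trivial, an even power of the element is extendable -/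
theorem Ext_of_chi_pow {G : E4 ≃ₜ E4} (hG : PD (-1) G) {d : ℕ} (hd : chi G hG ^ d = 1) {m : ℕ}
    (hm : 2 * d ∣ m) : Ext (G ^ m) := by
  have h2 : PD 1 (G ^ 2) := hG.pow_even even_two
  set c := cls (G * TT⁻¹) (hG.mul_neg PD_TT.inv) with hc
  have h1 : pr (c ^ d) = 1 := by rw [map_pow]; exact hd
  obtain ⟨y, hy⟩ := pr_eq_one.1 h1
  have h3 : cls ((G ^ 2) ^ d) (h2.pow d) = 1 := by
    rw [cls_pow h2, cls_sq hG h2, ← hc, mul_pow, ← map_pow, ← hy, map_mul, map_inv, R_R]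
    group
  obtain ⟨k, rfl⟩ := hm
  rw [pow_mul, pow_mul]
  exact Ext_pow ((cls_eq_one _).1 h3) k

end Pool.Agent.HopfCov
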