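import Pool.Agent.HopfCov.Twist

/-!
# Self-covering structures, in the orientable and in the non-orientable case
-/

set_option autoImplicit false
set_option linter.unusedSectionVars false

open scoped ContDiff Topology Manifold
open Set Filter Metric

namespace Pool.Agent.HopfCov

theorem exists_restr_PDs {s : ℝ} {K : E4 ≃ₜ E4} (hK : PD s K) :
    ∃ k : V4 ≃ₜ V4, Extends K k ∧ IsLocalDiffeomorph (𝓡 4) (𝓡 4) ∞ k := by
  obtain ⟨k, h1, -, h2⟩ := restr_gen K hK.1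
  exact ⟨k, fun x => (h1 x).symm,
    fun x => h2 s x ((V4_eventually_ne x).mono fun y hy => hK.2 y hy)⟩

theorem LD_ext0_of_extends {s : ℝ} {H : E4 ≃ₜ E4} {h : V4 ≃ₜ V4} (hH : Extends H h)
    (hPD : PD s H) : ∀ x : E4, x ≠ 0 → LD s (ext0 h) x := by
  intro x hx
  refine (hPD.2 x hx).congr ?_
  filter_upwards [isOpen_ne.mem_nhds hx] with y hy
  have hy' : y ≠ 0 := hy
  show H y = ext0 h y
  rw [ext0, dif_pos hy']
  exact hH ⟨y, hy'⟩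

theorem LD_ext0_mul {s t : ℝ} {Ψ Ψ' : V4 ≃ₜ V4} (h : ∀ x : E4, x ≠ 0 → LD s (ext0 Ψ) x)
    (h' : ∀ x : E4, x ≠ 0 → LD t (ext0 Ψ') x) :
    ∀ x : E4, x ≠ 0 → LD (s * t) (ext0 (Ψ * Ψ' : V4 ≃ₜ V4)) x := by
  intro x hx
  have h3 : LD (s * t) (ext0 Ψ ∘ ext0 Ψ') x := (h _ (ext0_ne_h Ψ' hx)).comp (h' x hx)
  refine h3.congr ?_
  filter_upwards [isOpen_ne.mem_nhds hx] with y hy
  exact (ext0_mul Ψ Ψ' hy).symm

/-- an orientation preserving diffeomorphism of the punctured space which exchanges the ends and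
conjugates `x ↦ r x / 2` to its inverse -/
theorem exists_swap {τ : V4 ≃ₜ V4} (hτ : Extends TT τ) : ∃ J : V4 ≃ₜ V4,
    IsLocalDiffeomorph (𝓡 4) (𝓡 4) ∞ J ∧ (¬ ∃ H : E4 ≃ₜ E4, Extends H J) ∧
    (∀ x : E4, x ≠ 0 → LD 1 (ext0 J) x) ∧ J * τ * J⁻¹ = τ⁻¹ := by
  obtain ⟨J, h1, h2, h3⟩ := inversion_data
  have hinv : ∀ x, Smooth.refl0 (Smooth.refl0 x) = x := by
    intro x
    exact (ℝ ∙ (EuclideanSpace.single 0 1 : E4))ᗮ.reflection_reflection x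
  have hτ' : ∀ x : V4, (τ x : E4) = (2⁻¹ : ℝ) • Smooth.refl0 (x : E4) := fun x => by
    rw [← hτ x]
    exact tauL_apply _ _
  have h4 := inversion_conj h3 hinv hτ'
  rcases specSign J h1 with h5 | h5
  · exact ⟨J, h1, h2, h5, h4⟩
  · obtain ⟨l, l1, l2⟩ := exists_restr_PDs (PD_linH det_refl0_pos)
    refine ⟨J * l, fun x => (l2 x).comp (K := 𝓡 4) (hg := h1 (l x)), ?_, ?_, ?_⟩
    · rintro ⟨H, hH⟩
      refine h2 ⟨H * (linH Smooth.refl0)⁻¹, ?_⟩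
      have := hH.mul l1.inv
      rwa [mul_assoc, mul_inv_cancel, mul_one] at this
    · have := LD_ext0_mul h5 (LD_ext0_of_extends l1 (PD_linH det_refl0_pos))
      rwa [show (-1 : ℝ) * -1 = 1 by norm_num] at this
    · have e1 : l * τ = τ * l := by
        have d1 : Extends (linH Smooth.refl0 * TT) (l * τ) := l1.mul hτ
        have d2 : Extends (TT * linH Smooth.refl0) (τ * l) := hτ.mul l1
        have d3 : linH Smooth.refl0 * TT = TT * linH Smooth.refl0 := by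
          ext1 x
          show Smooth.refl0 ((2⁻¹ : ℝ) • Smooth.refl0 x) = (2⁻¹ : ℝ) • Smooth.refl0 (Smooth.refl0 x)
          exact Smooth.refl0.map_smul _ _
        rw [d3] at d1
        exact d1.eq_of d2
      calc J * l * τ * (J * l)⁻¹ = J * (l * τ * l⁻¹) * J⁻¹ := by group
        _ = J * τ * J⁻¹ := by rw [e1]; group
        _ = τ⁻¹ := h4

/-- the class is invariant under an exchange of the ends -/
theorem chi_swap {τ J g : V4 ≃ₜ V4} (hτ : Extends TT τ)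
    (j1 : IsLocalDiffeomorph (𝓡 4) (𝓡 4) ∞ J) (j2 : ¬ ∃ H : E4 ≃ₜ E4, Extends H J)
    (j3 : ∀ x : E4, x ≠ 0 → LD 1 (ext0 J) x) (j4 : J * τ * J⁻¹ = τ⁻¹)
    {G G' : E4 ≃ₜ E4} (hG : Extends G g) (hPD : PD (-1) G) (hG' : Extends G' (J⁻¹ * g⁻¹ * J))
    (hPD' : PD (-1) G') : chi G' hPD' = chi G hPD := by
  -- the inverse of `J`
  have i1 : IsLocalDiffeomorph (𝓡 4) (𝓡 4) ∞ (J⁻¹ : V4 ≃ₜ V4) := by
    intro y
    obtain ⟨x, rfl⟩ := J.surjective y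
    have := (diffeoOfHomeo J j1).symm.isLocalDiffeomorph (J x)
    exact this
  have i2 : ¬ ∃ H : E4 ≃ₜ E4, Extends H J⁻¹ := by
    rintro ⟨H, hH⟩
    exact j2 ⟨H⁻¹, by simpa using hH.inv⟩
  have i3 : ∀ x : E4, x ≠ 0 → LD 1 (ext0 (J⁻¹ : V4 ≃ₜ V4)) x := by
    rcases specSign (J⁻¹ : V4 ≃ₜ V4) i1 with h | h
    · exact h
    · exfalso
      have h1 := LD_ext0_mul j3 h
      rw [mul_inv_cancel] at h1
      obtain ⟨x, hx⟩ := exists_ne (0 : E4)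
      have h2 : LD 1 (ext0 (1 : V4 ≃ₜ V4)) x :=
        LD_ext0_of_extends (H := 1) Extends_one PD_one x hx
      have h3 := (h1 x hx).2
      have h4 := h2.2
      linarith
  have u1 : Extends (G⁻¹ * TT) (g⁻¹ * τ) := hG.inv.mul hτ
  have u2 : PD 1 (G⁻¹ * TT) := hPD.inv.mul_neg PD_TT
  have v1 : Extends (G' * TT⁻¹) (J⁻¹ * g⁻¹ * J * τ⁻¹) := hG'.mul hτ.inv
  have v2 : PD 1 (G' * TT⁻¹) := hPD'.mul_neg PD_TT.inv
  have e1 : J⁻¹ * (g⁻¹ * τ) * J⁻¹⁻¹ = (J⁻¹ * g⁻¹ * J * τ⁻¹)⁻¹⁻¹ := by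
    have e0 : J * τ⁻¹ = τ * J := by
      have e00 : τ = (J * τ * J⁻¹)⁻¹ := by rw [j4, inv_inv]
      conv_rhs => rw [e00]
      group
    rw [inv_inv, inv_inv]
    calc J⁻¹ * (g⁻¹ * τ) * J = J⁻¹ * g⁻¹ * (τ * J) := by group
      _ = J⁻¹ * g⁻¹ * J * τ⁻¹ := by rw [← e0]; group
  have e2 := specLiftSwap J⁻¹ (g⁻¹ * τ) (J⁻¹ * g⁻¹ * J * τ⁻¹)⁻¹ (G⁻¹ * TT) (G' * TT⁻¹)⁻¹
    i1 i3 i2 u1 v1.inv u2 v2.inv e1
  have e3 : cls ((G' * TT⁻¹)⁻¹ * (G⁻¹ * TT)⁻¹) (v2.inv.mul_one' u2.inv) = 1 :=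
    (cls_eq_one _).2 e2
  rw [cls_mul v2.inv u2.inv, cls_inv v2 v2.inv, inv_mul_eq_one] at e3
  have e4 : (G⁻¹ * TT)⁻¹ = TT⁻¹ * (G * TT⁻¹) * TT⁻¹⁻¹ := by group
  have w1 : PD 1 (G * TT⁻¹) := hPD.mul_neg PD_TT.inv
  have w2 : PD 1 (TT⁻¹ * (G * TT⁻¹) * TT⁻¹⁻¹) := PD_conj (s := -1) (by norm_num) PD_TT.inv w1
  rw [cls_congr u2.inv e4 w2, conj_eq_R PD_TT.inv w1 w2] at e3
  show pr (cls (G' * TT⁻¹) v2) = pr (cls (G * TT⁻¹) w1)
  rw [e3, pr_R]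

/-- diffeomorphic orbit spaces have the same class -/
theorem chi_pair {g k Ψ : V4 ≃ₜ V4} {G K : E4 ≃ₜ E4} (hG : Extends G g) (hK : Extends K k)
    (h1 : PD (-1) G) (h2 : PD (-1) K) (c1 : Contr G) (c2 : Contr K)
    (hΨ : IsLocalDiffeomorph (𝓡 4) (𝓡 4) ∞ Ψ) (hc : Ψ * g * Ψ⁻¹ = k ∨ Ψ * g * Ψ⁻¹ = k⁻¹) :
    chi K h2 = chi G h1 := by
  have hsg : ∀ {H : E4 ≃ₜ E4} {h : V4 ≃ₜ V4}, IsLocalDiffeomorph (𝓡 4) (𝓡 4) ∞ h →
      Extends H h → ∃ s : ℝ, (s = 1 ∨ s = -1) ∧ PD s H := by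
    intro H h hh hH
    rcases pd h hh H hH.zero hH with e | e
    · exact ⟨1, Or.inl rfl, e⟩
    · exact ⟨-1, Or.inr rfl, e⟩
  by_cases hE : ∃ H : E4 ≃ₜ E4, Extends H Ψ
  · obtain ⟨H, hH⟩ := hE
    obtain ⟨s, hs, hPD⟩ := hsg hΨ hH
    rcases hc with hc | hc
    · have e1 := hG.conj hH hK hc
      have e2 := chi_conj hs hPD h1 (by rw [e1]; exact h2)
      rw [← e2]
      exact chi_congr e1.symm _ _
    · exfalso
      have e1 := hG.conj hH hK.inv hc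
      have e2 := c1.conj hH.zero
      rw [e1] at e2
      exact c2.not_inv e2
  · rcases hc with hc | hc
    · exact (specSwapContr Ψ g k G K hE hG hK c1 c2 hc).elim
    · obtain ⟨τ, hτ, -⟩ := exists_restr_PDs PD_TT
      obtain ⟨J, j1, j2, j3, j4⟩ := exists_swap hτ
      have i1 : IsLocalDiffeomorph (𝓡 4) (𝓡 4) ∞ (J⁻¹ : V4 ≃ₜ V4) := by
        intro y
        obtain ⟨x, rfl⟩ := J.surjective y
        exact (diffeoOfHomeo J j1).symm.isLocalDiffeomorph (J x)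
      have i2 : ¬ ∃ H : E4 ≃ₜ E4, Extends H J⁻¹ := by
        rintro ⟨H, hH⟩
        exact j2 ⟨H⁻¹, by simpa using hH.inv⟩
      obtain ⟨H, hH⟩ := specSwapMul J⁻¹ Ψ i2 hE
      obtain ⟨s, hs, hPD⟩ := hsg (h := J⁻¹ * Ψ)
        (fun x => (hΨ x).comp (K := 𝓡 4) (hg := i1 (Ψ x))) hH
      have e1 : J⁻¹ * Ψ * g * (J⁻¹ * Ψ)⁻¹ = J⁻¹ * k⁻¹ * J := by
        rw [← hc]
        group
      have e2 : Extends (H * G * H⁻¹) (J⁻¹ * k⁻¹ * J) := by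
        have := (hH.mul hG).mul hH.inv
        rwa [e1] at this
      have e3 : PD (-1) (H * G * H⁻¹) := by
        have := (hPD.mul h1).mul hPD.inv
        rcases hs with rfl | rfl
        · rwa [show (1 : ℝ) * -1 * 1 = -1 by norm_num] at this
        · rwa [show (-1 : ℝ) * -1 * -1 = -1 by norm_num] at this
      rw [← chi_conj hs hPD h1 e3]
      exact (chi_swap hτ j1 j2 j3 j4 hK h2 e2 e3).symm

/-! ### conjugacy -/

/-- conjugate by an orientation preserving punctured diffeomorphism -/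
def CJ (K K' : E4 ≃ₜ E4) : Prop := ∃ Φ : E4 ≃ₜ E4, PD 1 Φ ∧ Φ * K = K' * Φ

theorem CJ.refl (K : E4 ≃ₜ E4) : CJ K K := ⟨1, PD_one, by simp⟩

theorem CJ.symm {K K' : E4 ≃ₜ E4} (h : CJ K K') : CJ K' K := by
  obtain ⟨Φ, h1, h2⟩ := h
  refine ⟨Φ⁻¹, h1.inv, ?_⟩
  rw [inv_mul_eq_iff_eq_mul, ← mul_assoc, h2, mul_assoc, mul_inv_cancel, mul_one]

theorem CJ.trans {K K' K'' : E4 ≃ₜ E4} (h : CJ K K') (h' : CJ K' K'') : CJ K K'' := by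
  obtain ⟨Φ, h1, h2⟩ := h
  obtain ⟨Φ', h3, h4⟩ := h'
  exact ⟨Φ' * Φ, h3.mul_one' h1, by rw [mul_assoc, h2, ← mul_assoc, h4, mul_assoc]⟩

theorem CJ_of_conj {w K K' : E4 ≃ₜ E4} (hw : PD 1 w) (h : w * K * w⁻¹ = K') : CJ K K' :=
  ⟨w, hw, by rw [← h]; group⟩

theorem CJ.pow {K K' : E4 ≃ₜ E4} (h : CJ K K') (n : ℕ) : CJ (K ^ n) (K' ^ n) := by
  obtain ⟨Φ, h1, h2⟩ := h
  refine ⟨Φ, h1, ?_⟩
  have : SemiconjBy Φ K K' := h2
  exact (this.pow_right n).eq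

theorem CJ_core {s : ℝ} (hs : s * s = 1) {K K' : E4 ≃ₜ E4} (h1 : PD s K) (h2 : PD s K')
    (t1 : Trap K) (t2 : Trap K') (c1 : Contr K) (c2 : Contr K') (he : Ext (K' * K⁻¹)) :
    CJ K K' :=
  core_conj hGerm hSwap hRad hdim4 hs h1 h2 t1 t2 c1 c2 he

/-- conjugate generators have diffeomorphic orbit spaces -/
theorem diffeo_of_CJ {g k : V4 ≃ₜ V4} {G K : E4 ≃ₜ E4} (hG : Extends G g) (hK : Extends K k)
    (h : CJ G K) {N N' : Type} [TopologicalSpace N] [ChartedSpace E4 N] [IsManifold (𝓡 4) ∞ N]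
    [TopologicalSpace N'] [ChartedSpace E4 N'] [IsManifold (𝓡 4) ∞ N'] {p : V4 → N}
    {p' : V4 → N'} (hp : OrbitMap g p) (hp' : OrbitMap k p') :
    ∃ F : N ≃ₜ N', IsLocalDiffeomorph (𝓡 4) (𝓡 4) ∞ F := by
  obtain ⟨Φ, f1, f2⟩ := h
  obtain ⟨φ, f3, f4⟩ := exists_restr_PD f1
  have f5 : φ * g = k * φ := by
    have d1 : Extends (Φ * G) (φ * g) := f3.mul hG
    have d2 : Extends (K * Φ) (k * φ) := hK.mul f3
    rw [f2] at d1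
    exact d1.eq_of d2
  obtain ⟨F, f6, f7⟩ := descend g k N N' p p' hp hp' φ f5
  refine ⟨F, fun n => ?_⟩
  obtain ⟨x, rfl⟩ := hp.surj n
  exact f7 x (f4 x)

end Pool.Agent.HopfCov
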