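import Pool.Agent.HopfCov.Twist2

/-!
# Self-covering structures: the main theorem
-/

set_option autoImplicit false
set_option linter.unusedSectionVars false

open scoped ContDiff Topology Manifold
open Set Filter Metric

namespace Pool.Agent.HopfCov

/-! ### chains of conjugate powers -/

theorem chain_neg {G : E4 ≃ₜ E4} (hG : PD (-1) G) (hc : Contr G) {D : ℕ} (hev : Even D)
    (hD : chi G hG ^ D = 1) : ∃ m₀ : ℕ, ∀ j : ℕ, m₀ ≤ j → Odd j → CJ (G ^ j) (G ^ (j + D)) := by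
  have h2 : PD 1 (G ^ D) := hG.pow_even hev
  have h3 : pr (cls (G ^ D) h2) = 1 := by rw [pr_cls_even hG hev, hD]
  obtain ⟨y, hy⟩ := pr_eq_one.1 h3
  obtain ⟨w, hw, rfl⟩ := cls_surj y
  obtain ⟨m₁, hm₁⟩ := (hc.conj hw.zero).trap
  obtain ⟨m₂, hm₂⟩ := hc.trap
  refine ⟨max (max m₁ m₂) 1, fun j hj hodd => ?_⟩
  have hj1 : m₁ ≤ j := (le_max_left _ _).trans ((le_max_left _ _).trans hj)
  have hj2 : m₂ ≤ j := (le_max_right _ _).trans ((le_max_left _ _).trans hj)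
  have hj3 : 0 < j := lt_of_lt_of_le one_pos ((le_max_right _ _).trans hj)
  have e1 : (w * G * w⁻¹) ^ j = w * G ^ j * w⁻¹ := conj_pow
  have p1 : PD (-1) (G ^ j) := hG.pow_odd hodd
  have p2 : PD (-1) (w * G ^ j * w⁻¹) := by
    have := (hw.mul p1).mul hw.inv
    rwa [show (1 : ℝ) * -1 * 1 = -1 by norm_num] at this
  have p3 : PD (-1) (G ^ (j + D)) := hG.pow_odd (hodd.add_even hev)
  have p4 : PD 1 (G ^ j * w * (G ^ j)⁻¹) := PD_conj (s := -1) (by norm_num) p1 hw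
  refine (CJ_of_conj hw rfl).trans (CJ_core (s := -1) (by norm_num) p2 p3 ?_
    (hm₂ _ (by omega)) ?_ (hc.pow (by omega)) ?_)
  · rw [← e1]; exact hm₁ j hj1
  · rw [← e1]; exact (hc.conj hw.zero).pow hj3
  · have e2 : G ^ (j + D) * (w * G ^ j * w⁻¹)⁻¹ = G ^ D * ((G ^ j * w * (G ^ j)⁻¹) * w⁻¹) := by
      rw [add_comm, pow_add]
      group
    rw [e2, ← cls_eq_one (h2.mul_one' (p4.mul_one' hw.inv)), cls_mul' h2 (p4.mul_one' hw.inv),
      cls_mul' p4 hw.inv, conj_eq_R p1 hw p4, ← hy, cls_inv hw hw.inv]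
    group

theorem chain_of_step {G : E4 ≃ₜ E4} {D m₀ : ℕ} (hev : Even D)
    (h : ∀ j : ℕ, m₀ ≤ j → Odd j → CJ (G ^ j) (G ^ (j + D))) {m m' : ℕ} (hm : m₀ ≤ m)
    (hm' : m₀ ≤ m') (ho : Odd m) (ho' : Odd m') (hd : (D : ℤ) ∣ (m' : ℤ) - m) :
    CJ (G ^ m) (G ^ m') := by
  have key : ∀ k j : ℕ, m₀ ≤ j → Odd j → CJ (G ^ j) (G ^ (j + D * k)) := by
    intro k
    induction k with
    | zero => intro j _ _; exact CJ.refl _
    | succ k ih =>
      intro j hj ho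
      have e1 := ih j hj ho
      have e2 := h (j + D * k) (by omega) (ho.add_even (hev.mul_right k))
      have e3 : j + D * k + D = j + D * (k + 1) := by ring
      rw [e3] at e2
      exact e1.trans e2
  rcases le_total m m' with hle | hle
  · obtain ⟨k, hk⟩ : D ∣ m' - m := by
      have : ((m' - m : ℕ) : ℤ) = (m' : ℤ) - m := by push_cast [Nat.cast_sub hle]; ring
      rw [← this] at hd
      exact_mod_cast hd
    have := key k m hm ho
    rwa [← hk, Nat.add_sub_cancel' hle] at this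
  · obtain ⟨k, hk⟩ : D ∣ m - m' := by
      have : ((m - m' : ℕ) : ℤ) = -((m' : ℤ) - m) := by push_cast [Nat.cast_sub hle]; ring
      have h2 := hd.neg_right
      rw [← this] at h2
      exact_mod_cast h2
    have := key k m' hm' ho'
    rw [← hk, Nat.add_sub_cancel' hle] at this
    exact this.symm

theorem Contr_TT : Contr TT := Contr_tauL _

theorem Trap_TT_pow {n : ℕ} (hn : 0 < n) : Trap (TT ^ n) := by
  intro x hx
  rw [TT, norm_tauL_pow]
  have h1 : (2⁻¹ : ℝ) ^ n ≤ 2⁻¹ := by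
    calc (2⁻¹ : ℝ) ^ n ≤ (2⁻¹ : ℝ) ^ 1 :=
          pow_le_pow_of_le_one (by norm_num) (by norm_num) hn
      _ = 2⁻¹ := pow_one _
  have h2 := norm_nonneg x
  nlinarith

/-- a contraction of trivial class has large odd powers which are conjugate to the reference -/
theorem std_neg {G : E4 ≃ₜ E4} (hG : PD (-1) G) (hc : Contr G) (h1 : chi G hG = 1) :
    ∃ m₀ : ℕ, ∀ m : ℕ, m₀ ≤ m → Odd m → CJ TT (G ^ m) := by
  obtain ⟨y, hy⟩ := pr_eq_one.1 h1
  obtain ⟨w, hw, rfl⟩ := cls_surj y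
  obtain ⟨m₁, hm₁⟩ := (Contr_TT.conj hw.zero).trap
  obtain ⟨m₂, hm₂⟩ := hc.trap
  refine ⟨max (max m₁ m₂) 1, fun m hm hodd => ?_⟩
  have hj1 : m₁ ≤ m := (le_max_left _ _).trans ((le_max_left _ _).trans hm)
  have hj2 : m₂ ≤ m := (le_max_right _ _).trans ((le_max_left _ _).trans hm)
  have hj3 : 0 < m := lt_of_lt_of_le one_pos ((le_max_right _ _).trans hm)
  have e1 : (w * TT * w⁻¹) ^ m = w * TT ^ m * w⁻¹ := conj_pow
  have p0 : PD (-1) (TT ^ m) := PD_TT.pow_odd hodd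
  have p1 : PD (-1) (G ^ m) := hG.pow_odd hodd
  have p2 : PD (-1) (w * TT ^ m * w⁻¹) := by
    have := (hw.mul p0).mul hw.inv
    rwa [show (1 : ℝ) * -1 * 1 = -1 by norm_num] at this
  -- `TT` and its power
  have a1 : CJ TT (TT ^ m) := by
    refine CJ_core (s := -1) (by norm_num) PD_TT p0 (Trap_tauL _) (Trap_TT_pow hj3) Contr_TT
      (Contr_TT.pow hj3) ?_
    obtain ⟨k, rfl⟩ := hodd
    have : TT ^ (2 * k + 1) * TT⁻¹ = TT ^ (2 * k) := by rw [pow_succ]; group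
    rw [this]
    exact Ext_TT_even (even_two_mul k)
  refine a1.trans ((CJ_of_conj hw rfl).trans (CJ_core (s := -1) (by norm_num) p2 p1 ?_
    (hm₂ m hj2) ?_ (hc.pow hj3) ?_))
  · rw [← e1]; exact hm₁ m hj1
  · rw [← e1]; exact (Contr_TT.conj hw.zero).pow hj3
  · obtain ⟨k, rfl⟩ := hodd
    have hev : Even (2 * k) := even_two_mul k
    have q1 : PD 1 (G ^ (2 * k)) := hG.pow_even hev
    have q2 : PD 1 (G * w * G⁻¹) := PD_conj (s := -1) (by norm_num) hG hw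
    have q3 : PD 1 (G * TT⁻¹) := hG.mul_neg PD_TT.inv
    have q4 : PD 1 (TT ^ (2 * k)) := PD_TT.pow_even hev
    have e2 : G ^ (2 * k + 1) * (w * TT ^ (2 * k + 1) * w⁻¹)⁻¹ =
        G ^ (2 * k) * ((G * w * G⁻¹) * ((G * TT⁻¹) * ((TT ^ (2 * k))⁻¹ * w⁻¹))) := by
      rw [pow_succ, pow_succ]
      have e3 : TT * TT ^ (2 * k) = TT ^ (2 * k) * TT := (pow_mul_comm' TT (2 * k)).symm
      have e4 : (TT ^ (2 * k) * TT)⁻¹ = TT⁻¹ * (TT ^ (2 * k))⁻¹ := mul_inv_rev _ _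
      calc G ^ (2 * k) * G * (w * (TT ^ (2 * k) * TT) * w⁻¹)⁻¹ =
          G ^ (2 * k) * G * (w * (TT ^ (2 * k) * TT)⁻¹ * w⁻¹) := by group
        _ = _ := by rw [e4]; group
    have e5 : cls (G ^ (2 * k)) q1 = 1 := by
      rw [cls_eq_one]
      exact Ext_of_chi_pow hG (d := 1) (by rw [h1, one_pow]) ⟨k, by ring⟩
    have e6 : cls (TT ^ (2 * k)) q4 = 1 := by
      rw [cls_eq_one]
      exact Ext_TT_even hev
    have q5 := q4.inv.mul_one' hw.inv
    have q6 := q3.mul_one' q5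
    have q7 := q2.mul_one' q6
    rw [e2, ← cls_eq_one (q1.mul_one' q7), cls_mul' q1 q7, cls_mul' q2 q6, cls_mul' q3 q5,
      cls_mul' q4.inv hw.inv, conj_eq_R hG hw q2, ← hy, cls_inv q4 q4.inv, e5, e6,
      cls_inv hw hw.inv]
    have key : ∀ a b : AA, 1 * (a * (b * a⁻¹ * ((1 : AA)⁻¹ * b⁻¹))) = 1 := by
      intro a b
      rw [mul_comm b a⁻¹]
      group
    exact key _ _

/-! ### lifts of self-coverings -/

section

variable {M : Type} [TopologicalSpace M] [ChartedSpace E4 M] [IsManifold (𝓡 4) ∞ M]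

theorem selfcover_square [T2Space M] [CompactSpace M] [ConnectedSpace M] {g : V4 ≃ₜ V4}
    {G : E4 ≃ₜ E4} {p : V4 → M} (hp : OrbitMap g p) (hG : Extends G g) {q : M → M} {c : ℕ}
    (hc : 0 < c) (hq : SmoothCover c q) :
    ∃ H : E4 ≃ₜ E4, PD 1 H ∧ H * G ^ (c * c) * H⁻¹ = G := by
  obtain ⟨Ψ, f1, -, f3⟩ := selfcover_data hp hq.cov hq.loc hc hq.sheets
  obtain ⟨H, f4, f5⟩ := pair_square specSign specSwapMul hG (a := c) (b := 1) f1 (by rwa [pow_one])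
  exact ⟨H, f4, by simpa using f5⟩

theorem selfcover_CJ [T2Space M] [CompactSpace M] [ConnectedSpace M] {g : V4 ≃ₜ V4}
    {G : E4 ≃ₜ E4} {p : V4 → M} (hp : OrbitMap g p) (hG : Extends G g) {q : M → M} {c : ℕ}
    (hc : 0 < c) (hq : SmoothCover c q) (k : ℕ) : CJ (G ^ ((c * c) ^ k)) G := by
  obtain ⟨H, h1, h2⟩ := selfcover_square hp hG hc hq
  have h3 : CJ (G ^ (c * c)) G := CJ_of_conj h1 h2
  induction k with
  | zero => rw [pow_zero, pow_one]; exact CJ.refl _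
  | succ k ih =>
    have h4 := ih.pow (c * c)
    rw [← pow_mul, ← pow_succ] at h4
    exact h4.trans h3

theorem PD_ne {G : E4 ≃ₜ E4} (h : PD 1 G) (h' : PD (-1) G) : False := by
  obtain ⟨x, hx⟩ := exists_ne (0 : E4)
  have h1 := (h.2 x hx).2
  have h2 := (h'.2 x hx).2
  linarith

theorem selfcover_odd [T2Space M] [CompactSpace M] [ConnectedSpace M] {g : V4 ≃ₜ V4}
    {G : E4 ≃ₜ E4} {p : V4 → M} (hp : OrbitMap g p) (hG : Extends G g) (hPD : PD (-1) G)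
    {q : M → M} {c : ℕ} (hc : 0 < c) (hq : SmoothCover c q) : Odd c := by
  rw [← Nat.not_even_iff_odd]
  intro hev
  obtain ⟨H, f1, f2⟩ := selfcover_square hp hG hc hq
  have f3 : PD 1 (G ^ (c * c)) := hPD.pow_even (hev.mul_right c)
  apply PD_ne _ hPD
  rw [← f2]
  exact (f1.mul_one' f3).mul_one' f1.inv

/-- the degrees of the self-coverings of an oriented orbit space -/
theorem selfcover_classes [T2Space M] [CompactSpace M] [ConnectedSpace M] {g : V4 ≃ₜ V4}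
    {G : E4 ≃ₜ E4} {p : V4 → M} (hp : OrbitMap g p) (hG : Extends G g) (hPD : PD 1 G)
    (hco : Contr G) {q : M → M} {c : ℕ} (hc : 0 < c) (hq : SmoothCover c q) :
    ((c ^ 2 - 1 : ℕ) : ℤ) ∈ extExp G ∧ (OrPres p p q → ((c - 1 : ℕ) : ℤ) ∈ extExp G) := by
  refine ⟨?_, fun ho => ?_⟩
  · obtain ⟨H, f1, f2⟩ := selfcover_square hp hG hc hq
    have f3 : H * G ^ (c * c) * H⁻¹ = G ^ 1 := by rw [f2, pow_one]
    have f4 := Ext.neg_zpow (ext_of_conj_nat hPD f1 f3)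
    have f5 : ((c * c : ℕ) : ℤ) - ((1 : ℕ) : ℤ) = ((c ^ 2 - 1 : ℕ) : ℤ) := by
      have : 1 ≤ c ^ 2 := Nat.one_le_pow _ _ hc
      push_cast [Nat.cast_sub this]
      ring
    rw [f5] at f4
    exact f4
  · obtain ⟨Ψ, f1, f2, f3⟩ := selfcover_data hp hq.cov hq.loc hc hq.sheets
    obtain ⟨x⟩ : Nonempty V4 := inferInstance
    have hmd : ∀ z, MDifferentiableAt (𝓡 4) (𝓡 4) (fun y => q (p y)) z := fun z =>
      (((hp.loc z).comp (K := 𝓡 4) (hg := hq.loc (p z))).contMDiffAt).mdifferentiableAt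
        (by simp)
    have f4 : ∀ x : E4, x ≠ 0 → LD 1 (ext0 Ψ) x := by
      refine sign_of_pos specMfderiv specSign f1 (A := fun y => q (p y)) (B := p) (y := x)
        (hmd _) f2 ?_
      rw [mul_comm]
      exact ho (Ψ x) x (f2 x)
    have f5 : Ext (G * (G ^ c)⁻¹) := pair_oriented specLiftSwap specSwapContr (hG.pow c) hG
      (hPD.pow c) hPD (hco.pow hc) hco f1 f4 f3
    have f6 : G * (G ^ c)⁻¹ = G ^ ((1 : ℤ) - c) := by
      rw [zpow_sub, zpow_one, zpow_natCast]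
    rw [f6] at f5
    have f7 := Ext.neg_zpow f5
    have f8 : (c : ℤ) - 1 = ((c - 1 : ℕ) : ℤ) := by
      push_cast [Nat.cast_sub (show 1 ≤ c from hc)]
      ring
    rw [f8] at f7
    exact f7

/-- **Self-covering structures**, orientable case. -/
theorem selfcov_pos [T2Space M] [CompactSpace M] [ConnectedSpace M] {g : V4 ≃ₜ V4}
    {G : E4 ≃ₜ E4} {p : V4 → M} (hp : OrbitMap g p) (hG : Extends G g) (hPD : PD 1 G)
    (hco : Contr G) {q₀ : M → M} {a₀ : ℕ} (ha₀ : 2 ≤ a₀) (hq₀ : SmoothCover a₀ q₀) :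
    ∃ d m₀ : ℕ, 0 < d ∧
      (∀ (a : ℕ) (q : M → M), 0 < a → SmoothCover a q →
        d ∣ a ^ 2 - 1 ∧ (OrPres p p q → d ∣ a - 1)) ∧
      (∀ m : ℕ, m₀ ≤ m → (d ∣ m - 1 → CJ (G ^ m) G) ∧ (d ∣ m → Ext (G ^ m) ∧ Trap (G ^ m))) ∧
      (d = 1 → Std M) := by
  obtain ⟨d₀, hd₀⟩ := Int.subgroup_cyclic (extExp G)
  have hmem : ∀ k : ℤ, k ∈ extExp G ↔ ((d₀.natAbs : ℕ) : ℤ) ∣ k := by
    intro k
    rw [hd₀, ← AddSubgroup.zmultiples_eq_closure, Int.mem_zmultiples_iff, Int.natAbs_dvd]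
  have hdeg : ∀ (a : ℕ) (q : M → M), 0 < a → SmoothCover a q →
      d₀.natAbs ∣ a ^ 2 - 1 ∧ (OrPres p p q → d₀.natAbs ∣ a - 1) := by
    intro a q ha hq
    obtain ⟨h1, h2⟩ := selfcover_classes hp hG hPD hco ha hq
    rw [hmem] at h1
    refine ⟨by exact_mod_cast h1, fun ho => ?_⟩
    have h3 := h2 ho
    rw [hmem] at h3
    exact_mod_cast h3
  have hpos : 0 < d₀.natAbs := by
    rw [Nat.pos_iff_ne_zero]
    intro h0
    have h1 := (hdeg a₀ q₀ (by omega) hq₀).1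
    rw [h0, zero_dvd_iff] at h1
    have h3 : 4 ≤ a₀ ^ 2 := by nlinarith
    omega
  obtain ⟨m₀, hm₀⟩ := hco.trap
  refine ⟨d₀.natAbs, max m₀ 1, hpos, hdeg, fun m hm => ⟨fun hd => ?_, fun hd => ⟨?_, ?_⟩⟩,
    fun hd1 => ?_⟩
  · have hm1 : m₀ ≤ m := (le_max_left _ _).trans hm
    have hm2 : 1 ≤ m := (le_max_right _ _).trans hm
    -- a large power of the degree
    set b := a₀ * a₀ with hb
    have hb2 : 2 ≤ b := by nlinarith
    have hbk : m₀ ≤ b ^ m₀ := (Nat.lt_pow_self (by omega)).le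
    have hbpos : 0 < b ^ m₀ := by positivity
    have e1 : CJ (G ^ (b ^ m₀)) G := selfcover_CJ hp hG (by omega) hq₀ m₀
    have e2 : (d₀.natAbs : ℤ) ∣ (b : ℤ) - 1 := by
      have := (hdeg a₀ q₀ (by omega) hq₀).1
      have h3 : ((a₀ ^ 2 - 1 : ℕ) : ℤ) = (b : ℤ) - 1 := by
        have : 1 ≤ a₀ ^ 2 := Nat.one_le_pow _ _ (by omega)
        push_cast [Nat.cast_sub this, hb]
        ring
      rw [← h3]
      exact_mod_cast this
    have e3 : (d₀.natAbs : ℤ) ∣ ((b ^ m₀ : ℕ) : ℤ) - 1 := by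
      rw [Nat.cast_pow]
      exact e2.trans (sub_one_dvd_pow_sub_one _ _)
    have e4 : (d₀.natAbs : ℤ) ∣ ((b ^ m₀ : ℕ) : ℤ) - m := by
      have h3 : ((m - 1 : ℕ) : ℤ) = (m : ℤ) - 1 := by push_cast [Nat.cast_sub hm2]; ring
      have h4 : (d₀.natAbs : ℤ) ∣ (m : ℤ) - 1 := by rw [← h3]; exact_mod_cast hd
      have h5 := e3.sub h4
      rwa [sub_sub_sub_cancel_right] at h5
    have e5 : Ext (G ^ (b ^ m₀) * (G ^ m)⁻¹) := by
      rw [Ext_zpow_sub]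
      exact (hmem _).2 e4
    exact (CJ_core (one_mul 1) (hPD.pow m) (hPD.pow _) (hm₀ m hm1) (hm₀ _ hbk)
      (hco.pow (by omega)) (hco.pow hbpos) e5).trans e1
  · have h1 : ((m : ℕ) : ℤ) ∈ extExp G := by
      rw [hmem]
      exact_mod_cast hd
    rw [mem_extExp, zpow_natCast] at h1
    exact h1
  · exact hm₀ m ((le_max_left _ _).trans hm)
  · have hE : Ext G := by
      have c3 : (1 : ℤ) ∈ extExp G := by
        rw [hmem, hd1]
        simp
      rw [mem_extExp, zpow_one] at c3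
      exact c3
    obtain ⟨H, f1, f2⟩ := selfcover_square hp hG (by omega) hq₀
    obtain ⟨Φ, t, ht, f3, f4⟩ := core_self hdim4 (one_mul 1) hPD hco f1
      (show 2 ≤ a₀ * a₀ by nlinarith) f2 hE
    exact std_of_conj hp hG ht f3 f4

/-- **Self-covering structures**, non-orientable case. -/
theorem selfcov_neg [T2Space M] [CompactSpace M] [ConnectedSpace M] {g : V4 ≃ₜ V4}
    {G : E4 ≃ₜ E4} {p : V4 → M} (hp : OrbitMap g p) (hG : Extends G g) (hPD : PD (-1) G)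
    (hco : Contr G) {q₀ : M → M} {a₀ : ℕ} (ha₀ : 2 ≤ a₀) (hq₀ : SmoothCover a₀ q₀) :
    ∃ d m₀ : ℕ, 0 < d ∧
      (∀ (a : ℕ) (q : M → M), 0 < a → SmoothCover a q → d ∣ a - 1) ∧
      (∀ m : ℕ, m₀ ≤ m → (d ∣ m - 1 → Odd m → CJ (G ^ m) G) ∧
        (2 * d ∣ m → Ext (G ^ m) ∧ Trap (G ^ m))) ∧
      (d = 1 → CJ TT G) := by
  set x : AB := chi G hPD with hx
  have hdeg : ∀ (a : ℕ) (q : M → M), 0 < a → SmoothCover a q → orderOf x ∣ a - 1 := by
    intro a q ha hq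
    have hodd := selfcover_odd hp hG hPD ha hq
    obtain ⟨Ψ, f1, -, f3⟩ := selfcover_data hp hq.cov hq.loc ha hq.sheets
    have f4 := chi_pair (hG.pow a) hG (hPD.pow_odd hodd) hPD (hco.pow ha) hco f1 f3
    rw [chi_pow hPD hodd, ← hx] at f4
    rw [orderOf_dvd_iff_pow_eq_one]
    obtain ⟨k, rfl⟩ : ∃ k, a = k + 1 := ⟨a - 1, by omega⟩
    rw [pow_succ] at f4
    rw [Nat.add_sub_cancel]
    exact (mul_eq_right.1 f4.symm)
  have hpos : 0 < orderOf x := by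
    rw [Nat.pos_iff_ne_zero]
    intro h0
    have h1 := hdeg a₀ q₀ (by omega) hq₀
    rw [h0, zero_dvd_iff] at h1
    omega
  set d := orderOf x with hd
  obtain ⟨m₁, hm₁⟩ := hco.trap
  have hlcm : Even (Nat.lcm 2 d) := even_iff_two_dvd.2 (Nat.dvd_lcm_left 2 d)
  have hxl : x ^ Nat.lcm 2 d = 1 := orderOf_dvd_iff_pow_eq_one.1 (Nat.dvd_lcm_right 2 d)
  obtain ⟨m₂, hm₂⟩ := chain_neg hPD hco hlcm hxl
  -- powers of the degree
  have hodd₀ := selfcover_odd hp hG hPD (by omega) hq₀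
  set b := a₀ * a₀ with hb
  have hb2 : 2 ≤ b := by nlinarith
  have hbodd : Odd b := hodd₀.mul hodd₀
  have e2 : (d : ℤ) ∣ (b : ℤ) - 1 := by
    have h3 : (b : ℤ) - 1 = ((a₀ - 1 : ℕ) : ℤ) * (a₀ + 1) := by
      push_cast [Nat.cast_sub (show 1 ≤ a₀ by omega), hb]
      ring
    rw [h3]
    have h4 : (d : ℤ) ∣ ((a₀ - 1 : ℕ) : ℤ) := by exact_mod_cast hdeg a₀ q₀ (by omega) hq₀
    exact h4.mul_right _
  have e3 : ∀ k : ℕ, (d : ℤ) ∣ ((b ^ k : ℕ) : ℤ) - 1 := by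
    intro k
    push_cast
    exact e2.trans (sub_one_dvd_pow_sub_one _ _)
  refine ⟨d, max (max m₁ m₂) 1, hpos, hdeg, fun m hm => ⟨fun hdm hmodd => ?_, fun hdm => ⟨?_, ?_⟩⟩,
    fun hd1 => ?_⟩
  · have hma : m₂ ≤ m := (le_max_right _ _).trans ((le_max_left _ _).trans hm)
    have hmb : 1 ≤ m := (le_max_right _ _).trans hm
    have hbk : m₂ ≤ b ^ m₂ := (Nat.lt_pow_self (by omega)).le
    have e1 : CJ (G ^ (b ^ m₂)) G := selfcover_CJ hp hG (by omega) hq₀ m₂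
    refine (chain_of_step hlcm hm₂ hma hbk hmodd (hbodd.pow) ?_).trans e1
    have h3 : ((m - 1 : ℕ) : ℤ) = (m : ℤ) - 1 := by push_cast [Nat.cast_sub hmb]; ring
    have h4 : (d : ℤ) ∣ (m : ℤ) - 1 := by rw [← h3]; exact_mod_cast hdm
    have h5 : (d : ℤ) ∣ ((b ^ m₂ : ℕ) : ℤ) - m := by
      have := (e3 m₂).sub h4
      rwa [sub_sub_sub_cancel_right] at this
    have h6 : (2 : ℤ) ∣ ((b ^ m₂ : ℕ) : ℤ) - m := by
      obtain ⟨s, hs⟩ := hbodd.pow (n := m₂)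
      obtain ⟨t, ht⟩ := hmodd
      exact ⟨(s : ℤ) - t, by rw [hs, ht]; push_cast; ring⟩
    have h7 := Int.natAbs_dvd_natAbs.2 h5
    have h8 := Int.natAbs_dvd_natAbs.2 h6
    rw [Int.natAbs_natCast] at h7
    exact Int.natCast_dvd.2 (Nat.lcm_dvd h8 h7)
  · exact Ext_of_chi_pow hPD (orderOf_dvd_iff_pow_eq_one.1 dvd_rfl) hdm
  · exact hm₁ m ((le_max_left _ _).trans ((le_max_left _ _).trans hm))
  · have hx1 : x = 1 := by
      have := pow_orderOf_eq_one x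
      rwa [← hd, hd1, pow_one] at this
    obtain ⟨m₃, hm₃⟩ := std_neg hPD hco hx1
    have hbk : m₃ ≤ b ^ m₃ := (Nat.lt_pow_self (by omega)).le
    exact (hm₃ _ hbk hbodd.pow).trans (selfcover_CJ hp hG (by omega) hq₀ m₃)

end

end Pool.Agent.HopfCov
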